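import Pool.Agent.H50F.Stm2

/-!
# Project H50F, phase 2: algebraic elements and a transcendental one (`S_ASP`)
-/

set_option autoImplicit false

namespace Pool.Agent.H50F

open MvPolynomial

theorem t_ASP : S_ASP := by
  intro E F Ω _ _ _ _ _ _ τ hτ ι _ ρ hρ
  let K₁ : IntermediateField E Ω := IntermediateField.adjoin E (Set.range ρ)
  have halg : Algebra.IsAlgebraic E K₁ := by
    apply IntermediateField.isAlgebraic_adjoin
    rintro x ⟨i, rfl⟩
    exact (hρ i).isIntegral
  let σ : K₁ →ₐ[E] F := IsAlgClosed.lift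
  let ρ' : ι → K₁ := fun i => ⟨ρ i, IntermediateField.subset_adjoin _ _ ⟨i, rfl⟩⟩
  refine ⟨fun i => σ (ρ' i), fun a P hP => ?_⟩
  let q : Polynomial K₁ := aeval (Sum.elim (fun _ => Polynomial.X) fun i => Polynomial.C (ρ' i)) P
  have hq : Polynomial.aeval τ q = 0 := by
    have h1 : Polynomial.aeval τ q = aeval (Sum.elim (fun _ => τ) ρ) P := by
      have h2 : ((Polynomial.aeval τ : Polynomial K₁ →ₐ[K₁] Ω).restrictScalars E).comp
          (aeval (Sum.elim (fun _ => Polynomial.X) fun i => Polynomial.C (ρ' i)) :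
            MvPolynomial (Unit ⊕ ι) E →ₐ[E] Polynomial K₁) =
          aeval (Sum.elim (fun _ => τ) ρ) := by
        apply MvPolynomial.algHom_ext
        rintro (i | i)
        · simp
        · simp [ρ']
      exact DFunLike.congr_fun h2 P
    rw [h1, hP]
  have hq0 : q = 0 := by
    by_contra hne
    have h1 : IsAlgebraic K₁ τ := ⟨q, hne, hq⟩
    exact hτ (h1.restrictScalars E)
  have h3 : (Polynomial.aeval a : Polynomial F →ₐ[F] F) (q.map σ.toRingHom) =
      aeval (Sum.elim (fun _ => a) fun i => σ (ρ' i)) P := by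
    have h2 : (((Polynomial.aeval a : Polynomial F →ₐ[F] F).restrictScalars E).comp
        (Polynomial.mapAlgHom σ)).comp
        (aeval (Sum.elim (fun _ => Polynomial.X) fun i => Polynomial.C (ρ' i)) :
          MvPolynomial (Unit ⊕ ι) E →ₐ[E] Polynomial K₁) =
        aeval (Sum.elim (fun _ => a) fun i => σ (ρ' i)) := by
      apply MvPolynomial.algHom_ext
      rintro (i | i)
      · simp
      · simp
    exact DFunLike.congr_fun h2 P
  rw [← h3, hq0, Polynomial.map_zero, map_zero]

end Pool.Agent.H50F
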