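import Pool.Agent.H50F.Stm

/-!
# Project H50F: the fibres of the module of sections
-/

set_option autoImplicit false

namespace Pool.Agent.H50F

open MvPolynomial

section reg

variable {C L : Type} [Field C] [Field L] [Algebra C L] {x : L}

theorem reg_alg (l : C) : Reg C x (algebraMap C L l) := by
  have h : algebraMap C L l =
      algebraMap (Algebra.adjoin C {x}) L (algebraMap C (Algebra.adjoin C {x}) l) := rfl
  unfold Reg
  rw [h]
  exact isIntegral_algebraMap

theorem reg_x : Reg C x x := by
  have h : x = algebraMap (Algebra.adjoin C {x}) L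
      ⟨x, Algebra.subset_adjoin (Set.mem_singleton x)⟩ := rfl
  unfold Reg
  conv_rhs => rw [h]
  exact isIntegral_algebraMap

theorem reg_one : Reg C x (1 : L) := isIntegral_one

theorem reg_zero : Reg C x (0 : L) := isIntegral_zero

theorem Reg.add {r s : L} (hr : Reg C x r) (hs : Reg C x s) : Reg C x (r + s) :=
  IsIntegral.add hr hs

theorem Reg.mul {r s : L} (hr : Reg C x r) (hs : Reg C x s) : Reg C x (r * s) :=
  IsIntegral.mul hr hs

theorem Reg.sub {r s : L} (hr : Reg C x r) (hs : Reg C x s) : Reg C x (r - s) :=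
  IsIntegral.sub hr hs

theorem Reg.neg {r : L} (hr : Reg C x r) : Reg C x (-r) := IsIntegral.neg hr

theorem Reg.pow {r : L} (hr : Reg C x r) (n : ℕ) : Reg C x (r ^ n) := IsIntegral.pow hr n

theorem reg_aeval (q : Polynomial C) : Reg C x (Polynomial.aeval x q) := by
  have h : Polynomial.aeval x q ∈ Algebra.adjoin C {x} := Polynomial.aeval_mem_adjoin_singleton C x
  have h2 : Polynomial.aeval x q = algebraMap (Algebra.adjoin C {x}) L ⟨_, h⟩ := rfl
  unfold Reg
  rw [h2]
  exact isIntegral_algebraMap

/-- The module of the sections outside the poles of `x`. -/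
def Mo (C : Type) {L : Type} [Field C] [Field L] [Algebra C L] (x : L) {n : ℕ}
    (f : Fin (n + 1) → L) : Submodule C L where
  carrier := {h | ∃ r : Fin (n + 1) → L, (∀ i, Reg C x (r i)) ∧ h = ∑ i, r i * f i}
  add_mem' := by
    rintro h h' ⟨r, hr, rfl⟩ ⟨r', hr', rfl⟩
    refine ⟨fun i => r i + r' i, fun i => (hr i).add (hr' i), ?_⟩
    rw [← Finset.sum_add_distrib]
    exact Finset.sum_congr rfl fun i _ => (add_mul _ _ _).symm
  zero_mem' := ⟨fun _ => 0, fun _ => reg_zero, by simp⟩
  smul_mem' := by
    rintro l h ⟨r, hr, rfl⟩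
    refine ⟨fun i => algebraMap C L l * r i, fun i => (reg_alg l).mul (hr i), ?_⟩
    rw [Algebra.smul_def, Finset.mul_sum]
    exact Finset.sum_congr rfl fun i _ => (mul_assoc _ _ _).symm

variable {n : ℕ} {f : Fin (n + 1) → L}

theorem mem_Mo {h : L} : h ∈ Mo C x f ↔
    ∃ r : Fin (n + 1) → L, (∀ i, Reg C x (r i)) ∧ h = ∑ i, r i * f i := Iff.rfl

theorem f_mem_Mo (i : Fin (n + 1)) : f i ∈ Mo C x f := by
  classical
  refine ⟨fun j => if j = i then 1 else 0, fun j => ?_, by simp⟩
  by_cases h : j = i
  · simp only [if_pos h]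
    exact reg_one
  · simp only [if_neg h]
    exact reg_zero

theorem reg_mul_mem {r h : L} (hr : Reg C x r) (hh : h ∈ Mo C x f) : r * h ∈ Mo C x f := by
  obtain ⟨s, hs, rfl⟩ := hh
  refine ⟨fun i => r * s i, fun i => hr.mul (hs i), ?_⟩
  rw [Finset.mul_sum]
  exact Finset.sum_congr rfl fun i _ => (mul_assoc _ _ _).symm

end reg

/-- The closed immersion property at the points over `x = c`. -/
def Emb (C : Type) {L : Type} [Field C] [Field L] [Algebra C L] (x t : L) (c : C) : Prop :=
  ∀ s₀ w₀ : C, (s₀ ≠ 0 ∨ w₀ ≠ 0) → ∀ r, Reg C x r → ∃ (l : C) (u v : L),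
    Reg C x u ∧ Reg C x v ∧ Reg C x (t * v) ∧
      r = algebraMap C L l + (x - algebraMap C L c) * u +
        (algebraMap C L s₀ * t - algebraMap C L w₀) * v

section pw

variable {C L : Type} [Field C] [Field L] [Algebra C L] {x : L} {n : ℕ} {f : Fin (n + 1) → L}

/-- `v` consists of homogeneous coordinates of the image of the point `χ`. -/
def Pt (C : Type) {L : Type} [Field C] [Field L] [Algebra C L] (x : L) {n : ℕ}
    (f : Fin (n + 1) → L) (χ : (integralClosure (Algebra.adjoin C {x}) L) →+* C)
    (v : Fin (n + 1) → C) : Prop :=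
  ∀ (G H : integralClosure (Algebra.adjoin C {x}) L) (i j : Fin (n + 1)),
    (G : L) * f j = H * f i → χ G * v j = χ H * v i

/-- a functional on the fibre is the evaluation at a point -/
theorem pw {t : L} {c : C} (hE : Emb C x t c) (y : L →ₗ[C] C) (hy : ∃ h ∈ Mo C x f, y h ≠ 0)
    (h1 : ∀ h ∈ Mo C x f, y ((x - algebraMap C L c) * h) = 0) {s₀ w₀ : C}
    (hsw : s₀ ≠ 0 ∨ w₀ ≠ 0)
    (h2 : ∀ h ∈ Mo C x f, t * h ∈ Mo C x f →
      y ((algebraMap C L s₀ * t - algebraMap C L w₀) * h) = 0) :
    (∃ χ : (integralClosure (Algebra.adjoin C {x}) L) →+* C,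
      (∀ (l : C) (r : integralClosure (Algebra.adjoin C {x}) L), (r : L) = algebraMap C L l →
        χ r = l) ∧
      (∀ r : integralClosure (Algebra.adjoin C {x}) L, (r : L) = x → χ r = c) ∧
      Pt C x f χ fun i => y (f i)) ∧ (fun i => y (f i)) ≠ 0 := by
  classical
  have key : ∀ r, Reg C x r → ∃ l : C, ∀ h ∈ Mo C x f, y (r * h) = l * y h := by
    intro r hr
    obtain ⟨l, u, v, hu, hv, htv, hruv⟩ := hE s₀ w₀ hsw r hr
    refine ⟨l, fun h hh => ?_⟩
    have e : r * h = algebraMap C L l * h + (x - algebraMap C L c) * (u * h) +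
        (algebraMap C L s₀ * t - algebraMap C L w₀) * (v * h) := by
      rw [hruv]
      ring
    rw [e, map_add, map_add, h1 _ (reg_mul_mem hu hh), h2 _ (reg_mul_mem hv hh) (by
      rw [← mul_assoc]
      exact reg_mul_mem htv hh), add_zero, add_zero, ← Algebra.smul_def, map_smul, smul_eq_mul]
  obtain ⟨h₀, hh₀, hy₀⟩ := hy
  have key2 : ∀ r : integralClosure (Algebra.adjoin C {x}) L, ∀ h ∈ Mo C x f,
      y ((r : L) * h) = y ((r : L) * h₀) / y h₀ * y h := by
    intro r h hh
    obtain ⟨l, hl⟩ := key r r.2
    rw [hl h hh, hl h₀ hh₀, mul_div_cancel_right₀ _ hy₀]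
  let χ : (integralClosure (Algebra.adjoin C {x}) L) →+* C :=
    { toFun := fun r => y ((r : L) * h₀) / y h₀
      map_one' := by
        change y (((1 : integralClosure (Algebra.adjoin C {x}) L) : L) * h₀) / y h₀ = 1
        rw [OneMemClass.coe_one, one_mul, div_self hy₀]
      map_mul' := by
        intro r s
        change y (((r * s : integralClosure (Algebra.adjoin C {x}) L) : L) * h₀) / y h₀ =
          y ((r : L) * h₀) / y h₀ * (y ((s : L) * h₀) / y h₀)
        rw [MulMemClass.coe_mul, mul_assoc, key2 r _ (reg_mul_mem s.2 hh₀)]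
        ring
      map_zero' := by
        change y (((0 : integralClosure (Algebra.adjoin C {x}) L) : L) * h₀) / y h₀ = 0
        rw [ZeroMemClass.coe_zero, zero_mul, map_zero, zero_div]
      map_add' := by
        intro r s
        change y (((r + s : integralClosure (Algebra.adjoin C {x}) L) : L) * h₀) / y h₀ =
          y ((r : L) * h₀) / y h₀ + y ((s : L) * h₀) / y h₀
        rw [AddMemClass.coe_add, add_mul, map_add, add_div] }
  have hχ : ∀ (r : integralClosure (Algebra.adjoin C {x}) L), ∀ h ∈ Mo C x f,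
      y ((r : L) * h) = χ r * y h := key2
  refine ⟨⟨χ, ?_, ?_, ?_⟩, ?_⟩
  · intro l r hr
    change y ((r : L) * h₀) / y h₀ = l
    rw [hr, ← Algebra.smul_def, map_smul, smul_eq_mul, mul_div_cancel_right₀ _ hy₀]
  · intro r hr
    change y ((r : L) * h₀) / y h₀ = c
    have h3 := h1 h₀ hh₀
    rw [sub_mul, map_sub, ← Algebra.smul_def, map_smul, smul_eq_mul, sub_eq_zero] at h3
    rw [hr, h3, mul_div_cancel_right₀ _ hy₀]
  · intro G H i j hGH
    rw [← hχ G _ (f_mem_Mo j), ← hχ H _ (f_mem_Mo i), hGH]
  · intro h0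
    obtain ⟨r, hr, hrh⟩ := hh₀
    apply hy₀
    rw [hrh, map_sum]
    refine Finset.sum_eq_zero fun i _ => ?_
    have := hχ ⟨r i, hr i⟩ _ (f_mem_Mo i)
    have h4 : y (f i) = 0 := congrFun h0 i
    rw [h4, mul_zero] at this
    exact this

theorem exists_ref [CharZero C] (hD : S_DED) (hx : Transcendental C x)
    (hfd : FiniteDimensional (IntermediateField.adjoin C {x}) L)
    (χ : (integralClosure (Algebra.adjoin C {x}) L) →+* C)
    (hχ : ∀ (l : C) (r : integralClosure (Algebra.adjoin C {x}) L), (r : L) = algebraMap C L l →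
        χ r = l) :
    ∀ m : ℕ, ∀ f : Fin (m + 1) → L, ∃ (i : Fin (m + 1))
      (G : integralClosure (Algebra.adjoin C {x}) L)
      (H : Fin (m + 1) → integralClosure (Algebra.adjoin C {x}) L), χ G ≠ 0 ∧
        ∀ j, (G : L) * f j = H j * f i := by
  intro m
  induction m with
  | zero =>
    intro f
    refine ⟨0, 1, fun _ => 1, by rw [map_one]; exact one_ne_zero, fun j => ?_⟩
    obtain rfl : j = 0 := Fin.ext (by omega)
    rfl
  | succ m ih =>
    intro f
    obtain ⟨i, G, H, hG, hGH⟩ := ih fun j => f j.castSucc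
    obtain ⟨G', H', hG', h | h⟩ := hD C L x hx hfd χ hχ (f (Fin.last (m + 1))) (f i.castSucc)
    · refine ⟨i.castSucc, G * G', Fin.lastCases (G * H') fun j => G' * H j, ?_, ?_⟩
      · rw [map_mul]
        exact mul_ne_zero hG hG'
      · intro j
        refine Fin.lastCases ?_ (fun j => ?_) j
        · dsimp only
          rw [Fin.lastCases_last, MulMemClass.coe_mul, MulMemClass.coe_mul, mul_assoc, h]
          ring
        · dsimp only
          rw [Fin.lastCases_castSucc, MulMemClass.coe_mul, MulMemClass.coe_mul]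
          have := hGH j
          linear_combination (G' : L) * this
    · refine ⟨Fin.last (m + 1), G * G', Fin.lastCases (G * G') fun j => H j * H', ?_, ?_⟩
      · rw [map_mul]
        exact mul_ne_zero hG hG'
      · intro j
        refine Fin.lastCases ?_ (fun j => ?_) j
        · dsimp only
          rw [Fin.lastCases_last]
        · dsimp only
          rw [Fin.lastCases_castSucc, MulMemClass.coe_mul, MulMemClass.coe_mul]
          have := hGH j
          linear_combination (G' : L) * this + (H j : L) * h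

/-- all forms which vanish at the generic point vanish at the images of the points -/
theorem ptv [CharZero C] (hD : S_DED) (hx : Transcendental C x)
    (hfd : FiniteDimensional (IntermediateField.adjoin C {x}) L)
    (χ : (integralClosure (Algebra.adjoin C {x}) L) →+* C)
    (hχ : ∀ (l : C) (r : integralClosure (Algebra.adjoin C {x}) L), (r : L) = algebraMap C L l →
        χ r = l) {v : Fin (n + 1) → C} (hv : v ≠ 0) (hP : Pt C x f χ v)
    {P : MvPolynomial (Fin (n + 1)) C} {k : ℕ} (hPk : P.IsHomogeneous k) (hPf : aeval f P = 0) :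
    eval v P = 0 := by
  obtain ⟨i, G, H, hG, hGH⟩ := exists_ref hD hx hfd χ hχ n f
  have hvj : ∀ j, v j = χ (H j) * (v i / χ G) := by
    intro j
    have := hP G (H j) i j (hGH j)
    field_simp
    linear_combination this
  have hfi : f i ≠ 0 := by
    intro h0
    apply hv
    funext j
    have hj : (G : L) * f j = 0 := by rw [hGH j, h0, mul_zero]
    have h1 : (1 : integralClosure (Algebra.adjoin C {x}) L) * f i =
        (0 : integralClosure (Algebra.adjoin C {x}) L) * f i := by
      rw [h0, mul_zero, mul_zero]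
    have h2 := hP 1 0 i i h1
    rw [map_one, map_zero, one_mul, zero_mul] at h2
    rw [hvj j, h2, zero_div, mul_zero]
    rfl
  have h1 : aeval (fun j => (H j : L)) P = 0 := by
    have e1 : (fun j => f i * (H j : L)) = fun j => (G : L) * f j := by
      funext j
      rw [hGH j, mul_comm]
    have e2 : aeval (fun j => f i * (H j : L)) P = f i ^ k * aeval (fun j => (H j : L)) P := by
      rw [aeval_def, aeval_def, eval₂_eq', eval₂_eq', Finset.mul_sum]
      refine Finset.sum_congr rfl fun α hα => ?_
      have h1 : ∑ i, α i = k := by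
        have := hPk (mem_support_iff.1 hα)
        rw [← this, Finsupp.weight_apply, Finsupp.sum_fintype _ _ (fun i => by simp)]
        simp
      have h2 : ∏ j, (f i * (H j : L)) ^ α j = f i ^ k * ∏ j, (H j : L) ^ α j := by
        simp only [mul_pow, Finset.prod_mul_distrib]
        rw [Finset.prod_pow_eq_pow_sum, h1]
      rw [h2]
      ring
    have e3 : aeval (fun j => (G : L) * f j) P = (G : L) ^ k * aeval f P := by
      rw [aeval_def, aeval_def, eval₂_eq', eval₂_eq', Finset.mul_sum]
      refine Finset.sum_congr rfl fun α hα => ?_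
      have h1 : ∑ i, α i = k := by
        have := hPk (mem_support_iff.1 hα)
        rw [← this, Finsupp.weight_apply, Finsupp.sum_fintype _ _ (fun i => by simp)]
        simp
      have h2 : ∏ j, ((G : L) * f j) ^ α j = (G : L) ^ k * ∏ j, f j ^ α j := by
        simp only [mul_pow, Finset.prod_mul_distrib]
        rw [Finset.prod_pow_eq_pow_sum, h1]
      rw [h2]
      ring
    rw [e1, e3, hPf, mul_zero] at e2
    exact (mul_eq_zero.1 e2.symm).resolve_left (pow_ne_zero _ hfi)
  have h2 : eval (fun j => χ (H j)) P = 0 := by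
    have e1 : aeval (fun j => (H j : L)) P =
        ((eval₂ (algebraMap C (integralClosure (Algebra.adjoin C {x}) L)) H P :
          integralClosure (Algebra.adjoin C {x}) L) : L) := by
      change _ = algebraMap (integralClosure (Algebra.adjoin C {x}) L) L _
      rw [hom_eval₂, aeval_def]
      rfl
    rw [e1] at h1
    have e2 : eval₂ (algebraMap C (integralClosure (Algebra.adjoin C {x}) L)) H P = 0 :=
      Subtype.ext h1
    have e3 := congrArg χ e2
    rw [map_zero, hom_eval₂] at e3
    have e4 : χ.comp (algebraMap C (integralClosure (Algebra.adjoin C {x}) L)) = RingHom.id C := by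
      ext l
      exact hχ l _ rfl
    rw [e4] at e3
    exact e3
  have h3 : v = fun j => (v i / χ G) * χ (H j) := by
    funext j
    rw [hvj j, mul_comm]
  rw [h3]
  have e5 : eval (fun j => (v i / χ G) * χ (H j)) P =
      (v i / χ G) ^ k * eval (fun j => χ (H j)) P := by
    rw [eval_eq', eval_eq', Finset.mul_sum]
    refine Finset.sum_congr rfl fun α hα => ?_
    have h1 : ∑ i, α i = k := by
      have := hPk (mem_support_iff.1 hα)
      rw [← this, Finsupp.weight_apply, Finsupp.sum_fintype _ _ (fun i => by simp)]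
      simp
    have h2 : ∏ j, ((v i / χ G) * χ (H j)) ^ α j = (v i / χ G) ^ k * ∏ j, χ (H j) ^ α j := by
      simp only [mul_pow, Finset.prod_mul_distrib]
      rw [Finset.prod_pow_eq_pow_sum, h1]
    rw [h2]
    ring
  rw [e5, h2, mul_zero]

end pw

end Pool.Agent.H50F
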