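import Pool.Agent.H50F.Stm
import Pool.Agent.W476.TP.Asm2
import Pool.Agent.W101.TP.App
import Pool.Agent.W349.TP.Sum
import Pool.Agent.W349.TP.Rad
import Pool.Agent.W351.TP.Est
import Pool.Agent.W177.TP.PT

/-!
# Project H50F: the approximation theorem for triangular weights (piece COREW)

Adaptation of `W515/TP/Mon.lean`, `W177/TP/PT.lean` and `W476/TP/Asm2.lean`.
-/

set_option autoImplicit false

namespace Pool.Agent.H50F

open MvPolynomial Pool.Agent.W476.TP

section mon

variable {r : ℕ} {m : Fin r → ℕ}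

/-- the weights of the coordinates `z` (`none`) and `y` -/
def woW (w : Sig m → Fin r → ℕ) (D : Fin r → ℕ) : Option (Sig m) → (Fin r → ℕ) :=
  fun i => i.elim D w

theorem weight_elimW (w : Sig m → Fin r → ℕ) (D : Fin r → ℕ) (l : ℕ) (α : Sig m →₀ ℕ) :
    Finsupp.weight (woW w D) (α.optionElim l) = l • D + Finsupp.weight w α := by
  rw [Finsupp.weight_apply, Finsupp.weight_apply,
    Finsupp.sum_fintype _ _ (fun i => by exact zero_smul ℕ _), Finsupp.sum_fintype _ _
    (fun i => by exact zero_smul ℕ _), Fintype.sum_option]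
  simp [woW]

theorem weight_zeroW {w : Sig m → Fin r → ℕ} (hw : ∀ i : Sig m, w i i.1 = 1) {α : Sig m →₀ ℕ}
    (h : Finsupp.weight w α = 0) : α = 0 := by
  rw [Finsupp.weight_apply, Finsupp.sum_fintype _ _ (fun i => by exact zero_smul ℕ _)] at h
  ext i
  have h1 := congrFun h i.1
  rw [Finset.sum_apply] at h1
  have h2 := (Finset.sum_eq_zero_iff_of_nonneg (fun _ _ => Nat.zero_le _)).1 h1 i
    (Finset.mem_univ i)
  rw [Pi.smul_apply, hw i, smul_eq_mul, mul_one] at h2
  exact h2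

theorem rename_some_homW {K : Type} [Field K] {w : Sig m → Fin r → ℕ}
    {F : MvPolynomial (Sig m) K} {D : Fin r → ℕ}
    (hF : IsWeightedHomogeneous w F D) :
    IsWeightedHomogeneous (woW w D) (rename some F) D := by
  classical
  rw [← hF.weightedHomogeneousComponent_same]
  rw [weightedHomogeneousComponent_apply, map_sum]
  refine IsWeightedHomogeneous.sum _ _ _ fun α hα => ?_
  rw [rename_monomial]
  refine isWeightedHomogeneous_monomial _ _ _ ?_
  have h1 : Finsupp.weight w α = D := (Finset.mem_filter.1 hα).2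
  conv_rhs => rw [← h1]
  rw [Finsupp.weight_apply, Finsupp.weight_apply, Finsupp.sum_mapDomain_index]
  · rfl
  · intro b; exact zero_smul _ _
  · intro b u v; exact add_smul _ _ _

/-- the equation `z = f(y)` is approximated by a monic equation -/
theorem monW (hApp : S_APP) (p : ℕ) [Fact p.Prime] (C L : Type) [NormedField C]
    [IsUltrametricDist C] [Field L]
    [CharP L p] [IsAlgClosed L] (S : Sharp p C L) (hp0 : 0 < ‖(p : C)‖) (hp1 : ‖(p : C)‖ < 1)
    (w : Sig m → Fin r → ℕ) (hw : ∀ i : Sig m, w i i.1 = 1)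
    (D : Fin r → ℕ) (hD : D ≠ 0) (f : MvPolynomial (Sig m) C)
    (hf : IsWeightedHomogeneous w f D) (hf1 : ∀ α, ‖f.coeff α‖ ≤ 1) (N : ℕ) (hN : 0 < N) :
    ∃ (t : ℕ) (G : Polynomial (MvPolynomial (Sig m) L)), MonicW w D G t ∧
      ∀ (y : Sig m → L) (z : L), (∀ i, ‖S.sh (y i)‖ ≤ 1) → ‖S.sh z‖ ≤ 1 → ev G y z = 0 →
        ‖S.sh z - eval (fun i => S.sh (y i)) f‖ ≤ ‖(p : C)‖ ^ N := by
  classical
  obtain ⟨κ, hκ⟩ : ∃ κ, D κ ≠ 0 := by
    by_contra hcon
    push Not at hcon
    exact hD (funext hcon)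
  set h : MvPolynomial (Option (Sig m)) C := X none - rename some f with hh
  have hhom : IsWeightedHomogeneous (woW w D) h D := by
    refine IsWeightedHomogeneous.sub ?_ (rename_some_homW hf)
    exact isWeightedHomogeneous_X C (woW w D) none
  have hcoef : ∀ α, ‖h.coeff α‖ ≤ 1 := by
    intro α
    rw [hh, coeff_sub, sub_eq_add_neg]
    refine (IsUltrametricDist.norm_add_le_max _ _).trans (max_le ?_ ?_)
    · rw [coeff_X']
      split
      · rw [norm_one]
      · rw [norm_zero]; exact zero_le_one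
    · rw [norm_neg]
      by_cases hα : ∃ β, Finsupp.mapDomain some β = α
      · obtain ⟨β, rfl⟩ := hα
        rw [coeff_rename_mapDomain _ (Option.some_injective _)]
        exact hf1 β
      · rw [coeff_rename_eq_zero _ _ _ (fun β hβ => absurd ⟨β, hβ⟩ hα), norm_zero]
        exact zero_le_one
  obtain ⟨s, G0, hG0, happ⟩ := hApp p C L S hp0 hp1 (Option (Sig m)) (Fin r → ℕ) (woW w D) D h
    hhom hcoef N
  set t := p ^ s with ht
  have ht0 : 0 < t := pow_pos (Fact.out : p.Prime).pos s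
  set G1 := optionEquivLeft L (Sig m) G0 with hG1
  have hev : ∀ (y : Sig m → L) (z : L), ev G1 y z = eval (fun i => Option.elim i z y) G0 := by
    intro y z
    rw [optionEquivLeft_elim_eval]
    rfl
  -- the value of `h`
  have hval : ∀ (y : Sig m → L) (z : L),
      eval (fun i : Option (Sig m) => S.sh (Option.elim i z y)) h =
        S.sh z - eval (fun i => S.sh (y i)) f := by
    intro y z
    rw [hh, map_sub, eval_X, eval_rename]
    rfl
  -- degrees
  have hdeg : ∀ (l : ℕ) (α : Sig m →₀ ℕ), coeff α (G1.coeff l) ≠ 0 →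
      l • D + Finsupp.weight w α = t • D := by
    intro l α hα
    rw [hG1, optionEquivLeft_coeff_coeff] at hα
    rw [← weight_elimW]
    exact hG0 hα
  have hle : ∀ (l : ℕ) (α : Sig m →₀ ℕ), coeff α (G1.coeff l) ≠ 0 → l ≤ t := by
    intro l α hα
    have h1 := congrFun (hdeg l α hα) κ
    rw [Pi.add_apply, Pi.smul_apply, Pi.smul_apply, smul_eq_mul, smul_eq_mul] at h1
    exact Nat.le_of_mul_le_mul_right (by omega) (Nat.pos_of_ne_zero hκ)
  have htop : ∀ α : Sig m →₀ ℕ, coeff α (G1.coeff t) ≠ 0 → α = 0 := by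
    intro α hα
    have h1 := hdeg t α hα
    exact weight_zeroW hw (add_eq_left.1 h1)
  have hconst : ∀ l : ℕ, coeff 0 (G1.coeff l) ≠ 0 → l = t := by
    intro l hl
    have h1 := congrFun (hdeg l 0 hl) κ
    rw [map_zero, add_zero, Pi.smul_apply, Pi.smul_apply, smul_eq_mul, smul_eq_mul] at h1
    exact Nat.eq_of_mul_eq_mul_right (Nat.pos_of_ne_zero hκ) h1
  set c := coeff 0 (G1.coeff t) with hc
  have hCc : G1.coeff t = MvPolynomial.C c := by
    ext α
    rw [coeff_C]
    split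
    · next h0 => rw [← h0]
    · next h0 =>
      by_contra hne
      exact h0 (htop α hne).symm
  have hnat : G1.natDegree ≤ t := by
    rw [Polynomial.natDegree_le_iff_coeff_eq_zero]
    intro l hl
    ext α
    rw [coeff_zero]
    by_contra hne
    exact absurd (hle l α hne) (not_le.2 hl)
  have hc0 : c ≠ 0 := by
    intro hc0
    have h1 : ev G1 0 1 = 0 := by
      unfold ev
      rw [Polynomial.eval_map, Polynomial.eval₂_eq_sum_range]
      refine Finset.sum_eq_zero fun l _ => ?_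
      rw [one_pow, mul_one]
      have h2 : (eval (0 : Sig m → L)) (G1.coeff l) = coeff 0 (G1.coeff l) := by
        rw [eval_zero, constantCoeff_eq]
      rw [h2]
      by_contra hne
      rw [hconst l hne] at hne
      exact hne hc0
    rw [hev] at h1
    have h3 := happ _ (by
      intro i
      cases i with
      | none =>
        show ‖S.sh 1‖ ≤ 1
        rw [map_one, norm_one]
      | some i =>
        show ‖S.sh 0‖ ≤ 1
        rw [map_zero, norm_zero]
        exact zero_le_one) h1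
    rw [hval] at h3
    have h4 : eval (fun i : Sig m => S.sh ((0 : Sig m → L) i)) f = 0 := by
      have h5 : (fun i : Sig m => S.sh ((0 : Sig m → L) i)) = 0 := by
        funext i
        rw [Pi.zero_apply, map_zero]
        rfl
      rw [h5, eval_zero, constantCoeff_eq]
      by_contra hne
      have h6 := hf hne
      rw [map_zero] at h6
      exact hD h6.symm
    rw [h4, map_one, sub_zero, norm_one] at h3
    exact absurd h3 (not_le.2 (pow_lt_one₀ hp0.le hp1 hN.ne'))
  -- the monic polynomial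
  set G : Polynomial (MvPolynomial (Sig m) L) := Polynomial.C (MvPolynomial.C c⁻¹) * G1 with hG
  have hGc : ∀ l, G.coeff l = MvPolynomial.C c⁻¹ * G1.coeff l := by
    intro l
    rw [hG, Polynomial.coeff_C_mul]
  have hGt : G.coeff t = 1 := by
    rw [hGc, hCc, ← map_mul, inv_mul_cancel₀ hc0, map_one]
  have hGn : G.natDegree ≤ t := (Polynomial.natDegree_C_mul_le _ _).trans hnat
  have hmonic : G.Monic := Polynomial.monic_of_natDegree_le_of_coeff_eq_one t hGn hGt
  have hGd : G.natDegree = t := by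
    refine le_antisymm hGn (Polynomial.le_natDegree_of_ne_zero ?_)
    rw [hGt]
    exact one_ne_zero
  refine ⟨t, G, ⟨ht0, hmonic, hGd, ?_⟩, ?_⟩
  · intro l hl
    intro α hα
    rw [hGc, coeff_C_mul] at hα
    have h1 := hdeg l α (right_ne_zero_of_mul hα)
    have h2 : l • D + Finsupp.weight w α = l • D + (t - l) • D := by
      rw [h1, ← add_smul, Nat.add_sub_cancel' hl]
    exact add_left_cancel h2
  · intro y z hy hz h0
    have h1 : ev G y z = c⁻¹ * ev G1 y z := by
      unfold ev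
      rw [hG, Polynomial.map_mul, Polynomial.eval_mul, Polynomial.map_C, Polynomial.eval_C,
        eval_C]
    rw [h1] at h0
    have h2 : ev G1 y z = 0 := by
      rcases mul_eq_zero.1 h0 with h | h
      · exact absurd h (inv_ne_zero hc0)
      · exact h
    rw [hev] at h2
    have h3 := happ _ (by
      intro i
      cases i with
      | none => exact hz
      | some i => exact hy i) h2
    rw [hval] at h3
    exact h3

end mon

section scale

variable {r : ℕ} {m : Fin r → ℕ} {K : Type} [Field K]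

/-- the transformation rule -/
theorem ev_act {w : Sig m → Fin r → ℕ} {D : Fin r → ℕ} {G : Polynomial (MvPolynomial (Sig m) K)}
    {t : ℕ} (hG : MonicW w D G t) (lam : Fin r → K) (y : Sig m → K) (z : K) :
    ev G (act w lam y) (sp lam D * z) = sp lam D ^ t * ev G y z := by
  unfold ev
  rw [Polynomial.eval_map, Polynomial.eval₂_eq_sum_range, Polynomial.eval_map,
    Polynomial.eval₂_eq_sum_range, Finset.mul_sum]
  refine Finset.sum_congr rfl fun l hl => ?_
  have hl' : l ≤ t := by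
    rw [Finset.mem_range, hG.2.2.1] at hl; omega
  have h1 := eval_scale w (hG.2.2.2 l hl') lam y
  have h2 : eval (act w lam y) (G.coeff l) = sp lam ((t - l) • D) * eval y (G.coeff l) := h1
  rw [h2, sp_nsmul, mul_pow]
  have h3 : sp lam D ^ t = sp lam D ^ (t - l) * sp lam D ^ l := by
    rw [← pow_add, Nat.sub_add_cancel hl']
  rw [h3]
  ring

theorem eval_act {w : Sig m → Fin r → ℕ} {F : MvPolynomial (Sig m) K} {d : Fin r → ℕ}
    (hF : IsWeightedHomogeneous w F d) (lam : Fin r → K)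
    (y : Sig m → K) : eval (act w lam y) F = sp lam d * eval y F :=
  eval_scale w hF lam y

theorem sp_mul (lam μ : Fin r → K) (d : Fin r → ℕ) :
    sp (fun κ => lam κ * μ κ) d = sp lam d * sp μ d := by
  unfold sp
  rw [← Finset.prod_mul_distrib]
  exact Finset.prod_congr rfl fun κ _ => mul_pow _ _ _

theorem sp_update (κ : Fin r) (μ : K) (d : Fin r → ℕ) :
    sp (Function.update (1 : Fin r → K) κ μ) d = μ ^ d κ := by
  unfold sp
  rw [Finset.prod_eq_single κ]
  · rw [Function.update_self]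
  · intro b _ hb
    rw [Function.update_of_ne hb, Pi.one_apply, one_pow]
  · intro h
    exact absurd (Finset.mem_univ κ) h

theorem act_mul (w : Sig m → Fin r → ℕ) (lam μ : Fin r → K) (y : Sig m → K) :
    act w (fun κ => lam κ * μ κ) y = act w lam (act w μ y) := by
  funext i
  unfold act
  rw [sp_mul, mul_assoc]

end scale

/-- normalisation of the solutions: the sup norms of all groups become one -/
theorem exists_nrm {p : ℕ} {C L : Type} [NormedField C] [Field L] (S : Sharp p C L)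
    {r : ℕ} {m : Fin r → ℕ} {w : Sig m → Fin r → ℕ} (hw : Tri w) {y : Sig m → L} (hy : Rel y) :
    ∃ lam : Fin r → L, (∀ κ, lam κ ≠ 0) ∧ Nrm (fun i => S.sh (act w lam y i)) := by
  have key : ∀ k : ℕ, k ≤ r → ∃ lam : Fin r → L, (∀ κ, lam κ ≠ 0) ∧ ∀ κ : Fin r, κ.val < k →
      (∀ j, ‖S.sh (act w lam y ⟨κ, j⟩)‖ ≤ 1) ∧ ∃ j, ‖S.sh (act w lam y ⟨κ, j⟩)‖ = 1 := by
    intro k
    induction k with
    | zero =>
      intro _
      exact ⟨1, fun κ => one_ne_zero, fun κ hκ => absurd hκ (Nat.not_lt_zero _)⟩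
    | succ k ih =>
      intro hk
      obtain ⟨lam, hl, h1⟩ := ih (by omega)
      obtain ⟨κ₀, hκ₀⟩ : ∃ κ₀ : Fin r, κ₀.val = k := ⟨⟨k, hk⟩, rfl⟩
      obtain ⟨i, hi⟩ : ∃ i : Fin (m κ₀ + 1), ∀ j, ‖S.sh (act w lam y ⟨κ₀, j⟩)‖ ≤
          ‖S.sh (act w lam y ⟨κ₀, i⟩)‖ := Finite.exists_max _
      have hne : act w lam y ⟨κ₀, i⟩ ≠ 0 := by
        intro h0
        obtain ⟨j, hj⟩ := hy κ₀
        have h2 := hi j
        rw [h0, map_zero, norm_zero] at h2
        have h3 : S.sh (act w lam y ⟨κ₀, j⟩) = 0 := norm_le_zero_iff.1 h2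
        have h4 : act w lam y ⟨κ₀, j⟩ = 0 := (map_eq_zero S.sh).1 h3
        unfold act at h4
        exact (mul_ne_zero (sp_ne_zero hl _) hj) h4
      have hpos : 0 < ‖S.sh (act w lam y ⟨κ₀, i⟩)‖ := by
        rw [norm_pos_iff]
        exact fun h => hne ((map_eq_zero S.sh).1 h)
      obtain ⟨μ, hμ⟩ : ∃ μ : L, μ = (act w lam y ⟨κ₀, i⟩)⁻¹ := ⟨_, rfl⟩
      have hμ0 : μ ≠ 0 := by rw [hμ]; exact inv_ne_zero hne
      obtain ⟨U, hU⟩ : ∃ U : Fin r → L, U = Function.update (1 : Fin r → L) κ₀ μ := ⟨_, rfl⟩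
      have hU0 : ∀ κ, U κ ≠ 0 := by
        intro κ
        rw [hU, Function.update_apply]
        split_ifs
        · exact hμ0
        · exact one_ne_zero
      refine ⟨fun κ => U κ * lam κ, fun κ => mul_ne_zero (hU0 κ) (hl κ), ?_⟩
      have hact : ∀ i, act w (fun κ => U κ * lam κ) y i = μ ^ (w i κ₀) * act w lam y i := by
        intro i
        rw [act_mul]
        change sp U (w i) * act w lam y i = _
        rw [hU, sp_update]
      intro κ hκ
      rcases Nat.lt_succ_iff_lt_or_eq.1 hκ with h2 | h2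
      · have h3 : ∀ j, act w (fun κ => U κ * lam κ) y ⟨κ, j⟩ = act w lam y ⟨κ, j⟩ := by
          intro j
          rw [hact, (hw ⟨κ, j⟩).2 κ₀ (by rw [Fin.lt_def]; simp only; omega), pow_zero, one_mul]
        refine ⟨fun j => ?_, ?_⟩
        · rw [h3]; exact (h1 κ h2).1 j
        · obtain ⟨j, hj⟩ := (h1 κ h2).2
          exact ⟨j, by rw [h3]; exact hj⟩
      · have h4 : κ = κ₀ := Fin.ext (by omega)
        subst h4
        have h3 : ∀ j, act w (fun κ' => U κ' * lam κ') y ⟨κ, j⟩ =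
            (act w lam y ⟨κ, i⟩)⁻¹ * act w lam y ⟨κ, j⟩ := by
          intro j
          rw [hact, (hw ⟨κ, j⟩).1, pow_one, hμ]
        refine ⟨fun j => ?_, ⟨i, ?_⟩⟩
        · rw [h3, map_mul, map_inv₀, norm_mul, norm_inv, inv_mul_le_iff₀ hpos, mul_one]
          exact hi j
        · rw [h3, inv_mul_cancel₀ hne, map_one, norm_one]
  obtain ⟨lam, hl, h1⟩ := key r le_rfl
  exact ⟨lam, hl, fun i => (h1 i.1 i.1.isLt).1 i.2, fun κ => (h1 κ κ.isLt).2⟩

/-- solutions of the approximating system, normalised, give approximate solutions -/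
theorem ptW {p : ℕ} {C L : Type} [NormedField C] [IsUltrametricDist C] [Field L]
    [IsAlgClosed L] (S : Sharp p C L) (hp1 : ‖(p : C)‖ < 1)
    {r n : ℕ} {m : Fin r → ℕ} {w : Sig m → Fin r → ℕ} (hw : Tri w)
    (D : Fin r → ℕ) (hD : D ≠ 0) (N : ℕ) (hN : 0 < N)
    (f : Fin (n + 1) → MvPolynomial (Sig m) C)
    (hf : ∀ i, IsWeightedHomogeneous w (f i) D) (hfc : ∀ i α, ‖(f i).coeff α‖ ≤ 1)
    (G : Fin (n + 1) → Polynomial (MvPolynomial (Sig m) L)) (t : Fin (n + 1) → ℕ)
    (hG : ∀ i, MonicW w D (G i) (t i))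
    (hGf : ∀ i (y : Sig m → L) (z : L), (∀ i, ‖S.sh (y i)‖ ≤ 1) → ‖S.sh z‖ ≤ 1 →
        ev (G i) y z = 0 → ‖S.sh z - eval (fun i => S.sh (y i)) (f i)‖ ≤ ‖(p : C)‖ ^ N)
    (y : Sig m → L) (z : Fin (n + 1) → L) (hy : Rel y)
    (hyG : ∀ i, ev (G i) y (z i) = 0) :
    ∃ lam : Fin r → L, (∀ κ, lam κ ≠ 0) ∧ Nrm (fun i => S.sh (act w lam y i)) ∧
      (∀ i, ‖S.sh (sp lam D * z i)‖ ≤ 1) ∧
      ∀ i, ‖S.sh (sp lam D * z i) - eval (fun i => S.sh (act w lam y i)) (f i)‖ ≤
        ‖(p : C)‖ ^ N := by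
  have hPN : ‖(p : C)‖ ^ N < 1 := pow_lt_one₀ (norm_nonneg _) hp1 hN.ne'
  obtain ⟨lam, hlam0, hnrm⟩ := exists_nrm S hw hy
  have hy'1 : ∀ i, ‖S.sh (act w lam y i)‖ ≤ 1 := hnrm.1
  have hG' : ∀ i, ev (G i) (act w lam y) (sp lam D * z i) = 0 := by
    intro i
    rw [ev_act (hG i), hyG i, mul_zero]
  -- the claim
  have hclaim : ∀ i, ‖S.sh (sp lam D * z i)‖ ≤ 1 := by
    intro i
    by_contra hcon
    rw [not_le] at hcon
    obtain ⟨Z, hZ⟩ : ∃ Z, Z = sp lam D * z i := ⟨_, rfl⟩
    rw [← hZ] at hcon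
    have hZ0 : Z ≠ 0 := by
      rintro rfl
      rw [map_zero, norm_zero] at hcon
      linarith
    obtain ⟨κ, hκ⟩ : ∃ κ, D κ ≠ 0 := by
      by_contra h
      push Not at h
      exact hD (funext h)
    obtain ⟨μ, hμ⟩ := IsAlgClosed.exists_pow_nat_eq Z⁻¹ (Nat.pos_of_ne_zero hκ)
    obtain ⟨lam', hlam'⟩ : ∃ lam' : Fin r → L,
      lam' = Function.update (1 : Fin r → L) κ μ := ⟨_, rfl⟩
    have hsp : sp lam' D = Z⁻¹ := by
      rw [hlam', sp_update, hμ]
    have hZinv : ‖S.sh Z⁻¹‖ < 1 := by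
      rw [map_inv₀, norm_inv]
      exact inv_lt_one_of_one_lt₀ hcon
    have hμ1 : ‖S.sh μ‖ ≤ 1 := by
      by_contra h
      rw [not_le] at h
      have h1 : 1 ≤ ‖S.sh μ‖ ^ D κ := one_le_pow₀ h.le
      rw [← norm_pow, ← map_pow, hμ] at h1
      linarith
    have hy'' : ∀ i, ‖S.sh (act w lam' (act w lam y) i)‖ ≤ 1 := by
      intro j
      have h2 : act w lam' (act w lam y) j = μ ^ (w j κ) * act w lam y j := by
        change sp lam' (w j) * act w lam y j = _
        rw [hlam', sp_update]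
      rw [h2, map_mul, norm_mul, map_pow, norm_pow]
      exact mul_le_one₀ (pow_le_one₀ (norm_nonneg _) hμ1) (norm_nonneg _) (hy'1 j)
    have hev : ev (G i) (act w lam' (act w lam y)) 1 = 0 := by
      have h2 := ev_act (hG i) lam' (act w lam y) Z
      rw [hsp, inv_mul_cancel₀ hZ0] at h2
      rw [h2, hZ, hG' i, mul_zero]
    have h3 := hGf i _ 1 hy'' (by rw [map_one, norm_one]) hev
    rw [map_one] at h3
    have h4 : (fun i => S.sh (act w lam' (act w lam y) i)) =
        act w (fun κ => S.sh (lam' κ)) (fun i => S.sh (act w lam y i)) := by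
      funext j
      change S.sh (sp lam' (w j) * act w lam y j) = sp (fun κ => S.sh (lam' κ)) (w j) *
        S.sh (act w lam y j)
      rw [map_mul, W177.TP.sh_sp]
    have h5 : ‖eval (fun i => S.sh (act w lam' (act w lam y) i)) (f i)‖ < 1 := by
      rw [h4, eval_act (hf i), W177.TP.sh_sp, hsp, norm_mul]
      calc ‖S.sh Z⁻¹‖ * ‖eval (fun i => S.sh (act w lam y i)) (f i)‖ ≤ ‖S.sh Z⁻¹‖ * 1 :=
            mul_le_mul_of_nonneg_left (W177.TP.norm_eval_le (hfc i) hy'1) (norm_nonneg _)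
        _ < 1 := by rw [mul_one]; exact hZinv
    have h6 := IsUltrametricDist.norm_add_le_max
      (1 - eval (fun i => S.sh (act w lam' (act w lam y) i)) (f i))
      (eval (fun i => S.sh (act w lam' (act w lam y) i)) (f i))
    rw [sub_add_cancel, norm_one] at h6
    exact absurd h6 (not_le.2 (max_lt (h3.trans_lt hPN) h5))
  exact ⟨lam, hlam0, hnrm, hclaim, fun i => hGf i _ _ hy'1 (hclaim i) (hG' i)⟩

theorem t_COREW : S_COREW := by
  classical
  intro p _ C L _ _ _ _ _ _ S hp0 hp1 r c n m w hw g a hg hg1 f D hf hf1 hD δ1 hδ1 hδ Q hQ ε δ2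
    hε hδ2
  have hAPP : S_APP := t_APP W349.TP.t_SUM W349.TP.t_RAD
  have h1 : ∀ P ∈ Q, ∃ η : ℝ, 0 < η ∧ ∀ (y : Sig m → C) (x : Fin (n + 1) → C), Nrm y →
      (∀ j, ‖eval y (g j)‖ ≤ η) → (∀ i, ‖x i‖ ≤ 1) → (∀ i, ‖x i - eval y (f i)‖ ≤ η) →
      ‖eval x P‖ ≤ ε := fun P hP => close_one W351.TP.t_VAN g f hf1 P (hQ P hP) ε hε
  choose! η hη1 hη2 using h1
  -- a common `N`
  obtain ⟨θ, hθ0, hθ⟩ : ∃ θ : ℝ, 0 < θ ∧ ∀ P ∈ Q, θ ≤ η P := by
    have hfin : ∀ R : Finset (MvPolynomial (Fin (n + 1)) C), (∀ P ∈ R, 0 < η P) →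
        ∃ θ : ℝ, 0 < θ ∧ ∀ P ∈ R, θ ≤ η P := by
      intro R
      induction R using Finset.induction_on with
      | empty => intro _; exact ⟨1, one_pos, by simp⟩
      | insert P R hPR ih =>
        intro h
        obtain ⟨θ, h1, h2⟩ := ih (fun P' hP' => h P' (Finset.mem_insert_of_mem hP'))
        refine ⟨min θ (η P), lt_min h1 (h P (Finset.mem_insert_self _ _)), ?_⟩
        intro P' hP'
        rcases Finset.mem_insert.1 hP' with rfl | hP'
        · exact min_le_right _ _
        · exact (min_le_left _ _).trans (h2 P' hP')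
    exact hfin Q hη1
  obtain ⟨N0, hN0⟩ := exists_pow_lt_of_lt_one
    (show (0 : ℝ) < min (min δ1 δ2) θ from lt_min (lt_min hδ1 hδ2) hθ0) hp1
  obtain ⟨N, hN⟩ : ∃ N, N = N0 + 1 := ⟨_, rfl⟩
  have hNle : ‖(p : C)‖ ^ N < min (min δ1 δ2) θ := by
    rw [hN]
    exact lt_of_le_of_lt (pow_le_pow_of_le_one hp0.le hp1.le (Nat.le_succ _)) hN0
  have hNpos : 0 < N := by omega
  have hN1 : ‖(p : C)‖ ^ N < δ1 := hNle.trans_le ((min_le_left _ _).trans (min_le_left _ _))
  have hN2 : ‖(p : C)‖ ^ N < δ2 := hNle.trans_le ((min_le_left _ _).trans (min_le_right _ _))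
  have hN3 : ‖(p : C)‖ ^ N < θ := hNle.trans_le (min_le_right _ _)
  have hH := fun j => hAPP p C L S hp0 hp1 (Sig m) (Fin r → ℕ) w (a j) (g j) (hg j)
    (hg1 j) N
  choose s H hH1 hH2 using hH
  have hG := fun i => monW hAPP p C L S hp0 hp1 w (fun i => (hw i).1) D hD (f i) (hf i) (hf1 i) N
    hNpos
  choose t G hG1 hG2 using hG
  refine ⟨H, s, G, t, hH1, hG1, ?_⟩
  intro y z hy hyH hyG
  obtain ⟨lam, hlam, hy', hz, h3⟩ := ptW S hp1 hw D hD N hNpos f hf hf1 G t hG1 hG2 y z hy hyG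
  have h2 : ∀ j, ‖eval (fun i => S.sh (act w lam y i)) (g j)‖ ≤ ‖(p : C)‖ ^ N := by
    intro j
    refine hH2 j _ hy'.1 ?_
    rw [eval_act (hH1 j), hyH j, mul_zero]
  refine ⟨lam, hlam, hy', hz, ?_, fun j => (h2 j).trans hN2.le, fun i => (h3 i).trans hN2.le, ?_⟩
  · rcases hδ _ hy' with ⟨j, hj⟩ | ⟨i, hi⟩
    · exact absurd (hj.trans (h2 j)) (not_le.2 hN1)
    · refine ⟨i, ?_⟩
      by_contra hlt
      push Not at hlt
      have h4 : ‖eval (fun i => S.sh (act w lam y i)) (f i)‖ ≤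
          max ‖S.sh (sp lam D * z i)‖
            ‖S.sh (sp lam D * z i) - eval (fun i => S.sh (act w lam y i)) (f i)‖ := by
        have h5 : eval (fun i => S.sh (act w lam y i)) (f i) =
          S.sh (sp lam D * z i) - (S.sh (sp lam D * z i) -
            eval (fun i => S.sh (act w lam y i)) (f i)) := by ring
        conv_lhs => rw [h5, sub_eq_add_neg]
        refine (IsUltrametricDist.norm_add_le_max _ _).trans ?_
        rw [norm_neg]
      have h6 : max ‖S.sh (sp lam D * z i)‖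
          ‖S.sh (sp lam D * z i) - eval (fun i => S.sh (act w lam y i)) (f i)‖ < δ1 :=
        max_lt hlt (lt_of_le_of_lt (h3 i) hN1)
      exact absurd (lt_of_le_of_lt (hi.trans h4) h6) (lt_irrefl _)
  · intro P hP
    refine hη2 P hP _ _ hy' (fun j => (h2 j).trans (hN3.le.trans (hθ P hP))) hz
      (fun i => (h3 i).trans (hN3.le.trans (hθ P hP)))

end Pool.Agent.H50F
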