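import Pool.Agent.H50F.Stm3
import Pool.Agent.H50F.CoreW
import Pool.Agent.X271.TmKey

/-!
# Project H50F: the approximating system over the tilt, for triangular weights (piece COREK)

Adaptation of `X271/TmMon.lean` and `X271/TmKey.lean`.
-/

set_option autoImplicit false

namespace Pool.Agent.H50F

open MvPolynomial Pool.Agent.W476.TP
open Pool.Agent.Y129.TA (Tilting TiltPair)
open Pool.Agent.Y129.TB (BaseField)
open Pool.Agent.Y129.TB.X271TM (approxW)
open Pool.Agent.X271.TN (mp wh_map sharp_sp abs_aeval_le)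

section

variable {E F : Type} [Field E] [Field F] [Algebra E F] {r : ℕ} {m : Fin r → ℕ}

theorem monicW_map {w : Sig m → Fin r → ℕ} {D : Fin r → ℕ}
    {G : Polynomial (MvPolynomial (Sig m) E)} {t : ℕ}
    (h : MonicW w D G t) : MonicW w D (mp F G) t := by
  obtain ⟨h1, h2, h3, h4⟩ := h
  refine ⟨h1, h2.map _, ?_, fun l hl => ?_⟩
  · unfold mp
    rw [h2.natDegree_map, h3]
  · unfold mp
    rw [Polynomial.coeff_map]
    exact wh_map (h4 l hl)

theorem aeval_act {w : Sig m → Fin r → ℕ} {f : MvPolynomial (Sig m) E} {d : Fin r → ℕ}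
    (hf : IsWeightedHomogeneous w f d) (lam : Fin r → F) (y : Sig m → F) :
    aeval (act w lam y) f = sp lam d * aeval y f := by
  have h1 := eval_act (wh_map (F := F) hf) lam y
  rw [eval_map, eval_map] at h1
  exact h1

end

variable {p : ℕ} [hp : Fact p.Prime] {CC F : Type} [Field CC] [Field F] [CharP F p]
  {E : Type} [Field E] [Algebra E F] {K : Type} [Field K] [Algebra K CC]

theorem monK [IsAlgClosed F] (T : Tilting p CC F) (B : BaseField T K E) {r : ℕ} {m : Fin r → ℕ}
    {w : Sig m → Fin r → ℕ} (hw : ∀ i : Sig m, w i i.1 = 1)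
    {D : Fin r → ℕ} (hD : D ≠ 0) {f : MvPolynomial (Sig m) K}
    (hf : IsWeightedHomogeneous w f D) {ε : ℝ} (hε : 0 < ε) (hε1 : ε < 1) :
    ∃ (t : ℕ) (G : Polynomial (MvPolynomial (Sig m) E)), MonicW w D G t ∧
      ∀ (y : Sig m → F) (z : F), (∀ i, T.absF (y i) ≤ 1) → T.absF z ≤ 1 → ev (mp F G) y z = 0 →
        T.absK (T.sharp z - aeval (fun i => T.sharp (y i)) f) ≤ ε := by
  classical
  obtain ⟨κ, hκ⟩ : ∃ κ, D κ ≠ 0 := by
    by_contra hcon
    push Not at hcon
    exact hD (funext hcon)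
  set h : MvPolynomial (Option (Sig m)) K := X none - rename some f with hh
  have hhom : IsWeightedHomogeneous (woW w D) h D := by
    refine IsWeightedHomogeneous.sub ?_ (rename_some_homW hf)
    exact isWeightedHomogeneous_X K (woW w D) none
  obtain ⟨s, G0, hG0, happ⟩ := approxW T B (woW w D) hhom hε
  set t := p ^ s with ht
  have ht0 : 0 < t := pow_pos (Fact.out : p.Prime).pos s
  set G1 := optionEquivLeft E (Sig m) G0 with hG1
  have hev : ∀ (y : Sig m → F) (z : F), ev (mp F G1) y z =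
      aeval (fun i => Option.elim i z y) G0 := by
    intro y z
    have h1 : mp F G1 = optionEquivLeft F (Sig m) (MvPolynomial.map (algebraMap E F) G0) := by
      ext l α
      unfold mp
      rw [Polynomial.coeff_map, coeff_map, hG1, optionEquivLeft_coeff_coeff,
        optionEquivLeft_coeff_coeff, coeff_map]
    have h2 : aeval (fun i => Option.elim i z y) G0 =
        eval (fun i => Option.elim i z y) (MvPolynomial.map (algebraMap E F) G0) := by
      rw [eval_map, aeval_def]
    rw [h1, h2, optionEquivLeft_elim_eval]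
    rfl
  -- the value of `h`
  have hval : ∀ (y : Sig m → F) (z : F),
      aeval (fun i : Option (Sig m) => T.sharp (Option.elim i z y)) h =
        T.sharp z - aeval (fun i => T.sharp (y i)) f := by
    intro y z
    rw [hh, map_sub, aeval_X, aeval_rename]
    rfl
  -- degrees
  have hdeg : ∀ (l : ℕ) (α : Sig m →₀ ℕ), coeff α (G1.coeff l) ≠ 0 →
      l • D + Finsupp.weight w α = t • D := by
    intro l α hα
    rw [hG1, optionEquivLeft_coeff_coeff] at hα
    rw [← weight_elimW]
    exact hG0 hα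
  have hle : ∀ (l : ℕ) (α : Sig m →₀ ℕ), coeff α (G1.coeff l) ≠ 0 → l ≤ t := by
    intro l α hα
    have h1 := congrFun (hdeg l α hα) κ
    rw [Pi.add_apply, Pi.smul_apply, Pi.smul_apply, smul_eq_mul, smul_eq_mul] at h1
    exact Nat.le_of_mul_le_mul_right (by omega) (Nat.pos_of_ne_zero hκ)
  have htop : ∀ α : Sig m →₀ ℕ, coeff α (G1.coeff t) ≠ 0 → α = 0 := by
    intro α hα
    have h1 := hdeg t α hα
    exact weight_zeroW hw (add_eq_left.1 h1)
  have hconst : ∀ l : ℕ, coeff 0 (G1.coeff l) ≠ 0 → l = t := by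
    intro l hl
    have h1 := congrFun (hdeg l 0 hl) κ
    rw [map_zero, add_zero, Pi.smul_apply, Pi.smul_apply, smul_eq_mul, smul_eq_mul] at h1
    exact Nat.eq_of_mul_eq_mul_right (Nat.pos_of_ne_zero hκ) h1
  set c := coeff 0 (G1.coeff t) with hc
  have hCc : G1.coeff t = MvPolynomial.C c := by
    ext α
    rw [coeff_C]
    split
    · next h0 => rw [← h0]
    · next h0 =>
      by_contra hne
      exact h0 (htop α hne).symm
  have hnat : G1.natDegree ≤ t := by
    rw [Polynomial.natDegree_le_iff_coeff_eq_zero]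
    intro l hl
    ext α
    rw [coeff_zero]
    by_contra hne
    exact absurd (hle l α hne) (not_le.2 hl)
  have hc0 : c ≠ 0 := by
    intro hc0
    have h1 : ev (mp F G1) 0 1 = 0 := by
      unfold ev mp
      rw [Polynomial.eval_map, Polynomial.eval₂_eq_sum_range]
      refine Finset.sum_eq_zero fun l _ => ?_
      rw [one_pow, mul_one, Polynomial.coeff_map]
      have h2 : (eval (0 : Sig m → F)) (MvPolynomial.map (algebraMap E F) (G1.coeff l)) =
          algebraMap E F (coeff 0 (G1.coeff l)) := by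
        rw [eval_zero, constantCoeff_eq, coeff_map]
      rw [h2]
      by_cases hne : coeff 0 (G1.coeff l) = 0
      · rw [hne, map_zero]
      · rw [hconst l hne] at hne
        exact absurd hc0 hne
    rw [hev] at h1
    have h3 := happ _ (by
      intro i
      cases i with
      | none =>
        show T.absF 1 ≤ 1
        rw [map_one]
      | some i =>
        show T.absF 0 ≤ 1
        rw [map_zero]
        exact zero_le_one) h1
    rw [hval] at h3
    have h4 : aeval (fun i : Sig m => T.sharp ((0 : Sig m → F) i)) f = 0 := by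
      have h5 : (fun i : Sig m => T.sharp ((0 : Sig m → F) i)) = 0 := by
        funext i
        rw [Pi.zero_apply, Pi.zero_apply]
        exact T.toTiltPair.sharp_zero
      rw [h5, aeval_zero, constantCoeff_eq]
      by_contra hne
      have h6 := hf (d := 0) fun h0 => hne (by rw [h0, map_zero])
      rw [map_zero] at h6
      exact hD h6.symm
    rw [h4, map_one, sub_zero, map_one] at h3
    exact absurd h3 (not_le.2 hε1)
  -- the monic polynomial
  set G : Polynomial (MvPolynomial (Sig m) E) := Polynomial.C (MvPolynomial.C c⁻¹) * G1 with hG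
  have hGc : ∀ l, G.coeff l = MvPolynomial.C c⁻¹ * G1.coeff l := by
    intro l
    rw [hG, Polynomial.coeff_C_mul]
  have hGt : G.coeff t = 1 := by
    rw [hGc, hCc, ← map_mul, inv_mul_cancel₀ hc0, map_one]
  have hGn : G.natDegree ≤ t := (Polynomial.natDegree_C_mul_le _ _).trans hnat
  have hmonic : G.Monic := Polynomial.monic_of_natDegree_le_of_coeff_eq_one t hGn hGt
  have hGd : G.natDegree = t := by
    refine le_antisymm hGn (Polynomial.le_natDegree_of_ne_zero ?_)
    rw [hGt]
    exact one_ne_zero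
  refine ⟨t, G, ⟨ht0, hmonic, hGd, ?_⟩, ?_⟩
  · intro l hl α hα
    rw [hGc, coeff_C_mul] at hα
    have h1 := hdeg l α (right_ne_zero_of_mul hα)
    have h2 : l • D + Finsupp.weight w α = l • D + (t - l) • D := by
      rw [h1, ← add_smul, Nat.add_sub_cancel' hl]
    exact add_left_cancel h2
  · intro y z hy hz h0
    have h1 : ev (mp F G) y z = algebraMap E F c⁻¹ * ev (mp F G1) y z := by
      unfold ev mp
      rw [hG, Polynomial.map_mul, Polynomial.map_mul, Polynomial.eval_mul, Polynomial.map_C,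
        Polynomial.map_C, Polynomial.eval_C, map_C, eval_C]
    rw [h1] at h0
    have h2 : ev (mp F G1) y z = 0 := by
      rcases mul_eq_zero.1 h0 with h | h
      · rw [map_inv₀] at h
        exact absurd h (inv_ne_zero ((map_ne_zero _).2 hc0))
      · exact h
    rw [hev] at h2
    have h3 := happ _ (by
      intro i
      cases i with
      | none => exact hz
      | some i => exact hy i) h2
    rw [hval] at h3
    exact h3

omit hp [CharP F p] in
/-- normalisation of the solutions: the maxima of all groups become one -/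
theorem exists_nmK (T : TiltPair p CC F) {r : ℕ} {m : Fin r → ℕ} {w : Sig m → Fin r → ℕ}
    (hw : Tri w) {y : Sig m → F} (hy : Rel y) :
    ∃ lam : Fin r → F, (∀ κ, lam κ ≠ 0) ∧ (∀ i, T.absF (act w lam y i) ≤ 1) ∧
      ∀ κ, ∃ i, T.absF (act w lam y ⟨κ, i⟩) = 1 := by
  have key : ∀ k : ℕ, k ≤ r → ∃ lam : Fin r → F, (∀ κ, lam κ ≠ 0) ∧ ∀ κ : Fin r, κ.val < k →
      (∀ j, T.absF (act w lam y ⟨κ, j⟩) ≤ 1) ∧ ∃ j, T.absF (act w lam y ⟨κ, j⟩) = 1 := by
    intro k
    induction k with
    | zero =>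
      intro _
      exact ⟨1, fun κ => one_ne_zero, fun κ hκ => absurd hκ (Nat.not_lt_zero _)⟩
    | succ k ih =>
      intro hk
      obtain ⟨lam, hl, h1⟩ := ih (by omega)
      obtain ⟨κ₀, hκ₀⟩ : ∃ κ₀ : Fin r, κ₀.val = k := ⟨⟨k, hk⟩, rfl⟩
      obtain ⟨i, hi⟩ : ∃ i : Fin (m κ₀ + 1), ∀ j, T.absF (act w lam y ⟨κ₀, j⟩) ≤
          T.absF (act w lam y ⟨κ₀, i⟩) := Finite.exists_max _
      have hne : act w lam y ⟨κ₀, i⟩ ≠ 0 := by
        intro h0
        obtain ⟨j, hj⟩ := hy κ₀
        have h2 := hi j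
        rw [h0, map_zero] at h2
        have h4 : act w lam y ⟨κ₀, j⟩ = 0 :=
          T.absF.eq_zero.1 (le_antisymm h2 (T.absF.nonneg _))
        unfold act at h4
        exact (mul_ne_zero (sp_ne_zero hl _) hj) h4
      have hpos : 0 < T.absF (act w lam y ⟨κ₀, i⟩) := T.absF.pos hne
      obtain ⟨μ, hμ⟩ : ∃ μ : F, μ = (act w lam y ⟨κ₀, i⟩)⁻¹ := ⟨_, rfl⟩
      have hμ0 : μ ≠ 0 := by rw [hμ]; exact inv_ne_zero hne
      obtain ⟨U, hU⟩ : ∃ U : Fin r → F, U = Function.update (1 : Fin r → F) κ₀ μ := ⟨_, rfl⟩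
      have hU0 : ∀ κ, U κ ≠ 0 := by
        intro κ
        rw [hU, Function.update_apply]
        split_ifs
        · exact hμ0
        · exact one_ne_zero
      refine ⟨fun κ => U κ * lam κ, fun κ => mul_ne_zero (hU0 κ) (hl κ), ?_⟩
      have hact : ∀ i, act w (fun κ => U κ * lam κ) y i = μ ^ (w i κ₀) * act w lam y i := by
        intro i
        rw [act_mul]
        change sp U (w i) * act w lam y i = _
        rw [hU, sp_update]
      intro κ hκ
      rcases Nat.lt_succ_iff_lt_or_eq.1 hκ with h2 | h2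
      · have h3 : ∀ j, act w (fun κ => U κ * lam κ) y ⟨κ, j⟩ = act w lam y ⟨κ, j⟩ := by
          intro j
          rw [hact, (hw ⟨κ, j⟩).2 κ₀ (by rw [Fin.lt_def]; simp only; omega), pow_zero, one_mul]
        refine ⟨fun j => ?_, ?_⟩
        · rw [h3]; exact (h1 κ h2).1 j
        · obtain ⟨j, hj⟩ := (h1 κ h2).2
          exact ⟨j, by rw [h3]; exact hj⟩
      · have h4 : κ = κ₀ := Fin.ext (by omega)
        subst h4
        have h3 : ∀ j, act w (fun κ' => U κ' * lam κ') y ⟨κ, j⟩ =
            (act w lam y ⟨κ, i⟩)⁻¹ * act w lam y ⟨κ, j⟩ := by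
          intro j
          rw [hact, (hw ⟨κ, j⟩).1, pow_one, hμ]
        refine ⟨fun j => ?_, ⟨i, ?_⟩⟩
        · rw [h3, map_mul, map_inv₀, inv_mul_le_iff₀ hpos, mul_one]
          exact hi j
        · rw [h3, inv_mul_cancel₀ hne, map_one]
  obtain ⟨lam, hl, h1⟩ := key r le_rfl
  exact ⟨lam, hl, fun i => (h1 i.1 i.1.isLt).1 i.2, fun κ => (h1 κ κ.isLt).2⟩

theorem sharp_act (T : TiltPair p CC F) {r : ℕ} {m : Fin r → ℕ} (w : Sig m → Fin r → ℕ)
    (lam : Fin r → F) (z : Sig m → F) : (fun s => T.sharp (act w lam z s)) =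
      act w (fun κ => T.sharp (lam κ)) (fun s => T.sharp (z s)) := by
  funext s
  unfold act
  rw [map_mul, sharp_sp]

theorem t_COREK : S_COREK := by
  classical
  intro p _ CC F K E _ _ _ _ _ _ _ _ _ T B r c n m w hw g a hg f D hf hf1 hD δ hδ
  obtain ⟨ε, hε0, hε1, hεδ⟩ : ∃ ε : ℝ, 0 < ε ∧ ε < 1 ∧ ε ≤ δ :=
    ⟨min δ (1 / 2), lt_min hδ (by norm_num), lt_of_le_of_lt (min_le_right _ _) (by norm_num),
      min_le_left _ _⟩
  choose s H hH hHa using fun j => approxW T B w (hg j) hε0
  choose t G hG hGa using fun i => monK T B (fun i => (hw i).1) hD (hf i) hε0 hε1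
  refine ⟨H, s, G, t, hH, hG, ?_⟩
  intro y z hy hyH hyG
  obtain ⟨lam, hlam, hn1, hn2⟩ := exists_nmK T.toTiltPair hw hy
  obtain ⟨z', hz'⟩ : ∃ z', z' = act w lam y := ⟨_, rfl⟩
  obtain ⟨μ, hμ⟩ : ∃ μ, μ = sp lam D := ⟨_, rfl⟩
  have hn1' : ∀ i, T.absF (z' i) ≤ 1 := by rw [hz']; exact hn1
  have h3 : ∀ j, aeval z' (H j) = 0 := by
    intro j
    have h1 : aeval y (H j) = 0 := by
      rw [aeval_def, ← eval_map]
      exact hyH j
    rw [hz', aeval_act (hH j), h1, mul_zero]
  have h4 : ∀ l, ev (mp F (G l)) z' (μ * z l) = 0 := by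
    intro l
    rw [hz', hμ, ev_act (monicW_map (F := F) (hG l))]
    have h1 : ev (mp F (G l)) y (z l) = 0 := hyG l
    rw [h1, mul_zero]
  have h5 : ∀ l, T.absF (μ * z l) ≤ 1 := by
    intro l0
    by_contra hcon
    rw [not_le] at hcon
    obtain ⟨Z, hZ⟩ : ∃ Z, Z = μ * z l0 := ⟨_, rfl⟩
    rw [← hZ] at hcon
    have hne : Z ≠ 0 := by
      rintro rfl
      rw [map_zero] at hcon
      exact absurd hcon (by norm_num)
    obtain ⟨κ0, hκ0⟩ := Function.ne_iff.mp hD
    have hκ0' : D κ0 ≠ 0 := hκ0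
    obtain ⟨ν, hν⟩ := IsAlgClosed.exists_pow_nat_eq Z⁻¹ (Nat.pos_of_ne_zero hκ0')
    have hνa : T.absF ν < 1 := by
      by_contra hge
      have h6 : 1 ≤ T.absF ν ^ D κ0 := one_le_pow₀ (not_lt.1 hge)
      rw [← map_pow, hν, map_inv₀] at h6
      exact absurd (inv_lt_one_of_one_lt₀ hcon) (not_lt.2 h6)
    obtain ⟨lam', hlam'⟩ : ∃ lam' : Fin r → F,
      lam' = Function.update (1 : Fin r → F) κ0 ν := ⟨_, rfl⟩
    have hsp : sp lam' D = Z⁻¹ := by
      rw [hlam', sp_update, hν]
    have hle : ∀ i, T.absF (act w lam' z' i) ≤ 1 := by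
      intro i
      have h2 : act w lam' z' i = ν ^ (w i κ0) * z' i := by
        change sp lam' (w i) * z' i = _
        rw [hlam', sp_update]
      rw [h2, map_mul, map_pow]
      exact mul_le_one₀ (pow_le_one₀ (T.absF.nonneg _) hνa.le) (T.absF.nonneg _) (hn1' i)
    have h6 : ev (mp F (G l0)) (act w lam' z') 1 = 0 := by
      have h7 := ev_act (monicW_map (F := F) (hG l0)) lam' z' Z
      rw [hsp, inv_mul_cancel₀ hne] at h7
      rw [h7, hZ, h4 l0, mul_zero]
    have h7 := hGa l0 (act w lam' z') 1 hle (by rw [map_one]) h6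
    rw [sharp_act, aeval_act (hf l0), ← sharp_sp, hsp, map_one] at h7
    have h8 : T.absK (T.sharp Z⁻¹ * aeval (fun s => T.sharp (z' s)) (f l0)) < 1 := by
      rw [map_mul, T.abs_sharp, map_inv₀]
      have h9 := abs_aeval_le T.toTiltPair (hf1 l0) (fun s => T.sharp (z' s)) fun s => by
        rw [T.abs_sharp]
        exact hn1' s
      calc (T.absF Z)⁻¹ * T.absK (aeval (fun s => T.sharp (z' s)) (f l0)) ≤
          (T.absF Z)⁻¹ * 1 := mul_le_mul_of_nonneg_left h9 (inv_nonneg.2 (T.absF.nonneg _))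
        _ < 1 := by rw [mul_one]; exact inv_lt_one_of_one_lt₀ hcon
    have h9 : T.absK (1 : CC) ≤ max
        (T.absK (1 - T.sharp Z⁻¹ * aeval (fun s => T.sharp (z' s)) (f l0)))
        (T.absK (T.sharp Z⁻¹ * aeval (fun s => T.sharp (z' s)) (f l0))) := by
      refine le_trans (le_of_eq ?_) (T.ultraK _ _)
      rw [sub_add_cancel]
    rw [map_one] at h9
    exact absurd h9 (not_le.2 (max_lt (lt_of_le_of_lt h7 hε1) h8))
  refine ⟨lam, hlam, hn1, hn2, fun i => ?_, fun j => ?_, fun l => ?_⟩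
  · have h6 := h5 i
    rwa [hμ] at h6
  · have h6 := (hHa j z' hn1' (h3 j)).trans hεδ
    rwa [hz'] at h6
  · have h6 := (hGa l z' (μ * z l) hn1' (h5 l) (h4 l)).trans hεδ
    rwa [hz', hμ] at h6

end Pool.Agent.H50F
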