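import Pool.Agent.H50F.LATa

/-!
# Project H50F, pieces DED and FIN
-/

set_option autoImplicit false

namespace Pool.Agent.H50F

open scoped IntermediateField.algebraAdjoinAdjoin

/-- In a Dedekind domain, the local ring at a nonzero prime ideal is a valuation ring. -/
theorem ded_total (R : Type) [CommRing R] [IsDedekindDomain R] (P : Ideal R) [hPp : P.IsPrime]
    (hPb : P ≠ ⊥) (u v : R) : ∃ G H : R, G ∉ P ∧ (G * v = H * u ∨ G * u = H * v) := by
  have hdvr : IsDiscreteValuationRing (Localization.AtPrime P) :=
    IsLocalization.AtPrime.isDiscreteValuationRing_of_dedekind_domain R hPb _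
  have hvr : ValuationRing (Localization.AtPrime P) := inferInstance
  have key : ∀ u v : R, algebraMap R (Localization.AtPrime P) u ∣
      algebraMap R (Localization.AtPrime P) v → ∃ G H : R, G ∉ P ∧ G * v = H * u := by
    rintro u v ⟨w, hw⟩
    obtain ⟨⟨h, g⟩, hg⟩ := IsLocalization.surj P.primeCompl w
    refine ⟨g, h, fun h0 => g.2 h0, ?_⟩
    have hinj : Function.Injective (algebraMap R (Localization.AtPrime P)) :=
      IsLocalization.injective (Localization.AtPrime P) P.primeCompl_le_nonZeroDivisors
    apply hinj
    rw [map_mul, map_mul, hw]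
    simp only at hg
    rw [← hg]
    ring
  rcases ValuationRing.dvd_total (algebraMap R (Localization.AtPrime P) u)
      (algebraMap R (Localization.AtPrime P) v) with h | h
  · obtain ⟨G, H, hG, hGH⟩ := key _ _ h
    exact ⟨G, H, hG, Or.inl hGH⟩
  · obtain ⟨G, H, hG, hGH⟩ := key _ _ h
    exact ⟨G, H, hG, Or.inr hGH⟩

theorem t_DED : S_DED := by
  intro C L _ _ _ _ x hx hfd χ hχ a b
  have hpid := adj_pid (C := C) x
  have : CharZero (IntermediateField.adjoin C {x}) :=
    charZero_of_injective_algebraMap (algebraMap C (IntermediateField.adjoin C {x})).injective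
  have hsep : Algebra.IsSeparable (IntermediateField.adjoin C {x}) L := inferInstance
  have hD : IsDedekindDomain (integralClosure (Algebra.adjoin C {x}) L) :=
    integralClosure.isDedekindDomain (Algebra.adjoin C {x}) (IntermediateField.adjoin C {x}) L
  have hF : IsFractionRing (integralClosure (Algebra.adjoin C {x}) L) L :=
    integralClosure.isFractionRing_of_finite_extension (IntermediateField.adjoin C {x}) L
  -- the elements `x` and `c` of the ring
  have hxint : x ∈ integralClosure (Algebra.adjoin C {x}) L := by
    have : x = algebraMap (Algebra.adjoin C {x}) L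
        ⟨x, Algebra.self_mem_adjoin_singleton C x⟩ := rfl
    rw [this]
    exact isIntegral_algebraMap
  have hcint : ∀ c : C, algebraMap C L c ∈ integralClosure (Algebra.adjoin C {x}) L := by
    intro c
    have : algebraMap C L c = algebraMap (Algebra.adjoin C {x}) L
        (algebraMap C (Algebra.adjoin C {x}) c) := rfl
    rw [this]
    exact isIntegral_algebraMap
  let R := integralClosure (Algebra.adjoin C {x}) L
  let P : Ideal R := RingHom.ker χ
  have hPp : P.IsPrime := RingHom.ker_isPrime χ
  have hPb : P ≠ ⊥ := by
    intro hbot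
    set X : R := ⟨x, hxint⟩ with hX
    set c := χ X with hc
    have h1 : X - ⟨algebraMap C L c, hcint c⟩ ∈ P := by
      rw [RingHom.mem_ker, map_sub, hχ c ⟨algebraMap C L c, hcint c⟩ rfl, ← hc, sub_self]
    rw [hbot, Ideal.mem_bot, sub_eq_zero] at h1
    have h2 : x = algebraMap C L c := congrArg (fun z : R => (z : L)) h1
    apply hx
    rw [h2]
    exact isAlgebraic_algebraMap c
  -- common denominators
  obtain ⟨α, s, hs0, hα⟩ := IsFractionRing.div_surjective (A := R) a
  obtain ⟨β, t, ht0, hβ⟩ := IsFractionRing.div_surjective (A := R) b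
  have hs : (s : L) ≠ 0 := by
    intro h
    exact nonZeroDivisors.ne_zero hs0 (Subtype.ext h)
  have ht : (t : L) ≠ 0 := by
    intro h
    exact nonZeroDivisors.ne_zero ht0 (Subtype.ext h)
  have hα' : a = (α : L) / s := hα.symm
  have hβ' : b = (β : L) / t := hβ.symm
  obtain ⟨G, H, hG, h | h⟩ := ded_total R P hPb (α * t) (β * s)
  · refine ⟨G, H, hG, Or.inr ?_⟩
    have h1 : (G : L) * (β * s) = H * (α * t) := congrArg (fun z : R => (z : L)) h
    rw [hα', hβ']
    field_simp
    linear_combination h1
  · refine ⟨G, H, hG, Or.inl ?_⟩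
    have h1 : (G : L) * (α * t) = H * (β * s) := congrArg (fun z : R => (z : L)) h
    rw [hα', hβ']
    field_simp
    linear_combination h1

theorem t_FIN : S_FIN := by
  intro C L _ _ _ _ x hx hfd
  have hpid := adj_pid (C := C) x
  have : CharZero (IntermediateField.adjoin C {x}) :=
    charZero_of_injective_algebraMap (algebraMap C (IntermediateField.adjoin C {x})).injective
  have hsep : Algebra.IsSeparable (IntermediateField.adjoin C {x}) L := inferInstance
  have hfin : Module.Finite (Algebra.adjoin C {x}) (integralClosure (Algebra.adjoin C {x}) L) :=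
    IsIntegralClosure.finite (Algebra.adjoin C {x}) (IntermediateField.adjoin C {x}) L _
  obtain ⟨N, b, hb⟩ := Module.Finite.exists_fin (R := Algebra.adjoin C {x})
    (M := integralClosure (Algebra.adjoin C {x}) L)
  refine ⟨N, fun i => (b i : L), fun r hr => ?_⟩
  have h1 : (⟨r, hr⟩ : integralClosure (Algebra.adjoin C {x}) L) ∈
      Submodule.span (Algebra.adjoin C {x}) (Set.range b) := by
    rw [hb]
    trivial
  rw [Submodule.mem_span_range_iff_exists_fun] at h1
  obtain ⟨c, hc⟩ := h1
  choose q hq using fun i => adj_surj x (c i)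
  refine ⟨q, ?_⟩
  have h2 := congrArg (fun z : integralClosure (Algebra.adjoin C {x}) L => (z : L)) hc
  simp only at h2
  rw [← h2, AddSubmonoidClass.coe_finsetSum]
  refine Finset.sum_congr rfl fun i _ => ?_
  rw [hq i]
  rfl

end Pool.Agent.H50F
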