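import Pool.Agent.H50F.Stm2
import Pool.Agent.H50F.DED

/-!
# Project H50F, piece DED2
-/

set_option autoImplicit false

namespace Pool.Agent.H50F

open scoped IntermediateField.algebraAdjoinAdjoin

namespace Ded2

/-- In a Dedekind domain, the local ring at a prime ideal is a valuation ring. -/
theorem ded_total' (R : Type) [CommRing R] [IsDedekindDomain R] (P : Ideal R) (hPp : P.IsPrime)
    (u v : R) : ∃ G H : R, G ∉ P ∧ (G * v = H * u ∨ G * u = H * v) := by
  by_cases hPb : P = ⊥
  · subst hPb
    by_cases hu : u = 0
    · refine ⟨1, 0, ?_, Or.inr ?_⟩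
      · intro h
        exact one_ne_zero ((Ideal.mem_bot).1 h)
      · rw [hu, mul_zero, zero_mul]
    · refine ⟨u, v, ?_, Or.inl (mul_comm _ _)⟩
      intro h
      exact hu ((Ideal.mem_bot).1 h)
  · exact ded_total R P hPb u v

theorem total {K L : Type} [Field K] [CharZero K] [Field L] [Algebra K L] (x : L)
    (hfd : FiniteDimensional (IntermediateField.adjoin K {x}) L)
    (R : Subalgebra K L) (hR : ∀ r, r ∈ R ↔ Reg K x r) (P : Ideal R) (hPp : P.IsPrime)
    (a b : L) : ∃ G H : R, G ∉ P ∧ ((G : L) * a = H * b ∨ (G : L) * b = H * a) := by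
  have hpid := adj_pid (C := K) x
  have : CharZero (IntermediateField.adjoin K {x}) :=
    charZero_of_injective_algebraMap (algebraMap K (IntermediateField.adjoin K {x})).injective
  have hsep : Algebra.IsSeparable (IntermediateField.adjoin K {x}) L := inferInstance
  have hD : IsDedekindDomain (integralClosure (Algebra.adjoin K {x}) L) :=
    integralClosure.isDedekindDomain (Algebra.adjoin K {x}) (IntermediateField.adjoin K {x}) L
  have hF : IsFractionRing (integralClosure (Algebra.adjoin K {x}) L) L :=
    integralClosure.isFractionRing_of_finite_extension (IntermediateField.adjoin K {x}) L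
  let R' := integralClosure (Algebra.adjoin K {x}) L
  let φ : R' →+* R := (R'.val.toRingHom).codRestrict R fun r => (hR r).2 r.2
  have hφ : ∀ r : R', ((φ r : R) : L) = r := fun r => rfl
  let P' : Ideal R' := P.comap φ
  have hP' : P'.IsPrime := Ideal.comap_isPrime φ P
  obtain ⟨α, s, hs0, hα⟩ := IsFractionRing.div_surjective (A := R') a
  obtain ⟨β, t, ht0, hβ⟩ := IsFractionRing.div_surjective (A := R') b
  have hs : (s : L) ≠ 0 := by
    intro h
    exact nonZeroDivisors.ne_zero hs0 (Subtype.ext h)
  have ht : (t : L) ≠ 0 := by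
    intro h
    exact nonZeroDivisors.ne_zero ht0 (Subtype.ext h)
  have hα' : a = (α : L) / s := hα.symm
  have hβ' : b = (β : L) / t := hβ.symm
  obtain ⟨G, H, hG, h | h⟩ := ded_total' R' P' hP' (α * t) (β * s)
  · refine ⟨φ G, φ H, hG, Or.inr ?_⟩
    have h1 : (G : L) * (β * s) = H * (α * t) := congrArg (fun z : R' => (z : L)) h
    rw [hφ, hφ, hα', hβ']
    field_simp
    linear_combination h1
  · refine ⟨φ G, φ H, hG, Or.inl ?_⟩
    have h1 : (G : L) * (α * t) = H * (β * s) := congrArg (fun z : R' => (z : L)) h
    rw [hφ, hφ, hα', hβ']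
    field_simp
    linear_combination h1

end Ded2

theorem t_DED2 : S_DED2 := by
  intro K L _ _ _ _ x hx hfd R hR n f P hP
  have hPp : P.IsPrime := hP.isPrime
  have key : ∀ m : ℕ, ∀ f : Fin (m + 1) → L, ∃ (i : Fin (m + 1)) (G : R) (H : Fin (m + 1) → R),
      G ∉ P ∧ ∀ j, (G : L) * f j = H j * f i := by
    intro m
    induction m with
    | zero =>
      intro f
      refine ⟨0, 1, fun _ => 1, ?_, fun j => ?_⟩
      · exact fun h => hPp.ne_top ((Ideal.eq_top_iff_one P).2 h)
      · obtain rfl : j = 0 := Fin.ext (by omega)
        rfl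
    | succ m ih =>
      intro f
      obtain ⟨i, G, H, hG, hGH⟩ := ih fun j => f j.castSucc
      obtain ⟨G', H', hG', h | h⟩ := Ded2.total x hfd R hR P hPp (f (Fin.last (m + 1)))
        (f i.castSucc)
      · refine ⟨i.castSucc, G * G', Fin.lastCases (G * H') fun j => G' * H j, ?_, ?_⟩
        · intro hm
          rcases hPp.mem_or_mem hm with h1 | h1
          · exact hG h1
          · exact hG' h1
        · intro j
          refine Fin.lastCases ?_ (fun j => ?_) j
          · dsimp only
            rw [Fin.lastCases_last, MulMemClass.coe_mul, MulMemClass.coe_mul, mul_assoc, h]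
            ring
          · dsimp only
            rw [Fin.lastCases_castSucc, MulMemClass.coe_mul, MulMemClass.coe_mul]
            have := hGH j
            linear_combination (G' : L) * this
      · refine ⟨Fin.last (m + 1), G * G', Fin.lastCases (G * G') fun j => H j * H', ?_, ?_⟩
        · intro hm
          rcases hPp.mem_or_mem hm with h1 | h1
          · exact hG h1
          · exact hG' h1
        · intro j
          refine Fin.lastCases ?_ (fun j => ?_) j
          · dsimp only
            rw [Fin.lastCases_last]
          · dsimp only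
            rw [Fin.lastCases_castSucc, MulMemClass.coe_mul, MulMemClass.coe_mul]
            have := hGH j
            linear_combination (G' : L) * this + (H j : L) * h
  obtain ⟨i, G, H, hG, hGH⟩ := key n f
  exact ⟨i, G, hG, fun j => ⟨H j, hGH j⟩⟩

end Pool.Agent.H50F
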