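import Pool.Agent.H50F.Stm
import Pool.Agent.Helper50R.Dim

/-!
# Project H50F: the homogeneous ideal of a generic point
-/

set_option autoImplicit false

namespace Pool.Agent.H50F

open MvPolynomial Pool.Agent.Helper50R

variable {E Ω : Type} [Field E] [Field Ω] [Algebra E Ω] {n : ℕ}

theorem aeval_smul_hom {P : MvPolynomial (Fin (n + 1)) E} {k : ℕ} (hP : P.IsHomogeneous k) (u : Ω)
    (x : Fin (n + 1) → Ω) : aeval (fun i => u * x i) P = u ^ k * aeval x P := by
  rw [aeval_def, aeval_def, eval₂_eq', eval₂_eq', Finset.mul_sum]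
  refine Finset.sum_congr rfl fun α hα => ?_
  have h1 : ∑ i, α i = k := by
    have := hP (mem_support_iff.1 hα)
    rw [← this, Finsupp.weight_apply, Finsupp.sum_fintype _ _ (fun i => by simp)]
    simp
  have h2 : ∏ i, (u * x i) ^ α i = u ^ k * ∏ i, x i ^ α i := by
    simp only [mul_pow, Finset.prod_mul_distrib]
    rw [Finset.prod_pow_eq_pow_sum, h1]
  rw [h2]
  ring

theorem mem_ker_of_hom {z : Fin (n + 1) → Ω} {P : MvPolynomial (Fin (n + 1)) E} {k : ℕ}
    (hP : P.IsHomogeneous k) (h : aeval z P = 0) : P ∈ RingHom.ker (Phi (K := E) z) := by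
  rw [RingHom.mem_ker, Phi_hom z hP, h, map_zero, zero_mul]

theorem ker_hom (z : Fin (n + 1) → Ω) {P : MvPolynomial (Fin (n + 1)) E}
    (hP : P ∈ RingHom.ker (Phi (K := E) z)) (k : ℕ) :
    homogeneousComponent k P ∈ RingHom.ker (Phi (K := E) z) :=
  mem_ker_of_hom (homogeneousComponent_isHomogeneous k P) (ker_Phi_comp z (RingHom.mem_ker.1 hP) k)

/-- the ratios of the coordinates specialize -/
theorem spec_ratio {z : Fin (n + 1) → Ω} {z' : Fin (n + 1) → E}
    (hI : ∀ P ∈ RingHom.ker (Phi (K := E) z), eval z' P = 0) {j : Fin (n + 1)} (hj : z' j ≠ 0) :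
    z j ≠ 0 ∧ ∀ P : MvPolynomial (Fin (n + 1)) E, aeval (fun i => z i / z j) P = 0 →
      eval (fun i => z' i / z' j) P = 0 := by
  have hzj : z j ≠ 0 := by
    intro h
    have h1 := hI (X j) (mem_ker_of_hom (isHomogeneous_X E j) (by rw [aeval_X, h]))
    rw [eval_X] at h1
    exact hj h1
  refine ⟨hzj, fun P hP => ?_⟩
  set N := P.totalDegree with hN
  set Q : MvPolynomial (Fin (n + 1)) E :=
    ∑ k ∈ Finset.range (N + 1), homogeneousComponent k P * X j ^ (N - k) with hQ
  have hQh : Q.IsHomogeneous N := by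
    refine IsHomogeneous.sum _ _ _ fun k hk => ?_
    have h1 := (homogeneousComponent_isHomogeneous k P).mul (isHomogeneous_X_pow (R := E) j (N - k))
    have h2 : k + (N - k) = N := by
      have := Finset.mem_range.1 hk
      omega
    rwa [h2] at h1
  have key : ∀ (F : Type) [Field F] [Algebra E F] (v : Fin (n + 1) → F), v j ≠ 0 →
      aeval v Q = v j ^ N * aeval (fun i => v i / v j) P := by
    intro F _ _ v hv
    rw [hQ, map_sum]
    conv_rhs => rw [← sum_homogeneousComponent P]
    rw [map_sum, Finset.mul_sum]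
    refine Finset.sum_congr rfl fun k hk => ?_
    have h1 : aeval v (homogeneousComponent k P) =
        v j ^ k * aeval (fun i => v i / v j) (homogeneousComponent k P) := by
      rw [← aeval_smul_hom (homogeneousComponent_isHomogeneous k P)]
      congr 1
      refine congrArg _ (funext fun i => ?_)
      rw [mul_div_cancel₀ _ hv]
    have h2 : k + (N - k) = N := by
      have := Finset.mem_range.1 hk
      omega
    rw [map_mul, map_pow, aeval_X, h1]
    calc v j ^ k * aeval (fun i => v i / v j) (homogeneousComponent k P) * v j ^ (N - k)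
        = v j ^ (k + (N - k)) * aeval (fun i => v i / v j) (homogeneousComponent k P) := by
          rw [pow_add]; ring
      _ = _ := by rw [h2]
  have h1 : aeval z Q = 0 := by
    rw [key Ω z hzj, hP, mul_zero]
  have h2 := hI Q (mem_ker_of_hom hQh h1)
  have h3 := key E z' hj
  rw [aeval_eq_eval, h2, aeval_eq_eval] at h3
  exact (mul_eq_zero.1 h3.symm).resolve_left (pow_ne_zero _ hj)

/-- a binary form which vanishes at a transcendental point -/
theorem binary_zero {ρ : Ω} (hρ : Transcendental E ρ) {P : MvPolynomial (Fin 2) E} {k : ℕ}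
    (hP : P.IsHomogeneous k) (h : aeval ![ρ, 1] P = 0) : P = 0 := by
  classical
  have hdeg : ∀ α ∈ P.support, α 0 + α 1 = k := by
    intro α hα
    have := hP (mem_support_iff.1 hα)
    rw [← this, Finsupp.weight_apply, Finsupp.sum_fintype _ _ (fun i => by simp)]
    simp
  set q : Polynomial E := ∑ α ∈ P.support, Polynomial.monomial (α 0) (coeff α P) with hq
  have h1 : Polynomial.aeval ρ q = 0 := by
    rw [hq, map_sum, ← h, aeval_def, eval₂_eq']
    refine Finset.sum_congr rfl fun α _ => ?_
    rw [Polynomial.aeval_monomial, Fin.prod_univ_two]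
    simp
  have hq0 : q = 0 := by
    by_contra hne
    exact hρ ⟨q, hne, h1⟩
  ext α
  rw [coeff_zero]
  by_contra hα
  have hαs : α ∈ P.support := mem_support_iff.2 hα
  have h2 : q.coeff (α 0) = coeff α P := by
    rw [hq, Polynomial.finsetSum_coeff, Finset.sum_eq_single α]
    · rw [Polynomial.coeff_monomial, if_pos rfl]
    · intro β hβ hne
      rw [Polynomial.coeff_monomial, if_neg]
      intro h3
      apply hne
      ext i
      have h4 := hdeg β hβ
      have h5 := hdeg α hαs
      fin_cases i
      · exact h3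
      · change β 1 = α 1
        omega
    · intro h3
      exact absurd hαs h3
  rw [hq0, Polynomial.coeff_zero] at h2
  exact hα h2.symm

theorem krull_eq_two (htr : Algebra.trdeg E Ω ≤ 1) (z : Fin (n + 1) → Ω)
    (hz : ∃ i j, Transcendental E (z i / z j)) :
    ringKrullDim (MvPolynomial (Fin (n + 1)) E ⧸ RingHom.ker (Phi (K := E) z)) =
      ((1 + 1 : ℕ) : WithBot ℕ∞) := by
  refine le_antisymm (krull_le_two htr z) ?_
  obtain ⟨i, j, hij⟩ := hz
  have hzj : z j ≠ 0 := by
    intro h
    rw [h, div_zero] at hij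
    exact hij isAlgebraic_zero
  have hprime : (RingHom.ker (Phi (K := E) z)).IsPrime := RingHom.ker_isPrime _
  have hdom : IsDomain (MvPolynomial (Fin (n + 1)) E ⧸ RingHom.ker (Phi (K := E) z)) :=
    Ideal.Quotient.isDomain _
  obtain ⟨s, h1, h2⟩ := Pool.Agent.Helper834.EC.exists_ringKrullDim_eq_trdeg E
    (MvPolynomial (Fin (n + 1)) E ⧸ RingHom.ker (Phi (K := E) z))
  rw [h1]
  have hind : AlgebraicIndependent E
      (fun l : Fin 2 => (Ideal.Quotient.mk (RingHom.ker (Phi (K := E) z)) (X (![i, j] l)) :
        MvPolynomial (Fin (n + 1)) E ⧸ RingHom.ker (Phi (K := E) z))) := by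
    refine AlgebraicIndependent.of_comp (Ideal.kerLiftAlg (Phi (K := E) z)) ?_
    rw [algebraicIndependent_iff]
    intro P hP
    have h3 : Phi (K := E) ![z i, z j] P = 0 := by
      rw [← hP]
      unfold Phi
      congr 1
      refine congrArg _ (funext fun l => ?_)
      rw [Function.comp_apply, Ideal.kerLiftAlg_mk]
      rw [aeval_X]
      fin_cases l <;> rfl
    rw [← sum_homogeneousComponent P]
    refine Finset.sum_eq_zero fun k _ => ?_
    have h4 := ker_Phi_comp _ h3 k
    refine binary_zero hij (homogeneousComponent_isHomogeneous k P) ?_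
    have h5 := aeval_smul_hom (homogeneousComponent_isHomogeneous k P) (z j) ![z i / z j, 1]
    have h6 : (fun l => z j * (![z i / z j, 1] : Fin 2 → Ω) l) = ![z i, z j] := by
      funext l
      fin_cases l
      · simp [mul_div_cancel₀ _ hzj]
      · simp
    rw [h6, h4] at h5
    exact (mul_eq_zero.1 h5.symm).resolve_left (pow_ne_zero _ hzj)
  have h3 := hind.cardinalMk_le_trdeg
  rw [h2, Cardinal.mk_fin] at h3
  have h4 : 1 + 1 ≤ s := by exact_mod_cast h3
  exact_mod_cast h4

end Pool.Agent.H50F
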