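import Pool.Agent.H50F.Stm

/-!
# Project H50F, piece LAT, first part: a basis of the lattice
-/

set_option autoImplicit false

namespace Pool.Agent.H50F

open Module

open scoped IntermediateField.algebraAdjoinAdjoin

section

variable {C L : Type} [Field C] [Field L] [Algebra C L] (x : L)

theorem adj_surj' (a : L) (h : a ∈ Algebra.adjoin C {x}) :
    ∃ p : Polynomial C, Polynomial.aeval x p = a := by
  rw [Algebra.adjoin_singleton_eq_range_aeval] at h
  obtain ⟨p, hp⟩ := h
  exact ⟨p, hp⟩

theorem adj_surj (a : Algebra.adjoin C {x}) : ∃ p : Polynomial C, Polynomial.aeval x p = (a : L) :=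
  adj_surj' x a a.2

theorem adj_mem (p : Polynomial C) : Polynomial.aeval x p ∈ Algebra.adjoin C {x} := by
  rw [Algebra.adjoin_singleton_eq_range_aeval]
  exact ⟨p, rfl⟩

theorem adj_pid : IsPrincipalIdealRing (Algebra.adjoin C {x}) := by
  let f : Polynomial C →ₐ[C] Algebra.adjoin C {x} :=
    Polynomial.aeval ⟨x, Algebra.self_mem_adjoin_singleton C x⟩
  refine IsPrincipalIdealRing.of_surjective f.toRingHom ?_
  intro a
  obtain ⟨p, hp⟩ := adj_surj x a
  refine ⟨p, ?_⟩
  apply Subtype.ext
  rw [← hp]
  exact (Polynomial.aeval_algHom_apply (Algebra.adjoin C {x}).val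
    (⟨x, Algebra.self_mem_adjoin_singleton C x⟩ : Algebra.adjoin C {x}) p).symm

theorem poly_mem (M : Submodule C L) (hM : ∀ h ∈ M, x * h ∈ M) (p : Polynomial C) (h : L)
    (hh : h ∈ M) : Polynomial.aeval x p * h ∈ M := by
  induction p using Polynomial.induction_on' with
  | add p q hp hq =>
    rw [map_add, add_mul]
    exact M.add_mem hp hq
  | monomial n a =>
    rw [Polynomial.aeval_monomial, mul_assoc, ← Algebra.smul_def]
    refine M.smul_mem a ?_
    induction n with
    | zero => simpa using hh
    | succ n ih =>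
      rw [pow_succ', mul_assoc]
      exact hM _ ih

/-- `M` as a module over `C[x]`. -/
def asAdj (M : Submodule C L) (hM : ∀ h ∈ M, x * h ∈ M) : Submodule (Algebra.adjoin C {x}) L where
  carrier := M
  add_mem' := fun ha hb => M.add_mem ha hb
  zero_mem' := M.zero_mem
  smul_mem' := by
    intro a h hh
    obtain ⟨p, hp⟩ := adj_surj x a
    have : a • h = Polynomial.aeval x p * h := by
      rw [hp]
      rfl
    rw [this]
    exact poly_mem x M hM p h hh

theorem mem_asAdj (M : Submodule C L) (hM : ∀ h ∈ M, x * h ∈ M) (h : L) :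
    h ∈ asAdj x M hM ↔ h ∈ M := Iff.rfl

theorem exists_basis (hx : Transcendental C x)
    (_hfd : FiniteDimensional (IntermediateField.adjoin C {x}) L)
    (M : Submodule C L) (hM : ∀ h ∈ M, x * h ∈ M)
    (h2 : ∃ (N : ℕ) (b : Fin N → L), ∀ h ∈ M, ∃ q : Fin N → Polynomial C,
        h = ∑ i, Polynomial.aeval x (q i) * b i)
    (h5 : ∀ h : L, ∃ q : Polynomial C, q ≠ 0 ∧ Polynomial.aeval x q * h ∈ M) :
    ∃ e : Fin (Module.finrank (IntermediateField.adjoin C {x}) L) → L,
      (∀ j, e j ∈ M) ∧
      (∀ h ∈ M, ∃ q : Fin (Module.finrank (IntermediateField.adjoin C {x}) L) → Polynomial C,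
        h = ∑ j, Polynomial.aeval x (q j) * e j) ∧
      (∀ q : Fin (Module.finrank (IntermediateField.adjoin C {x}) L) → Polynomial C,
        ∑ j, Polynomial.aeval x (q j) * e j = 0 → q = 0) := by
  classical
  have := adj_pid (C := C) x
  obtain ⟨N, b, hb⟩ := h2
  set M' := asAdj x M hM with hM'
  have hle : M' ≤ Submodule.span (Algebra.adjoin C {x}) (Set.range b) := by
    intro h hh
    obtain ⟨q, hq⟩ := hb h hh
    rw [hq]
    refine Submodule.sum_mem _ fun i _ => ?_
    have : Polynomial.aeval x (q i) * b i =
        (⟨Polynomial.aeval x (q i), adj_mem x (q i)⟩ : Algebra.adjoin C {x}) • b i := rfl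
    rw [this]
    exact Submodule.smul_mem _ _ (Submodule.subset_span ⟨i, rfl⟩)
  have : IsNoetherian (Algebra.adjoin C {x})
      (Submodule.span (Algebra.adjoin C {x}) (Set.range b)) :=
    isNoetherian_span_of_finite _ (Set.finite_range b)
  have : IsNoetherian (Algebra.adjoin C {x}) M' := isNoetherian_of_le hle
  have : Module.Finite (Algebra.adjoin C {x}) M' := inferInstance
  have : Module.Free (Algebra.adjoin C {x}) M' := Module.free_of_finite_type_torsion_free'
  let B := Module.finBasis (Algebra.adjoin C {x}) M'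
  -- the elements of the basis, in `L`
  let e₀ : Fin (Module.finrank (Algebra.adjoin C {x}) M') → L := fun j => (B j : L)
  have hli : LinearIndependent (Algebra.adjoin C {x}) e₀ := by
    have := B.linearIndependent.map' M'.subtype (Submodule.ker_subtype _)
    exact this
  have hliK : LinearIndependent (IntermediateField.adjoin C {x}) e₀ :=
    (LinearIndependent.iff_fractionRing (Algebra.adjoin C {x})
      (IntermediateField.adjoin C {x})).1 hli
  have hgen : ∀ h ∈ M, ∃ q : Fin (Module.finrank (Algebra.adjoin C {x}) M') → Polynomial C,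
      h = ∑ j, Polynomial.aeval x (q j) * e₀ j := by
    intro h hh
    have hs := B.sum_repr ⟨h, hh⟩
    choose q hq using fun j => adj_surj x (B.repr ⟨h, hh⟩ j)
    refine ⟨q, ?_⟩
    have := congrArg (fun z : M' => (z : L)) hs
    simp only [Submodule.coe_sum] at this
    rw [← this]
    refine Finset.sum_congr rfl fun j _ => ?_
    rw [hq j]
    rfl
  have hspan : ⊤ ≤ Submodule.span (IntermediateField.adjoin C {x}) (Set.range e₀) := by
    intro h _
    obtain ⟨q, hq, hqm⟩ := h5 h
    obtain ⟨c, hc⟩ := hgen _ hqm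
    have hq0 : Polynomial.aeval x q ≠ 0 := by
      intro h0
      exact hq ((transcendental_iff.1 hx) q h0)
    have hin : ∀ p : Polynomial C, Polynomial.aeval x p ∈ IntermediateField.adjoin C {x} :=
      fun p => IntermediateField.algebra_adjoin_le_adjoin C {x} (adj_mem x p)
    have e1 : h = (⟨Polynomial.aeval x q, hin q⟩ : IntermediateField.adjoin C {x})⁻¹ •
        (Polynomial.aeval x q * h) := by
      rw [IntermediateField.smul_def]
      simp only [smul_eq_mul]
      push_cast
      field_simp
    rw [e1]
    refine Submodule.smul_mem _ _ ?_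
    rw [hc]
    refine Submodule.sum_mem _ fun j _ => ?_
    have : Polynomial.aeval x (c j) * e₀ j =
        (⟨Polynomial.aeval x (c j), hin (c j)⟩ : IntermediateField.adjoin C {x}) • e₀ j := rfl
    rw [this]
    exact Submodule.smul_mem _ _ (Submodule.subset_span ⟨j, rfl⟩)
  let BK := Module.Basis.mk hliK hspan
  have hcard : Module.finrank (IntermediateField.adjoin C {x}) L =
      Module.finrank (Algebra.adjoin C {x}) M' := by
    rw [Module.finrank_eq_card_basis BK, Fintype.card_fin]
  rw [hcard]
  refine ⟨e₀, fun j => (B j).2, hgen, ?_⟩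
  intro q hq
  have h1 := Fintype.linearIndependent_iff.1 hli
    (fun j => ⟨Polynomial.aeval x (q j), adj_mem x (q j)⟩) hq
  funext j
  have h2 := congrArg (fun z : Algebra.adjoin C {x} => (z : L)) (h1 j)
  exact (transcendental_iff.1 hx) (q j) h2

end

end Pool.Agent.H50F
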