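import Pool.Agent.H50F.Stm3
import Pool.Agent.H50F.Gen1
import Pool.Agent.H50F.LATa
import Pool.Agent.R388.TP.Kummer

/-!
# Project H50F, piece DGE
-/

set_option autoImplicit false

namespace Pool.Agent.H50F

open MvPolynomial Pool.Agent.Helper50R Pool.Agent.Y129.TA

namespace Dge

theorem transcendental_ratFunc (F Ω' : Type) [Field F] [Field Ω'] [Algebra (RatFunc F) Ω']
    [Algebra F Ω'] [IsScalarTower F (RatFunc F) Ω'] :
    Transcendental F (algebraMap (RatFunc F) Ω' RatFunc.X) := by
  rw [transcendental_algebraMap_iff (algebraMap (RatFunc F) Ω').injective]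
  exact RatFunc.transcendental_X

/-- the embedding -/
theorem exists_embedding (E F Ω : Type) [Field E] [Field F] [Algebra E F] [Field Ω] [Algebra E Ω]
    (htr : Algebra.trdeg E Ω ≤ 1) (ρ : Ω) (hρ : Transcendental E ρ) :
    ∃ (Ω' : Type) (_ : Field Ω') (_ : Algebra F Ω') (φ : Ω →+* Ω'),
      (∀ c : E, φ (algebraMap E Ω c) = algebraMap F Ω' (algebraMap E F c)) ∧
      Transcendental F (φ ρ) := by
  let Ω' := AlgebraicClosure (RatFunc F)
  let T' : Ω' := algebraMap (RatFunc F) Ω' RatFunc.X
  have hT' : Transcendental F T' := transcendental_ratFunc F Ω'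
  let g : Polynomial E →+* Ω' :=
    Polynomial.eval₂RingHom ((algebraMap F Ω').comp (algebraMap E F)) T'
  have hg : Function.Injective g := by
    rw [injective_iff_map_eq_zero]
    intro p hp
    have h1 : Polynomial.aeval T' (p.map (algebraMap E F)) = 0 := by
      rw [← hp, Polynomial.aeval_def, Polynomial.eval₂_map]
      rfl
    have h2 := (transcendental_iff.1 hT') _ h1
    exact (Polynomial.map_eq_zero_iff (algebraMap E F).injective).1 h2
  let f : Polynomial E →+* Ω := (Polynomial.aeval ρ : Polynomial E →ₐ[E] Ω).toRingHom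
  have hf : Function.Injective f := by
    rw [injective_iff_map_eq_zero]
    intro p hp
    exact (transcendental_iff.1 hρ) _ hp
  let a1 : Algebra (Polynomial E) Ω := f.toAlgebra
  let a2 : Algebra (Polynomial E) Ω' := g.toAlgebra
  have b1 : FaithfulSMul (Polynomial E) Ω := (faithfulSMul_iff_algebraMap_injective _ _).2 hf
  have b2 : FaithfulSMul (Polynomial E) Ω' := (faithfulSMul_iff_algebraMap_injective _ _).2 hg
  have hbasis : IsTranscendenceBasis E (fun _ : Unit => ρ) := by
    refine AlgebraicIndependent.isTranscendenceBasis_of_trdeg_le_of_finite ?_ ?_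
    · exact (algebraicIndependent_unique_type_iff).2 hρ
    · rw [Cardinal.mk_fintype, Fintype.card_unit, Nat.cast_one]
      exact htr
  have b3 : Algebra.IsAlgebraic (Polynomial E) Ω := by
    constructor
    intro y
    have h1 := hbasis.isAlgebraic.isAlgebraic y
    rw [Set.range_const] at h1
    obtain ⟨p, hp0, hp⟩ := h1
    choose c hc using fun i => adj_surj ρ (p.coeff i)
    refine ⟨∑ i ∈ Finset.range (p.natDegree + 1), Polynomial.monomial i (c i), ?_, ?_⟩
    · intro h0
      have h2 := congrArg (fun q : Polynomial (Polynomial E) => q.coeff p.natDegree) h0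
      simp only [Polynomial.finsetSum_coeff, Polynomial.coeff_zero] at h2
      rw [Finset.sum_eq_single p.natDegree] at h2
      · rw [Polynomial.coeff_monomial, if_pos rfl] at h2
        have h3 := hc p.natDegree
        rw [h2, map_zero] at h3
        apply hp0
        rw [← Polynomial.leadingCoeff_eq_zero]
        exact Subtype.ext h3.symm
      · intro j _ hj
        rw [Polynomial.coeff_monomial, if_neg hj]
      · intro h3
        exact absurd (Finset.mem_range.2 (Nat.lt_succ_self _)) h3
    · rw [map_sum]
      rw [Polynomial.aeval_eq_sum_range] at hp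
      rw [← hp]
      refine Finset.sum_congr rfl fun i _ => ?_
      rw [Polynomial.aeval_monomial]
      have h4 : algebraMap (Polynomial E) Ω (c i) = Polynomial.aeval ρ (c i) := rfl
      rw [h4, hc i]
      rfl
  let φ : Ω →ₐ[Polynomial E] Ω' := IsAlgClosed.lift
  refine ⟨Ω', inferInstance, inferInstance, φ.toRingHom, ?_, ?_⟩
  · intro c
    have h1 : algebraMap E Ω c = algebraMap (Polynomial E) Ω (Polynomial.C c) := by
      change _ = Polynomial.aeval ρ (Polynomial.C c)
      rw [Polynomial.aeval_C]
    have h2 : φ (algebraMap (Polynomial E) Ω (Polynomial.C c)) =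
        algebraMap (Polynomial E) Ω' (Polynomial.C c) := φ.commutes _
    change φ (algebraMap E Ω c) = _
    rw [h1, h2]
    change Polynomial.eval₂ ((algebraMap F Ω').comp (algebraMap E F)) T' (Polynomial.C c) = _
    rw [Polynomial.eval₂_C]
    rfl
  · have h1 : ρ = algebraMap (Polynomial E) Ω Polynomial.X := by
      change _ = Polynomial.aeval ρ Polynomial.X
      rw [Polynomial.aeval_X]
    have h2 : φ (algebraMap (Polynomial E) Ω Polynomial.X) =
        algebraMap (Polynomial E) Ω' Polynomial.X := φ.commutes _
    have h3 : algebraMap (Polynomial E) Ω' Polynomial.X = T' := by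
      change Polynomial.eval₂ ((algebraMap F Ω').comp (algebraMap E F)) T' Polynomial.X = _
      rw [Polynomial.eval₂_X]
    change Transcendental F (φ ρ)
    rw [h1, h2, h3]
    exact hT'

end Dge

attribute [local instance] MvPolynomial.gradedAlgebra

theorem t_DGE : S_DGE := by
  intro E F Ω _ _ _ _ _ _ htr n z hz
  obtain ⟨i, j, hij⟩ := hz
  obtain ⟨Ω', _, _, φ, hφ, hφρ⟩ := Dge.exists_embedding E F Ω htr _ hij
  let z' : Fin (n + 1) → Ω' := fun l => φ (z l)
  have hzj : z' j ≠ 0 := by
    intro h
    have h1 : z j = 0 := (map_eq_zero φ).1 h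
    rw [h1, div_zero] at hij
    exact hij isAlgebraic_zero
  let S : Set (MvPolynomial (Fin (n + 1)) F) := {Q | ∃ (P : MvPolynomial (Fin (n + 1)) E) (k : ℕ),
    P ∈ RingHom.ker (Phi (K := E) z) ∧ P.IsHomogeneous k ∧ Q = MvPolynomial.map (algebraMap E F) P}
  have hIhom : (Ideal.span S).IsHomogeneous (homogeneousSubmodule (Fin (n + 1)) F) := by
    refine Ideal.homogeneous_span _ _ ?_
    rintro _ ⟨P, k, -, hP, rfl⟩
    exact ⟨k, hP.map _⟩
  have hset : {v : Fin (n + 1) → F | ∀ P ∈ RingHom.ker (Phi (K := E) z), aeval v P = 0} =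
      zeroLocus F (Ideal.span S) := by
    ext v
    rw [mem_zeroLocus_iff]
    constructor
    · intro h P hP
      refine Submodule.span_induction (p := fun P _ => aeval v P = 0) ?_ ?_ ?_ ?_ hP
      · rintro _ ⟨Q, k, hQ, -, rfl⟩
        rw [aeval_map_algebraMap]
        exact h Q hQ
      · exact map_zero _
      · intro a b _ _ ha hb
        rw [map_add, ha, hb, add_zero]
      · intro c a _ ha
        rw [smul_eq_mul, map_mul, ha, mul_zero]
    · intro h P hP
      rw [← sum_homogeneousComponent P, map_sum]
      refine Finset.sum_eq_zero fun k _ => ?_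
      have h1 := h (MvPolynomial.map (algebraMap E F) (homogeneousComponent k P))
        (Ideal.subset_span ⟨_, k, ker_hom z hP k, homogeneousComponent_isHomogeneous k P, rfl⟩)
      rwa [aeval_map_algebraMap] at h1
  rw [hset]
  have hprime : (RingHom.ker (Phi (K := F) z')).IsPrime := RingHom.ker_isPrime _
  refine Pool.Agent.R388.TP.dimGE_of_algInd' (P := RingHom.ker (Phi (K := F) z')) ?_
    (fun f hf k => homogeneousComponent_mem_of_mem hIhom hf k)
    (fun l : Fin (1 + 1) => (Ideal.Quotient.mk (RingHom.ker (Phi (K := F) z')) (X (![i, j] l)) :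
        MvPolynomial (Fin (n + 1)) F ⧸ RingHom.ker (Phi (K := F) z'))) ?_
  · rw [Ideal.span_le]
    rintro _ ⟨P, k, hP, hk, rfl⟩
    refine mem_ker_of_hom (k := k) (hk.map _) ?_
    have h1 : aeval z P = 0 := by
      have h2 := RingHom.mem_ker.1 hP
      rw [Phi_hom z hk] at h2
      rcases mul_eq_zero.1 h2 with h3 | h3
      · exact Polynomial.C_eq_zero.1 h3
      · exact absurd h3 (pow_ne_zero _ Polynomial.X_ne_zero)
    have h4 : aeval z' (MvPolynomial.map (algebraMap E F) P) = φ (aeval z P) := by
      rw [aeval_def, eval₂_map, aeval_def, hom_eval₂]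
      congr 1
      ext c
      exact (hφ c).symm
    rw [h4, h1, map_zero]
  · refine AlgebraicIndependent.of_comp (Ideal.kerLiftAlg (Phi (K := F) z')) ?_
    rw [algebraicIndependent_iff]
    intro P hP
    have h3 : Phi (K := F) ![z' i, z' j] P = 0 := by
      rw [← hP]
      unfold Phi
      congr 1
      refine congrArg _ (funext fun l => ?_)
      rw [Function.comp_apply, Ideal.kerLiftAlg_mk]
      rw [aeval_X]
      fin_cases l <;> rfl
    rw [← sum_homogeneousComponent P]
    refine Finset.sum_eq_zero fun k _ => ?_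
    have h4 := ker_Phi_comp _ h3 k
    refine binary_zero hφρ (homogeneousComponent_isHomogeneous k P) ?_
    have h5 := aeval_smul_hom (homogeneousComponent_isHomogeneous k P) (z' j) ![φ (z i / z j), 1]
    have h6 : (fun l => z' j * (![φ (z i / z j), 1] : Fin 2 → Ω') l) = ![z' i, z' j] := by
      funext l
      fin_cases l
      · change z' j * φ (z i / z j) = z' i
        rw [map_div₀]
        exact mul_div_cancel₀ _ hzj
      · simp
    rw [h6, h4] at h5
    exact (mul_eq_zero.1 h5.symm).resolve_left (pow_ne_zero _ hzj)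

end Pool.Agent.H50F
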