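import Pool.Agent.H50F.Stm3

/-!
# Project H50F: Nullstellensatz estimates for systems over `K`
-/

set_option autoImplicit false
set_option linter.unusedSectionVars false

namespace Pool.Agent.H50F

open MvPolynomial Pool.Agent.W476.TP Pool.Agent.Y129.TA Pool.Agent.X271.TQ

variable {p : ℕ} [Fact p.Prime] {C F K : Type} [Field C] [Field F] [CharP F p] [Field K] [Algebra K C]
  [IsAlgClosed C]

/-- each group of coordinates has sup norm one -/
def NrmK (T : TiltPair p C F) {r : ℕ} {m : Fin r → ℕ} (y : Sig m → C) : Prop :=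
  (∀ i, T.absK (y i) ≤ 1) ∧ ∀ κ, ∃ i, T.absK (y ⟨κ, i⟩) = 1

/-- product of chosen coordinates -/
noncomputable def YK (K : Type) [Field K] {r : ℕ} (m : Fin r → ℕ)
    (φ : (κ : Fin r) → Fin (m κ + 1)) : MvPolynomial (Sig m) K :=
  ∏ κ, X (⟨κ, φ κ⟩ : Sig m)

theorem YK_eval {r : ℕ} {m : Fin r → ℕ} (φ : (κ : Fin r) → Fin (m κ + 1)) (y : Sig m → C) :
    aeval y (YK K m φ) = ∏ κ, y ⟨κ, φ κ⟩ := by
  unfold YK
  rw [map_prod]
  simp only [aeval_X]

theorem YK_zero {r : ℕ} {m : Fin r → ℕ} (φ : (κ : Fin r) → Fin (m κ + 1)) (y : Sig m → C)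
    (h : ¬ Rel y) : aeval y (YK K m φ) = 0 := by
  rw [YK_eval]
  unfold Pool.Agent.W476.TP.Rel at h
  push Not at h
  obtain ⟨κ, hκ⟩ := h
  exact Finset.prod_eq_zero (Finset.mem_univ κ) (hκ _)

theorem YK_one (T : TiltPair p C F) {r : ℕ} {m : Fin r → ℕ} {y : Sig m → C} (h : NrmK T y) :
    ∃ φ : (κ : Fin r) → Fin (m κ + 1), T.absK (aeval y (YK K m φ)) = 1 := by
  choose φ hφ using h.2
  refine ⟨φ, ?_⟩
  rw [YK_eval, map_prod]
  exact Finset.prod_eq_one fun κ _ => hφ κ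

/-- a finite family of polynomials vanishing on the common zeros -/
theorem smallF (T : TiltPair p C F) {ι κ θ : Type} [Fintype ι] [Fintype κ] [Finite θ]
    (S : κ → MvPolynomial ι K) (Q : θ → MvPolynomial ι K)
    (hQ : ∀ v : ι → C, (∀ k, aeval v (S k) = 0) → ∀ s, aeval v (Q s) = 0) {η : ℝ}
    (hη : 0 < η) : ∃ δ : ℝ, 0 < δ ∧ ∀ v : ι → C, (∀ i, T.absK (v i) ≤ 1) →
      (∀ k, T.absK (aeval v (S k)) ≤ δ) → ∀ s, T.absK (aeval v (Q s)) ≤ η := by
  choose δ hδ0 hδ using fun s => smallK T S (Q s) (fun v hv => hQ v hv s) hη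
  obtain ⟨d, hd0, hd⟩ : ∃ d : ℝ, 0 < d ∧ ∀ s, d ≤ δ s := by
    rcases isEmpty_or_nonempty θ with hT | hT
    · exact ⟨1, one_pos, fun t => (hT.false t).elim⟩
    · obtain ⟨t0, ht0⟩ := Finite.exists_min δ
      exact ⟨δ t0, hδ0 t0, ht0⟩
  exact ⟨d, hd0, fun v hv hS s => hδ s v hv fun k => (hS k).trans (hd s)⟩

section graph

variable {r c n : ℕ} {m : Fin r → ℕ} (g : Fin c → MvPolynomial (Sig m) K)
  (f : Fin (n + 1) → MvPolynomial (Sig m) K)

/-- the equations of the graph -/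
noncomputable def Gam : Fin c ⊕ Fin (n + 1) → MvPolynomial (Sig m ⊕ Fin (n + 1)) K :=
  Sum.elim (fun j => rename Sum.inl (g j)) fun i => X (Sum.inr i) - rename Sum.inl (f i)

theorem Gam_inl (y : Sig m → C) (ζ : Fin (n + 1) → C) (j : Fin c) :
    aeval (Sum.elim y ζ) (Gam g f (Sum.inl j)) = aeval y (g j) := by
  unfold Gam
  rw [Sum.elim_inl, aeval_rename, Sum.elim_comp_inl]

theorem Gam_inr (y : Sig m → C) (ζ : Fin (n + 1) → C) (i : Fin (n + 1)) :
    aeval (Sum.elim y ζ) (Gam g f (Sum.inr i)) = ζ i - aeval y (f i) := by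
  unfold Gam
  rw [Sum.elim_inr, map_sub, aeval_X, aeval_rename, Sum.elim_comp_inl, Sum.elim_inr]

/-- the point is normalised and nearly on the graph -/
def Nr (T : TiltPair p C F) (δ : ℝ) (y : Sig m → C) (ζ : Fin (n + 1) → C) : Prop :=
  NrmK T y ∧ (∀ i, T.absK (ζ i) ≤ 1) ∧ (∀ j, T.absK (aeval y (g j)) ≤ δ) ∧
    ∀ i, T.absK (ζ i - aeval y (f i)) ≤ δ

theorem Nr.mono {T : TiltPair p C F} {δ δ' : ℝ} (h : δ ≤ δ') {y : Sig m → C}
    {ζ : Fin (n + 1) → C} (hN : Nr g f T δ y ζ) : Nr g f T δ' y ζ :=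
  ⟨hN.1, hN.2.1, fun j => (hN.2.2.1 j).trans h, fun i => (hN.2.2.2 i).trans h⟩

theorem split (v : Sig m ⊕ Fin (n + 1) → C) :
    v = Sum.elim (fun i => v (Sum.inl i)) (fun i => v (Sum.inr i)) := by
  funext i
  rcases i with i | i <;> rfl

/-- lower bound -/
theorem est1 (T : TiltPair p C F)
    (hBF : ∀ y : Sig m → C, Rel y → (∀ j, aeval y (g j) = 0) → ∃ i, aeval y (f i) ≠ 0) :
    ∃ δ : ℝ, 0 < δ ∧ ∀ (y : Sig m → C) (ζ : Fin (n + 1) → C), Nr g f T δ y ζ →
      ∃ i, δ < T.absK (ζ i) := by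
  obtain ⟨δ, hδ0, hδ⟩ := smallF T
    (Sum.elim (Gam g f) (fun i : Fin (n + 1) => X (Sum.inr i)) :
      (Fin c ⊕ Fin (n + 1)) ⊕ Fin (n + 1) → MvPolynomial (Sig m ⊕ Fin (n + 1)) K)
    (fun φ : (κ : Fin r) → Fin (m κ + 1) => rename Sum.inl (YK K m φ))
    (fun v hv φ => by
      rw [split v] at hv ⊢
      rw [aeval_rename, Sum.elim_comp_inl]
      refine YK_zero φ _ fun hrel => ?_
      obtain ⟨i, hi⟩ := hBF _ hrel fun j => by
        have := hv (Sum.inl (Sum.inl j))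
        rwa [Sum.elim_inl, Gam_inl] at this
      have h1 := hv (Sum.inl (Sum.inr i))
      have h2 := hv (Sum.inr i)
      rw [Sum.elim_inl, Gam_inr] at h1
      rw [Sum.elim_inr, aeval_X, Sum.elim_inr] at h2
      rw [h2, zero_sub, neg_eq_zero] at h1
      exact hi h1) (show (0 : ℝ) < 1 / 2 by norm_num)
  refine ⟨δ, hδ0, fun y ζ hN => ?_⟩
  by_contra hcon
  push Not at hcon
  obtain ⟨φ, hφ⟩ := YK_one (K := K) T hN.1
  have := hδ (Sum.elim y ζ) (by
    rintro (i | i)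
    · exact hN.1.1 i
    · exact hN.2.1 i) (by
    rintro ((j | i) | i)
    · rw [Sum.elim_inl, Gam_inl]
      exact hN.2.2.1 j
    · rw [Sum.elim_inl, Gam_inr]
      exact hN.2.2.2 i
    · rw [Sum.elim_inr, aeval_X, Sum.elim_inr]
      exact hcon i) φ
  rw [aeval_rename, Sum.elim_comp_inl, hφ] at this
  norm_num at this

/-- polynomials which vanish on the image are small -/
theorem est2 (T : TiltPair p C F) {κ : Type} [Finite κ] (S : κ → MvPolynomial (Fin (n + 1)) K)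
    (hS : ∀ y : Sig m → C, Rel y → (∀ j, aeval y (g j) = 0) →
      ∀ k, aeval (fun i => aeval y (f i)) (S k) = 0) {ε : ℝ} (hε : 0 < ε) :
    ∃ δ : ℝ, 0 < δ ∧ ∀ (y : Sig m → C) (ζ : Fin (n + 1) → C), Nr g f T δ y ζ →
      ∀ k, T.absK (aeval ζ (S k)) ≤ ε := by
  obtain ⟨δ, hδ0, hδ⟩ := smallF T (Gam g f)
    (fun φ : κ × ((κ : Fin r) → Fin (m κ + 1)) =>
      (rename Sum.inr (S φ.1) * rename Sum.inl (YK K m φ.2) :
        MvPolynomial (Sig m ⊕ Fin (n + 1)) K))
    (fun v hv φ => by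
      rw [split v] at hv ⊢
      rw [map_mul, aeval_rename, aeval_rename, Sum.elim_comp_inl, Sum.elim_comp_inr]
      by_cases hrel : Rel fun i => v (Sum.inl i)
      · have h0 : ∀ j, aeval (fun i => v (Sum.inl i)) (g j) = 0 := fun j => by
          have := hv (Sum.inl j)
          rwa [Gam_inl] at this
        have h1 : (fun i => v (Sum.inr i)) = fun i => aeval (fun i => v (Sum.inl i)) (f i) := by
          funext i
          have := hv (Sum.inr i)
          rw [Gam_inr] at this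
          exact sub_eq_zero.1 this
        rw [h1, hS _ hrel h0, zero_mul]
      · rw [YK_zero φ.2 _ hrel, mul_zero]) hε
  refine ⟨δ, hδ0, fun y ζ hN k => ?_⟩
  obtain ⟨φ, hφ⟩ := YK_one (K := K) T hN.1
  have := hδ (Sum.elim y ζ) (by
    rintro (i | i)
    · exact hN.1.1 i
    · exact hN.2.1 i) (by
    rintro (j | i)
    · rw [Gam_inl]
      exact hN.2.2.1 j
    · rw [Gam_inr]
      exact hN.2.2.2 i) (k, φ)
  rwa [map_mul, aeval_rename, aeval_rename, Sum.elim_comp_inl, Sum.elim_comp_inr, map_mul, hφ,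
    mul_one] at this

/-- two fibres -/
theorem est3 (T : TiltPair p C F) {J : Type} [Finite J] (u u' : J → MvPolynomial (Sig m) K)
    (i₀ j₀ : Fin (n + 1))
    (h : ∀ y y' : Sig m → C, Rel y → Rel y' → (∀ j, aeval y (g j) = 0) →
      (∀ j, aeval y' (g j) = 0) → (∀ j, aeval y (u j) = 0) → (∀ j, aeval y' (u' j) = 0) →
      aeval y (f i₀) * aeval y' (f j₀) ≠ aeval y (f j₀) * aeval y' (f i₀)) :
    ∃ δ : ℝ, 0 < δ ∧ ∀ (y y' : Sig m → C) (ζ ζ' : Fin (n + 1) → C), Nr g f T δ y ζ →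
      Nr g f T δ y' ζ' → (∀ j, aeval y (u j) = 0) → (∀ j, aeval y' (u' j) = 0) →
      ζ i₀ * ζ' j₀ ≠ ζ j₀ * ζ' i₀ := by
  have := Fintype.ofFinite J
  obtain ⟨δ, hδ0, hδ⟩ := smallF T
    (Sum.elim (fun a => rename Sum.inl (Gam g f a)) (Sum.elim (fun a => rename Sum.inr (Gam g f a))
      (Sum.elim (fun j => rename (Sum.inl ∘ Sum.inl) (u j))
        (Sum.elim (fun j => rename (Sum.inr ∘ Sum.inl) (u' j)) fun _ =>
          X (Sum.inl (Sum.inr i₀)) * X (Sum.inr (Sum.inr j₀)) -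
            X (Sum.inl (Sum.inr j₀)) * X (Sum.inr (Sum.inr i₀))))) :
      (Fin c ⊕ Fin (n + 1)) ⊕ ((Fin c ⊕ Fin (n + 1)) ⊕ (J ⊕ (J ⊕ Unit))) →
        MvPolynomial ((Sig m ⊕ Fin (n + 1)) ⊕ (Sig m ⊕ Fin (n + 1))) K)
    (fun φ : ((κ : Fin r) → Fin (m κ + 1)) × ((κ : Fin r) → Fin (m κ + 1)) =>
      rename (Sum.inl ∘ Sum.inl) (YK K m φ.1) * rename (Sum.inr ∘ Sum.inl) (YK K m φ.2))
    (fun v hv φ => by
      obtain ⟨y, hy⟩ : ∃ y : Sig m → C, y = fun i => v (Sum.inl (Sum.inl i)) := ⟨_, rfl⟩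
      obtain ⟨ζ, hζ⟩ : ∃ ζ : Fin (n + 1) → C, ζ = fun i => v (Sum.inl (Sum.inr i)) := ⟨_, rfl⟩
      obtain ⟨y', hy'⟩ : ∃ y : Sig m → C, y = fun i => v (Sum.inr (Sum.inl i)) := ⟨_, rfl⟩
      obtain ⟨ζ', hζ'⟩ : ∃ ζ : Fin (n + 1) → C, ζ = fun i => v (Sum.inr (Sum.inr i)) := ⟨_, rfl⟩
      have hv0 : v = Sum.elim (Sum.elim y ζ) (Sum.elim y' ζ') := by
        rw [hy, hζ, hy', hζ']
        funext i
        rcases i with (i | i) | (i | i) <;> rfl
      rw [hv0] at hv ⊢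
      clear hy hζ hy' hζ' hv0
      rw [map_mul, aeval_rename, aeval_rename]
      have e1 : (Sum.elim (Sum.elim y ζ) (Sum.elim y' ζ')) ∘ (Sum.inl ∘ Sum.inl) = y := rfl
      have e2 : (Sum.elim (Sum.elim y ζ) (Sum.elim y' ζ')) ∘ (Sum.inr ∘ Sum.inl) = y' := rfl
      rw [e1, e2]
      by_cases hrel : Rel y
      · by_cases hrel' : Rel y'
        · exfalso
          have a1 : ∀ a, aeval (Sum.elim y ζ) (Gam g f a) = 0 := fun a => by
            have := hv (Sum.inl a)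
            rwa [Sum.elim_inl, aeval_rename, Sum.elim_comp_inl] at this
          have a2 : ∀ a, aeval (Sum.elim y' ζ') (Gam g f a) = 0 := fun a => by
            have := hv (Sum.inr (Sum.inl a))
            rwa [Sum.elim_inr, Sum.elim_inl, aeval_rename, Sum.elim_comp_inr] at this
          have a3 : ∀ j, aeval y (u j) = 0 := fun j => by
            have := hv (Sum.inr (Sum.inr (Sum.inl j)))
            rwa [Sum.elim_inr, Sum.elim_inr, Sum.elim_inl, aeval_rename, e1] at this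
          have a4 : ∀ j, aeval y' (u' j) = 0 := fun j => by
            have := hv (Sum.inr (Sum.inr (Sum.inr (Sum.inl j))))
            rwa [Sum.elim_inr, Sum.elim_inr, Sum.elim_inr, Sum.elim_inl, aeval_rename, e2] at this
          have a5 := hv (Sum.inr (Sum.inr (Sum.inr (Sum.inr ()))))
          simp only [Sum.elim_inr, Sum.elim_inl, map_sub, map_mul, aeval_X] at a5
          have b1 : ∀ i, ζ i = aeval y (f i) := fun i => by
            have := a1 (Sum.inr i)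
            rw [Gam_inr] at this
            exact sub_eq_zero.1 this
          have b2 : ∀ i, ζ' i = aeval y' (f i) := fun i => by
            have := a2 (Sum.inr i)
            rw [Gam_inr] at this
            exact sub_eq_zero.1 this
          refine h y y' hrel hrel' (fun j => ?_) (fun j => ?_) a3 a4 ?_
          · have := a1 (Sum.inl j)
            rwa [Gam_inl] at this
          · have := a2 (Sum.inl j)
            rwa [Gam_inl] at this
          · rw [← b1, ← b1, ← b2, ← b2]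
            exact sub_eq_zero.1 a5
        · rw [YK_zero φ.2 _ hrel', mul_zero]
      · rw [YK_zero φ.1 _ hrel, zero_mul]) (show (0 : ℝ) < 1 / 2 by norm_num)
  refine ⟨δ, hδ0, fun y y' ζ ζ' hN hN' hu hu' hmin => ?_⟩
  obtain ⟨φ, hφ⟩ := YK_one (K := K) T hN.1
  obtain ⟨φ', hφ'⟩ := YK_one (K := K) T hN'.1
  have e1 : (Sum.elim (Sum.elim y ζ) (Sum.elim y' ζ')) ∘ (Sum.inl ∘ Sum.inl) = y := rfl
  have e2 : (Sum.elim (Sum.elim y ζ) (Sum.elim y' ζ')) ∘ (Sum.inr ∘ Sum.inl) = y' := rfl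
  have h0 : T.absK 0 = 0 := map_zero _
  have := hδ (Sum.elim (Sum.elim y ζ) (Sum.elim y' ζ')) (by
    rintro ((i | i) | (i | i))
    · exact hN.1.1 i
    · exact hN.2.1 i
    · exact hN'.1.1 i
    · exact hN'.2.1 i) (by
    rintro ((j | i) | (j | i) | j | j | w)
    · rw [Sum.elim_inl, aeval_rename, Sum.elim_comp_inl, Gam_inl]
      exact hN.2.2.1 j
    · rw [Sum.elim_inl, aeval_rename, Sum.elim_comp_inl, Gam_inr]
      exact hN.2.2.2 i
    · rw [Sum.elim_inr, Sum.elim_inl, aeval_rename, Sum.elim_comp_inr, Gam_inl]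
      exact hN'.2.2.1 j
    · rw [Sum.elim_inr, Sum.elim_inl, aeval_rename, Sum.elim_comp_inr, Gam_inr]
      exact hN'.2.2.2 i
    · rw [Sum.elim_inr, Sum.elim_inr, Sum.elim_inl, aeval_rename, e1, hu j, h0]
      exact hδ0.le
    · rw [Sum.elim_inr, Sum.elim_inr, Sum.elim_inr, Sum.elim_inl, aeval_rename, e2, hu' j, h0]
      exact hδ0.le
    · simp only [Sum.elim_inr, Sum.elim_inl, map_sub, map_mul, aeval_X]
      rw [hmin, sub_self, h0]
      exact hδ0.le) (φ, φ')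
  rw [map_mul, aeval_rename, aeval_rename, e1, e2, map_mul, hφ, hφ'] at this
  norm_num at this

end graph

end Pool.Agent.H50F
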