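import Pool.Agent.H50F.Stm
import Pool.Agent.W338.TP.Key
import Pool.Agent.W762.TP.Exc
import Pool.Agent.W249.TP.NST

/-!
# Project H50F: common zeros with prescribed `(x_0 : x_1)` (piece EXW)
-/

set_option autoImplicit false

namespace Pool.Agent.H50F

open MvPolynomial Pool.Agent.W476.TP

/-- Two groups of coordinates. -/
def m2 (e : ℕ) : Fin 2 → ℕ := ![1, e]

/-- The substitution. -/
noncomputable def psi {e : ℕ} {Ω : Type} [Field Ω] (x₀ x₁ : Ω) :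
    Sig (m3 e) → MvPolynomial (Sig (m2 e) ⊕ Fin (0 + 1)) Ω
  | ⟨0, i⟩ => C (if i.val = 0 then x₀ else x₁)
  | ⟨1, i⟩ => X (Sum.inl ⟨0, i⟩)
  | ⟨2, j⟩ => X (Sum.inl ⟨1, j⟩)

/-- The weights without the first entry. -/
def LL (d : Fin 3 → ℕ) : Fin 2 → ℕ := fun κ => d κ.succ

theorem psi_hom {e : ℕ} {Ω : Type} [Field Ω] (x₀ x₁ : Ω) (k : ℕ) (β : Fin (e + 1) → ℕ)
    (D : Fin 2 → ℕ) (i : Sig (m3 e)) :
    IsWeightedHomogeneous (wt2 (m2 e) D 0) (psi x₀ x₁ i) (LL (w3 k β i)) := by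
  rcases i with ⟨κ, i⟩
  match κ, i with
  | 0, i =>
    have h : LL (w3 k β ⟨0, i⟩) = 0 := by
      funext κ
      fin_cases κ <;> rfl
    rw [h]
    exact isWeightedHomogeneous_C _ _
  | 1, i =>
    have h : LL (w3 k β ⟨1, i⟩) = wt2 (m2 e) D 0 (Sum.inl ⟨0, i⟩) := by
      funext κ
      fin_cases κ <;> rfl
    rw [h]
    exact isWeightedHomogeneous_X _ _ _
  | 2, i =>
    have h : LL (w3 k β ⟨2, i⟩) = wt2 (m2 e) D 0 (Sum.inl ⟨1, i⟩) := by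
      funext κ
      fin_cases κ <;> rfl
    rw [h]
    exact isWeightedHomogeneous_X _ _ _

theorem LL_sum {ι : Type} (s : Finset ι) (v : ι → Fin 3 → ℕ) :
    LL (∑ i ∈ s, v i) = ∑ i ∈ s, LL (v i) := by
  funext κ
  unfold LL
  rw [Finset.sum_apply, Finset.sum_apply]

theorem aeval_hom {e : ℕ} {Ω : Type} [Field Ω] (x₀ x₁ : Ω) (k : ℕ) (β : Fin (e + 1) → ℕ)
    (D : Fin 2 → ℕ) {F : MvPolynomial (Sig (m3 e)) Ω} {d : Fin 3 → ℕ}
    (hF : IsWeightedHomogeneous (w3 k β) F d) :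
    IsWeightedHomogeneous (wt2 (m2 e) D 0) (aeval (psi x₀ x₁) F) (LL d) := by
  rw [aeval_def, eval₂_eq']
  refine IsWeightedHomogeneous.sum _ _ _ fun α hα => ?_
  have h1 : Finsupp.weight (w3 k β) α = d := hF (mem_support_iff.1 hα)
  have h2 : IsWeightedHomogeneous (wt2 (m2 e) D 0) (∏ i, (psi x₀ x₁ i) ^ α i)
      (∑ i, α i • LL (w3 k β i)) :=
    IsWeightedHomogeneous.prod _ _ _ fun i _ => (psi_hom x₀ x₁ k β D i).pow (α i)
  have h3 : ∑ i, α i • LL (w3 k β i) = LL d := by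
    rw [← h1, Finsupp.weight_apply, Finsupp.sum_fintype _ _ (fun i => by exact zero_smul ℕ _),
      LL_sum]
    rfl
  rw [h3] at h2
  have h4 := (isWeightedHomogeneous_C (wt2 (m2 e) D 0) (F.coeff α)).mul h2
  have h5 : (0 : Fin 2 → ℕ) + LL d = LL d := zero_add _
  rw [h5] at h4
  exact h4

section ev

variable {e : ℕ} {Ω : Type} [Field Ω] (x₀ x₁ : Ω) (v : Sig (m2 e) ⊕ Fin (0 + 1) → Ω)

theorem eval_psi0 : eval v (psi x₀ x₁ (⟨0, (0 : Fin 2)⟩ : Sig (m3 e))) = x₀ := by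
  have h : psi x₀ x₁ (⟨0, (0 : Fin 2)⟩ : Sig (m3 e)) =
    C (if (0 : Fin 2).val = 0 then x₀ else x₁) := rfl
  rw [h, eval_C]
  simp

theorem eval_psi1 : eval v (psi x₀ x₁ (⟨0, (1 : Fin 2)⟩ : Sig (m3 e))) = x₁ := by
  have h : psi x₀ x₁ (⟨0, (1 : Fin 2)⟩ : Sig (m3 e)) =
    C (if (1 : Fin 2).val = 0 then x₀ else x₁) := rfl
  rw [h, eval_C]
  simp

theorem eval_psi2 (i : Fin (m2 e 0 + 1)) :
    eval v (psi x₀ x₁ (⟨1, i⟩ : Sig (m3 e))) = v (Sum.inl ⟨0, i⟩) := by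
  have h : psi x₀ x₁ (⟨1, i⟩ : Sig (m3 e)) = X (Sum.inl ⟨0, i⟩) := rfl
  rw [h, eval_X]

theorem eval_psi3 (i : Fin (m2 e 1 + 1)) :
    eval v (psi x₀ x₁ (⟨2, i⟩ : Sig (m3 e))) = v (Sum.inl ⟨1, i⟩) := by
  have h : psi x₀ x₁ (⟨2, i⟩ : Sig (m3 e)) = X (Sum.inl ⟨1, i⟩) := rfl
  rw [h, eval_X]

theorem eval_aeval_psi (F : MvPolynomial (Sig (m3 e)) Ω) :
    eval v (aeval (psi x₀ x₁) F) = eval (fun i => eval v (psi x₀ x₁ i)) F := by
  rw [aeval_def, eval₂_eq', map_sum, eval_eq']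
  refine Finset.sum_congr rfl fun α _ => ?_
  rw [map_mul, map_prod]
  congr 1
  · change eval v (C _) = _
    rw [eval_C]
  · exact Finset.prod_congr rfl fun i _ => map_pow _ _ _

end ev

theorem card0 (e : ℕ) : (Finset.univ.filter fun j : Fin (e + 1) =>
    (if j = 0 then (0 : Fin 2) else 1) = 0).card ≤ 1 := by
  have h1 : (Finset.univ.filter fun j : Fin (e + 1) =>
      (if j = 0 then (0 : Fin 2) else 1) = 0) = {0} := by
    ext j
    by_cases hj : j = 0 <;> simp [hj]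
  rw [h1, Finset.card_singleton]

theorem card1 (e : ℕ) : (Finset.univ.filter fun j : Fin (e + 1) =>
    (if j = 0 then (0 : Fin 2) else 1) = 1).card ≤ e := by
  have h1 : (Finset.univ.filter fun j : Fin (e + 1) =>
      (if j = 0 then (0 : Fin 2) else 1) = 1) = Finset.univ.erase 0 := by
    ext j
    by_cases hj : j = 0 <;> simp [hj]
  rw [h1, Finset.card_erase_of_mem (Finset.mem_univ _), Finset.card_univ, Fintype.card_fin]
  simp

theorem monicX (D : Fin 2 → ℕ) (e : ℕ) (Ω : Type) [Field Ω] :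
    MonicMH (m := m2 e) D (Polynomial.X : Polynomial (MvPolynomial (Sig (m2 e)) Ω)) 1 := by
  refine ⟨one_pos, Polynomial.monic_X, Polynomial.natDegree_X, ?_⟩
  intro l hl
  rcases Nat.le_one_iff_eq_zero_or_eq_one.1 hl with h | h
  · rw [h, Polynomial.coeff_X_zero]
    exact isWeightedHomogeneous_zero _ _ _
  · rw [h, Polynomial.coeff_X_one, Nat.sub_self, zero_smul]
    exact isWeightedHomogeneous_one _ _

theorem exw_aux (p : ℕ) [Fact p.Prime] (Ω : Type) [Field Ω] [IsAlgClosed Ω] (e k : ℕ)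
    (β : Fin (e + 1) → ℕ) (γ : Fin (e + 1) → ℕ) (s : Fin (e + 1) → ℕ)
    (H : Fin (e + 1) → MvPolynomial (Sig (m3 e)) Ω)
    (hH : ∀ j, IsWeightedHomogeneous (w3 k β) (H j) (p ^ s j • ![γ j, 1, 1])) (x₀ x₁ : Ω) :
    ∃ (y : Sig (m2 e) → Ω) (z : Fin (0 + 1) → Ω), Rel y ∧
      ∀ j, eval (Sum.elim y z) (aeval (psi x₀ x₁) (H j)) = 0 := by
  classical
  have hEXC : S_EXC := W762.TP.t_EXC (W338.TP.t_KEY t_NST)
  have hp : 0 < p := (Fact.out : p.Prime).pos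
  obtain ⟨y, z, hy, -, hyz⟩ := hEXC Ω (n := 0) (m2 e) 1 one_ne_zero (fun _ => Polynomial.X)
    (fun _ => 1) (fun _ => monicX 1 e Ω)
    (Fin (e + 1)) (fun j => aeval (psi x₀ x₁) (H j)) (fun j => LL (p ^ s j • ![γ j, 1, 1]))
    (fun j => aeval_hom x₀ x₁ k β 1 (hH j)) (fun j => if j = 0 then 0 else 1)
    (by
      intro j
      have : 0 < p ^ s j := pow_pos hp _
      by_cases hj : j = 0
      · simp [hj, LL, hp]
      · simp [hj, LL, hp])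
    (by
      intro κ
      match κ with
      | 0 => exact card0 e
      | 1 => exact card1 e)
  exact ⟨y, z, hy, hyz⟩

theorem t_EXW : S_EXW := by
  intro p _ Ω _ _ e k β γ s H hH x₀ x₁ hx
  obtain ⟨y, z, hy, hyz⟩ := exw_aux p Ω e k β γ s H hH x₀ x₁
  refine ⟨fun i => eval (Sum.elim y z) (psi x₀ x₁ i), ?_, eval_psi0 x₀ x₁ _,
    eval_psi1 x₀ x₁ _, fun j => by rw [← eval_aeval_psi, hyz j]⟩
  intro κ
  match κ with
  | 0 =>
    rcases hx with hx | hx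
    · exact ⟨(0 : Fin 2), fun h => hx ((eval_psi0 x₀ x₁ _).symm.trans h)⟩
    · exact ⟨(1 : Fin 2), fun h => hx ((eval_psi1 x₀ x₁ _).symm.trans h)⟩
  | 1 =>
    obtain ⟨i, hi⟩ := hy 0
    exact ⟨i, fun h => hi ((eval_psi2 x₀ x₁ _ i).symm.trans h)⟩
  | 2 =>
    obtain ⟨i, hi⟩ := hy 1
    exact ⟨i, fun h => hi ((eval_psi3 x₀ x₁ _ i).symm.trans h)⟩

end Pool.Agent.H50F
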