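import Pool.Agent.H50F.Stm4

/-!
# Project H50F, phase 2: pieces FIBF, FIBI (helper32)
-/

set_option autoImplicit false

namespace Pool.Agent.H50F

open MvPolynomial Pool.Agent.W476.TP

namespace FibAux

/-- the combination of the `e j` with polynomial coefficients -/
noncomputable def comb {K A : Type} [Field K] [Field A] [Algebra K A] (x : A) {d : ℕ} (e : Fin d → A) :
    (Fin d → Polynomial K) →ₗ[K] A where
  toFun q := ∑ j, Polynomial.aeval x (q j) * e j
  map_add' q q' := by
    rw [← Finset.sum_add_distrib]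
    refine Finset.sum_congr rfl fun j _ => ?_
    rw [Pi.add_apply, map_add, add_mul]
  map_smul' l q := by
    rw [RingHom.id_apply, Finset.smul_sum]
    refine Finset.sum_congr rfl fun j _ => ?_
    rw [Pi.smul_apply, map_smul, smul_mul_assoc]

/-- the combination of the `e j` with constant coefficients -/
noncomputable def combK {K A : Type} [Field K] [Field A] [Algebra K A] {d : ℕ} (e : Fin d → A) :
    (Fin d → K) →ₗ[K] A where
  toFun q := ∑ j, algebraMap K A (q j) * e j
  map_add' q q' := by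
    rw [← Finset.sum_add_distrib]
    refine Finset.sum_congr rfl fun j _ => ?_
    rw [Pi.add_apply, map_add, add_mul]
  map_smul' l q := by
    rw [RingHom.id_apply, Finset.smul_sum]
    refine Finset.sum_congr rfl fun j _ => ?_
    rw [Pi.smul_apply, smul_eq_mul, map_mul, mul_assoc, Algebra.smul_def]

/-- the expansion at infinity -/
theorem expand {K L : Type} [Field K] [Field L] [Algebra K L] {x : L} (hx : x ≠ 0) {W : Submodule K L}
    (hW : ∀ h ∈ W, x⁻¹ * h ∈ W) {b : L} (hb : b ∈ W) (q : Polynomial K) (m : ℤ)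
    (hq : q ≠ 0 → (q.natDegree : ℤ) ≤ m) :
    ∃ u ∈ W, x ^ (-m) * Polynomial.aeval x q * b = algebraMap K L (cz q m) * b + x⁻¹ * u := by
  by_cases h0 : q = 0
  · refine ⟨0, W.zero_mem, ?_⟩
    subst h0
    unfold cz
    split_ifs <;> simp
  have hm := hq h0
  obtain ⟨k, rfl⟩ : ∃ k : ℕ, m = k := ⟨m.toNat, (Int.toNat_of_nonneg (by omega)).symm⟩
  have hk : q.natDegree < k + 1 := by omega
  have hpow : ∀ l : ℕ, (x⁻¹) ^ l * b ∈ W := by
    intro l
    induction l with
    | zero => simpa using hb
    | succ l ih =>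
      rw [pow_succ', mul_assoc]
      exact hW _ ih
  refine ⟨∑ i ∈ Finset.range k, q.coeff i • ((x⁻¹) ^ (k - 1 - i) * b),
    W.sum_mem fun i _ => W.smul_mem _ (hpow _), ?_⟩
  rw [Polynomial.aeval_eq_sum_range' hk, Finset.sum_range_succ]
  have hcz : cz q (k : ℤ) = q.coeff k := by
    unfold cz
    rw [if_pos (by positivity), Int.toNat_natCast]
  rw [hcz, mul_add, add_mul, add_comm]
  congr 1
  · rw [zpow_neg, zpow_natCast, Algebra.smul_def]
    have : x ^ k ≠ 0 := pow_ne_zero _ hx
    field_simp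
  · rw [Finset.mul_sum, Finset.sum_mul, Finset.mul_sum]
    refine Finset.sum_congr rfl fun i hi => ?_
    rw [Finset.mem_range] at hi
    rw [Algebra.smul_def, Algebra.smul_def, zpow_neg, zpow_natCast]
    have e1 : x ^ k = x * x ^ (k - 1 - i) * x ^ i := by
      rw [← pow_succ', ← pow_add]
      congr 1
      omega
    rw [e1, inv_pow]
    field_simp

end FibAux

open FibAux

theorem t_FIBF : S_FIBF := by
  intro K C L _ _ _ _ _ x M W d e a hL c y'
  have hinj : LinearMap.ker (comb (K := K) x e) = ⊥ := by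
    rw [LinearMap.ker_eq_bot']
    intro q hq
    exact hL.ind q hq
  obtain ⟨G, hG⟩ := (comb (K := K) x e).exists_leftInverse_of_injective hinj
  refine ⟨(comb (K := K) c y').comp G, fun q => ?_⟩
  have h1 : G (∑ j, Polynomial.aeval x (q j) * e j) = q := by
    have := congrArg (fun f : (Fin d → Polynomial K) →ₗ[K] (Fin d → Polynomial K) => f q) hG
    exact this
  rw [LinearMap.comp_apply, h1]
  rfl

theorem t_FIBI : S_FIBI := by
  intro K C L _ _ _ _ _ x hx M W hW d e a hL y'
  classical
  -- the submodule `x⁻¹ W`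
  set W' : Submodule K L := W.map (LinearMap.mulLeft K x⁻¹) with hW'
  have hmem : ∀ u ∈ W, x⁻¹ * u ∈ W' := fun u hu => ⟨u, hu, rfl⟩
  set b : Fin d → L := fun j => x ^ (-a j) * e j with hb
  have hinj : LinearMap.ker (W'.mkQ.comp (combK (K := K) b)) = ⊥ := by
    rw [LinearMap.ker_eq_bot']
    intro l hl
    rw [LinearMap.comp_apply, Submodule.mkQ_apply, Submodule.Quotient.mk_eq_zero] at hl
    obtain ⟨u, hu, hux⟩ := hl
    by_contra hne
    obtain ⟨j₁, hj₁⟩ := Function.ne_iff.1 hne
    obtain ⟨j₀, hj₀, hmax⟩ := Finset.exists_max_image (Finset.univ.filter fun j => l j ≠ 0) a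
      ⟨j₁, by simpa using hj₁⟩
    rw [Finset.mem_filter] at hj₀
    set q : Fin d → Polynomial K := fun j =>
      if l j = 0 then 0 else Polynomial.C (l j) * Polynomial.X ^ (a j₀ - a j).toNat with hq
    have hsum : ∑ j, Polynomial.aeval x (q j) * e j = x ^ (a j₀) * ∑ j, algebraMap K L (l j) * b j := by
      rw [Finset.mul_sum]
      refine Finset.sum_congr rfl fun j _ => ?_
      by_cases h0 : l j = 0
      · simp [hq, h0]
      · have hle := hmax j (Finset.mem_filter.2 ⟨Finset.mem_univ _, h0⟩)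
        rw [hq]
        simp only [if_neg h0, map_mul, Polynomial.aeval_C, map_pow, Polynomial.aeval_X, hb]
        have e1 : x ^ (a j₀ - a j).toNat = x ^ (a j₀) * x ^ (- a j) := by
          rw [← zpow_natCast, Int.toNat_of_nonneg (by omega), ← zpow_add₀ hx, sub_eq_add_neg]
        rw [e1]
        ring
    have hux' : x⁻¹ * u = ∑ j, algebraMap K L (l j) * b j := hux
    have hin : x ^ (-(a j₀ - 1)) * ∑ j, Polynomial.aeval x (q j) * e j ∈ W := by
      rw [hsum, ← hux']
      have : x ^ (-(a j₀ - 1)) * (x ^ (a j₀) * (x⁻¹ * u)) = u := by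
        have e2 : x ^ (-(a j₀ - 1)) * x ^ (a j₀) = x := by
          rw [← zpow_add₀ hx]
          have : -(a j₀ - 1) + a j₀ = 1 := by ring
          rw [this, zpow_one]
        rw [← mul_assoc, e2, ← mul_assoc, mul_inv_cancel₀ hx, one_mul]
      rw [this]
      exact hu
    have hne0 : q j₀ ≠ 0 := by
      rw [hq]
      simp only [if_neg hj₀.2, sub_self, Int.toNat_zero, pow_zero, mul_one]
      exact Polynomial.C_ne_zero.2 hj₀.2
    have hd := hL.deg q (a j₀ - 1) hin j₀ hne0
    omega
  obtain ⟨G, hG⟩ := (W'.mkQ.comp (combK (K := K) b)).exists_leftInverse_of_injective hinj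
  set y : L →ₗ[K] C := ((combK (K := K) y').comp G).comp W'.mkQ with hy
  have hy0 : ∀ u ∈ W, y (x⁻¹ * u) = 0 := by
    intro u hu
    rw [hy, LinearMap.comp_apply, Submodule.mkQ_apply, (Submodule.Quotient.mk_eq_zero W').2 (hmem u hu), map_zero]
  have hyb : ∀ l : Fin d → K, y (∑ j, algebraMap K L (l j) * b j) = ∑ j, algebraMap K C (l j) * y' j := by
    intro l
    have h1 := congrArg (fun f : (Fin d → K) →ₗ[K] (Fin d → K) => f l) hG
    have h2 : G (W'.mkQ (∑ j, algebraMap K L (l j) * b j)) = l := h1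
    rw [hy, LinearMap.comp_apply, LinearMap.comp_apply, h2]
    rfl
  refine ⟨y, hy0, ?_⟩
  intro q n hn
  have hdeg := hL.deg q n hn
  have hex : ∀ j, ∃ u ∈ W, x ^ (-(n - a j)) * Polynomial.aeval x (q j) * b j =
      algebraMap K L (cz (q j) (n - a j)) * b j + x⁻¹ * u := fun j =>
    expand hx hW (hL.memW j) (q j) (n - a j) (hdeg j)
  choose u hu hux using hex
  have h3 : x ^ (-n) * ∑ j, Polynomial.aeval x (q j) * e j =
      ∑ j, algebraMap K L (cz (q j) (n - a j)) * b j + x⁻¹ * ∑ j, u j := by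
    rw [Finset.mul_sum, Finset.mul_sum, ← Finset.sum_add_distrib]
    refine Finset.sum_congr rfl fun j _ => ?_
    rw [← hux j, hb]
    simp only
    have e1 : x ^ (-n) = x ^ (-(n - a j)) * x ^ (- a j) := by
      rw [← zpow_add₀ hx]
      congr 1
      ring
    rw [e1]
    ring
  rw [h3, map_add, hyb, hy0 _ (W.sum_mem fun j _ => hu j), add_zero]

end Pool.Agent.H50F
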