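import Pool.Agent.H50F.Pw

/-!
# Project H50F: points of the system and points of the curve
-/

set_option autoImplicit false

namespace Pool.Agent.H50F

variable {K C L : Type} [Field K] [Field C] [Algebra K C] [Field L] [Algebra K L] {x t : L}

theorem x_ne_zero (hx : Transcendental K x) : x ≠ 0 := by
  rintro rfl
  exact hx isAlgebraic_zero

theorem tr_inv (hx : Transcendental K x) : Transcendental K x⁻¹ := fun h =>
  hx (IsAlgebraic.inv_iff.1 h)

theorem adjoin_inv : IntermediateField.adjoin K {x} = IntermediateField.adjoin K {x⁻¹} := by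
  apply le_antisymm
  · rw [IntermediateField.adjoin_simple_le_iff]
    have := inv_mem (IntermediateField.mem_adjoin_simple_self K x⁻¹)
    rwa [inv_inv] at this
  · rw [IntermediateField.adjoin_simple_le_iff]
    exact inv_mem (IntermediateField.mem_adjoin_simple_self K x)

theorem fin_inv (h : FiniteDimensional (IntermediateField.adjoin K {x}) L) :
    FiniteDimensional (IntermediateField.adjoin K {x⁻¹}) L := by
  rw [← adjoin_inv]
  exact h

/-- a point with `x ≠ ∞` -/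
theorem fin_pt (hRPAR : S_RPAR) (hFIBF : S_FIBF) (hx : Transcendental K x)
    (hL : FiniteDimensional (IntermediateField.adjoin K {x}) L) {n : ℕ} {f : Fin (n + 1) → L}
    {W W' : Submodule K L} {d : ℕ} {e h : Fin d → L} {a b : Fin d → ℤ}
    (hM : Lat K x (MR (RR K x t) f) W e a) (hN : Lat K x (NR t (MR (RR K x t) f)) W' h b)
    {A B : Fin d → Fin d → Polynomial K}
    (hA : ∀ i, h i = ∑ j, Polynomial.aeval x (A i j) * e j)
    (hB : ∀ i, t * h i = ∑ j, Polynomial.aeval x (B i j) * e j)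
    {Fp : Fin (n + 1) → Fin d → Polynomial K}
    (hFp : ∀ l, f l = ∑ j, Polynomial.aeval x (Fp l j) * e j)
    {c s₀ w₀ : C} {y' : Fin d → C} (hsw : s₀ ≠ 0 ∨ w₀ ≠ 0) (hy' : y' ≠ 0)
    (hrel : ∀ i, ∑ j, (s₀ * Polynomial.aeval c (B i j) - w₀ * Polynomial.aeval c (A i j)) * y' j =
      0) {v : Fin (n + 1) → C} (hv : ∀ l, v l = ∑ j, Polynomial.aeval c (Fp l j) * y' j) :
    (∃ χ : (RR K x t) →+* C,
      (∀ (l : K) (r : RR K x t), (r : L) = algebraMap K L l → χ r = algebraMap K C l) ∧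
      (∀ r : RR K x t, (r : L) = x → χ r = c) ∧ PtR (RR K x t) f χ v) ∧ v ≠ 0 := by
  classical
  obtain ⟨y, hy⟩ := hFIBF K C L x _ W d e a hM c y'
  have hv' : v = fun l => y (f l) := by
    funext l
    rw [hv, hFp, hy]
  have he : ∀ j, y (e j) = y' j := by
    intro j
    have h1 := hy (Pi.single j 1)
    have h2 : ∑ i, Polynomial.aeval x ((Pi.single j 1 : Fin d → Polynomial K) i) * e i = e j := by
      rw [Finset.sum_eq_single j]
      · rw [Pi.single_eq_same, map_one, one_mul]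
      · intro i _ hi
        rw [Pi.single_eq_of_ne hi, map_zero, zero_mul]
      · intro hj
        exact absurd (Finset.mem_univ j) hj
    have h3 : ∑ i, Polynomial.aeval c ((Pi.single j 1 : Fin d → Polynomial K) i) * y' i = y' j := by
      rw [Finset.sum_eq_single j]
      · rw [Pi.single_eq_same, map_one, one_mul]
      · intro i _ hi
        rw [Pi.single_eq_of_ne hi, map_zero, zero_mul]
      · intro hj
        exact absurd (Finset.mem_univ j) hj
    rw [h2, h3] at h1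
    exact h1
  have h1 : ∀ g ∈ MR (RR K x t) f, y (x * g) = c * y g := by
    intro g hg
    obtain ⟨q, rfl⟩ := hM.gen g hg
    have e1 : x * ∑ j, Polynomial.aeval x (q j) * e j =
        ∑ j, Polynomial.aeval x (Polynomial.X * q j) * e j := by
      rw [Finset.mul_sum]
      refine Finset.sum_congr rfl fun j _ => ?_
      rw [map_mul, Polynomial.aeval_X, mul_assoc]
    rw [e1, hy, hy, Finset.mul_sum]
    refine Finset.sum_congr rfl fun j _ => ?_
    rw [map_mul, Polynomial.aeval_X, mul_assoc]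
  have h2i : ∀ i, s₀ * y (t * h i) = w₀ * y (h i) := by
    intro i
    have e1 : y (h i) = ∑ j, Polynomial.aeval c (A i j) * y' j := by rw [hA, hy]
    have e2 : y (t * h i) = ∑ j, Polynomial.aeval c (B i j) * y' j := by rw [hB, hy]
    rw [e1, e2, ← sub_eq_zero, ← hrel i, Finset.mul_sum, Finset.mul_sum, ← Finset.sum_sub_distrib]
    refine Finset.sum_congr rfl fun j _ => ?_
    ring
  have h2 : ∀ g ∈ MR (RR K x t) f, t * g ∈ MR (RR K x t) f → s₀ * y (t * g) = w₀ * y g := by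
    intro g hg htg
    obtain ⟨q, rfl⟩ := hN.gen g ⟨hg, htg⟩
    rw [Finset.mul_sum, map_sum, map_sum, Finset.mul_sum, Finset.mul_sum]
    refine Finset.sum_congr rfl fun i _ => ?_
    have e1 : t * (Polynomial.aeval x (q i) * h i) = Polynomial.aeval x (q i) * (t * h i) := by ring
    rw [e1, y_aeval h1 _ _ (hN.mem i).1, y_aeval h1 _ _ (hN.mem i).2]
    linear_combination (Polynomial.aeval c (q i)) * h2i i
  have hne : ∃ g ∈ MR (RR K x t) f, y g ≠ 0 := by
    obtain ⟨j, hj⟩ := Function.ne_iff.1 hy'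
    exact ⟨e j, hM.mem j, by rw [he]; exact hj⟩
  obtain ⟨⟨χ, hχ1, hχ2, hχ3⟩, hv0⟩ := pwR (hRPAR K L x t hx hL) hne h1 hsw h2
  rw [hv']
  exact ⟨⟨χ, hχ1, hχ2, hχ3⟩, hv0⟩

/-- a point with `x = ∞` -/
theorem inf_pt (hRPAR : S_RPAR) (hFIBI : S_FIBI) (hx : Transcendental K x)
    (hL : FiniteDimensional (IntermediateField.adjoin K {x}) L) {k n : ℕ} {f : Fin (n + 1) → L}
    {M N : Submodule K L} {d : ℕ} {e h : Fin d → L} {a b : Fin d → ℤ}
    (hM : Lat K x M (MR (RR K x⁻¹ (t * x⁻¹ ^ k)) f) e a)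
    (hN : Lat K x N (NR (t * x⁻¹ ^ k) (MR (RR K x⁻¹ (t * x⁻¹ ^ k)) f)) h b)
    {A B : Fin d → Fin d → Polynomial K}
    (hA : ∀ i, h i = ∑ j, Polynomial.aeval x (A i j) * e j)
    (hB : ∀ i, t * h i = ∑ j, Polynomial.aeval x (B i j) * e j)
    {Fp : Fin (n + 1) → Fin d → Polynomial K}
    (hFp : ∀ l, f l = ∑ j, Polynomial.aeval x (Fp l j) * e j)
    {s₀ w₀ : C} {y' : Fin d → C} (hsw : s₀ ≠ 0 ∨ w₀ ≠ 0) (hy' : y' ≠ 0)
    (hrel : ∀ i, ∑ j, (s₀ * algebraMap K C (cz (B i j) (b i + k - a j)) -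
      w₀ * algebraMap K C (cz (A i j) (b i - a j))) * y' j = 0)
    {v : Fin (n + 1) → C} (hv : ∀ l, v l = ∑ j, algebraMap K C (cz (Fp l j) (-a j)) * y' j) :
    (∃ χ : (RR K x⁻¹ (t * x⁻¹ ^ k)) →+* C,
      (∀ (l : K) (r : RR K x⁻¹ (t * x⁻¹ ^ k)), (r : L) = algebraMap K L l →
        χ r = algebraMap K C l) ∧
      (∀ r : RR K x⁻¹ (t * x⁻¹ ^ k), (r : L) = x⁻¹ → χ r = 0) ∧
      PtR (RR K x⁻¹ (t * x⁻¹ ^ k)) f χ v) ∧ v ≠ 0 := by
  classical
  have hx0 := x_ne_zero hx
  obtain ⟨t', ht'⟩ : ∃ t', t' = t * x⁻¹ ^ k := ⟨_, rfl⟩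
  rw [← ht'] at hM hN ⊢
  obtain ⟨y, hy1, hy2⟩ := hFIBI K C L x hx0 M (MR (RR K x⁻¹ t') f)
    (fun g hg => mem_MR_smul x_mem_RR hg) d e a hM y'
  have hv' : v = fun l => y (f l) := by
    funext l
    have h1 := hy2 (Fp l) 0 (by
      rw [← hFp, neg_zero, zpow_zero, one_mul]
      exact f_mem_MR _ f l)
    rw [← hFp, neg_zero, zpow_zero, one_mul] at h1
    rw [hv, h1]
    refine Finset.sum_congr rfl fun j _ => ?_
    rw [zero_sub]
  have he : ∀ j, y (x ^ (-a j) * e j) = y' j := by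
    intro j
    have h2 : ∑ i, Polynomial.aeval x ((Pi.single j 1 : Fin d → Polynomial K) i) * e i = e j := by
      rw [Finset.sum_eq_single j]
      · rw [Pi.single_eq_same, map_one, one_mul]
      · intro i _ hi
        rw [Pi.single_eq_of_ne hi, map_zero, zero_mul]
      · intro hj
        exact absurd (Finset.mem_univ j) hj
    have h1 := hy2 (Pi.single j 1) (a j) (by rw [h2]; exact hM.memW j)
    rw [h2] at h1
    rw [h1, Finset.sum_eq_single j]
    · rw [Pi.single_eq_same, sub_self]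
      unfold cz
      rw [if_pos le_rfl]
      simp
    · intro i _ hi
      rw [Pi.single_eq_of_ne hi]
      unfold cz
      split_ifs <;> simp
    · intro hj
      exact absurd (Finset.mem_univ j) hj
  have h1 : ∀ g ∈ MR (RR K x⁻¹ t') f, y (x⁻¹ * g) = 0 * y g := by
    intro g hg
    rw [hy1 g hg, zero_mul]
  have hkey : ∀ i, x ^ (-(b i + k)) * (t * h i) = t' * (x ^ (-b i) * h i) := by
    intro i
    have e1 : x ^ (-(b i + (k : ℤ))) = x⁻¹ ^ k * x ^ (-b i) := by
      rw [neg_add, zpow_add₀ hx0, zpow_neg x (k : ℤ), zpow_natCast, inv_pow]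
      ring
    rw [e1, ht']
    ring
  have h2i : ∀ i, s₀ * y (t' * (x ^ (-b i) * h i)) = w₀ * y (x ^ (-b i) * h i) := by
    intro i
    have e1 : y (x ^ (-b i) * h i) = ∑ j, algebraMap K C (cz (A i j) (b i - a j)) * y' j := by
      rw [hA]
      exact hy2 _ _ (by rw [← hA]; exact (hN.memW i).1)
    have e2 : y (t' * (x ^ (-b i) * h i)) =
        ∑ j, algebraMap K C (cz (B i j) (b i + k - a j)) * y' j := by
      rw [← hkey, hB]
      exact hy2 _ _ (by rw [← hB, hkey]; exact (hN.memW i).2)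
    rw [e1, e2, ← sub_eq_zero, ← hrel i, Finset.mul_sum, Finset.mul_sum, ← Finset.sum_sub_distrib]
    refine Finset.sum_congr rfl fun j _ => ?_
    ring
  have h2 : ∀ g ∈ MR (RR K x⁻¹ t') f, t' * g ∈ MR (RR K x⁻¹ t') f →
      s₀ * y (t' * g) = w₀ * y g := by
    intro g hg htg
    obtain ⟨u, g', hg', rfl⟩ := hN.inf g ⟨hg, htg⟩
    rw [mul_add, map_add, map_add, hy1 g' hg'.1]
    have e1 : t' * (x⁻¹ * g') = x⁻¹ * (t' * g') := by ring
    rw [e1, hy1 _ hg'.2, add_zero, add_zero, Finset.mul_sum, map_sum, map_sum, Finset.mul_sum,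
      Finset.mul_sum]
    refine Finset.sum_congr rfl fun i _ => ?_
    have e2 : t' * (algebraMap K L (u i) * (x ^ (-b i) * h i)) =
        u i • (t' * (x ^ (-b i) * h i)) := by
      rw [Algebra.smul_def]
      ring
    rw [e2, ← Algebra.smul_def, map_smul, map_smul, Algebra.smul_def, Algebra.smul_def]
    linear_combination (algebraMap K C (u i)) * h2i i
  have hne : ∃ g ∈ MR (RR K x⁻¹ t') f, y g ≠ 0 := by
    obtain ⟨j, hj⟩ := Function.ne_iff.1 hy'
    exact ⟨x ^ (-a j) * e j, hM.memW j, by rw [he]; exact hj⟩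
  obtain ⟨⟨χ, hχ1, hχ2, hχ3⟩, hv0⟩ := pwR (hRPAR K L x⁻¹ t' (tr_inv hx) (fin_inv hL)) hne h1 hsw h2
  rw [hv']
  exact ⟨⟨χ, hχ1, hχ2, hχ3⟩, hv0⟩

end Pool.Agent.H50F
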