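import Pool.Agent.H50F.Gen3

/-!
# Project H50F: the approximation theorem for determinantal curves
-/

set_option autoImplicit false

namespace Pool.Agent.H50F

open MvPolynomial Pool.Agent.W476.TP Pool.Agent.Helper50R

theorem isW_map {K K' σ M : Type} [Field K] [Field K'] [AddCommMonoid M] (φ : K →+* K')
    {w : σ → M} {P : MvPolynomial σ K} {d : M} (hP : IsWeightedHomogeneous w P d) :
    IsWeightedHomogeneous w (MvPolynomial.map φ P) d := by
  intro α hα
  refine hP (d := α) ?_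
  intro h
  apply hα
  rw [coeff_map, h, map_zero]

theorem isW_C_mul {K σ M : Type} [Field K] [AddCommMonoid M] {w : σ → M} {P : MvPolynomial σ K}
    {d : M} (hP : IsWeightedHomogeneous w P d) (s : K) :
    IsWeightedHomogeneous w (MvPolynomial.C s * P) d := by
  have := (isWeightedHomogeneous_C w s).mul hP
  rwa [zero_add] at this

theorem eval_minor {K : Type} [Field K] {σ τ : Type} (y : σ → K) (y' : τ → K)
    (P₁ P₃ : MvPolynomial σ K) (P₂ P₄ : MvPolynomial τ K) :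
    eval (Sum.elim y y') (rename Sum.inl P₁ * rename Sum.inr P₂ -
      rename Sum.inl P₃ * rename Sum.inr P₄) = eval y P₁ * eval y' P₂ - eval y P₃ * eval y' P₄ := by
  rw [map_sub, map_mul, map_mul, eval_rename, eval_rename, eval_rename, eval_rename,
    Sum.elim_comp_inl, Sum.elim_comp_inr]

variable {p : ℕ} [Fact p.Prime] {C E : Type} [NormedField C] [IsUltrametricDist C] [IsAlgClosed C]
  [Field E] [CharP E p] [IsAlgClosed E]

/-- **The approximation theorem**: images of the zero sets of `e + 1` forms of degrees `(γ j, 1, 1)` under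
forms of degree `(d, 0, 1)`. -/
theorem gen (hCOREW : S_COREW) (hSPW : S_SPW) (hEXW : S_EXW) (S : Sharp p C E)
    (hp0 : 0 < ‖(p : C)‖) (hp1 : ‖(p : C)‖ < 1) {e k n d : ℕ} {β γ : Fin (e + 1) → ℕ}
    (g : Fin (e + 1) → MvPolynomial (Sig (m3 e)) C)
    (hg : ∀ j, IsWeightedHomogeneous (w3 k β) (g j) ![γ j, 1, 1])
    (F : Fin (n + 1) → MvPolynomial (Sig (m3 e)) C)
    (hF : ∀ i, IsWeightedHomogeneous (w3 k β) (F i) ![d, 0, 1])
    (hBF : ∀ y : Sig (m3 e) → C, Rel y → (∀ j, eval y (g j) = 0) → ∃ i, eval y (F i) ≠ 0)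
    (Q : Finset (MvPolynomial (Fin (n + 1)) C))
    (hQ : ∀ P ∈ Q, (∃ k, P.IsHomogeneous k) ∧ ∀ y : Sig (m3 e) → C, Rel y →
      (∀ j, eval y (g j) = 0) → eval (fun i => eval y (F i)) P = 0)
    (hNC : ∃ (i₀ j₀ : Fin (n + 1)) (a b : C), ∀ y y' : Sig (m3 e) → C, Rel y → Rel y' →
      y ⟨0, (1 : Fin 2)⟩ = a * y ⟨0, (0 : Fin 2)⟩ → y' ⟨0, (1 : Fin 2)⟩ = b * y' ⟨0, (0 : Fin 2)⟩ →
      (∀ j, eval y (g j) = 0) → (∀ j, eval y' (g j) = 0) →
      eval y (F i₀) * eval y' (F j₀) ≠ eval y (F j₀) * eval y' (F i₀))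
    (ε : ℝ) (hε : 0 < ε) : Concl S Q ε := by
  classical
  have hpC : (p : C) ≠ 0 := norm_pos_iff.1 hp0
  -- scaling
  obtain ⟨s, hs0, hs⟩ := exists_scale hpC hp1 (Sum.elim g F)
  set g' : Fin (e + 1) → MvPolynomial (Sig (m3 e)) C := fun j => MvPolynomial.C s * g j with hg'
  set F' : Fin (n + 1) → MvPolynomial (Sig (m3 e)) C := fun i => MvPolynomial.C s * F i with hF'
  have eg' : ∀ y j, eval y (g' j) = s * eval y (g j) := by
    intro y j
    rw [hg']
    simp only [map_mul, eval_C]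
  have eF' : ∀ y i, eval y (F' i) = s * eval y (F i) := by
    intro y i
    rw [hF']
    simp only [map_mul, eval_C]
  have hg'0 : ∀ y : Sig (m3 e) → C, (∀ j, eval y (g' j) = 0) ↔ ∀ j, eval y (g j) = 0 := by
    intro y
    refine forall_congr' fun j => ?_
    rw [eg', mul_eq_zero, or_iff_right hs0]
  -- lower bound
  obtain ⟨δ0, hδ0, hδ0'⟩ := W351.TP.t_NZ C (m3 e) (Fin (e + 1) ⊕ Fin (n + 1)) (Sum.elim g' F') (by
    intro y hy
    by_cases h : ∀ j, eval y (g' j) = 0
    · obtain ⟨i, hi⟩ := hBF y hy ((hg'0 y).1 h)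
      refine ⟨Sum.inr i, ?_⟩
      rw [Sum.elim_inr, eF']
      exact mul_ne_zero hs0 hi
    · push Not at h
      obtain ⟨j, hj⟩ := h
      exact ⟨Sum.inl j, hj⟩)
  set δ1 : ℝ := min δ0 1 with hδ1d
  have hδ1 : 0 < δ1 := lt_min hδ0 one_pos
  have hδ1' : δ1 ≤ 1 := min_le_right _ _
  have hδ : ∀ y : Sig (m3 e) → C, Nrm y →
      (∃ j, δ1 ≤ ‖eval y (g' j)‖) ∨ ∃ i, δ1 ≤ ‖eval y (F' i)‖ := by
    intro y hy
    obtain ⟨j | i, hj⟩ := hδ0' y hy
    · exact Or.inl ⟨j, (min_le_left _ _).trans hj⟩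
    · exact Or.inr ⟨i, (min_le_left _ _).trans hj⟩
  -- two fibres
  obtain ⟨i₀, j₀, a, b, hNC⟩ := hNC
  obtain ⟨δ3, hδ3, hδ3'⟩ := nc_est
    (Sum.elim g' fun _ : Unit => X ⟨0, (1 : Fin 2)⟩ - MvPolynomial.C a * X ⟨0, (0 : Fin 2)⟩)
    (Sum.elim g' fun _ : Unit => X ⟨0, (1 : Fin 2)⟩ - MvPolynomial.C b * X ⟨0, (0 : Fin 2)⟩)
    (rename Sum.inl (F' i₀) * rename Sum.inr (F' j₀) -
      rename Sum.inl (F' j₀) * rename Sum.inr (F' i₀)) (by
    intro y y' hy hy' h1 h2
    have h3 := h1 (Sum.inr ())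
    have h4 := h2 (Sum.inr ())
    simp only [Sum.elim_inr, map_sub, map_mul, eval_X, eval_C] at h3 h4
    have h5 := hNC y y' hy hy' (sub_eq_zero.1 h3) (sub_eq_zero.1 h4)
      ((hg'0 y).1 fun j => h1 (Sum.inl j)) ((hg'0 y').1 fun j => h2 (Sum.inl j))
    rw [eval_minor, eF', eF', eF', eF', sub_ne_zero]
    intro h6
    apply h5
    have h7 : s * s * (eval y (F i₀) * eval y' (F j₀)) =
        s * s * (eval y (F j₀) * eval y' (F i₀)) := by
      linear_combination h6
    exact mul_left_cancel₀ (mul_ne_zero hs0 hs0) h7)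
  -- the approximating system
  set B := Q.sup totalDegree with hB
  obtain ⟨H, s', G, t, hH, hG, hcore⟩ := hCOREW p C E S hp0 hp1 (m3 e) (w3 k β) tri_w3 g'
    (fun j => ![γ j, 1, 1]) (fun j => isW_C_mul (hg j) s) (by
      intro j α
      rw [hg']
      simp only [coeff_C_mul]
      exact hs (Sum.inl j) α) F' ![d, 0, 1] (fun i => isW_C_mul (hF i) s) (by
      intro i α
      rw [hF']
      simp only [coeff_C_mul]
      exact hs (Sum.inr i) α) (by
      intro h
      have : (1 : ℕ) = 0 := congrFun h 2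
      exact absurd this one_ne_zero) δ1 hδ1 hδ Q (by
      intro P hP y hy hy2
      obtain ⟨⟨l, hl⟩, h1⟩ := hQ P hP
      have h2 : (fun i => eval y (F' i)) = fun i => s * eval y (F i) := by
        funext i
        rw [eF']
      rw [h2, eval_smul_hom hl, h1 y hy ((hg'0 y).1 hy2), mul_zero])
    (ε * δ1 ^ B) (min δ3 δ1) (by positivity) (lt_min hδ3 hδ1)
  have hest : Est S (w3 k β) g' F' ![d, 0, 1] δ1 (min δ3 δ1) (ε * δ1 ^ B) Q H G := hcore
  -- the generic solution
  obtain ⟨y, hy, hy0, hy1, hyH⟩ := hEXW p (Om E) e k β γ s'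
    (fun j => MvPolynomial.map (algebraMap E (Om E)) (H j)) (fun j => isW_map _ (hH j)) 1 (tau E)
    (Or.inl one_ne_zero)
  have hroot : ∀ i, ∃ z : Om E,
      ev ((G i).map (MvPolynomial.map (algebraMap E (Om E)))) y z = 0 := by
    intro i
    unfold Pool.Agent.W476.TP.ev
    rw [Polynomial.map_map]
    have hmon : ((G i).map ((MvPolynomial.eval y).comp
        (MvPolynomial.map (algebraMap E (Om E))))).Monic := (hG i).2.1.map _
    have hdeg : ((G i).map ((MvPolynomial.eval y).comp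
        (MvPolynomial.map (algebraMap E (Om E))))).natDegree = t i := by
      rw [(hG i).2.1.natDegree_map, (hG i).2.2.1]
    obtain ⟨z, hz⟩ := IsAlgClosed.exists_root _ (by
      rw [Polynomial.degree_eq_natDegree hmon.ne_zero, hdeg]
      have := (hG i).1
      exact_mod_cast this.ne' : ((G i).map ((MvPolynomial.eval y).comp
        (MvPolynomial.map (algebraMap E (Om E))))).degree ≠ 0)
    exact ⟨z, hz⟩
  choose z hyG using hroot
  -- some coordinate is not zero
  have hz0 : ∃ j, z j ≠ 0 := by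
    by_contra hcon
    push Not at hcon
    obtain ⟨lam, y₀, z₀, hlam, hy₀, hy₀H, hy₀G, hrel⟩ := hSPW E (Om E) (m3 e) (w3 k β) tri_w3 H _
      hH G _ t hG Unit (fun _ => tau E) (fun _ => 0) (by
        intro P hP
        have h1 : AlgebraicIndependent E (fun _ : Unit => tau E) :=
          algebraicIndependent_unique_type_iff.2 (tau_transcendental E)
        have h2 : P = 0 := h1.eq_zero_of_aeval_eq_zero P hP
        rw [h2, map_zero]) y z hy hyH hyG
    obtain ⟨lam', hlam', hN, h1, ⟨i, h2⟩, h3, h4, h5⟩ := hest y₀ z₀ hy₀ hy₀H hy₀G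
    have h6 := hrel (X (Sum.inr (Sum.inr i))) (by
      rw [aeval_X, Sum.elim_inr, Sum.elim_inr, hcon i, mul_zero])
    rw [eval_X, Sum.elim_inr, Sum.elim_inr] at h6
    rw [h6, mul_zero, map_zero, norm_zero] at h2
    exact absurd h2 (not_le.2 hδ1)
  obtain ⟨j₁, hj₁⟩ := hz0
  -- the generic point is not constant
  have htrans : ∃ i j, Transcendental E (z i / z j) := by
    by_contra hcon
    push Not at hcon
    have halg : ∀ i, ∃ c : E, z i = algebraMap E (Om E) c * z j₁ := by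
      intro i
      have h1 : IsAlgebraic E (z i / z j₁) := by
        have := hcon i j₁
        rwa [Transcendental, not_not] at this
      obtain ⟨c, hc⟩ := minpoly.mem_range_of_degree_eq_one E (z i / z j₁)
        (IsAlgClosed.degree_eq_one_of_irreducible E (minpoly.irreducible h1.isIntegral))
      refine ⟨c, ?_⟩
      rw [hc, div_mul_cancel₀ _ hj₁]
    choose cc hcc using halg
    obtain ⟨a', ha'⟩ := S.surj a
    obtain ⟨b', hb'⟩ := S.surj b
    obtain ⟨Y, ζ, hY, hY1, hY2, hY3, hY4⟩ := value hSPW S hH hG hest hy hy0 hy1 hyH hyG hcc a'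
    obtain ⟨Y', ζ', hY', hY1', hY2', hY3', hY4'⟩ :=
      value hSPW S hH hG hest hy hy0 hy1 hyH hyG hcc b'
    have hmin : min δ3 δ1 ≤ δ3 := min_le_left _ _
    have h1 := hδ3' Y Y' hY hY' (by
      rintro (j | u)
      · exact (hY2 j).trans hmin
      · simp only [Sum.elim_inr, map_sub, map_mul, eval_X, eval_C]
        rw [hY1, ha', sub_self, norm_zero]
        exact hδ3.le) (by
      rintro (j | u)
      · exact (hY2' j).trans hmin
      · simp only [Sum.elim_inr, map_sub, map_mul, eval_X, eval_C]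
        rw [hY1', hb', sub_self, norm_zero]
        exact hδ3.le)
    rw [eval_minor] at h1
    -- bounds
    have hb1 : ∀ (Z : Sig (m3 e) → C) (ξ : C), (∀ i, ‖S.sh (cc i) * ξ‖ ≤ 1) →
        (∀ i, ‖S.sh (cc i) * ξ - eval Z (F' i)‖ ≤ min δ3 δ1) → ∀ i, ‖eval Z (F' i)‖ ≤ 1 := by
      intro Z ξ q1 q2 i
      have q3 : eval Z (F' i) = S.sh (cc i) * ξ - (S.sh (cc i) * ξ - eval Z (F' i)) := by ring
      rw [q3, sub_eq_add_neg]
      refine (IsUltrametricDist.norm_add_le_max _ _).trans (max_le (q1 i) ?_)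
      rw [norm_neg]
      exact (q2 i).trans ((min_le_right _ _).trans hδ1')
    have hb2 : ∀ i j, ‖eval Y (F' i) * eval Y' (F' j) -
        (S.sh (cc i) * ζ) * (S.sh (cc j) * ζ')‖ ≤ min δ3 δ1 := by
      intro i j
      have q3 : eval Y (F' i) * eval Y' (F' j) - (S.sh (cc i) * ζ) * (S.sh (cc j) * ζ') =
          -((S.sh (cc i) * ζ - eval Y (F' i)) * eval Y' (F' j)) +
            -((S.sh (cc i) * ζ) * (S.sh (cc j) * ζ' - eval Y' (F' j))) := by ring
      rw [q3]
      refine (IsUltrametricDist.norm_add_le_max _ _).trans (max_le ?_ ?_)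
      · rw [norm_neg, norm_mul]
        have := mul_le_mul (hY4 i) (hb1 Y' ζ' hY3' hY4' j) (norm_nonneg _) (by positivity)
        rwa [mul_one] at this
      · rw [norm_neg, norm_mul]
        have := mul_le_mul (hY3 i) (hY4' j) (norm_nonneg _) zero_le_one
        rwa [one_mul] at this
    have h2 : ‖eval Y (F' i₀) * eval Y' (F' j₀) - eval Y (F' j₀) * eval Y' (F' i₀)‖ ≤
        min δ3 δ1 := by
      have q3 : eval Y (F' i₀) * eval Y' (F' j₀) - eval Y (F' j₀) * eval Y' (F' i₀) =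
          (eval Y (F' i₀) * eval Y' (F' j₀) - (S.sh (cc i₀) * ζ) * (S.sh (cc j₀) * ζ')) +
            -(eval Y (F' j₀) * eval Y' (F' i₀) - (S.sh (cc j₀) * ζ) * (S.sh (cc i₀) * ζ')) := by
        ring
      rw [q3]
      refine (IsUltrametricDist.norm_add_le_max _ _).trans (max_le (hb2 _ _) ?_)
      rw [norm_neg]
      exact hb2 _ _
    exact absurd h1 (not_lt.2 (h2.trans hmin))
  refine ⟨RingHom.ker (Phi (K := E) z), fun P hP l => ker_hom z hP l,
    krull_eq_two (trdeg_Om E) z htrans, ?_⟩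
  intro z' hz' hz'I P hP l hl
  by_cases hP0 : P = 0
  · refine ⟨0, ?_⟩
    rw [hP0, map_zero, norm_zero]
    positivity
  obtain ⟨j₂, hj₂⟩ := Function.ne_iff.1 hz'
  rw [Pi.zero_apply] at hj₂
  obtain ⟨hzj₂, hspec⟩ := spec_ratio hz'I hj₂
  obtain ⟨lam, y₀, z₀, hlam, hy₀, hy₀H, hy₀G, hrel⟩ := hSPW E (Om E) (m3 e) (w3 k β) tri_w3 H _
    hH G _ t hG (Fin (n + 1)) (fun i => z i / z j₂) (fun i => z' i / z' j₂) hspec y z hy hyH hyG
  obtain ⟨lam', hlam', hN, h1, ⟨i, h2⟩, h3, h4, h5⟩ := hest y₀ z₀ hy₀ hy₀H hy₀G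
  have r1 : ∀ i, z₀ i = z' i / z' j₂ * z₀ j₂ := by
    intro i
    have := hrel (X (Sum.inr (Sum.inr i)) - X (Sum.inl i) * X (Sum.inr (Sum.inr j₂))) (by
      simp only [map_sub, map_mul, aeval_X, Sum.elim_inr, Sum.elim_inl]
      field_simp
      ring)
    simp only [map_sub, map_mul, eval_X, Sum.elim_inr, Sum.elim_inl] at this
    exact sub_eq_zero.1 this
  set u : E := sp lam' ![d, 0, 1] * (z₀ j₂ / z' j₂) with hu
  have r2 : ∀ i, sp lam' ![d, 0, 1] * z₀ i = u * z' i := by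
    intro i
    rw [r1 i, hu]
    ring
  have hu0 : u ≠ 0 := by
    intro h
    rw [r2, h, zero_mul, map_zero, norm_zero] at h2
    exact absurd h2 (not_le.2 hδ1)
  have h6 := h5 P hP
  simp only [r2] at h6
  rw [r2] at h2
  have hkB : l ≤ B := by
    rw [← hl.totalDegree hP0]
    exact Finset.le_sup hP
  exact ⟨i, close_hom S hl hkB hε hδ1 hδ1' hu0 h6 h2⟩

end Pool.Agent.H50F
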