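import Pool.Agent.H50F.EstK
import Pool.Agent.H50F.Gen4
import Pool.Agent.X271.TmCore

/-!
# Project H50F: the generic point argument over a perfectoid field
-/

set_option autoImplicit false
set_option linter.unusedSectionVars false

namespace Pool.Agent.H50F

open MvPolynomial Pool.Agent.W476.TP Pool.Agent.Helper50R Pool.Agent.Y129.TA Pool.Agent.X271.TQ
open Pool.Agent.Y129.TB (IsConeOver DimLEOver BaseField Approximable)

section curve

variable {E F Ω : Type} [Field E] [Field F] [Algebra E F] [Field Ω] [Algebra E Ω] {n : ℕ}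

theorem mem_curve (z : Fin (n + 1) → Ω) (v : Fin (n + 1) → F) :
    (∀ P ∈ RingHom.ker (Phi (K := E) z), aeval v P = 0) ↔
      ∀ (P : MvPolynomial (Fin (n + 1)) E) (l : ℕ), P.IsHomogeneous l → aeval z P = 0 →
        aeval v P = 0 := by
  constructor
  · intro h P l hl hP
    exact h P (mem_ker_of_hom hl hP)
  · intro h P hP
    rw [← sum_homogeneousComponent P, map_sum]
    exact Finset.sum_eq_zero fun l _ => h _ l (homogeneousComponent_isHomogeneous l P)
      (ker_Phi_comp z (RingHom.mem_ker.1 hP) l)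

theorem curve_cone [IsAlgClosed F] (z : Fin (n + 1) → Ω) :
    IsConeOver E {v : Fin (n + 1) → F | ∀ P ∈ RingHom.ker (Phi (K := E) z), aeval v P = 0} := by
  refine ⟨⟨RingHom.ker (Phi (K := E) z), ?_⟩, ?_⟩
  · ext v
    rw [mem_zeroLocus_iff]
    rfl
  · intro a v hv
    have h1 := (mem_curve z v).1 hv
    refine (mem_curve z (a • v)).2 fun P l hl hP => ?_
    rw [hom_smul hl, h1 P l hl hP, mul_zero]

/-- the ratios of the coordinates specialize -/
theorem spec_ratioF {z : Fin (n + 1) → Ω} {z' : Fin (n + 1) → F}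
    (hI : ∀ P ∈ RingHom.ker (Phi (K := E) z), aeval z' P = 0) {j : Fin (n + 1)} (hj : z' j ≠ 0) :
    z j ≠ 0 ∧ ∀ P : MvPolynomial (Fin (n + 1)) E, aeval (fun i => z i / z j) P = 0 →
      aeval (fun i => z' i / z' j) P = 0 := by
  have hzj : z j ≠ 0 := by
    intro h
    have h1 := hI (X j) (mem_ker_of_hom (isHomogeneous_X E j) (by rw [aeval_X, h]))
    rw [aeval_X] at h1
    exact hj h1
  refine ⟨hzj, fun P hP => ?_⟩
  set N := P.totalDegree with hN
  set Q : MvPolynomial (Fin (n + 1)) E :=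
    ∑ k ∈ Finset.range (N + 1), homogeneousComponent k P * X j ^ (N - k) with hQ
  have hQh : Q.IsHomogeneous N := by
    refine IsHomogeneous.sum _ _ _ fun k hk => ?_
    have h1 := (homogeneousComponent_isHomogeneous k P).mul (isHomogeneous_X_pow (R := E) j (N - k))
    have h2 : k + (N - k) = N := by
      have := Finset.mem_range.1 hk
      omega
    rwa [h2] at h1
  have key : ∀ (F : Type) [Field F] [Algebra E F] (v : Fin (n + 1) → F), v j ≠ 0 →
      aeval v Q = v j ^ N * aeval (fun i => v i / v j) P := by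
    intro F _ _ v hv
    rw [hQ, map_sum]
    conv_rhs => rw [← sum_homogeneousComponent P]
    rw [map_sum, Finset.mul_sum]
    refine Finset.sum_congr rfl fun k hk => ?_
    have h1 : aeval v (homogeneousComponent k P) =
        v j ^ k * aeval (fun i => v i / v j) (homogeneousComponent k P) := by
      rw [← aeval_smul_hom (homogeneousComponent_isHomogeneous k P)]
      congr 1
      refine congrArg _ (funext fun i => ?_)
      rw [mul_div_cancel₀ _ hv]
    have h2 : k + (N - k) = N := by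
      have := Finset.mem_range.1 hk
      omega
    rw [map_mul, map_pow, aeval_X, h1]
    calc v j ^ k * aeval (fun i => v i / v j) (homogeneousComponent k P) * v j ^ (N - k)
        = v j ^ (k + (N - k)) * aeval (fun i => v i / v j) (homogeneousComponent k P) := by
          rw [pow_add]; ring
      _ = _ := by rw [h2]
  have h1 : aeval z Q = 0 := by
    rw [key Ω z hzj, hP, mul_zero]
  have h2 := hI Q (mem_ker_of_hom hQh h1)
  have h3 := key F z' hj
  rw [h2] at h3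
  exact (mul_eq_zero.1 h3.symm).resolve_left (pow_ne_zero _ hj)

end curve

variable {p : ℕ} [Fact p.Prime] {C F K E L : Type} [Field C] [Field F] [CharP F p] [Field K]
  [Field E] [Algebra K C] [Algebra E F] [IsAlgClosed C] [IsAlgClosed F] [Field L] [Algebra K L]

/-- what the approximating system satisfies -/
def EstSys (T : TiltPair p C F) {e n c : ℕ} (w : Sig (m3 e) → Fin 3 → ℕ)
    (g : Fin c → MvPolynomial (Sig (m3 e)) K) (f : Fin (n + 1) → MvPolynomial (Sig (m3 e)) K)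
    (D : Fin 3 → ℕ) (δ : ℝ) (H : Fin c → MvPolynomial (Sig (m3 e)) E)
    (G : Fin (n + 1) → Polynomial (MvPolynomial (Sig (m3 e)) E)) : Prop :=
  ∀ (y : Sig (m3 e) → F) (z : Fin (n + 1) → F), Rel y →
    (∀ j, eval y (MvPolynomial.map (algebraMap E F) (H j)) = 0) →
    (∀ i, ev ((G i).map (MvPolynomial.map (algebraMap E F))) y (z i) = 0) →
    ∃ lam : Fin 3 → F, (∀ κ, lam κ ≠ 0) ∧
      Nr g f T δ (fun i => T.sharp (act w lam y i)) (fun i => T.sharp (sp lam D * z i))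

/-- specialization of the generic solution -/
theorem specK (hSPW2 : S_SPW2) {T : TiltPair p C F} {e k n c : ℕ} {β : Fin (e + 1) → ℕ}
    {g : Fin c → MvPolynomial (Sig (m3 e)) K} {f : Fin (n + 1) → MvPolynomial (Sig (m3 e)) K}
    {D : Fin 3 → ℕ} {δ : ℝ} {H : Fin c → MvPolynomial (Sig (m3 e)) E} {b : Fin c → Fin 3 → ℕ}
    (hH : ∀ j, IsWeightedHomogeneous (w3 k β) (H j) (b j))
    {G : Fin (n + 1) → Polynomial (MvPolynomial (Sig (m3 e)) E)} {t : Fin (n + 1) → ℕ}
    (hG : ∀ i, MonicW (w3 k β) D (G i) (t i)) (hest : EstSys T (w3 k β) g f D δ H G)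
    {y : Sig (m3 e) → Om E} {z : Fin (n + 1) → Om E} (hy : Rel y)
    (hy0 : y ⟨0, (0 : Fin 2)⟩ = 1) (hy1 : y ⟨0, (1 : Fin 2)⟩ = tau E)
    (hyH : ∀ j, eval y (MvPolynomial.map (algebraMap E (Om E)) (H j)) = 0)
    (hyG : ∀ i, ev ((G i).map (MvPolynomial.map (algebraMap E (Om E)))) y (z i) = 0)
    {ι : Type} [Finite ι] (ξ : ι → Om E) (ξ₀ : ι → F)
    (hξ : ∀ P : MvPolynomial ι E, aeval ξ P = 0 → aeval ξ₀ P = 0) :
    ∃ (y₀ : Sig (m3 e) → F) (z₀ : Fin (n + 1) → F) (lam : Fin 3 → F) (u : F), (∀ κ, lam κ ≠ 0) ∧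
      u ≠ 0 ∧
      Nr g f T δ (fun i => T.sharp (act (w3 k β) lam y₀ i)) (fun i => T.sharp (u * z₀ i)) ∧
      (∀ (i : ι) (s s' : Fin (n + 1)), z s = ξ i * z s' → z₀ s = ξ₀ i * z₀ s') ∧
      (∀ s, z s = 0 → z₀ s = 0) ∧
      ∀ i : ι, ξ i = tau E → act (w3 k β) lam y₀ ⟨0, (1 : Fin 2)⟩ =
        ξ₀ i * act (w3 k β) lam y₀ ⟨0, (0 : Fin 2)⟩ := by
  obtain ⟨lam, y₀, z₀, hlam, hy₀, hy₀H, hy₀G, hrel⟩ := hSPW2 E F (Om E) (m3 e) (w3 k β) tri_w3 H b hH
    G D t hG ι ξ ξ₀ hξ y z hy hyH hyG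
  obtain ⟨lam', hlam', hN⟩ := hest y₀ z₀ hy₀ hy₀H hy₀G
  refine ⟨y₀, z₀, lam', sp lam' D, hlam', ?_, hN, fun i s s' h => ?_, fun s h => ?_,
    fun i h => ?_⟩
  · unfold Pool.Agent.W476.TP.sp
    exact Finset.prod_ne_zero_iff.2 fun κ _ => pow_ne_zero _ (hlam' κ)
  · have := hrel (X (Sum.inr (Sum.inr s)) - X (Sum.inl i) * X (Sum.inr (Sum.inr s'))) (by
      simp only [map_sub, map_mul, aeval_X, Sum.elim_inr, Sum.elim_inl]
      rw [h]
      ring)
    simp only [map_sub, map_mul, aeval_X, Sum.elim_inr, Sum.elim_inl] at this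
    exact sub_eq_zero.1 this
  · have := hrel (X (Sum.inr (Sum.inr s))) (by
      simp only [aeval_X, Sum.elim_inr]
      rw [h, mul_zero])
    simpa only [aeval_X, Sum.elim_inr] using this
  · have := hrel (X (Sum.inr (Sum.inl ⟨0, (1 : Fin 2)⟩)) -
      X (Sum.inl i) * X (Sum.inr (Sum.inl ⟨0, (0 : Fin 2)⟩))) (by
        simp only [map_sub, map_mul, aeval_X, Sum.elim_inr, Sum.elim_inl]
        unfold act
        rw [w3_zero, w3_zero, hy0, hy1, h]
        ring)
    simp only [map_sub, map_mul, aeval_X, Sum.elim_inr, Sum.elim_inl] at this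
    unfold act
    rw [w3_zero, w3_zero, sub_eq_zero.1 this]
    ring

/-- **The approximation theorem** over a perfectoid field. -/
theorem genK (hCOREK : S_COREK) (hSPW2 : S_SPW2) (hEXW : S_EXW) (hDGE : S_DGE) (hXDIM : S_XDIM)
    (hASP : S_ASP) (T : Tilting p C F) (B : BaseField T K E) [Infinite K]
    (htr : Algebra.trdeg K L ≤ 1) {e k n d : ℕ} {β γ : Fin (e + 1) → ℕ}
    (g : Fin (e + 1) → MvPolynomial (Sig (m3 e)) K)
    (hg : ∀ j, IsWeightedHomogeneous (w3 k β) (g j) ![γ j, 1, 1])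
    (Fl : Fin (n + 1) → MvPolynomial (Sig (m3 e)) K)
    (hF : ∀ i, IsWeightedHomogeneous (w3 k β) (Fl i) ![d, 0, 1])
    (hBF : ∀ y : Sig (m3 e) → C, Rel y → (∀ j, aeval y (g j) = 0) → ∃ i, aeval y (Fl i) ≠ 0)
    (f : Fin (n + 1) → L)
    (hV : ∀ y : Sig (m3 e) → C, Rel y → (∀ j, aeval y (g j) = 0) →
      ∀ (P : MvPolynomial (Fin (n + 1)) K) (l : ℕ), P.IsHomogeneous l → aeval f P = 0 →
        aeval (fun i => aeval y (Fl i)) P = 0)
    (hNC : ∃ (i₀ j₀ : Fin (n + 1)) (a b : K), ∀ y y' : Sig (m3 e) → C, Rel y → Rel y' →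
      y ⟨0, (1 : Fin 2)⟩ = algebraMap K C a * y ⟨0, (0 : Fin 2)⟩ →
      y' ⟨0, (1 : Fin 2)⟩ = algebraMap K C b * y' ⟨0, (0 : Fin 2)⟩ →
      (∀ j, aeval y (g j) = 0) → (∀ j, aeval y' (g j) = 0) →
      aeval y (Fl i₀) * aeval y' (Fl j₀) ≠ aeval y (Fl j₀) * aeval y' (Fl i₀)) :
    Approximable T.toTiltPair K E
      {v : Fin (n + 1) → C | ∀ P ∈ RingHom.ker (Phi (K := K) f), aeval v P = 0} 1 := by
  classical
  -- scaling
  obtain ⟨s, hs0, hs⟩ := Pool.Agent.X271.TN.exists_scale T.toTiltPair Fl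
  have hsC : algebraMap K C s ≠ 0 := by
    rw [Ne, map_eq_zero]
    exact hs0
  obtain ⟨F', hF'⟩ : ∃ F' : Fin (n + 1) → MvPolynomial (Sig (m3 e)) K,
    F' = fun i => MvPolynomial.C s * Fl i := ⟨_, rfl⟩
  have eF' : ∀ (y : Sig (m3 e) → C) i, aeval y (F' i) = algebraMap K C s * aeval y (Fl i) := by
    intro y i
    rw [hF']
    simp only [map_mul, aeval_C]
  -- the equations of `X`
  have h0 : (0 : Fin (n + 1) → C) ∈
      {v : Fin (n + 1) → C | ∀ P ∈ RingHom.ker (Phi (K := K) f), aeval v P = 0} := by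
    refine (mem_curve f 0).2 fun P l hl hP => ?_
    have h2 : (0 : Fin (n + 1) → L) = fun i => (0 : L) * f i := by
      funext i
      rw [zero_mul]
      rfl
    have h3 : aeval (0 : Fin (n + 1) → L) P = 0 := by
      rw [h2, aeval_smul_hom hl, hP, mul_zero]
    have h4 : constantCoeff P = 0 := by
      rw [aeval_zero] at h3
      exact (map_eq_zero _).1 h3
    rw [aeval_zero, h4, map_zero]
  obtain ⟨r, S, hS, hSX⟩ := exists_forms (curve_cone (F := C) (E := K) f) ⟨0, h0⟩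
  have hmem : ∀ y : Sig (m3 e) → C, Rel y → (∀ j, aeval y (g j) = 0) →
      (fun i => aeval y (F' i)) ∈
        {v : Fin (n + 1) → C | ∀ P ∈ RingHom.ker (Phi (K := K) f), aeval v P = 0} := by
    intro y hy hy0
    refine (mem_curve f _).2 fun P l hl hP => ?_
    have h2 : (fun i => aeval y (F' i)) = algebraMap K C s • fun i => aeval y (Fl i) := by
      funext i
      rw [eF']
      rfl
    rw [h2, hom_smul hl, hV y hy hy0 P l hl hP, mul_zero]
  refine approx_of_system T B hSX h0 (hXDIM K C L htr n f) fun δ hδ => ?_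
  -- the constants
  obtain ⟨δa, hδa, hest1⟩ := est1 g F' T.toTiltPair (fun y hy hy0 => by
    obtain ⟨i, hi⟩ := hBF y hy hy0
    refine ⟨i, ?_⟩
    rw [eF']
    exact mul_ne_zero hsC hi)
  choose Ds hDs hSh using hS
  obtain ⟨Bd, hBd⟩ : ∃ Bd : ℕ, ∀ l, Ds l ≤ Bd := ⟨Finset.univ.sup Ds, fun l =>
    Finset.le_sup (Finset.mem_univ l)⟩
  obtain ⟨δ1, hδ1d⟩ : ∃ δ1 : ℝ, δ1 = min δa 1 := ⟨_, rfl⟩
  have hδ1 : 0 < δ1 := by
    rw [hδ1d]
    exact lt_min hδa one_pos
  have hδ1' : δ1 ≤ 1 := by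
    rw [hδ1d]
    exact min_le_right _ _
  obtain ⟨δb, hδb, hest2⟩ := est2 g F' T.toTiltPair S (fun y hy hy0 l =>
    (hSX _).1 (hmem y hy hy0) l) (show 0 < δ * δ1 ^ Bd by positivity)
  obtain ⟨i₀, j₀, a, b, hNC⟩ := hNC
  obtain ⟨δc, hδc, hest3⟩ := est3 g F' T.toTiltPair
    (fun _ : Unit => (X ⟨0, (1 : Fin 2)⟩ - MvPolynomial.C a * X ⟨0, (0 : Fin 2)⟩ :
      MvPolynomial (Sig (m3 e)) K))
    (fun _ : Unit => (X ⟨0, (1 : Fin 2)⟩ - MvPolynomial.C b * X ⟨0, (0 : Fin 2)⟩ :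
      MvPolynomial (Sig (m3 e)) K)) i₀ j₀ (by
    intro y y' hy hy' h1 h2 h3 h4
    have h5 := h3 ()
    have h6 := h4 ()
    simp only [map_sub, map_mul, aeval_X, aeval_C] at h5 h6
    have h7 := hNC y y' hy hy' (sub_eq_zero.1 h5) (sub_eq_zero.1 h6) h1 h2
    rw [eF', eF', eF', eF']
    intro h8
    apply h7
    have h9 : algebraMap K C s * algebraMap K C s * (aeval y (Fl i₀) * aeval y' (Fl j₀)) =
        algebraMap K C s * algebraMap K C s * (aeval y (Fl j₀) * aeval y' (Fl i₀)) := by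
      linear_combination h8
    exact mul_left_cancel₀ (mul_ne_zero hsC hsC) h9)
  obtain ⟨δ4, hδ4, h4a, h4b, h4c⟩ : ∃ δ4 : ℝ, 0 < δ4 ∧ δ4 ≤ δa ∧ δ4 ≤ δb ∧ δ4 ≤ δc :=
    ⟨min δa (min δb δc), lt_min hδa (lt_min hδb hδc), min_le_left _ _,
      (min_le_right _ _).trans (min_le_left _ _), (min_le_right _ _).trans (min_le_right _ _)⟩
  -- the approximating system
  obtain ⟨H, s', G, t, hH, hG, hcore⟩ := hCOREK p C F K E T B (m3 e) (w3 k β) tri_w3 g
    (fun j => ![γ j, 1, 1]) hg F' ![d, 0, 1] (fun i => by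
      rw [hF']
      exact isW_C_mul (hF i) s) (fun i α => by
      rw [hF']
      exact hs i α) (by
      intro h
      have : (1 : ℕ) = 0 := congrFun h 2
      exact absurd this one_ne_zero) δ4 hδ4
  have hest : EstSys T.toTiltPair (w3 k β) g F' ![d, 0, 1] δ4 H G := by
    intro y z hy hyH hyG
    obtain ⟨lam, a1, a2, a3, a4, a5, a6⟩ := hcore y z hy hyH hyG
    refine ⟨lam, a1, ⟨fun i => ?_, fun κ => ?_⟩, fun i => ?_, a5, a6⟩
    · rw [T.abs_sharp]
      exact a2 i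
    · obtain ⟨i, hi⟩ := a3 κ
      refine ⟨i, ?_⟩
      rw [T.abs_sharp]
      exact hi
    · rw [T.abs_sharp]
      exact a4 i
  -- the generic solution
  obtain ⟨y, hy, hy0, hy1, hyH⟩ := hEXW p (Om E) e k β γ s'
    (fun j => MvPolynomial.map (algebraMap E (Om E)) (H j)) (fun j => isW_map _ (hH j)) 1 (tau E)
    (Or.inl one_ne_zero)
  have hroot : ∀ i, ∃ z : Om E,
      ev ((G i).map (MvPolynomial.map (algebraMap E (Om E)))) y z = 0 := by
    intro i
    unfold Pool.Agent.W476.TP.ev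
    rw [Polynomial.map_map]
    have hmon : ((G i).map ((MvPolynomial.eval y).comp
        (MvPolynomial.map (algebraMap E (Om E))))).Monic := (hG i).2.1.map _
    have hdeg : ((G i).map ((MvPolynomial.eval y).comp
        (MvPolynomial.map (algebraMap E (Om E))))).natDegree = t i := by
      rw [(hG i).2.1.natDegree_map, (hG i).2.2.1]
    obtain ⟨z, hz⟩ := IsAlgClosed.exists_root _ (by
      rw [Polynomial.degree_eq_natDegree hmon.ne_zero, hdeg]
      have := (hG i).1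
      exact_mod_cast this.ne' : ((G i).map ((MvPolynomial.eval y).comp
        (MvPolynomial.map (algebraMap E (Om E))))).degree ≠ 0)
    exact ⟨z, hz⟩
  choose z hyG using hroot
  -- some coordinate is not zero
  have hz0 : ∃ j, z j ≠ 0 := by
    by_contra hcon
    push Not at hcon
    obtain ⟨y₀, z₀, lam, u, hlam, hu, hN, -, h2, -⟩ := specK hSPW2 hH hG hest hy hy0 hy1 hyH hyG
      (ι := Fin 0) (fun i => i.elim0) (fun i => i.elim0) (by
        intro P hP
        obtain ⟨c, rfl⟩ := C_surjective (Fin 0) P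
        rw [aeval_C, map_eq_zero] at hP
        rw [hP, map_zero, map_zero])
    obtain ⟨i, hi⟩ := hest1 _ _ (hN.mono g F' h4a)
    rw [h2 i (hcon i), mul_zero, T.sharp_zero, map_zero] at hi
    exact absurd hi (not_lt.2 hδa.le)
  obtain ⟨j₁, hj₁⟩ := hz0
  -- the generic point is not constant
  have htrans : ∃ i j, Transcendental E (z i / z j) := by
    by_contra hcon
    push Not at hcon
    have halg : ∀ i, IsAlgebraic E (z i / z j₁) := by
      intro i
      have := hcon i j₁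
      rwa [Transcendental, not_not] at this
    obtain ⟨σ, hσ⟩ := hASP E F (Om E) (tau E) (tau_transcendental E) (Fin (n + 1))
      (fun i => z i / z j₁) halg
    obtain ⟨a', ha'⟩ := T.surj (algebraMap K C a)
    obtain ⟨b', hb'⟩ := T.surj (algebraMap K C b)
    have hval : ∀ a' : F, ∃ (Y : Sig (m3 e) → C) (ζ : C), Nr g F' T.toTiltPair δ4 Y
        (fun i => T.sharp (σ i) * ζ) ∧
        Y ⟨0, (1 : Fin 2)⟩ = T.sharp a' * Y ⟨0, (0 : Fin 2)⟩ := by
      intro a'
      obtain ⟨y₀, z₀, lam, u, hlam, hu, hN, h1, -, h3⟩ := specK hSPW2 hH hG hest hy hy0 hy1 hyH hyG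
        (Sum.elim (fun _ : Unit => tau E) fun i => z i / z j₁) (Sum.elim (fun _ => a') σ)
        (hσ a')
      have h4 : ∀ i, z₀ i = σ i * z₀ j₁ := fun i =>
        h1 (Sum.inr i) i j₁ (by rw [Sum.elim_inr, div_mul_cancel₀ _ hj₁])
      refine ⟨fun i => T.sharp (act (w3 k β) lam y₀ i), T.sharp (u * z₀ j₁), ?_, ?_⟩
      · have h5 : (fun i => T.sharp (u * z₀ i)) = fun i => T.sharp (σ i) * T.sharp (u * z₀ j₁) := by
          funext i
          rw [h4 i, ← map_mul]
          congr 1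
          ring
        rw [← h5]
        exact hN
      · have h6 := h3 (Sum.inl ()) rfl
        rw [Sum.elim_inl] at h6
        rw [← map_mul]
        exact congrArg T.sharp h6
    obtain ⟨Y, ζ, hY, hY1⟩ := hval a'
    obtain ⟨Y', ζ', hY', hY1'⟩ := hval b'
    refine hest3 Y Y' _ _ (hY.mono g F' h4c) (hY'.mono g F' h4c) (fun _ => ?_) (fun _ => ?_) ?_
    · simp only [map_sub, map_mul, aeval_X, aeval_C]
      rw [hY1, ha', sub_self]
    · simp only [map_sub, map_mul, aeval_X, aeval_C]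
      rw [hY1', hb', sub_self]
    · ring
  refine ⟨_, curve_cone (F := F) (E := E) z, hDGE E F (Om E) (trdeg_Om E) n z htrans, ?_⟩
  intro w hw hw1 l
  by_cases hw0 : w = 0
  · have h1 : (fun i => T.sharp (w i)) = (0 : Fin (n + 1) → C) := by
      funext i
      rw [hw0]
      exact T.sharp_zero
    rw [h1, (hSX 0).1 h0 l, map_zero]
    exact hδ.le
  obtain ⟨j₂, hj₂⟩ := Function.ne_iff.1 hw0
  rw [Pi.zero_apply] at hj₂
  obtain ⟨hzj₂, hspec⟩ := spec_ratioF (F := F) hw hj₂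
  obtain ⟨y₀, z₀, lam, u, hlam, hu, hN, h1, -, -⟩ := specK hSPW2 hH hG hest hy hy0 hy1 hyH hyG
    (fun i => z i / z j₂) (fun i => w i / w j₂) hspec
  have r1 : ∀ i, z₀ i = w i / w j₂ * z₀ j₂ := fun i => h1 i i j₂ (by
    rw [div_mul_cancel₀ _ hzj₂])
  obtain ⟨v, hv⟩ : ∃ v : F, v = u * (z₀ j₂ / w j₂) := ⟨_, rfl⟩
  have r2 : (fun i => T.sharp (u * z₀ i)) = T.sharp v • fun i => T.sharp (w i) := by
    funext i
    rw [Pi.smul_apply, smul_eq_mul, ← map_mul, r1 i, hv]
    congr 1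
    ring
  obtain ⟨i, hi⟩ := hest1 _ _ (hN.mono g F' h4a)
  have h3 := hest2 _ _ (hN.mono g F' h4b) l
  have h4 : δ1 ≤ T.absK (T.sharp v) := by
    have h5 : T.sharp (u * z₀ i) = T.sharp v * T.sharp (w i) := congrFun r2 i
    rw [h5, map_mul] at hi
    have h6 : T.absK (T.sharp (w i)) ≤ 1 := by
      rw [T.abs_sharp]
      exact hw1 i
    have h7 : δ1 ≤ δa := by
      rw [hδ1d]
      exact min_le_left _ _
    have h8 : T.absK (T.sharp v) * T.absK (T.sharp (w i)) ≤ T.absK (T.sharp v) * 1 :=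
      mul_le_mul_of_nonneg_left h6 (T.absK.nonneg _)
    rw [mul_one] at h8
    exact h7.trans (hi.le.trans h8)
  rw [r2, hom_smul (hSh l), map_mul, map_pow] at h3
  have h5 : δ1 ^ Bd ≤ T.absK (T.sharp v) ^ Ds l :=
    (pow_le_pow_of_le_one hδ1.le hδ1' (hBd l)).trans (pow_le_pow_left₀ hδ1.le h4 _)
  have h6 : δ1 ^ Bd * T.absK (aeval (fun i => T.sharp (w i)) (S l)) ≤ δ1 ^ Bd * δ := by
    calc δ1 ^ Bd * T.absK (aeval (fun i => T.sharp (w i)) (S l))
        ≤ T.absK (T.sharp v) ^ Ds l * T.absK (aeval (fun i => T.sharp (w i)) (S l)) :=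
          mul_le_mul_of_nonneg_right h5 (T.absK.nonneg _)
      _ ≤ δ * δ1 ^ Bd := h3
      _ = δ1 ^ Bd * δ := mul_comm _ _
  exact le_of_mul_le_mul_left h6 (pow_pos hδ1 _)

end Pool.Agent.H50F
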