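import Pool.Agent.H50F.Stm

/-!
# Project H50F, piece INT: integral elements over `C[x]`
-/

set_option autoImplicit false

namespace Pool.Agent.H50F

namespace In

open Polynomial IntermediateField.algebraAdjoinAdjoin

variable {C L : Type} [Field C] [Field L] [Algebra C L]

theorem mem_adj {x a : L} : a ∈ Algebra.adjoin C {x} ↔ ∃ q : C[X], a = aeval x q := by
  rw [Algebra.adjoin_singleton_eq_range_aeval]
  constructor
  · rintro ⟨q, rfl⟩
    exact ⟨q, rfl⟩
  · rintro ⟨q, rfl⟩
    exact ⟨q, rfl⟩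

theorem aeval_mem (x : L) (q : C[X]) : aeval x q ∈ Algebra.adjoin C {x} := mem_adj.2 ⟨q, rfl⟩

theorem self_mem' (x : L) : x ∈ Algebra.adjoin C {x} := Algebra.self_mem_adjoin_singleton C x

/-- reversal -/
theorem rev {x : L} (hx : x ≠ 0) (q : C[X]) :
    x⁻¹ ^ q.natDegree * aeval x q = aeval x⁻¹ q.reverse := by
  let _ : Invertible x := invertibleOfNonzero hx
  have h := eval₂_reverse_mul_pow (algebraMap C L) x q
  rw [invOf_eq_inv] at h
  rw [aeval_def, aeval_def, ← h, mul_comm, mul_assoc, ← mul_pow, mul_inv_cancel₀ hx, one_pow,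
    mul_one]

theorem rev_mem {x : L} (hx : x ≠ 0) (q : C[X]) {n : ℕ} (hn : q.natDegree ≤ n) :
    x⁻¹ ^ n * aeval x q ∈ Algebra.adjoin C {x⁻¹} := by
  obtain ⟨k, rfl⟩ := Nat.exists_eq_add_of_le' hn
  rw [pow_add, mul_assoc, rev hx]
  exact mul_mem (pow_mem (self_mem' _) _) (aeval_mem _ _)

theorem isIntegral_of_coeff (A : Subalgebra C L) {r : L} (P : L[X]) (hP : P.Monic)
    (hc : ∀ i, P.coeff i ∈ A) (hr : P.eval r = 0) : IsIntegral A r := by
  have h1 : P ∈ Polynomial.lifts (algebraMap A L) := by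
    rw [Polynomial.lifts_iff_coeff_lifts]
    exact fun i => ⟨⟨P.coeff i, hc i⟩, rfl⟩
  obtain ⟨Q, h2, -, h3⟩ := Polynomial.lifts_and_natDegree_eq_and_monic h1 hP
  refine ⟨Q, h3, ?_⟩
  rw [← eval_map, h2, hr]

theorem reg_inv {x : L} (hx : x ≠ 0) {r : L} (hr : Reg C x r) :
    ∃ n : ℕ, Reg C x⁻¹ (x⁻¹ ^ n * r) := by
  obtain ⟨P, hP, hr⟩ := hr
  -- a bound for the degrees
  have h1 : ∀ i, ∃ q : C[X], ((P.coeff i : Algebra.adjoin C {x}) : L) = aeval x q := fun i =>
    mem_adj.1 (P.coeff i).2
  choose q hq using h1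
  obtain ⟨n, hn⟩ : ∃ n : ℕ, ∀ i < P.natDegree, (q i).natDegree ≤ n :=
    ⟨∑ i ∈ Finset.range P.natDegree, (q i).natDegree, fun i hi =>
      Finset.single_le_sum (f := fun i => (q i).natDegree) (fun _ _ => Nat.zero_le _)
        (Finset.mem_range.2 hi)⟩
  refine ⟨n, ?_⟩
  have hPm : (P.map (algebraMap (Algebra.adjoin C {x}) L)).Monic := hP.map _
  refine isIntegral_of_coeff _
    ((P.map (algebraMap (Algebra.adjoin C {x}) L)).scaleRoots (x⁻¹ ^ n))
    ((monic_scaleRoots_iff _).2 hPm) (fun i => ?_) ?_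
  · rw [coeff_scaleRoots, hP.natDegree_map]
    rcases lt_trichotomy i P.natDegree with h | h | h
    · obtain ⟨k, hk⟩ : ∃ k, P.natDegree - i = k + 1 := ⟨P.natDegree - i - 1, by omega⟩
      rw [hk, pow_succ', ← mul_assoc, coeff_map]
      refine mul_mem ?_ (pow_mem (pow_mem (self_mem' _) _) _)
      rw [mul_comm]
      have h2 : algebraMap (Algebra.adjoin C {x}) L (P.coeff i) = aeval x (q i) := hq i
      rw [h2]
      exact rev_mem hx _ (hn i h)
    · have h2 : (P.map (algebraMap (Algebra.adjoin C {x}) L)).coeff i = 1 := by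
        rw [h, coeff_map, hP.coeff_natDegree, map_one]
      rw [h2, h, Nat.sub_self, pow_zero, mul_one]
      exact one_mem _
    · have h2 : (P.map (algebraMap (Algebra.adjoin C {x}) L)).coeff i = 0 := by
        rw [coeff_map, coeff_eq_zero_of_natDegree_lt h, map_zero]
      rw [h2, zero_mul]
      exact zero_mem _
  · have h3 : aeval r (P.map (algebraMap (Algebra.adjoin C {x}) L)) = 0 := by
      rw [aeval_def, Algebra.algebraMap_self, eval₂_id, eval_map]
      exact hr
    have h4 := scaleRoots_aeval_eq_zero (r := x⁻¹ ^ n) h3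
    rw [aeval_def, Algebra.algebraMap_self, eval₂_id] at h4
    exact h4

theorem exists_mul {x : L} (hx : Transcendental C x)
    (hfd : FiniteDimensional (IntermediateField.adjoin C {x}) L) (h : L) :
    ∃ q : C[X], q ≠ 0 ∧ Reg C x (aeval x q * h) := by
  have h1 : IsAlgebraic (IntermediateField.adjoin C {x}) h := Algebra.IsAlgebraic.isAlgebraic h
  have h2 : IsAlgebraic (Algebra.adjoin C {x}) h :=
    (IsFractionRing.isAlgebraic_iff (Algebra.adjoin C {x}) (IntermediateField.adjoin C {x}) L).2 h1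
  obtain ⟨y, hy, hi⟩ := h2.exists_integral_multiple
  obtain ⟨q, hq⟩ := mem_adj.1 y.2
  refine ⟨q, ?_, ?_⟩
  · rintro rfl
    apply hy
    apply Subtype.ext
    rw [hq, map_zero]
    rfl
  · have h3 : y • h = aeval x q * h := by
      rw [← hq]
      rfl
    rw [← h3]
    exact hi

theorem coeff_mem {x : L} (hx : Transcendental C x) {u : L} (hu : Reg C x u) (i : ℕ) :
    ((minpoly (IntermediateField.adjoin C {x}) u).coeff i : L) ∈ Algebra.adjoin C {x} := by
  have hic : IsIntegrallyClosed (Algebra.adjoin C {x}) :=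
    IsIntegrallyClosed.of_equiv (Polynomial.algEquivOfTranscendental C x hx).toRingEquiv
  have h1 := minpoly.isIntegrallyClosed_eq_field_fractions' (IntermediateField.adjoin C {x}) hu
  rw [h1, coeff_map]
  exact ((minpoly (Algebra.adjoin C {x}) u).coeff i).2

theorem coeff_mem' {x : L} (hx : Transcendental C x) (K : IntermediateField C L)
    (hK : K = IntermediateField.adjoin C {x}) {u : L} (hu : Reg C x u) (i : ℕ) :
    ((minpoly K u).coeff i : L) ∈ Algebra.adjoin C {x} := by
  subst hK
  exact coeff_mem hx hu i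

theorem both {x : L} (hx : Transcendental C x) {c : L} (h1 : c ∈ Algebra.adjoin C {x}) {k : ℕ}
    (hk : k ≠ 0) (h2 : x ^ k * c ∈ Algebra.adjoin C {x⁻¹}) : c = 0 := by
  have hx0 : x ≠ 0 := by
    rintro rfl
    exact hx (isAlgebraic_zero)
  obtain ⟨q, rfl⟩ := mem_adj.1 h1
  obtain ⟨q', hq'⟩ := mem_adj.1 h2
  have h3 := rev (inv_ne_zero hx0) q'
  rw [inv_inv, ← hq', ← mul_assoc, ← pow_add] at h3
  have h4 : aeval x (X ^ (q'.natDegree + k) * q) = aeval x q'.reverse := by
    rw [map_mul, map_pow, aeval_X]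
    exact h3
  have h5 := transcendental_iff_injective.1 hx h4
  by_contra h6
  have h7 : q ≠ 0 := by
    rintro rfl
    exact h6 (map_zero _)
  have h8 := congrArg natDegree h5
  rw [natDegree_X_pow_mul (q'.natDegree + k) h7] at h8
  have h9 := reverse_natDegree_le q'
  omega

theorem eq_zero {x : L} (hx : Transcendental C x)
    (hfd : FiniteDimensional (IntermediateField.adjoin C {x}) L) {u : L} (hu : Reg C x u)
    (hv : Reg C x⁻¹ (x * u)) : u = 0 := by
  have hx0 : x ≠ 0 := by
    rintro rfl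
    exact hx (isAlgebraic_zero)
  have hx' : Transcendental C x⁻¹ := by
    intro h
    exact hx (IsAlgebraic.inv_iff.1 h)
  have hK : IntermediateField.adjoin C {x} = IntermediateField.adjoin C {x⁻¹} := by
    apply le_antisymm
    · rw [IntermediateField.adjoin_simple_le_iff]
      have := inv_mem (IntermediateField.mem_adjoin_simple_self C x⁻¹)
      rwa [inv_inv] at this
    · rw [IntermediateField.adjoin_simple_le_iff]
      exact inv_mem (IntermediateField.mem_adjoin_simple_self C x)
  obtain ⟨K, hKx⟩ : ∃ K : IntermediateField C L, K = IntermediateField.adjoin C {x} := ⟨_, rfl⟩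
  have hfd : FiniteDimensional K L := by
    rw [hKx]
    exact hfd
  have hxK : x ∈ K := by
    rw [hKx]
    exact IntermediateField.mem_adjoin_simple_self C x
  obtain ⟨P, hP⟩ : ∃ P, P = minpoly K u := ⟨_, rfl⟩
  have hPi : IsIntegral K u := Algebra.IsIntegral.isIntegral u
  have hPm : P.Monic := by
    rw [hP]
    exact minpoly.monic hPi
  -- the minimal polynomial of `x u`
  have hQ : minpoly K (x * u) = P.scaleRoots ⟨x, hxK⟩ := by
    symm
    apply minpoly.unique
    · exact (monic_scaleRoots_iff _).2 hPm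
    · have h1 : aeval u P = 0 := by
        rw [hP]
        exact minpoly.aeval _ _
      exact scaleRoots_aeval_eq_zero (r := (⟨x, hxK⟩ : K)) h1
    · intro q hq hq0
      rw [degree_scaleRoots]
      have h1 := scaleRoots_aeval_eq_zero (r := (⟨x, hxK⟩ : K)⁻¹) hq0
      have h2 : algebraMap K L (⟨x, hxK⟩ : K)⁻¹ * (x * u) = u := by
        rw [map_inv₀, ← mul_assoc]
        have : algebraMap K L (⟨x, hxK⟩ : K) = x := rfl
        rw [this, inv_mul_cancel₀ hx0, one_mul]
      rw [h2] at h1
      have h3 := minpoly.min K u ((monic_scaleRoots_iff _).2 hq) h1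
      rw [degree_scaleRoots, ← hP] at h3
      exact h3
  have hc : ∀ i < P.natDegree, P.coeff i = 0 := by
    intro i hi
    have h1 := coeff_mem' hx K hKx hu i
    have h2 := coeff_mem' hx' K (hKx.trans hK) hv i
    rw [hQ, coeff_scaleRoots] at h2
    rw [← hP] at h1
    have h3 : ((P.coeff i * (⟨x, hxK⟩ : K) ^ (P.natDegree - i) : K) : L) =
        x ^ (P.natDegree - i) * (P.coeff i : L) := by
      push_cast
      ring
    rw [h3] at h2
    have h4 := both hx h1 (by omega) h2
    exact_mod_cast h4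
  have hPX : P = X ^ P.natDegree := by
    ext i
    rw [coeff_X_pow]
    split_ifs with h
    · rw [h, hPm.coeff_natDegree]
    · rcases lt_or_gt_of_ne h with h | h
      · rw [hc i h]
      · rw [coeff_eq_zero_of_natDegree_lt h]
  have h1 : aeval u P = 0 := by
    rw [hP]
    exact minpoly.aeval _ _
  rw [hPX, map_pow, aeval_X] at h1
  exact pow_eq_zero_iff (n := P.natDegree) (by
    rw [hP]
    exact (minpoly.natDegree_pos hPi).ne') |>.1 h1

end In

theorem t_INT : S_INT := by
  intro C L _ _ _ x hx hfd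
  have hx0 : x ≠ 0 := by
    rintro rfl
    exact hx (isAlgebraic_zero)
  exact ⟨fun r hr => In.reg_inv hx0 hr, fun u hu hv => In.eq_zero hx hfd hu hv,
    fun h => In.exists_mul hx hfd h⟩

end Pool.Agent.H50F
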