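import Pool.Agent.H50F.LATa

/-!
# Project H50F, piece LAT: reduction of a lattice
-/

set_option autoImplicit false

namespace Pool.Agent.H50F

section

variable {C L : Type} [Field C] [Field L] [Algebra C L]

/-- The coefficient with an integer index. -/
noncomputable def czL (p : Polynomial C) (k : ℤ) : C := if 0 ≤ k then p.coeff k.toNat else 0

theorem inv_pow_mem {x : L} {W : Submodule C L} (hW : ∀ h ∈ W, x⁻¹ * h ∈ W) (n : ℕ) {h : L}
    (hh : h ∈ W) : x⁻¹ ^ n * h ∈ W := by
  induction n with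
  | zero => simpa using hh
  | succ n ih =>
    rw [pow_succ', mul_assoc]
    exact hW _ ih

theorem zpow_neg_mem {x : L} {W : Submodule C L} (hW : ∀ h ∈ W, x⁻¹ * h ∈ W) {k : ℤ}
    (hk : 0 ≤ k) {h : L} (hh : h ∈ W) : x ^ (-k) * h ∈ W := by
  obtain ⟨n, rfl⟩ := Int.eq_ofNat_of_zero_le hk
  have : x ^ (-(n : ℤ)) = x⁻¹ ^ n := by
    rw [zpow_neg, zpow_natCast, inv_pow]
  rw [this]
  exact inv_pow_mem hW n hh

theorem am_mem {W : Submodule C L} (c : C) {h : L} (hh : h ∈ W) : algebraMap C L c * h ∈ W := by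
  rw [← Algebra.smul_def]
  exact W.smul_mem c hh

/-- The expansion of `x ^ (-k) p(x) w` modulo `x⁻¹ W`. -/
theorem expand {x : L} (hx0 : x ≠ 0) {W : Submodule C L} (hW : ∀ h ∈ W, x⁻¹ * h ∈ W)
    (p : Polynomial C) (k : ℤ) (hk : p ≠ 0 → (p.natDegree : ℤ) ≤ k) {w : L} (hw : w ∈ W) :
    x * (x ^ (-k) * (Polynomial.aeval x p * w) - algebraMap C L (czL p k) * w) ∈ W := by
  by_cases hp : p = 0
  · subst hp
    have : czL (0 : Polynomial C) k = 0 := by
      unfold czL
      split_ifs <;> simp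
    rw [this]
    simp
  · have hk' := hk hp
    have hk0 : 0 ≤ k := le_trans (by positivity) hk'
    obtain ⟨K, rfl⟩ := Int.eq_ofNat_of_zero_le hk0
    have hK : p.natDegree < K + 1 := by omega
    have hcz : czL p (K : ℤ) = p.coeff K := by
      unfold czL
      simp
    rw [hcz, Polynomial.aeval_eq_sum_range' hK, Finset.sum_range_succ]
    have e1 : x * (x ^ (-(K : ℤ)) * ((∑ i ∈ Finset.range K, p.coeff i • x ^ i +
        p.coeff K • x ^ K) * w) - algebraMap C L (p.coeff K) * w) =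
        ∑ i ∈ Finset.range K, algebraMap C L (p.coeff i) * (x ^ (-((K : ℤ) - i - 1)) * w) := by
      have e2 : x ^ (-(K : ℤ)) * (p.coeff K • x ^ K) = algebraMap C L (p.coeff K) := by
        rw [Algebra.smul_def, zpow_neg, zpow_natCast]
        field_simp
      have e3 : ∀ i ∈ Finset.range K, x * (x ^ (-(K : ℤ)) * ((p.coeff i • x ^ i) * w)) =
          algebraMap C L (p.coeff i) * (x ^ (-((K : ℤ) - i - 1)) * w) := by
        intro i _
        rw [Algebra.smul_def]
        have : x ^ (-((K : ℤ) - i - 1)) = x * x ^ (-(K : ℤ)) * x ^ i := by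
          rw [← zpow_natCast x i, ← zpow_one_add₀ hx0, ← zpow_add₀ hx0]
          congr 1
          ring
        rw [this]
        ring
      rw [add_mul, mul_add]
      have e4 : x ^ (-(K : ℤ)) * (p.coeff K • x ^ K * w) = algebraMap C L (p.coeff K) * w := by
        rw [← mul_assoc, e2]
      rw [e4, add_sub_cancel_right, Finset.sum_mul, Finset.mul_sum, Finset.mul_sum]
      exact Finset.sum_congr rfl e3
    rw [e1]
    refine Submodule.sum_mem _ fun i hi => am_mem _ (zpow_neg_mem hW ?_ hw)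
    have := Finset.mem_range.1 hi
    omega

/-- A basis of `M` together with twists. -/
structure Gd (x : L) (M W : Submodule C L) {d : ℕ} (e : Fin d → L) (a : Fin d → ℤ) : Prop where
  mem : ∀ j, e j ∈ M
  inW : ∀ j, x ^ (-a j) * e j ∈ W
  gen : ∀ h ∈ M, ∃ q : Fin d → Polynomial C, h = ∑ j, Polynomial.aeval x (q j) * e j
  ind : ∀ q : Fin d → Polynomial C, ∑ j, Polynomial.aeval x (q j) * e j = 0 → q = 0

theorem sum_update {d : ℕ} (x : L) (e : Fin d → L) (c r : Fin d → Polynomial C) (j₀ : Fin d) :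
    ∑ j, Polynomial.aeval x (r j) *
      Function.update e j₀ (∑ i, Polynomial.aeval x (c i) * e i) j =
    ∑ j, Polynomial.aeval x (r j + r j₀ * c j - if j = j₀ then r j₀ else 0) * e j := by
  classical
  have e1 : ∀ j, Polynomial.aeval x (r j) *
      Function.update e j₀ (∑ i, Polynomial.aeval x (c i) * e i) j =
      Polynomial.aeval x (r j) * e j +
        (if j = j₀ then Polynomial.aeval x (r j₀) * (∑ i, Polynomial.aeval x (c i) * e i) -
          Polynomial.aeval x (r j₀) * e j₀ else 0) := by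
    intro j
    by_cases h : j = j₀
    · subst h
      simp
    · simp [h]
  have e2 : ∀ j, Polynomial.aeval x (r j + r j₀ * c j - if j = j₀ then r j₀ else 0) * e j =
      Polynomial.aeval x (r j) * e j + Polynomial.aeval x (r j₀) * (Polynomial.aeval x (c j) * e j)
        - (if j = j₀ then Polynomial.aeval x (r j₀) * e j₀ else 0) := by
    intro j
    by_cases h : j = j₀
    · subst h
      simp only [if_true, map_sub, map_add, map_mul]
      ring
    · simp only [h, if_false, map_sub, map_add, map_mul, map_zero]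
      ring
  rw [Finset.sum_congr rfl fun j _ => e1 j, Finset.sum_congr rfl fun j _ => e2 j,
    Finset.sum_add_distrib, Finset.sum_sub_distrib, Finset.sum_add_distrib, Finset.sum_ite_eq',
    Finset.sum_ite_eq']
  simp only [Finset.mem_univ, if_true]
  rw [← Finset.mul_sum]
  ring

theorem Gd.replace {x : L} {M W : Submodule C L} (hM : ∀ h ∈ M, x * h ∈ M)
    {d : ℕ} {e : Fin d → L} {a : Fin d → ℤ}
    (g : Gd x M W e a) (j₀ : Fin d) (c : Fin d → Polynomial C) (μ : C) (hμ : μ ≠ 0)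
    (hc : c j₀ = Polynomial.C μ) (b : ℤ)
    (hb : x ^ (-b) * (∑ i, Polynomial.aeval x (c i) * e i) ∈ W) :
    Gd x M W (Function.update e j₀ (∑ i, Polynomial.aeval x (c i) * e i))
      (Function.update a j₀ b) := by
  classical
  refine ⟨?_, ?_, ?_, ?_⟩
  · intro j
    by_cases h : j = j₀
    · subst h
      rw [Function.update_self]
      exact Submodule.sum_mem _ fun i _ => poly_mem x M hM _ _ (g.mem i)
    · rw [Function.update_of_ne h]
      exact g.mem j
  · intro j
    by_cases h : j = j₀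
    · subst h
      rw [Function.update_self, Function.update_self]
      exact hb
    · rw [Function.update_of_ne h, Function.update_of_ne h]
      exact g.inW j
  · intro h hh
    obtain ⟨q, hq⟩ := g.gen h hh
    refine ⟨fun j => if j = j₀ then Polynomial.C μ⁻¹ * q j₀ else
      q j - Polynomial.C μ⁻¹ * q j₀ * c j, ?_⟩
    rw [sum_update, hq]
    refine Finset.sum_congr rfl fun j _ => ?_
    congr 2
    by_cases h : j = j₀
    · subst h
      simp only [if_true]
      rw [hc]
      have : Polynomial.C μ⁻¹ * Polynomial.C μ = 1 := by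
        rw [← Polynomial.C_mul, inv_mul_cancel₀ hμ, Polynomial.C_1]
      linear_combination (-(q j)) * this
    · simp only [h, if_false, if_true]
      ring
  · intro r hr
    rw [sum_update] at hr
    have h1 := g.ind _ hr
    have h2 : ∀ j, r j + r j₀ * c j - (if j = j₀ then r j₀ else 0) = 0 := fun j =>
      congrFun h1 j
    have h3 : r j₀ = 0 := by
      have := h2 j₀
      rw [if_pos rfl, hc] at this
      have h4 : r j₀ * Polynomial.C μ = 0 := by linear_combination this
      rcases mul_eq_zero.1 h4 with h | h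
      · exact h
      · exact absurd (Polynomial.C_eq_zero.1 h) hμ
    funext j
    have := h2 j
    rw [h3] at this
    by_cases h : j = j₀
    · rw [h, h3]
      rfl
    · simpa [h] using this

theorem Gd.ne_zero {x : L} {M W : Submodule C L} {d : ℕ} {e : Fin d → L} {a : Fin d → ℤ}
    (g : Gd x M W e a) (j : Fin d) : e j ≠ 0 := by
  classical
  intro h
  have h1 := g.ind (Pi.single j 1) (by
    rw [Finset.sum_eq_single j]
    · rw [h, mul_zero]
    · intro i _ hi
      rw [Pi.single_eq_of_ne hi]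
      simp
    · intro hj
      exact absurd (Finset.mem_univ j) hj)
  have h2 := congrFun h1 j
  rw [Pi.single_eq_same] at h2
  exact one_ne_zero h2

theorem Gd.bound {x : L} (hx0 : x ≠ 0) {M W : Submodule C L} (hW : ∀ h ∈ W, x⁻¹ * h ∈ W)
    {d : ℕ} {e : Fin d → L} {a : Fin d → ℤ} (g : Gd x M W e a) (m₀ : ℕ)
    (h4 : ∀ h ∈ M, x ^ m₀ * h ∈ W → h = 0) (j : Fin d) : -(m₀ : ℤ) ≤ a j := by
  by_contra hlt
  push Not at hlt
  apply g.ne_zero j
  apply h4 _ (g.mem j)
  have h1 : x ^ m₀ * e j = x ^ (-(-a j - m₀)) * (x ^ (-a j) * e j) := by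
    rw [← mul_assoc, ← zpow_add₀ hx0, ← zpow_natCast]
    congr 2
    ring
  rw [h1]
  exact zpow_neg_mem hW (by linarith) (g.inW j)

/-- Step (1): the minimality gives independence modulo `x⁻¹ W`. -/
theorem Gd.indep {x : L} (hx0 : x ≠ 0) {M W : Submodule C L} (hM : ∀ h ∈ M, x * h ∈ M)
    {d : ℕ} {e : Fin d → L} {a : Fin d → ℤ} (g : Gd x M W e a)
    (hmin : ∀ (e' : Fin d → L) (a' : Fin d → ℤ), Gd x M W e' a' → ∑ j, a j ≤ ∑ j, a' j)
    (lam : Fin d → C)
    (hl : x * ∑ j, algebraMap C L (lam j) * (x ^ (-a j) * e j) ∈ W) : lam = 0 := by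
  classical
  by_contra hne
  have hex : ∃ j, lam j ≠ 0 := by
    by_contra hno
    push Not at hno
    exact hne (funext hno)
  obtain ⟨j₀, hj₀, hmax⟩ := Finset.exists_max_image (Finset.univ.filter fun j => lam j ≠ 0) a
    (by
      obtain ⟨j, hj⟩ := hex
      exact ⟨j, Finset.mem_filter.2 ⟨Finset.mem_univ _, hj⟩⟩)
  have hlj₀ : lam j₀ ≠ 0 := (Finset.mem_filter.1 hj₀).2
  have hle : ∀ j, lam j ≠ 0 → a j ≤ a j₀ := fun j hj =>
    hmax j (Finset.mem_filter.2 ⟨Finset.mem_univ _, hj⟩)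
  let c : Fin d → Polynomial C := fun j =>
    Polynomial.C (lam j) * Polynomial.X ^ (a j₀ - a j).toNat
  have hcj₀ : c j₀ = Polynomial.C (lam j₀) := by
    simp [c]
  have hcv : ∀ j, Polynomial.aeval x (c j) = algebraMap C L (lam j) * x ^ (a j₀ - a j) := by
    intro j
    by_cases h : lam j = 0
    · simp [c, h]
    · have h1 : 0 ≤ a j₀ - a j := by
        have := hle j h
        linarith
      have h2 : x ^ (a j₀ - a j) = x ^ (a j₀ - a j).toNat := by
        conv_lhs => rw [← Int.toNat_of_nonneg h1]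
        rw [zpow_natCast]
      simp [c, h2]
  have hb : x ^ (-(a j₀ - 1)) * (∑ i, Polynomial.aeval x (c i) * e i) ∈ W := by
    have : x ^ (-(a j₀ - 1)) * (∑ i, Polynomial.aeval x (c i) * e i) =
        x * ∑ j, algebraMap C L (lam j) * (x ^ (-a j) * e j) := by
      rw [Finset.mul_sum, Finset.mul_sum]
      refine Finset.sum_congr rfl fun j _ => ?_
      rw [hcv j]
      have h1 : x * x ^ (-a j) = x ^ (-(a j₀ - 1)) * x ^ (a j₀ - a j) := by
        rw [← zpow_add₀ hx0, ← zpow_one_add₀ hx0]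
        congr 1
        ring
      linear_combination (-(algebraMap C L (lam j) * e j)) * h1
    rw [this]
    exact hl
  have g' := g.replace hM j₀ c (lam j₀) hlj₀ hcj₀ (a j₀ - 1) hb
  have h1 := hmin _ _ g'
  have h2 : ∑ j, Function.update a j₀ (a j₀ - 1) j = ∑ j, a j - 1 := by
    rw [Finset.sum_update_of_mem (Finset.mem_univ j₀)]
    have := Finset.add_sum_erase Finset.univ a (Finset.mem_univ j₀)
    rw [Finset.sdiff_singleton_eq_erase]
    linarith
  rw [h2] at h1
  linarith

/-- Steps (2) and (3) use the following comparison modulo `x⁻¹ W`. -/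
theorem Gd.compare {x : L} (hx0 : x ≠ 0) {M W : Submodule C L} (hW : ∀ h ∈ W, x⁻¹ * h ∈ W)
    {d : ℕ} {e : Fin d → L} {a : Fin d → ℤ} (g : Gd x M W e a)
    (p : Fin d → Polynomial C) (v : ℤ) (hv : ∀ j, p j ≠ 0 → ((p j).natDegree : ℤ) ≤ v - a j) :
    x * (x ^ (-v) * ∑ j, Polynomial.aeval x (p j) * e j -
      ∑ j, algebraMap C L (czL (p j) (v - a j)) * (x ^ (-a j) * e j)) ∈ W := by
  have e1 : x * (x ^ (-v) * ∑ j, Polynomial.aeval x (p j) * e j -
      ∑ j, algebraMap C L (czL (p j) (v - a j)) * (x ^ (-a j) * e j)) =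
      ∑ j, x * (x ^ (-(v - a j)) * (Polynomial.aeval x (p j) * (x ^ (-a j) * e j)) -
        algebraMap C L (czL (p j) (v - a j)) * (x ^ (-a j) * e j)) := by
    rw [Finset.mul_sum, ← Finset.sum_sub_distrib, Finset.mul_sum]
    refine Finset.sum_congr rfl fun j _ => ?_
    have h1 : x ^ (-v) = x ^ (-(v - a j)) * x ^ (-a j) := by
      rw [← zpow_add₀ hx0]
      congr 1
      ring
    rw [h1]
    ring
  rw [e1]
  exact Submodule.sum_mem _ fun j _ => expand hx0 hW (p j) _ (hv j) (g.inW j)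

/-- Step (2). -/
theorem Gd.degree {x : L} (hx0 : x ≠ 0) {M W : Submodule C L} (hM : ∀ h ∈ M, x * h ∈ M)
    (hW : ∀ h ∈ W, x⁻¹ * h ∈ W)
    {d : ℕ} {e : Fin d → L} {a : Fin d → ℤ} (g : Gd x M W e a)
    (hmin : ∀ (e' : Fin d → L) (a' : Fin d → ℤ), Gd x M W e' a' → ∑ j, a j ≤ ∑ j, a' j)
    (p : Fin d → Polynomial C) (n : ℤ)
    (hn : x ^ (-n) * ∑ j, Polynomial.aeval x (p j) * e j ∈ W) :
    ∀ j, p j ≠ 0 → ((p j).natDegree : ℤ) ≤ n - a j := by
  classical
  by_contra hno
  push Not at hno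
  obtain ⟨j₁, hj₁, hlt⟩ := hno
  obtain ⟨j₀, hj₀, hmax⟩ := Finset.exists_max_image (Finset.univ.filter fun j => p j ≠ 0)
    (fun j => ((p j).natDegree : ℤ) + a j) ⟨j₁, Finset.mem_filter.2 ⟨Finset.mem_univ _, hj₁⟩⟩
  have hpj₀ : p j₀ ≠ 0 := (Finset.mem_filter.1 hj₀).2
  have hle : ∀ j, p j ≠ 0 → ((p j).natDegree : ℤ) + a j ≤ (p j₀).natDegree + a j₀ := fun j hj =>
    hmax j (Finset.mem_filter.2 ⟨Finset.mem_univ _, hj⟩)
  set v : ℤ := (p j₀).natDegree + a j₀ with hv
  have hvn : n < v := by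
    have := hle j₁ hj₁
    linarith
  have h1 := g.compare hx0 hW p v (fun j hj => by
    have := hle j hj
    linarith)
  have h2 : x * (x ^ (-v) * ∑ j, Polynomial.aeval x (p j) * e j) ∈ W := by
    have : x * (x ^ (-v) * ∑ j, Polynomial.aeval x (p j) * e j) =
        x ^ (-(v - n - 1)) * (x ^ (-n) * ∑ j, Polynomial.aeval x (p j) * e j) := by
      rw [← mul_assoc, ← mul_assoc, ← zpow_one_add₀ hx0, ← zpow_add₀ hx0]
      congr 2
      ring
    rw [this]
    exact zpow_neg_mem hW (by linarith [Int.add_one_le_iff.2 hvn]) hn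
  have h3 : x * ∑ j, algebraMap C L (czL (p j) (v - a j)) * (x ^ (-a j) * e j) ∈ W := by
    have := W.sub_mem h2 h1
    rw [← mul_sub] at this
    simpa using this
  have h4 := g.indep hx0 hM hmin (fun j => czL (p j) (v - a j)) h3
  have h5 : czL (p j₀) (v - a j₀) = 0 := congrFun h4 j₀
  have h6 : v - a j₀ = ((p j₀).natDegree : ℤ) := by
    rw [hv]
    ring
  rw [h6] at h5
  unfold czL at h5
  simp only [Nat.cast_nonneg, if_true, Int.toNat_natCast] at h5
  exact hpj₀ (Polynomial.leadingCoeff_eq_zero.1 h5)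

/-- Step (3). -/
theorem Gd.span {x : L} (hx0 : x ≠ 0) {M W : Submodule C L} (hM : ∀ h ∈ M, x * h ∈ M)
    (hW : ∀ h ∈ W, x⁻¹ * h ∈ W)
    {d : ℕ} {e : Fin d → L} {a : Fin d → ℤ} (g : Gd x M W e a)
    (hmin : ∀ (e' : Fin d → L) (a' : Fin d → ℤ), Gd x M W e' a' → ∑ j, a j ≤ ∑ j, a' j)
    (h5 : ∀ h : L, ∃ q : Polynomial C, q ≠ 0 ∧ Polynomial.aeval x q * h ∈ M)
    (h : L) (hh : h ∈ W) :
    ∃ (v : Fin d → C) (u : L), u ∈ W ∧
      h = ∑ j, algebraMap C L (v j) * (x ^ (-a j) * e j) + x⁻¹ * u := by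
  obtain ⟨q, hq0, hqM⟩ := h5 h
  obtain ⟨p, hp⟩ := g.gen _ hqM
  set n : ℤ := (q.natDegree : ℤ) with hn
  have h1 := expand hx0 hW q n (fun _ => le_refl _) hh
  have hcz : czL q n = q.leadingCoeff := by
    unfold czL
    simp [hn]
  rw [hcz] at h1
  have hlc : q.leadingCoeff ≠ 0 := Polynomial.leadingCoeff_ne_zero.2 hq0
  have h2 : x ^ (-n) * (Polynomial.aeval x q * h) ∈ W := by
    have h3 : x ^ (-n) * (Polynomial.aeval x q * h) - algebraMap C L q.leadingCoeff * h ∈ W := by
      have := hW _ h1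
      rwa [← mul_assoc, inv_mul_cancel₀ hx0, one_mul] at this
    have := W.add_mem h3 (am_mem q.leadingCoeff hh)
    simpa using this
  rw [hp] at h2
  have h3 := g.degree hx0 hM hW hmin p n h2
  have h4 := g.compare hx0 hW p n h3
  rw [hp] at h1
  have h6 := W.sub_mem h4 h1
  set S := ∑ j, Polynomial.aeval x (p j) * e j with hS
  set T := ∑ j, algebraMap C L (czL (p j) (n - a j)) * (x ^ (-a j) * e j) with hT
  have h7 : x * (algebraMap C L q.leadingCoeff * h - T) ∈ W := by
    have : x * (algebraMap C L q.leadingCoeff * h - T) =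
      x * (x ^ (-n) * S - T) - x * (x ^ (-n) * S - algebraMap C L q.leadingCoeff * h) := by ring
    rw [this]
    exact h6
  refine ⟨fun j => q.leadingCoeff⁻¹ * czL (p j) (n - a j),
    algebraMap C L q.leadingCoeff⁻¹ * (x * (algebraMap C L q.leadingCoeff * h - T)),
    am_mem _ h7, ?_⟩
  have hlc' : algebraMap C L q.leadingCoeff ≠ 0 := by
    rw [Ne, map_eq_zero]
    exact hlc
  have e1 : ∑ j, algebraMap C L (q.leadingCoeff⁻¹ * czL (p j) (n - a j)) * (x ^ (-a j) * e j) =
      algebraMap C L q.leadingCoeff⁻¹ * T := by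
    rw [hT, Finset.mul_sum]
    refine Finset.sum_congr rfl fun j _ => ?_
    rw [map_mul]
    ring
  rw [e1, map_inv₀]
  field_simp
  ring

theorem t_LAT : S_LAT := by
  intro C L _ _ _ x hx hfd M W hM hW h2 h3 h4 h5
  have hx0 : x ≠ 0 := by
    rintro rfl
    exact hx (isAlgebraic_zero)
  obtain ⟨m₀, h4⟩ := h4
  obtain ⟨e, he1, he2, he3⟩ := exists_basis x hx hfd M hM h2 h5
  have hex : ∃ (n : ℤ) (e : Fin (Module.finrank (IntermediateField.adjoin C {x}) L) → L)
      (a : Fin (Module.finrank (IntermediateField.adjoin C {x}) L) → ℤ),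
      Gd x M W e a ∧ ∑ j, a j = n := by
    choose n hn using fun j => h3 (e j) (he1 j)
    refine ⟨_, e, fun j => (n j : ℤ), ⟨he1, fun j => ?_, he2, he3⟩, rfl⟩
    have : x ^ (-(n j : ℤ)) = x⁻¹ ^ n j := by
      rw [zpow_neg, zpow_natCast, inv_pow]
    rw [this]
    exact hn j
  obtain ⟨n, ⟨e', a', g, hsum⟩, hleast⟩ := Int.exists_least_of_bdd (P := fun n : ℤ =>
      ∃ (e : Fin (Module.finrank (IntermediateField.adjoin C {x}) L) → L)
      (a : Fin (Module.finrank (IntermediateField.adjoin C {x}) L) → ℤ),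
      Gd x M W e a ∧ ∑ j, a j = n)
    ⟨∑ _j : Fin (Module.finrank (IntermediateField.adjoin C {x}) L), -(m₀ : ℤ), by
      rintro z ⟨e', a', g, hs⟩
      rw [← hs]
      exact Finset.sum_le_sum fun j _ => g.bound hx0 hW m₀ h4 j⟩ hex
  have hmin : ∀ (e'' : Fin (Module.finrank (IntermediateField.adjoin C {x}) L) → L)
      (a'' : Fin (Module.finrank (IntermediateField.adjoin C {x}) L) → ℤ),
      Gd x M W e'' a'' → ∑ j, a' j ≤ ∑ j, a'' j := by
    intro e'' a'' g''
    rw [hsum]
    exact hleast _ ⟨e'', a'', g'', rfl⟩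
  refine ⟨e', a', g.mem, g.inW, g.gen, g.ind, ?_, ?_⟩
  · intro q n hq
    exact g.degree hx0 hM hW hmin q n hq
  · intro h hh
    exact g.span hx0 hM hW hmin h5 h hh

end

end Pool.Agent.H50F
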