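import Pool.Agent.H50F.Stm

/-!
# Project H50F, phase 2: statements, part 1 (algebra and places)

Phase 2: the same theorem over all perfectoid fields `K` (with `Y` defined over `K♭`), and for the images of
all integral curves `X'` in Hirzebruch surfaces under all nonconstant morphisms. Here `L` is the function
field of `X'` over `K`, generated by `x`, `t`, and `RR K x t = K[x, t] ∩ K[x, t⁻¹]` is the ring of the
functions which are regular on the part `x ≠ ∞` of the closure `X'` of the point `(x, t)` in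
`𝔸^1 × ℙ^1`.
-/

set_option autoImplicit false

namespace Pool.Agent.H50F

open MvPolynomial Pool.Agent.W476.TP

/-- `K[x, t] ∩ K[x, t⁻¹]` -/
def RR (K : Type) {L : Type} [Field K] [Field L] [Algebra K L] (x t : L) : Subalgebra K L :=
  Algebra.adjoin K {x, t} ⊓ Algebra.adjoin K {x, t⁻¹}

/-- RINT: the elements of `K[x, t] ∩ K[x, t⁻¹]` are integral over `K[x]`.
Proof: if `r` is a polynomial of degree `≤ n` in `t` and of degree `≤ m` in `t⁻¹`, with coefficients in
`A = K[x]`, then `r` maps the finitely generated `A`-module spanned by the `t ^ i`, `-m ≤ i ≤ n` (say), to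
itself: `r t ^ i` is in the span for `i ≤ 0` by the first expression and for `i ≥ 0` by the second one
(enlarge the range: use `t ^ i` for `-m ≤ i ≤ n`; for `-m ≤ i ≤ 0` use `r ∈ ∑_{0 ≤ j ≤ n} A t ^ j`, for
`0 < i ≤ n` use `r ∈ ∑_{0 ≤ j ≤ m} A t ^ (-j)`). The module contains `1`, so `r` is integral
(`isIntegral_of_smul_mem_submodule` or similar). -/
def S_RINT : Prop :=
  ∀ (K L : Type) [Field K] [Field L] [Algebra K L] (x t r : L), r ∈ RR K x t → Reg K x r

/-- RPAR: the map `t` to `ℙ^1` is defined on the whole spectrum of `RR K x t`.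
Proof. If `t = 0` take `a = 1`, `b = 0`. Let `a_0 T^d + ... + a_d`, `a_i` in `K[X]`, be a nonzero polynomial
with the root `t` over `K[x]` whose coefficients have greatest common divisor `1` (`t` is algebraic
over `K(x)`; divide by the content, `Polynomial.primPart`). Put `u_i = a_0 t^i + ... + a_{i-1} t`
for `0 ≤ i ≤ d`. It is in `K[x, t]`, and equal to `-(a_i + a_{i+1} t⁻¹ + ... + a_d t^(i-d))`, so it is in
`R = RR K x t`. Let `J = {v ∈ R : t v ∈ R}`, an ideal. For `i < d`: `u_i + a_i ∈ J`, as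
`t (u_i + a_i) = u_{i+1}`. Hence `J + t J` contains `u_i + a_i` (`i < d`) and `u_i` (`0 < i ≤ d`), and
`u_0 = 0`, `u_d = -a_d`; so it contains all `a_i`. The `a_i` generate the unit ideal of `K[x]`, and
`J + t J` is an ideal of `R`, so it contains `1`. -/
def S_RPAR : Prop :=
  ∀ (K L : Type) [Field K] [Field L] [Algebra K L] (x t : L), Transcendental K x →
    FiniteDimensional (IntermediateField.adjoin K {x}) L →
    ∃ a b : L, a ∈ RR K x t ∧ b ∈ RR K x t ∧ t * a ∈ RR K x t ∧ t * b ∈ RR K x t ∧ a + t * b = 1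

/-- RFRAC: if `L = K(x, t)` then every element of `L` is in `RR K x t` up to a denominator in `K[x]`.
Proof: `L` is spanned over `K(x)` by the powers of `t`, so `q(x) h ∈ K[x, t]` for some `q ≠ 0`, say
`q(x) h = ∑_{j ≤ N} c_j(x) t^j`. Let `a_0 T^d + ...` be a nonzero polynomial over `K[X]` with root `t`,
`a_0 ≠ 0` (`d > 0`). Then `a_0 t^i` satisfies: `a_0 t = -(a_1 + a_2 t⁻¹ + ...) ∈ K[x, t⁻¹]`, hence
`a_0^N t^j = a_0^(N-j) (a_0 t)^j` is in `RR K x t` for `j ≤ N`. So `a_0(x)^N q(x) h ∈ RR K x t`. -/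
def S_RFRAC : Prop :=
  ∀ (K L : Type) [Field K] [Field L] [Algebra K L] (x t : L), Transcendental K x →
    FiniteDimensional (IntermediateField.adjoin K {x}) L →
    IntermediateField.adjoin K {x, t} = ⊤ →
    ∀ h : L, ∃ q : Polynomial K, q ≠ 0 ∧ Polynomial.aeval x q * h ∈ RR K x t

/-- RSHIFT: the two charts of the Hirzebruch surface. Proof: `x^i t^j = x⁻¹^(-(i + k j)) (t x⁻¹^k)^j`, and
`x^i t^(-j) = x^(i - k j) (t x⁻¹^k)^(-j)`; multiply by a large power of `x⁻¹`. -/
def S_RSHIFT : Prop :=
  ∀ (K L : Type) [Field K] [Field L] [Algebra K L] (x t : L) (k : ℕ), x ≠ 0 →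
    ∀ r ∈ RR K x t, ∃ n : ℕ, x⁻¹ ^ n * r ∈ RR K x⁻¹ (t * x⁻¹ ^ k)

/-- At every point of the spectrum of the ring `R` one of the `f i` generates the module of the `f j`. -/
def Mor {K L : Type} [Field K] [Field L] [Algebra K L] (R : Subalgebra K L) {n : ℕ}
    (f : Fin (n + 1) → L) : Prop :=
  ∀ P : Ideal R, P.IsMaximal → ∃ (i : Fin (n + 1)) (G : R), G ∉ P ∧
    ∀ j, ∃ H : R, (G : L) * f j = (H : L) * f i

/-- DED2: if the ring `R` contains (hence is) the integral closure of `K[x]` then every rational map is a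
morphism. Proof: as for `t_DED` the ring `R` is a Dedekind domain with fraction field `L`; its
localization at `P` is a valuation ring, so for `a`, `b` in `L` there are `G ∉ P` and `H` in `R` with
`G a = H b` or `G b = H a`; then choose `i` by induction on `n` (see `exists_ref` in `Al1.lean`). -/
def S_DED2 : Prop :=
  ∀ (K L : Type) [Field K] [CharZero K] [Field L] [Algebra K L] (x : L), Transcendental K x →
    FiniteDimensional (IntermediateField.adjoin K {x}) L →
    ∀ R : Subalgebra K L, (∀ r, r ∈ R ↔ Reg K x r) → ∀ (n : ℕ) (f : Fin (n + 1) → L), Mor R f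

/-- `v` consists of homogeneous coordinates of the image of the point `χ` under `(f_0 : ... : f_n)`. -/
def PtR {K L C : Type} [Field K] [Field L] [Algebra K L] [Field C] (R : Subalgebra K L) {n : ℕ}
    (f : Fin (n + 1) → L) (χ : R →+* C) (v : Fin (n + 1) → C) : Prop :=
  ∀ (G H : R) (i j : Fin (n + 1)), (G : L) * f j = (H : L) * f i → χ G * v j = χ H * v i

/-- TWO2: two fibres of `x` have disjoint images. The ring `R = RR K x t`, the points are homomorphisms
`χ` from `R` to an extension `C` of `K`.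

Proof (as for `t_TWO` in `TWO.lean`): there are a nonzero polynomial `q` over `K` and `r_i` in `R` with
`q(x) f_i = r_i f_{j₀}` for all `i` (`S_RFRAC` for the `f_i / f_{j₀}`). So if `q(a) ≠ 0` then `v_{j₀} ≠ 0`
and `ρ = v_{i₀} / v_{j₀} = χ(r_{i₀}) / q(a)`. Let `H` in `K[T][X]` be primitive with
`H(f_{i₀} / f_{j₀}, x) = 0`. Then `H(ρ, a) = 0`. `H(ρ, X) ≠ 0` for every `ρ` in `C` (the coefficients of a
primitive polynomial generate the unit ideal of `K[T]`), so for given `ρ` there are finitely many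
`b` in `K` with `H(ρ, b) = 0`; and `H(T, a) ≠ 0` for almost all `a` in `K`, so it has finitely many
roots in `C`. -/
def S_TWO2 : Prop :=
  ∀ (K C L : Type) [Field K] [Field C] [Algebra K C] [Field L] [Algebra K L] (x t : L),
    Transcendental K x → FiniteDimensional (IntermediateField.adjoin K {x}) L →
    IntermediateField.adjoin K {x, t} = ⊤ →
    ∀ (n : ℕ) (f : Fin (n + 1) → L) (i₀ j₀ : Fin (n + 1)), Transcendental K (f i₀ / f j₀) →
    ∀ B : Set K, B.Infinite →
    ∃ a ∈ B, ∃ b ∈ B, ∀ χ χ' : (RR K x t) →+* C,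
      (∀ (c : K) (r : RR K x t), (r : L) = algebraMap K L c →
        χ r = algebraMap K C c ∧ χ' r = algebraMap K C c) →
      (∀ r : RR K x t, (r : L) = x → χ r = algebraMap K C a ∧ χ' r = algebraMap K C b) →
      ∀ v v' : Fin (n + 1) → C, v ≠ 0 → v' ≠ 0 → PtR (RR K x t) f χ v → PtR (RR K x t) f χ' v' →
        v i₀ * v' j₀ ≠ v j₀ * v' i₀

/-- SPV2: as `S_SPV`, but `E` is not algebraically closed and the specializations have values in an
algebraically closed extension `F` of `E`.

Proof: let `𝔭` be the kernel of `aeval β₀` on `MvPolynomial ι E`; it contains the kernel of `aeval β`. Choose a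
valuation ring `O` of `Ω` which dominates the localization at the prime `𝔭` of the image of `aeval β`
(`LocalSubring.exists_le_valuationSubring`), so that `aeval β P` is in the maximal ideal of `O` if
and only if `aeval β₀ P = 0`. For `u` in `O` let `𝔮` be the kernel of `MvPolynomial (ι ⊕ κ) E → O / 𝔪`; it
is prime, and its contraction to `MvPolynomial ι E` is `𝔭`. So the domain `D = E[ι ⊕ κ] / 𝔮` contains
`D₀ = E[ι] / 𝔭`, which embeds in `F` by `β₀`. The localization of `D` at `D₀ - 0` is a nonzero finitely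
generated algebra over the fraction field of `D₀`; a residue field at a maximal ideal is finite over
it (Zariski's lemma) and embeds in `F` (`IsAlgClosed.lift`). -/
def S_SPV2 : Prop :=
  ∀ (E F Ω : Type) [Field E] [Field F] [IsAlgClosed F] [Algebra E F] [Field Ω] [Algebra E Ω]
    (ι : Type) [Finite ι] (β : ι → Ω) (β₀ : ι → F),
    (∀ P : MvPolynomial ι E, aeval β P = 0 → aeval β₀ P = 0) →
    ∃ O : ValuationSubring Ω, (∀ e : E, algebraMap E Ω e ∈ O) ∧ (∀ i, β i ∈ O) ∧
      ∀ (κ : Type) [Finite κ] (u : κ → Ω), (∀ k, u k ∈ O) →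
        ∃ u₀ : κ → F, ∀ P : MvPolynomial (ι ⊕ κ) E, aeval (Sum.elim β u) P = 0 →
          aeval (Sum.elim β₀ u₀) P = 0

/-- SPW2: specialization of solutions, as `S_SPW` with values in `F`; same proof, from `S_SPV2`. -/
def S_SPW2 : Prop :=
  ∀ (E F Ω : Type) [Field E] [Field F] [IsAlgClosed F] [Algebra E F] [Field Ω] [Algebra E Ω]
    {r c n : ℕ} (m : Fin r → ℕ) (w : Sig m → Fin r → ℕ), Tri w →
    ∀ (H : Fin c → MvPolynomial (Sig m) E) (b : Fin c → Fin r → ℕ),
      (∀ j, IsWeightedHomogeneous w (H j) (b j)) →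
    ∀ (G : Fin (n + 1) → Polynomial (MvPolynomial (Sig m) E)) (D : Fin r → ℕ)
      (t : Fin (n + 1) → ℕ), (∀ i, MonicW w D (G i) (t i)) →
    ∀ (ι : Type) [Finite ι] (β : ι → Ω) (β₀ : ι → F),
      (∀ P : MvPolynomial ι E, aeval β P = 0 → aeval β₀ P = 0) →
    ∀ (y : Sig m → Ω) (z : Fin (n + 1) → Ω), Rel y →
      (∀ j, eval y (MvPolynomial.map (algebraMap E Ω) (H j)) = 0) →
      (∀ i, ev ((G i).map (MvPolynomial.map (algebraMap E Ω))) y (z i) = 0) →
    ∃ (lam : Fin r → Ω) (y₀ : Sig m → F) (z₀ : Fin (n + 1) → F), (∀ κ, lam κ ≠ 0) ∧ Rel y₀ ∧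
      (∀ j, eval y₀ (MvPolynomial.map (algebraMap E F) (H j)) = 0) ∧
      (∀ i, ev ((G i).map (MvPolynomial.map (algebraMap E F))) y₀ (z₀ i) = 0) ∧
      ∀ P : MvPolynomial (ι ⊕ (Sig m ⊕ Fin (n + 1))) E,
        aeval (Sum.elim β (Sum.elim (act w lam y) fun i => sp lam D * z i)) P = 0 →
          aeval (Sum.elim β₀ (Sum.elim y₀ z₀)) P = 0

/-- ASP: algebraic elements can be embedded in `F` compatibly with all specializations of a transcendental
element. Proof: let `σ` be an `E`-embedding of the algebraic field extension `E(ρ_i)` in `F`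
(`IsAlgClosed.lift`); a polynomial relation between `τ` and the `ρ_i` is a polynomial in `τ` over
`E(ρ_i)`, over which `τ` is transcendental, so all its coefficients vanish, and also their images
under `σ`. -/
def S_ASP : Prop :=
  ∀ (E F Ω : Type) [Field E] [Field F] [IsAlgClosed F] [Algebra E F] [Field Ω] [Algebra E Ω]
    (τ : Ω), Transcendental E τ → ∀ (ι : Type) [Finite ι] (ρ : ι → Ω),
    (∀ i, IsAlgebraic E (ρ i)) →
    ∃ σ : ι → F, ∀ (a : F) (P : MvPolynomial (Unit ⊕ ι) E),
      aeval (Sum.elim (fun _ => τ) ρ) P = 0 → aeval (Sum.elim (fun _ => a) σ) P = 0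

end Pool.Agent.H50F
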