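import Pool.Agent.H50F.INT
import Pool.Agent.H50F.Stm2

/-!
# Project H50F, piece RFRAC: denominators in `K[x]` for the ring `K[x, t] ∩ K[x, t⁻¹]`
-/

set_option autoImplicit false

namespace Pool.Agent.H50F

namespace Rf

open Polynomial IntermediateField.algebraAdjoinAdjoin

variable {K L : Type} [Field K] [Field L] [Algebra K L]

theorem aeval_mem {S : Subalgebra K L} {x : L} (hx : x ∈ S) (q : K[X]) : aeval x q ∈ S :=
  Algebra.adjoin_le (Set.singleton_subset_iff.2 hx) (In.aeval_mem x q)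

theorem inv_dvd {S : Subalgebra K L} {x : L}
    (hfd : FiniteDimensional (IntermediateField.adjoin K {x}) L) (hxS : x ∈ S) {v : L}
    (hv : v ∈ S) (hv0 : v ≠ 0) : ∃ q : K[X], q ≠ 0 ∧ aeval x q * v⁻¹ ∈ S := by
  have h1 : IsAlgebraic (IntermediateField.adjoin K {x}) v := Algebra.IsAlgebraic.isAlgebraic v
  have h2 : IsAlgebraic (Algebra.adjoin K {x}) v :=
    (IsFractionRing.isAlgebraic_iff (Algebra.adjoin K {x}) (IntermediateField.adjoin K {x}) L).2 h1
  obtain ⟨P, hP0, hPv⟩ := h2.exists_nonzero_coeff_and_aeval_eq_zero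
    (mem_nonZeroDivisors_of_ne_zero hv0)
  obtain ⟨q, hq⟩ := In.mem_adj.1 (P.coeff 0).2
  refine ⟨q, ?_, ?_⟩
  · rintro rfl
    apply hP0
    apply Subtype.ext
    rw [hq, map_zero]
    rfl
  · have h3 : aeval v P.divX * v + aeval x q = 0 := by
      rw [← hPv, ← P.divX_mul_X_add, map_add, map_mul, aeval_X, aeval_C, divX_mul_X_add, ← hq]
      rfl
    have h4 : aeval x q * v⁻¹ = -aeval v P.divX := by
      rw [eq_neg_of_add_eq_zero_right h3, neg_mul, mul_assoc, mul_inv_cancel₀ hv0, mul_one]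
    rw [h4]
    apply neg_mem
    rw [aeval_eq_sum_range]
    refine sum_mem fun i _ => ?_
    have h5 : P.divX.coeff i • v ^ i = (P.divX.coeff i : L) * v ^ i := rfl
    rw [h5]
    exact mul_mem (Algebra.adjoin_le (Set.singleton_subset_iff.2 hxS) (P.divX.coeff i).2)
      (pow_mem hv i)

theorem both {x t : L} (hfd : FiniteDimensional (IntermediateField.adjoin K {x}) L) :
    ∃ a : K[X], a ≠ 0 ∧ ∀ g ∈ Algebra.adjoin K {x, t},
      ∃ N : ℕ, aeval x a ^ N * g ∈ Algebra.adjoin K {x, t⁻¹} := by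
  have hx1 : x ∈ Algebra.adjoin K {x, t⁻¹} := Algebra.subset_adjoin (by simp)
  have ht1 : t⁻¹ ∈ Algebra.adjoin K {x, t⁻¹} := Algebra.subset_adjoin (by simp)
  obtain ⟨a, ha0, ha⟩ : ∃ a : K[X], a ≠ 0 ∧ aeval x a * t ∈ Algebra.adjoin K {x, t⁻¹} := by
    by_cases ht : t = 0
    · exact ⟨1, one_ne_zero, by rw [ht, mul_zero]; exact zero_mem _⟩
    · obtain ⟨a, ha0, ha⟩ := inv_dvd hfd hx1 ht1 (inv_ne_zero ht)
      rw [inv_inv] at ha
      exact ⟨a, ha0, ha⟩
  have hax : aeval x a ∈ Algebra.adjoin K {x, t⁻¹} := aeval_mem hx1 a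
  refine ⟨a, ha0, fun g hg => ?_⟩
  induction hg using Algebra.adjoin_induction with
  | mem g hg =>
    rcases hg with rfl | hg
    · exact ⟨0, by rw [pow_zero, one_mul]; exact hx1⟩
    · rw [Set.mem_singleton_iff] at hg
      subst hg
      exact ⟨1, by rw [pow_one]; exact ha⟩
  | algebraMap r => exact ⟨0, by rw [pow_zero, one_mul]; exact Subalgebra.algebraMap_mem _ r⟩
  | add g g' _ _ h1 h2 =>
    obtain ⟨N, hN⟩ := h1
    obtain ⟨M, hM⟩ := h2
    refine ⟨N + M, ?_⟩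
    have e : aeval x a ^ (N + M) * (g + g') = aeval x a ^ M * (aeval x a ^ N * g) +
      aeval x a ^ N * (aeval x a ^ M * g') := by ring
    rw [e]
    exact add_mem (mul_mem (pow_mem hax _) hN) (mul_mem (pow_mem hax _) hM)
  | mul g g' _ _ h1 h2 =>
    obtain ⟨N, hN⟩ := h1
    obtain ⟨M, hM⟩ := h2
    refine ⟨N + M, ?_⟩
    have e : aeval x a ^ (N + M) * (g * g') = (aeval x a ^ N * g) * (aeval x a ^ M * g') := by ring
    rw [e]
    exact mul_mem hN hM

end Rf

open Polynomial in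
theorem t_RFRAC : S_RFRAC := by
  intro K L _ _ _ x t hx hfd htop h
  have hxS : x ∈ Algebra.adjoin K {x, t} := Algebra.subset_adjoin (by simp)
  obtain ⟨q, hq0, hq⟩ : ∃ q : K[X], q ≠ 0 ∧ aeval x q * h ∈ Algebra.adjoin K {x, t} := by
    have h1 : h ∈ IntermediateField.adjoin K {x, t} := by rw [htop]; trivial
    obtain ⟨r, hr, s, hs, hrs⟩ := IntermediateField.mem_adjoin_iff_div.1 h1
    by_cases hs0 : s = 0
    · refine ⟨1, one_ne_zero, ?_⟩
      rw [hrs, hs0, div_zero, mul_zero]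
      exact zero_mem _
    · obtain ⟨q, hq0, hq⟩ := Rf.inv_dvd hfd hxS hs hs0
      refine ⟨q, hq0, ?_⟩
      have e : aeval x q * h = r * (aeval x q * s⁻¹) := by
        rw [hrs, div_eq_mul_inv]
        ring
      rw [e]
      exact mul_mem hr hq
  obtain ⟨a, ha0, ha⟩ := Rf.both (x := x) (t := t) hfd
  obtain ⟨N, hN⟩ := ha _ hq
  refine ⟨a ^ N * q, mul_ne_zero (pow_ne_zero _ ha0) hq0, ?_, ?_⟩
  · rw [map_mul, map_pow, mul_assoc]
    exact mul_mem (pow_mem (Rf.aeval_mem hxS a) _) hq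
  · rw [map_mul, map_pow, mul_assoc]
    exact hN

end Pool.Agent.H50F
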