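import Pool.Agent.H50F.Stm4
import Pool.Agent.H50F.LAT
import Pool.Agent.H50F.DED
import Pool.Agent.H50F.INT
import Pool.Agent.H50F.RFRAC

/-!
# Project H50F, piece LATM: reduced bases of the modules of sections
-/

set_option autoImplicit false

namespace Pool.Agent.H50F

namespace Lm

open Polynomial

variable {K L : Type} [Field K] [Field L] [Algebra K L]

/-- the hypotheses of `S_LAT` -/
structure LH (K : Type) {L : Type} [Field K] [Field L] [Algebra K L] (x : L)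
    (M W : Submodule K L) : Prop where
  hx : ∀ h ∈ M, x * h ∈ M
  hw : ∀ h ∈ W, x⁻¹ * h ∈ W
  h2 : ∃ (N : ℕ) (b : Fin N → L), ∀ h ∈ M, ∃ q : Fin N → Polynomial K,
    h = ∑ i, Polynomial.aeval x (q i) * b i
  h3 : ∀ h ∈ M, ∃ n : ℕ, x⁻¹ ^ n * h ∈ W
  h4 : ∃ m₀ : ℕ, ∀ h ∈ M, x ^ m₀ * h ∈ W → h = 0
  h5 : ∀ h : L, ∃ q : Polynomial K, q ≠ 0 ∧ Polynomial.aeval x q * h ∈ M

theorem pow_cl {M : Submodule K L} {x : L} (hx : ∀ h ∈ M, x * h ∈ M) (n : ℕ) {h : L}
    (hh : h ∈ M) : x ^ n * h ∈ M := by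
  induction n with
  | zero => rwa [pow_zero, one_mul]
  | succ n ih =>
    rw [pow_succ', mul_assoc]
    exact hx _ ih

theorem poly_cl {M : Submodule K L} {x : L} (hx : ∀ h ∈ M, x * h ∈ M) (p : K[X]) {h : L}
    (hh : h ∈ M) : aeval x p * h ∈ M := by
  induction p using Polynomial.induction_on' with
  | add p q hp hq =>
    rw [map_add, add_mul]
    exact M.add_mem hp hq
  | monomial n a =>
    rw [aeval_monomial, mul_assoc, ← Algebra.smul_def]
    exact M.smul_mem a (pow_cl hx n hh)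

theorem LH.nr {x : L} {M W : Submodule K L} (H : LH K x M W) (t : L) (k : ℕ) :
    LH K x (NR t M) (NR (t * x⁻¹ ^ k) W) where
  hx := fun h ⟨h1, h2⟩ => ⟨H.hx h h1, by
    have := H.hx _ h2
    rwa [mul_left_comm] at this⟩
  hw := fun h ⟨h1, h2⟩ => ⟨H.hw h h1, by
    have := H.hw _ h2
    rwa [mul_left_comm] at this⟩
  h2 := by
    obtain ⟨N, b, hb⟩ := H.h2
    exact ⟨N, b, fun h hh => hb h hh.1⟩
  h3 := by
    rintro h ⟨h1, h2⟩
    obtain ⟨n, hn⟩ := H.h3 h h1
    obtain ⟨n', hn'⟩ := H.h3 _ h2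
    refine ⟨n + n', ?_, ?_⟩
    · rw [add_comm, pow_add, mul_assoc]
      exact pow_cl H.hw n' hn
    · have h3 := pow_cl H.hw (k + n) hn'
      have h4 : t * x⁻¹ ^ k * (x⁻¹ ^ (n + n') * h) = x⁻¹ ^ (k + n) * (x⁻¹ ^ n' * (t * h)) := by
        rw [pow_add, pow_add]
        ring
      rw [h4]
      exact h3
  h4 := by
    obtain ⟨m₀, hm⟩ := H.h4
    exact ⟨m₀, fun h hh hw => hm h hh.1 hw.1⟩
  h5 := by
    intro h
    obtain ⟨q, hq0, hq⟩ := H.h5 h
    obtain ⟨q', hq0', hq'⟩ := H.h5 (t * h)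
    refine ⟨q * q', mul_ne_zero hq0 hq0', ?_, ?_⟩
    · have h1 := poly_cl H.hx q' hq
      rw [map_mul]
      have h2 : aeval x q * aeval x q' * h = aeval x q' * (aeval x q * h) := by ring
      rw [h2]
      exact h1
    · have h1 := poly_cl H.hx q hq'
      rw [map_mul]
      have h2 : t * (aeval x q * aeval x q' * h) = aeval x q * (aeval x q' * (t * h)) := by ring
      rw [h2]
      exact h1

theorem reg_sum {x : L} {ι : Type} (s : Finset ι) (f : ι → L) (hf : ∀ i ∈ s, Reg K x (f i)) :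
    Reg K x (∑ i ∈ s, f i) := IsIntegral.sum _ hf

theorem reg_adj {x : L} (p : K[X]) : Reg K x (aeval x p) :=
  isIntegral_algebraMap (x := (⟨aeval x p, In.aeval_mem x p⟩ : Algebra.adjoin K {x}))

theorem mr_mul {R : Subalgebra K L} {n : ℕ} {f : Fin (n + 1) → L} {s : L} (hs : s ∈ R) {h : L}
    (hh : h ∈ MR R f) : s * h ∈ MR R f := by
  obtain ⟨r, hr, rfl⟩ := hh
  refine ⟨fun i => s * r i, fun i => R.mul_mem hs (hr i), ?_⟩
  rw [Finset.mul_sum]
  exact Finset.sum_congr rfl fun i _ => (mul_assoc _ _ _).symm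

theorem x_mem (x t : L) : x ∈ RR K x t :=
  ⟨Algebra.subset_adjoin (by simp), Algebra.subset_adjoin (by simp)⟩

/-- a common denominator -/
theorem den {x : L} {n : ℕ} (f : Fin (n + 1) → L)
    (hI : ∀ h : L, ∃ q : Polynomial K, q ≠ 0 ∧ Reg K x (Polynomial.aeval x q * h)) :
    ∃ g : K[X], g ≠ 0 ∧ ∀ i, Reg K x (aeval x g * f i) := by
  choose q hq0 hq using fun i => hI (f i)
  refine ⟨∏ i, q i, Finset.prod_ne_zero_iff.2 fun i _ => hq0 i, fun i => ?_⟩
  obtain ⟨g, hg⟩ : q i ∣ ∏ i, q i := Finset.dvd_prod_of_mem q (Finset.mem_univ i)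
  rw [hg, mul_comm (q i), map_mul, mul_assoc]
  exact (reg_adj g).mul (hq i)

theorem mr_reg (hR : S_RINT) {x t : L} {n : ℕ} {f : Fin (n + 1) → L} {g : K[X]}
    (hg : ∀ i, Reg K x (aeval x g * f i)) {h : L} (hh : h ∈ MR (RR K x t) f) :
    Reg K x (aeval x g * h) := by
  obtain ⟨r, hr, rfl⟩ := hh
  rw [Finset.mul_sum]
  refine reg_sum _ _ fun i _ => ?_
  rw [mul_left_comm]
  exact (hR K L x t (r i) (hr i)).mul (hg i)

theorem lh [CharZero K] (hR : S_RINT) (hS : S_RSHIFT) (x t : L) (k : ℕ)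
    (hx : Transcendental K x) (hfd : FiniteDimensional (IntermediateField.adjoin K {x}) L)
    (hg : IntermediateField.adjoin K {x, t} = ⊤) (n : ℕ) (f : Fin (n + 1) → L) (hf : f ≠ 0) :
    LH K x (MR (RR K x t) f) (MR (RR K x⁻¹ (t * x⁻¹ ^ k)) f) := by
  have hx0 : x ≠ 0 := by
    rintro rfl
    exact hx isAlgebraic_zero
  have hx' : Transcendental K x⁻¹ := by
    intro h
    exact hx (IsAlgebraic.inv_iff.1 h)
  have hK : IntermediateField.adjoin K {x} = IntermediateField.adjoin K {x⁻¹} := by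
    apply le_antisymm
    · rw [IntermediateField.adjoin_simple_le_iff]
      have := inv_mem (IntermediateField.mem_adjoin_simple_self K x⁻¹)
      rwa [inv_inv] at this
    · rw [IntermediateField.adjoin_simple_le_iff]
      exact inv_mem (IntermediateField.mem_adjoin_simple_self K x)
  have hfd' : FiniteDimensional (IntermediateField.adjoin K {x⁻¹}) L := by
    rw [← hK]
    exact hfd
  constructor
  · intro h hh
    exact mr_mul (x_mem x t) hh
  · intro h hh
    exact mr_mul (x_mem x⁻¹ _) hh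
  · obtain ⟨N, b, hb⟩ := t_FIN K L x hx hfd
    refine ⟨(n + 1) * N, fun l => b (finProdFinEquiv.symm l).2 * f (finProdFinEquiv.symm l).1,
      fun h hh => ?_⟩
    obtain ⟨r, hr, rfl⟩ := hh
    choose q hq using fun i => hb (r i) (hR K L x t (r i) (hr i))
    refine ⟨fun l => q (finProdFinEquiv.symm l).1 (finProdFinEquiv.symm l).2, ?_⟩
    rw [Equiv.sum_comp finProdFinEquiv.symm
      (fun p : Fin (n + 1) × Fin N => aeval x (q p.1 p.2) * (b p.2 * f p.1)),
      Fintype.sum_prod_type]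
    refine Finset.sum_congr rfl fun i _ => ?_
    rw [hq i, Finset.sum_mul]
    exact Finset.sum_congr rfl fun j _ => (mul_assoc _ _ _)
  · rintro h ⟨r, hr, rfl⟩
    choose m hm using fun i => hS K L x t k hx0 (r i) (hr i)
    refine ⟨∑ i, m i, fun i => x⁻¹ ^ (∑ i, m i) * r i, fun i => ?_, ?_⟩
    · obtain ⟨c, hc⟩ : ∃ c, ∑ i, m i = c + m i := by
        obtain ⟨c, hc⟩ := Nat.exists_eq_add_of_le' (Finset.single_le_sum (f := m)
          (fun _ _ => Nat.zero_le _) (Finset.mem_univ i))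
        exact ⟨c, hc⟩
      show x⁻¹ ^ (∑ i, m i) * r i ∈ RR K x⁻¹ (t * x⁻¹ ^ k)
      rw [hc, pow_add, mul_assoc]
      exact (RR K x⁻¹ (t * x⁻¹ ^ k)).mul_mem
        ((RR K x⁻¹ (t * x⁻¹ ^ k)).pow_mem (x_mem x⁻¹ _) c) (hm i)
    · rw [Finset.mul_sum]
      exact Finset.sum_congr rfl fun i _ => (mul_assoc _ _ _).symm
  · obtain ⟨g, hg0, hgf⟩ := den f (t_INT K L x hx hfd).2.2
    obtain ⟨g', hg0', hgf'⟩ := den f (t_INT K L x⁻¹ hx' hfd').2.2
    refine ⟨1 + g.natDegree + g'.natDegree, fun h hh hw => ?_⟩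
    have h1 := mr_reg hR hgf hh
    have h2 := mr_reg hR hgf' hw
    have e1 := In.rev hx0 g
    have e2 := In.rev (inv_ne_zero hx0) g'
    rw [inv_inv] at e2
    have h3 : Reg K x (aeval x g'.reverse * (aeval x g * h)) := (reg_adj _).mul h1
    have h4 : Reg K x⁻¹ (aeval x⁻¹ g.reverse * (aeval x⁻¹ g' *
      (x ^ (1 + g.natDegree + g'.natDegree) * h))) := (reg_adj _).mul h2
    have h5 : aeval x⁻¹ g.reverse * (aeval x⁻¹ g' *
      (x ^ (1 + g.natDegree + g'.natDegree) * h)) =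
        x * (aeval x g'.reverse * (aeval x g * h)) := by
      rw [← e1, ← e2, pow_add, pow_add, pow_one]
      have h6 : x⁻¹ ^ g.natDegree * x ^ g.natDegree = 1 := by
        rw [← mul_pow, inv_mul_cancel₀ hx0, one_pow]
      linear_combination (aeval x g * aeval x⁻¹ g' * x * x ^ g'.natDegree * h) * h6
    rw [h5] at h4
    have h7 := (t_INT K L x hx hfd).2.1 _ h3 h4
    rw [← e2] at h7
    have h8 : aeval x g ≠ 0 := fun h => hg0 (transcendental_iff.1 hx g h)
    have h9 : aeval x⁻¹ g' ≠ 0 := fun h => hg0' (transcendental_iff.1 hx' g' h)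
    rcases mul_eq_zero.1 h7 with h10 | h10
    · exact absurd h10 (mul_ne_zero (pow_ne_zero _ hx0) h9)
    · exact (mul_eq_zero.1 h10).resolve_left h8
  · intro h
    obtain ⟨l, hl⟩ : ∃ l, f l ≠ 0 := by
      by_contra hc
      push Not at hc
      exact hf (funext hc)
    obtain ⟨q, hq0, hq⟩ := t_RFRAC K L x t hx hfd hg (h / f l)
    refine ⟨q, hq0, Pi.single l (aeval x q * (h / f l)), fun i => ?_, ?_⟩
    · by_cases hi : i = l
      · subst hi
        rw [Pi.single_eq_same]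
        exact hq
      · rw [Pi.single_eq_of_ne hi]
        exact (RR K x t).zero_mem
    · rw [Finset.sum_eq_single l]
      · rw [Pi.single_eq_same, mul_assoc, div_mul_cancel₀ _ hl]
      · intro i _ hi
        rw [Pi.single_eq_of_ne hi, zero_mul]
      · intro h
        exact absurd (Finset.mem_univ l) h

end Lm

open Lm in
theorem t_LATM' (hR : S_RINT) (hS : S_RSHIFT) : S_LATM := by
  intro K L _ _ _ _ x t k hx hfd hg n f hf
  have H := lh hR hS x t k hx hfd hg n f hf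
  have H' := H.nr t k
  obtain ⟨e, a, h1, h2, h3, h4, h5, h6⟩ := t_LAT K L x hx hfd _ _ H.hx H.hw H.h2 H.h3 H.h4 H.h5
  obtain ⟨h, b, g1, g2, g3, g4, g5, g6⟩ :=
    t_LAT K L x hx hfd _ _ H'.hx H'.hw H'.h2 H'.h3 H'.h4 H'.h5
  exact ⟨e, h, a, b, ⟨h1, h2, h3, h4, h5, h6⟩, ⟨g1, g2, g3, g4, g5, g6⟩⟩

end Pool.Agent.H50F
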