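import Pool.Agent.H50F.Stm4

/-!
# Project H50F, phase 2: the system of equations (`S_POLY`)
-/

set_option autoImplicit false

namespace Pool.Agent.H50F

open MvPolynomial Pool.Agent.W476.TP

namespace PolyH

variable {K C : Type} [Field K] [Field C] [Algebra K C] {e : ℕ}

/-- The homogenization of a polynomial in one variable, in the coordinates `x_0`, `x_1`. -/
noncomputable def Hm (m : ℕ) (q : Polynomial K) : MvPolynomial (Sig (m3 e)) K :=
  ∑ i ∈ Finset.range (m + 1), MvPolynomial.C (q.coeff i) *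
    (X ⟨0, (0 : Fin 2)⟩ : MvPolynomial (Sig (m3 e)) K) ^ (m - i) * X ⟨0, (1 : Fin 2)⟩ ^ i

lemma wh_zero' {σ M R : Type} [CommSemiring R] [AddCommMonoid M] (w : σ → M) (m : M) :
    IsWeightedHomogeneous w (0 : MvPolynomial σ R) m := isWeightedHomogeneous_zero R w m

lemma wh_sum {σ M R ι : Type} [CommSemiring R] [AddCommMonoid M] (w : σ → M) (m : M)
    (s : Finset ι) (f : ι → MvPolynomial σ R) (h : ∀ i ∈ s, IsWeightedHomogeneous w (f i) m) :
    IsWeightedHomogeneous w (∑ i ∈ s, f i) m :=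
  (weightedHomogeneousSubmodule R w m).sum_mem h

lemma wh_sub {σ M R : Type} [CommRing R] [AddCommMonoid M] (w : σ → M) (m : M)
    {f g : MvPolynomial σ R} (hf : IsWeightedHomogeneous w f m)
    (hg : IsWeightedHomogeneous w g m) : IsWeightedHomogeneous w (f - g) m :=
  (weightedHomogeneousSubmodule R w m).sub_mem hf hg

lemma Hm_zero (m : ℕ) : (Hm m (0 : Polynomial K) : MvPolynomial (Sig (m3 e)) K) = 0 := by
  unfold Hm
  simp

lemma Hm_wh (k : ℕ) (β : Fin (e + 1) → ℕ) (m : ℕ) (q : Polynomial K) :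
    IsWeightedHomogeneous (w3 k β) (Hm m q : MvPolynomial (Sig (m3 e)) K) ![m, 0, 0] := by
  unfold Hm
  refine wh_sum _ _ _ _ fun i hi => ?_
  have hi' : i ≤ m := by
    have := Finset.mem_range.mp hi
    omega
  have h0 : IsWeightedHomogeneous (w3 k β)
      (X ⟨0, (0 : Fin 2)⟩ : MvPolynomial (Sig (m3 e)) K) ![1, 0, 0] :=
    isWeightedHomogeneous_X K (w3 k β) ⟨0, (0 : Fin 2)⟩
  have h1 : IsWeightedHomogeneous (w3 k β)
      (X ⟨0, (1 : Fin 2)⟩ : MvPolynomial (Sig (m3 e)) K) ![1, 0, 0] :=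
    isWeightedHomogeneous_X K (w3 k β) ⟨0, (1 : Fin 2)⟩
  have h2 := ((isWeightedHomogeneous_C (w3 k β) (q.coeff i)).mul (h0.pow (m - i))).mul (h1.pow i)
  refine cast (congrArg _ ?_) h2
  funext κ
  fin_cases κ
  · simp
    omega
  · simp
  · simp

lemma aeval_Hm (m : ℕ) (q : Polynomial K) (y : Sig (m3 e) → C) :
    aeval y (Hm m q : MvPolynomial (Sig (m3 e)) K) = ∑ i ∈ Finset.range (m + 1),
      algebraMap K C (q.coeff i) * y ⟨0, (0 : Fin 2)⟩ ^ (m - i) * y ⟨0, (1 : Fin 2)⟩ ^ i := by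
  unfold Hm
  rw [map_sum]
  refine Finset.sum_congr rfl fun i _ => ?_
  rw [map_mul, map_mul, map_pow, map_pow, aeval_X, aeval_X, aeval_C]

lemma aeval_Hm_ne (m : ℕ) (q : Polynomial K) (hq : q.natDegree ≤ m) (y : Sig (m3 e) → C)
    (h0 : y ⟨0, (0 : Fin 2)⟩ ≠ 0) :
    aeval y (Hm m q : MvPolynomial (Sig (m3 e)) K) = y ⟨0, (0 : Fin 2)⟩ ^ m *
      Polynomial.aeval (y ⟨0, (1 : Fin 2)⟩ / y ⟨0, (0 : Fin 2)⟩) q := by
  rw [aeval_Hm, Polynomial.aeval_eq_sum_range' (n := m + 1) (by omega), Finset.mul_sum]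
  refine Finset.sum_congr rfl fun i hi => ?_
  have hi' : i ≤ m := by
    have := Finset.mem_range.mp hi
    omega
  rw [Algebra.smul_def, div_pow]
  obtain ⟨j, rfl⟩ := Nat.exists_eq_add_of_le hi'
  rw [Nat.add_sub_cancel_left, pow_add]
  field_simp

lemma aeval_Hm_zero (m : ℕ) (q : Polynomial K) (y : Sig (m3 e) → C)
    (h0 : y ⟨0, (0 : Fin 2)⟩ = 0) :
    aeval y (Hm m q : MvPolynomial (Sig (m3 e)) K) = y ⟨0, (1 : Fin 2)⟩ ^ m *
      algebraMap K C (q.coeff m) := by
  rw [aeval_Hm, Finset.sum_eq_single m]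
  · rw [Nat.sub_self, pow_zero, mul_one, mul_comm]
  · intro i hi hne
    have hi' : i ≤ m := by
      have := Finset.mem_range.mp hi
      omega
    rw [h0, zero_pow (by omega)]
    ring
  · intro h
    exact absurd (Finset.mem_range.mpr (Nat.lt_succ_self m)) h

end PolyH

open PolyH in
theorem t_POLY : S_POLY := by
  intro K C _ _ _ e k n a b A B Fp hA hB hF
  obtain ⟨N, hN1, hN2⟩ : ∃ N : ℕ, (∀ j, 0 ≤ (N : ℤ) + a j) ∧ ∀ i, 0 ≤ (N : ℤ) + k + b i := by
    have ha0 : ∀ j, |a j| ≤ ∑ j, |a j| := fun j =>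
      Finset.single_le_sum (f := fun j => |a j|) (fun _ _ => abs_nonneg _) (Finset.mem_univ j)
    have hb0 : ∀ j, |b j| ≤ ∑ j, |b j| := fun j =>
      Finset.single_le_sum (f := fun j => |b j|) (fun _ _ => abs_nonneg _) (Finset.mem_univ j)
    have ha1 : 0 ≤ ∑ j, |a j| := Finset.sum_nonneg fun _ _ => abs_nonneg _
    have hb1 : 0 ≤ ∑ j, |b j| := Finset.sum_nonneg fun _ _ => abs_nonneg _
    refine ⟨(∑ j, (a j).natAbs) + ∑ i, (b i).natAbs, fun j => ?_, fun i => ?_⟩
    · push_cast
      have h1 := ha0 j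
      have h2 := neg_abs_le (a j)
      linarith
    · push_cast
      have h1 := hb0 i
      have h2 := neg_abs_le (b i)
      have h3 : (0 : ℤ) ≤ k := Int.natCast_nonneg _
      linarith
  obtain ⟨β, hβ⟩ : ∃ β : Fin (e + 1) → ℕ, ∀ j, (β j : ℤ) = N + a j :=
    ⟨fun j => ((N : ℤ) + a j).toNat, fun j => Int.toNat_of_nonneg (hN1 j)⟩
  obtain ⟨γ, hγ⟩ : ∃ γ : Fin (e + 1) → ℕ, ∀ i, (γ i : ℤ) = N + k + b i :=
    ⟨fun i => ((N : ℤ) + k + b i).toNat, fun i => Int.toNat_of_nonneg (hN2 i)⟩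
  let mB : Fin (e + 1) → Fin (e + 1) → ℕ := fun i j => (b i + k - a j).toNat
  let mA : Fin (e + 1) → Fin (e + 1) → ℕ := fun i j => (b i - a j).toNat
  let mF : Fin (e + 1) → ℕ := fun j => (- a j).toNat
  have hmB : ∀ i j, B i j ≠ 0 → (mB i j : ℤ) = b i + k - a j := fun i j h =>
    Int.toNat_of_nonneg (le_trans (Int.natCast_nonneg _) (hB i j h))
  have hmA : ∀ i j, A i j ≠ 0 → (mA i j : ℤ) = b i - a j := fun i j h =>
    Int.toNat_of_nonneg (le_trans (Int.natCast_nonneg _) (hA i j h))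
  have hmF : ∀ l j, Fp l j ≠ 0 → (mF j : ℤ) = - a j := fun l j h =>
    Int.toNat_of_nonneg (le_trans (Int.natCast_nonneg _) (hF l j h))
  let s : MvPolynomial (Sig (m3 e)) K := X ⟨1, (0 : Fin 2)⟩
  let w : MvPolynomial (Sig (m3 e)) K := X ⟨1, (1 : Fin 2)⟩
  let yy : Fin (e + 1) → MvPolynomial (Sig (m3 e)) K := fun j => X ⟨2, j⟩
  refine ⟨β, γ, N, fun i => ∑ j, (s * Hm (mB i j) (B i j) - w * Hm (mA i j) (A i j)) * yy j,
    fun l => ∑ j, Hm (mF j) (Fp l j) * yy j, ?_, ?_, ?_⟩
  · intro i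
    refine wh_sum _ _ _ _ fun j _ => ?_
    have hs : IsWeightedHomogeneous (w3 k β) s ![0, 1, 0] :=
      isWeightedHomogeneous_X K (w3 k β) ⟨1, (0 : Fin 2)⟩
    have hw : IsWeightedHomogeneous (w3 k β) w ![k, 1, 0] :=
      isWeightedHomogeneous_X K (w3 k β) ⟨1, (1 : Fin 2)⟩
    have hy : IsWeightedHomogeneous (w3 k β) (yy j) ![β j, 0, 1] :=
      isWeightedHomogeneous_X K (w3 k β) ⟨2, j⟩
    rw [sub_mul]
    refine wh_sub _ _ ?_ ?_
    · by_cases h : B i j = 0
      · rw [h, Hm_zero, mul_zero, zero_mul]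
        exact wh_zero' _ _
      · refine cast (congrArg _ ?_) ((hs.mul (Hm_wh k β (mB i j) (B i j))).mul hy)
        have h1 := hmB i j h
        have h2 := hβ j
        have h3 := hγ i
        funext κ
        fin_cases κ
        · simp
          omega
        · simp
        · simp
    · by_cases h : A i j = 0
      · rw [h, Hm_zero, mul_zero, zero_mul]
        exact wh_zero' _ _
      · refine cast (congrArg _ ?_) ((hw.mul (Hm_wh k β (mA i j) (A i j))).mul hy)
        have h1 := hmA i j h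
        have h2 := hβ j
        have h3 := hγ i
        funext κ
        fin_cases κ
        · simp
          omega
        · simp
        · simp
  · intro l
    refine wh_sum _ _ _ _ fun j _ => ?_
    have hy : IsWeightedHomogeneous (w3 k β) (yy j) ![β j, 0, 1] :=
      isWeightedHomogeneous_X K (w3 k β) ⟨2, j⟩
    by_cases h : Fp l j = 0
    · rw [h, Hm_zero, zero_mul]
      exact wh_zero' _ _
    · refine cast (congrArg _ ?_) ((Hm_wh k β (mF j) (Fp l j)).mul hy)
      have h1 := hmF l j h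
      have h2 := hβ j
      funext κ
      fin_cases κ
      · simp
        omega
      · simp
      · simp
  · intro y hrel hg
    have hsw : y ⟨1, (0 : Fin 2)⟩ ≠ 0 ∨ y ⟨1, (1 : Fin 2)⟩ ≠ 0 := by
      obtain ⟨i, hi⟩ := hrel 1
      change Fin 2 at i
      fin_cases i
      · exact Or.inl hi
      · exact Or.inr hi
    obtain ⟨j0, hj0⟩ := hrel 2
    change Fin (e + 1) at j0
    have hg' : ∀ i, ∑ j, (y ⟨1, (0 : Fin 2)⟩ * aeval y (Hm (mB i j) (B i j) :
        MvPolynomial (Sig (m3 e)) K) - y ⟨1, (1 : Fin 2)⟩ * aeval y (Hm (mA i j) (A i j) :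
        MvPolynomial (Sig (m3 e)) K)) * y ⟨2, j⟩ = 0 := by
      intro i
      rw [← hg i, map_sum]
      refine Finset.sum_congr rfl fun j _ => ?_
      rw [map_mul, map_sub, map_mul, map_mul, aeval_X, aeval_X, aeval_X]
    have hF' : ∀ l, aeval y (∑ j, Hm (mF j) (Fp l j) * yy j) =
        ∑ j, aeval y (Hm (mF j) (Fp l j) : MvPolynomial (Sig (m3 e)) K) * y ⟨2, j⟩ := by
      intro l
      rw [map_sum]
      refine Finset.sum_congr rfl fun j _ => ?_
      rw [map_mul, aeval_X]
    refine ⟨fun h0 => ?_, fun h0 => ?_⟩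
    · set x₀ := y ⟨0, (0 : Fin 2)⟩ with hx₀
      set c := y ⟨0, (1 : Fin 2)⟩ / x₀ with hc
      have eB : ∀ i j, aeval y (Hm (mB i j) (B i j) : MvPolynomial (Sig (m3 e)) K) =
          x₀ ^ (b i + k - a j) * Polynomial.aeval c (B i j) := by
        intro i j
        by_cases h : B i j = 0
        · rw [h, Hm_zero, map_zero, map_zero, mul_zero]
        · rw [aeval_Hm_ne (mB i j) (B i j) (by
            have h1 := hmB i j h
            have h2 := hB i j h
            omega) y h0, ← hmB i j h, zpow_natCast]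
      have eA : ∀ i j, aeval y (Hm (mA i j) (A i j) : MvPolynomial (Sig (m3 e)) K) =
          x₀ ^ (b i - a j) * Polynomial.aeval c (A i j) := by
        intro i j
        by_cases h : A i j = 0
        · rw [h, Hm_zero, map_zero, map_zero, mul_zero]
        · rw [aeval_Hm_ne (mA i j) (A i j) (by
            have h1 := hmA i j h
            have h2 := hA i j h
            omega) y h0, ← hmA i j h, zpow_natCast]
      have eF : ∀ l j, aeval y (Hm (mF j) (Fp l j) : MvPolynomial (Sig (m3 e)) K) =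
          x₀ ^ (- a j) * Polynomial.aeval c (Fp l j) := by
        intro l j
        by_cases h : Fp l j = 0
        · rw [h, Hm_zero, map_zero, map_zero, mul_zero]
        · rw [aeval_Hm_ne (mF j) (Fp l j) (by
            have h1 := hmF l j h
            have h2 := hF l j h
            omega) y h0, ← hmF l j h, zpow_natCast]
      refine ⟨x₀ ^ k * y ⟨1, (0 : Fin 2)⟩, y ⟨1, (1 : Fin 2)⟩, fun j => x₀ ^ (- a j) * y ⟨2, j⟩,
        ?_, ?_, fun i => ?_, fun l => ?_⟩
      · rcases hsw with h | h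
        · exact Or.inl (mul_ne_zero (pow_ne_zero _ h0) h)
        · exact Or.inr h
      · intro h
        have h1 := congrFun h j0
        exact mul_ne_zero (zpow_ne_zero _ h0) hj0 h1
      · have h1 : x₀ ^ (b i) * ∑ j, (x₀ ^ k * y ⟨1, (0 : Fin 2)⟩ * Polynomial.aeval c (B i j) -
            y ⟨1, (1 : Fin 2)⟩ * Polynomial.aeval c (A i j)) * (x₀ ^ (- a j) * y ⟨2, j⟩) = 0 := by
          rw [← hg' i, Finset.mul_sum]
          refine Finset.sum_congr rfl fun j _ => ?_
          rw [eB, eA, zpow_sub₀ h0, zpow_sub₀ h0, zpow_add₀ h0, zpow_neg, zpow_natCast]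
          ring
        exact (mul_eq_zero.mp h1).resolve_left (zpow_ne_zero _ h0)
      · rw [hF' l]
        refine Finset.sum_congr rfl fun j _ => ?_
        rw [eF]
        ring
    · obtain ⟨i1, hi1⟩ := hrel 0
      change Fin 2 at i1
      have h1 : y ⟨0, (1 : Fin 2)⟩ ≠ 0 := by
        fin_cases i1
        · exact absurd h0 hi1
        · exact hi1
      set x₁ := y ⟨0, (1 : Fin 2)⟩ with hx₁
      have eB : ∀ i j, aeval y (Hm (mB i j) (B i j) : MvPolynomial (Sig (m3 e)) K) =
          x₁ ^ (b i + k - a j) * algebraMap K C (cz (B i j) (b i + k - a j)) := by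
        intro i j
        by_cases h : B i j = 0
        · rw [h, Hm_zero, map_zero]
          unfold cz
          simp
        · rw [aeval_Hm_zero (mB i j) (B i j) y h0, ← hmB i j h, zpow_natCast]
          unfold cz
          rw [if_pos (Int.natCast_nonneg _), Int.toNat_natCast]
      have eA : ∀ i j, aeval y (Hm (mA i j) (A i j) : MvPolynomial (Sig (m3 e)) K) =
          x₁ ^ (b i - a j) * algebraMap K C (cz (A i j) (b i - a j)) := by
        intro i j
        by_cases h : A i j = 0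
        · rw [h, Hm_zero, map_zero]
          unfold cz
          simp
        · rw [aeval_Hm_zero (mA i j) (A i j) y h0, ← hmA i j h, zpow_natCast]
          unfold cz
          rw [if_pos (Int.natCast_nonneg _), Int.toNat_natCast]
      have eF : ∀ l j, aeval y (Hm (mF j) (Fp l j) : MvPolynomial (Sig (m3 e)) K) =
          x₁ ^ (- a j) * algebraMap K C (cz (Fp l j) (- a j)) := by
        intro l j
        by_cases h : Fp l j = 0
        · rw [h, Hm_zero, map_zero]
          unfold cz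
          simp
        · rw [aeval_Hm_zero (mF j) (Fp l j) y h0, ← hmF l j h, zpow_natCast]
          unfold cz
          rw [if_pos (Int.natCast_nonneg _), Int.toNat_natCast]
      refine ⟨x₁ ^ k * y ⟨1, (0 : Fin 2)⟩, y ⟨1, (1 : Fin 2)⟩, fun j => x₁ ^ (- a j) * y ⟨2, j⟩,
        ?_, ?_, fun i => ?_, fun l => ?_⟩
      · rcases hsw with h | h
        · exact Or.inl (mul_ne_zero (pow_ne_zero _ h1) h)
        · exact Or.inr h
      · intro h
        have h2 := congrFun h j0
        exact mul_ne_zero (zpow_ne_zero _ h1) hj0 h2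
      · have h2 : x₁ ^ (b i) * ∑ j, (x₁ ^ k * y ⟨1, (0 : Fin 2)⟩ *
            algebraMap K C (cz (B i j) (b i + k - a j)) -
            y ⟨1, (1 : Fin 2)⟩ * algebraMap K C (cz (A i j) (b i - a j))) *
              (x₁ ^ (- a j) * y ⟨2, j⟩) = 0 := by
          rw [← hg' i, Finset.mul_sum]
          refine Finset.sum_congr rfl fun j _ => ?_
          rw [eB, eA, zpow_sub₀ h1, zpow_sub₀ h1, zpow_add₀ h1, zpow_neg, zpow_natCast]
          ring
        exact (mul_eq_zero.mp h2).resolve_left (zpow_ne_zero _ h1)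
      · rw [hF' l]
        refine Finset.sum_congr rfl fun j _ => ?_
        rw [eF]
        ring

end Pool.Agent.H50F
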