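import Pool.Agent.H50F.Stm2

/-!
# Project H50F, pieces RINT and RSHIFT
-/

set_option autoImplicit false

namespace Pool.Agent.H50F

namespace Rint

variable {K L : Type} [Field K] [Field L] [Algebra K L]

/-- elements of `K[x, t]` are polynomials in `t` over `K[x]` -/
theorem exists_poly (x t r : L) (hr : r ∈ Algebra.adjoin K {x, t}) :
    ∃ p : Polynomial (Algebra.adjoin K {x}), Polynomial.aeval t p = r := by
  induction hr using Algebra.adjoin_induction with
  | mem y hy =>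
    rcases hy with rfl | hy
    · refine ⟨Polynomial.C ⟨y, Algebra.self_mem_adjoin_singleton K y⟩, ?_⟩
      rw [Polynomial.aeval_C]
      rfl
    · rw [Set.mem_singleton_iff] at hy
      subst hy
      exact ⟨Polynomial.X, Polynomial.aeval_X _⟩
  | algebraMap c =>
    refine ⟨Polynomial.C (algebraMap K _ c), ?_⟩
    rw [Polynomial.aeval_C]
    rfl
  | add y z _ _ hy hz =>
    obtain ⟨p, rfl⟩ := hy
    obtain ⟨q, rfl⟩ := hz
    exact ⟨p + q, map_add _ _ _⟩
  | mul y z _ _ hy hz =>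
    obtain ⟨p, rfl⟩ := hy
    obtain ⟨q, rfl⟩ := hz
    exact ⟨p * q, map_mul _ _ _⟩

/-- the module spanned by the powers of `t` with exponents between `-m` and `n` -/
noncomputable def Mn (x t : L) (m n : ℕ) : Submodule (Algebra.adjoin K {x}) L :=
  Submodule.span (Algebra.adjoin K {x}) ((fun i : ℤ => t ^ i) '' Set.Icc (-(m : ℤ)) n)

theorem zmem (x t : L) (m n : ℕ) {i : ℤ} (h1 : -(m : ℤ) ≤ i) (h2 : i ≤ n) :
    t ^ i ∈ Mn (K := K) x t m n := Submodule.subset_span ⟨i, ⟨h1, h2⟩, rfl⟩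

theorem t_RINT_aux {x t r : L} (ht : t ≠ 0) (h1 : r ∈ Algebra.adjoin K {x, t})
    (h2 : r ∈ Algebra.adjoin K {x, t⁻¹}) : IsIntegral (Algebra.adjoin K {x}) r := by
  obtain ⟨p, hp⟩ := exists_poly x t r h1
  obtain ⟨q, hq⟩ := exists_poly x t⁻¹ r h2
  set n := p.natDegree with hn
  set m := q.natDegree with hm
  refine isIntegral_of_smul_mem_submodule (M := L) (Mn (K := K) x t m n) ?_ ?_ r ?_
  · intro hbot
    have : (t ^ (0 : ℤ)) ∈ Mn (K := K) x t m n := zmem x t m n (by omega) (by omega)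
    rw [hbot, Submodule.mem_bot, zpow_zero] at this
    exact one_ne_zero this
  · exact Submodule.fg_span ((Set.finite_Icc _ _).image _)
  · intro z hz
    refine Submodule.span_induction (p := fun z _ => r • z ∈ Mn (K := K) x t m n) ?_ ?_ ?_ ?_ hz
    · rintro _ ⟨i, ⟨hi1, hi2⟩, rfl⟩
      simp only [smul_eq_mul]
      by_cases hi : i ≤ 0
      · rw [← hp, Polynomial.aeval_eq_sum_range, Finset.sum_mul]
        refine Submodule.sum_mem _ fun j hj => ?_
        rw [smul_mul_assoc]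
        refine Submodule.smul_mem _ _ ?_
        have hj' : j ≤ n := Nat.lt_succ_iff.1 (Finset.mem_range.1 hj)
        rw [← zpow_natCast, ← zpow_add₀ ht]
        exact zmem x t m n (by omega) (by omega)
      · rw [← hq, Polynomial.aeval_eq_sum_range, Finset.sum_mul]
        refine Submodule.sum_mem _ fun j hj => ?_
        rw [smul_mul_assoc]
        refine Submodule.smul_mem _ _ ?_
        have hj' : j ≤ m := Nat.lt_succ_iff.1 (Finset.mem_range.1 hj)
        rw [inv_pow, ← zpow_natCast, ← zpow_neg, ← zpow_add₀ ht]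
        exact zmem x t m n (by omega) (by omega)
    · simp
    · intro a b _ _ ha hb
      rw [smul_add]
      exact Submodule.add_mem _ ha hb
    · intro c a _ ha
      have : r • (c • a) = c • (r • a) := smul_comm _ _ _
      rw [this]
      exact Submodule.smul_mem _ _ ha

end Rint

open Rint

theorem t_RINT : S_RINT := by
  intro K L _ _ _ x t r hr
  obtain ⟨h1, h2⟩ := hr
  by_cases ht : t = 0
  · subst ht
    have hle : Algebra.adjoin K {x, (0 : L)} ≤ Algebra.adjoin K {x} := by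
      rw [Algebra.adjoin_le_iff]
      rintro y (rfl | hy)
      · exact Algebra.self_mem_adjoin_singleton K y
      · rw [Set.mem_singleton_iff.1 hy]
        exact Subalgebra.zero_mem _
    exact isIntegral_algebraMap (R := Algebra.adjoin K {x}) (x := ⟨r, hle h1⟩)
  · exact t_RINT_aux ht h1 h2

namespace Rint

variable {K L : Type} [Field K] [Field L] [Algebra K L]

/-- multiplication by a power of `x⁻¹` -/
theorem shift1 (x t s : L) (k : ℕ) (hx : x ≠ 0) (hs : t ∈ Algebra.adjoin K {x⁻¹, s} ∨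
    x⁻¹ ^ k * t ∈ Algebra.adjoin K {x⁻¹, s}) (r : L) (hr : r ∈ Algebra.adjoin K {x, t}) :
    ∃ n : ℕ, ∀ N, n ≤ N → x⁻¹ ^ N * r ∈ Algebra.adjoin K {x⁻¹, s} := by
  have hxi : x⁻¹ ∈ Algebra.adjoin K {x⁻¹, s} := Algebra.subset_adjoin (Set.mem_insert _ _)
  induction hr using Algebra.adjoin_induction with
  | mem y hy =>
    rcases hy with rfl | hy
    · refine ⟨1, fun N hN => ?_⟩
      obtain ⟨M, rfl⟩ := Nat.exists_eq_add_of_le hN
      have : y⁻¹ ^ (1 + M) * y = y⁻¹ ^ M := by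
        rw [pow_add, pow_one]
        field_simp
      rw [this]
      exact pow_mem hxi _
    · rw [Set.mem_singleton_iff] at hy
      subst hy
      rcases hs with hs | hs
      · exact ⟨0, fun N _ => mul_mem (pow_mem hxi _) hs⟩
      · refine ⟨k, fun N hN => ?_⟩
        obtain ⟨M, rfl⟩ := Nat.exists_eq_add_of_le hN
        rw [add_comm, pow_add, mul_assoc]
        exact mul_mem (pow_mem hxi _) hs
  | algebraMap c =>
    exact ⟨0, fun N _ => mul_mem (pow_mem hxi _) (Subalgebra.algebraMap_mem _ _)⟩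
  | add y z _ _ hy hz =>
    obtain ⟨n, hn⟩ := hy
    obtain ⟨m, hm⟩ := hz
    refine ⟨max n m, fun N hN => ?_⟩
    rw [mul_add]
    exact add_mem (hn N (le_trans (le_max_left _ _) hN)) (hm N (le_trans (le_max_right _ _) hN))
  | mul y z _ _ hy hz =>
    obtain ⟨n, hn⟩ := hy
    obtain ⟨m, hm⟩ := hz
    refine ⟨n + m, fun N hN => ?_⟩
    obtain ⟨M, rfl⟩ := Nat.exists_eq_add_of_le hN
    have : x⁻¹ ^ (n + m + M) * (y * z) = (x⁻¹ ^ (n + M) * y) * (x⁻¹ ^ m * z) := by ring
    rw [this]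
    exact mul_mem (hn _ (by omega)) (hm _ le_rfl)

end Rint

theorem t_RSHIFT : S_RSHIFT := by
  intro K L _ _ _ x t k hx r hr
  obtain ⟨h1, h2⟩ := hr
  have hs1 : x⁻¹ ^ k * t ∈ Algebra.adjoin K {x⁻¹, t * x⁻¹ ^ k} := by
    rw [mul_comm]
    exact Algebra.subset_adjoin (Set.mem_insert_of_mem _ rfl)
  have hs2 : t⁻¹ ∈ Algebra.adjoin K {x⁻¹, (t * x⁻¹ ^ k)⁻¹} := by
    have e : t⁻¹ = x⁻¹ ^ k * (t * x⁻¹ ^ k)⁻¹ := by
      rw [mul_inv]
      have : x⁻¹ ^ k ≠ 0 := pow_ne_zero _ (inv_ne_zero hx)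
      field_simp
    rw [e]
    exact mul_mem (pow_mem (Algebra.subset_adjoin (Set.mem_insert _ _)) _)
      (Algebra.subset_adjoin (Set.mem_insert_of_mem _ rfl))
  obtain ⟨n, hn⟩ := shift1 x t (t * x⁻¹ ^ k) k hx (Or.inr hs1) r h1
  obtain ⟨m, hm⟩ := shift1 x t⁻¹ (t * x⁻¹ ^ k)⁻¹ k hx (Or.inl hs2) r h2
  exact ⟨max n m, hn _ (le_max_left _ _), hm _ (le_max_right _ _)⟩

end Pool.Agent.H50F
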