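import Pool.Agent.H50F.Stm2
import Pool.Agent.H50F.LATa

/-!
# Project H50F, piece RPAR
-/

set_option autoImplicit false

namespace Pool.Agent.H50F

open scoped IntermediateField.algebraAdjoinAdjoin

namespace Rpar

variable {K L : Type} [Field K] [Field L] [Algebra K L]

/-- a polynomial equation for `t` over `K[x]` -/
theorem exists_eq (x t : L) (hfd : FiniteDimensional (IntermediateField.adjoin K {x}) L) :
    ∃ (d : ℕ) (c : ℕ → Polynomial K), Polynomial.aeval x (c d) ≠ 0 ∧
      ∑ i ∈ Finset.range (d + 1), Polynomial.aeval x (c i) * t ^ i = 0 := by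
  have h1 : IsAlgebraic (IntermediateField.adjoin K {x}) t := Algebra.IsAlgebraic.isAlgebraic t
  have h2 : IsAlgebraic (Algebra.adjoin K {x}) t :=
    (IsFractionRing.isAlgebraic_iff (Algebra.adjoin K {x}) (IntermediateField.adjoin K {x})
      L).2 h1
  obtain ⟨p, hp0, hp⟩ := h2
  choose c hc using fun i => adj_surj x (p.coeff i)
  refine ⟨p.natDegree, c, ?_, ?_⟩
  · rw [hc]
    intro h
    apply hp0
    rw [← Polynomial.leadingCoeff_eq_zero]
    exact Subtype.ext h
  · rw [← hp, Polynomial.aeval_eq_sum_range]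
    refine Finset.sum_congr rfl fun i _ => ?_
    rw [hc]
    rfl

/-- a primitive equation -/
theorem exists_bezout (x t : L) (hx : Transcendental K x)
    (hfd : FiniteDimensional (IntermediateField.adjoin K {x}) L) :
    ∃ (d : ℕ) (c b : ℕ → Polynomial K),
      ∑ i ∈ Finset.range (d + 1), b i * c i = 1 ∧
      ∑ i ∈ Finset.range (d + 1), Polynomial.aeval x (c i) * t ^ i = 0 := by
  classical
  obtain ⟨d, c, hc0, hc⟩ := exists_eq x t hfd
  let I : Ideal (Polynomial K) := Ideal.span (Set.range fun i : Fin (d + 1) => c i)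
  obtain ⟨g, hg⟩ := (IsPrincipalIdealRing.principal I).principal
  have hg' : I = Ideal.span {g} := hg
  have hgI : g ∈ I := by
    rw [hg']
    exact Ideal.mem_span_singleton_self g
  have hdvd : ∀ i : Fin (d + 1), g ∣ c i := by
    intro i
    rw [← Ideal.mem_span_singleton, ← hg']
    exact Ideal.subset_span ⟨i, rfl⟩
  have hdvd' : ∀ i : ℕ, ∃ e : Polynomial K, i < d + 1 → c i = g * e := by
    intro i
    by_cases hi : i < d + 1
    · obtain ⟨e, he⟩ := hdvd ⟨i, hi⟩
      exact ⟨e, fun _ => he⟩
    · exact ⟨0, fun h => absurd h hi⟩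
  choose e he using hdvd'
  obtain ⟨b, hb⟩ := (Submodule.mem_span_range_iff_exists_fun (Polynomial K)).1 hgI
  have hg0 : g ≠ 0 := by
    intro h0
    apply hc0
    rw [he d (Nat.lt_succ_self d), h0, zero_mul, map_zero]
  refine ⟨d, e, fun i => if h : i < d + 1 then b ⟨i, h⟩ else 0, ?_, ?_⟩
  · have h1 : g * ∑ i ∈ Finset.range (d + 1), (if h : i < d + 1 then b ⟨i, h⟩ else 0) * e i =
        g * 1 := by
      rw [mul_one]
      conv_rhs => rw [← hb]
      rw [Finset.mul_sum, Finset.sum_range]
      refine Finset.sum_congr rfl fun i _ => ?_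
      rw [dif_pos i.2, smul_eq_mul, he i i.2]
      ring
    exact mul_left_cancel₀ hg0 h1
  · have h1 : Polynomial.aeval x g * ∑ i ∈ Finset.range (d + 1), Polynomial.aeval x (e i) * t ^ i =
        Polynomial.aeval x g * 0 := by
      rw [mul_zero]
      conv_rhs => rw [← hc]
      rw [Finset.mul_sum]
      refine Finset.sum_congr rfl fun i hi => ?_
      rw [he i (Finset.mem_range.1 hi), map_mul]
      ring
    have h2 : Polynomial.aeval x g ≠ 0 := fun h => hg0 ((transcendental_iff.1 hx) g h)
    exact mul_left_cancel₀ h2 h1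

theorem poly_mem_RR (x t : L) (p : Polynomial K) : Polynomial.aeval x p ∈ RR K x t := by
  have hle : ∀ s : L, Algebra.adjoin K {x} ≤ Algebra.adjoin K {x, s} := fun s =>
    Algebra.adjoin_mono (Set.singleton_subset_iff.2 (Set.mem_insert _ _))
  exact ⟨hle _ (adj_mem x p), hle _ (adj_mem x p)⟩

end Rpar

open Rpar

theorem t_RPAR : S_RPAR := by
  intro K L _ _ _ x t hx hfd
  by_cases ht : t = 0
  · subst ht
    refine ⟨1, 0, one_mem _, zero_mem _, ?_, ?_, by ring⟩
    · rw [zero_mul]
      exact zero_mem _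
    · rw [zero_mul]
      exact zero_mem _
  obtain ⟨d, c, b, hbc, hc⟩ := exists_bezout x t hx hfd
  let u : ℕ → L := fun j => ∑ i ∈ Finset.range (d + 1 - j), Polynomial.aeval x (c (i + j)) * t ^ i
  have hu0 : u 0 = 0 := hc
  have hus : ∀ j, j ≤ d → u j = Polynomial.aeval x (c j) + t * u (j + 1) := by
    intro j hj
    obtain ⟨m, rfl⟩ := Nat.exists_eq_add_of_le hj
    have e1 : j + m + 1 - j = m + 1 := by omega
    have e2 : j + m + 1 - (j + 1) = m := by omega
    simp only [u]
    rw [e1, e2, Finset.sum_range_succ', Finset.mul_sum, add_comm]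
    congr 1
    · simp
    · refine Finset.sum_congr rfl fun i _ => ?_
      rw [show i + 1 + j = i + (j + 1) by ring, pow_succ]
      ring
  have htR1 : t ∈ Algebra.adjoin K {x, t} := Algebra.subset_adjoin (Set.mem_insert_of_mem _ rfl)
  have htR2 : t⁻¹ ∈ Algebra.adjoin K {x, t⁻¹} :=
    Algebra.subset_adjoin (Set.mem_insert_of_mem _ rfl)
  have hp : ∀ p : Polynomial K, Polynomial.aeval x p ∈ RR K x t := poly_mem_RR x t
  have h1 : ∀ j, u j ∈ Algebra.adjoin K {x, t} := fun j =>
    sum_mem fun i _ => mul_mem (hp _).1 (pow_mem htR1 _)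
  have h2 : ∀ j, j ≤ d + 1 → u j ∈ Algebra.adjoin K {x, t⁻¹} := by
    intro j
    induction j with
    | zero =>
      intro _
      rw [hu0]
      exact zero_mem _
    | succ j ih =>
      intro hj
      have e : u (j + 1) = t⁻¹ * (u j - Polynomial.aeval x (c j)) := by
        rw [hus j (by omega)]
        field_simp
        ring
      rw [e]
      exact mul_mem htR2 (sub_mem (ih (by omega)) (hp _).2)
  have h3 : ∀ j, j ≤ d + 1 → u j ∈ RR K x t := fun j hj => ⟨h1 j, h2 j hj⟩
  have h4 : ∀ j, j ≤ d + 1 → t * u j ∈ RR K x t := by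
    intro j hj
    cases j with
    | zero =>
      rw [hu0, mul_zero]
      exact zero_mem _
    | succ j =>
      have e : t * u (j + 1) = u j - Polynomial.aeval x (c j) := by
        rw [hus j (by omega)]
        ring
      rw [e]
      exact sub_mem (h3 j (by omega)) (hp _)
  refine ⟨∑ j ∈ Finset.range (d + 1), Polynomial.aeval x (b j) * u j,
    -∑ j ∈ Finset.range (d + 1), Polynomial.aeval x (b j) * u (j + 1), ?_, ?_, ?_, ?_, ?_⟩
  · exact sum_mem fun j hj => mul_mem (hp _) (h3 j (by have := Finset.mem_range.1 hj; omega))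
  · exact neg_mem (sum_mem fun j hj => mul_mem (hp _)
      (h3 (j + 1) (by have := Finset.mem_range.1 hj; omega)))
  · rw [Finset.mul_sum]
    refine sum_mem fun j hj => ?_
    have e : t * (Polynomial.aeval x (b j) * u j) = Polynomial.aeval x (b j) * (t * u j) := by ring
    rw [e]
    exact mul_mem (hp _) (h4 j (by have := Finset.mem_range.1 hj; omega))
  · rw [mul_neg, Finset.mul_sum]
    refine neg_mem (sum_mem fun j hj => ?_)
    have e : t * (Polynomial.aeval x (b j) * u (j + 1)) =
        Polynomial.aeval x (b j) * (t * u (j + 1)) := by ring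
    rw [e]
    exact mul_mem (hp _) (h4 (j + 1) (by have := Finset.mem_range.1 hj; omega))
  · have e : ∑ j ∈ Finset.range (d + 1), Polynomial.aeval x (b j) * u j +
        t * -∑ j ∈ Finset.range (d + 1), Polynomial.aeval x (b j) * u (j + 1) =
        Polynomial.aeval x (∑ i ∈ Finset.range (d + 1), b i * c i) := by
      rw [mul_neg, ← sub_eq_add_neg, Finset.mul_sum, ← Finset.sum_sub_distrib, map_sum]
      refine Finset.sum_congr rfl fun j hj => ?_
      rw [hus j (by have := Finset.mem_range.1 hj; omega), map_mul]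
      ring
    rw [e, hbc, map_one]

end Pool.Agent.H50F
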