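import Pool.Agent.H50F.Stm2

/-!
# Project H50F, phase 2: places (`S_SPV2`)
-/

set_option autoImplicit false
set_option linter.style.haveILetI false

namespace Pool.Agent.H50F

open MvPolynomial Pool.Agent.W476.TP TensorProduct

/-- Two extension fields of a domain have a common extension field. -/
theorem exists_amalgam {D F k : Type} [CommRing D] [Field F] [Field k] (a : D →+* F) (b : D →+* k)
    (ha : Function.Injective a) (hb : Function.Injective b) :
    ∃ (L : Type) (_ : Field L) (s : F →+* L) (r : k →+* L), ∀ x, s (a x) = r (b x) := by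
  letI : Algebra D F := a.toAlgebra
  letI : Algebra D k := b.toAlgebra
  haveI : Nontrivial (F ⊗[D] k) :=
    Algebra.TensorProduct.nontrivial_of_algebraMap_injective_of_isDomain D F k ha hb
  obtain ⟨M, hM⟩ := Ideal.exists_maximal (F ⊗[D] k)
  letI : Field ((F ⊗[D] k) ⧸ M) := Ideal.Quotient.field M
  refine ⟨(F ⊗[D] k) ⧸ M, inferInstance,
    (Ideal.Quotient.mk M).comp (Algebra.TensorProduct.includeLeft : F →ₐ[D] F ⊗[D] k).toRingHom,
    (Ideal.Quotient.mk M).comp (Algebra.TensorProduct.includeRight : k →ₐ[D] F ⊗[D] k).toRingHom,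
    fun x => ?_⟩
  have h1 : (Algebra.TensorProduct.includeLeft : F →ₐ[D] F ⊗[D] k) (algebraMap D F x) =
      (Algebra.TensorProduct.includeRight : k →ₐ[D] F ⊗[D] k) (algebraMap D k x) := by
    rw [AlgHom.commutes, AlgHom.commutes]
  exact congrArg (Ideal.Quotient.mk M) h1

theorem t_SPV2 : S_SPV2 := by
  intro E F Ω _ _ _ _ _ _ ι _ β β₀ hβ
  let φ₀ : MvPolynomial ι E →+* F := (aeval β₀ : MvPolynomial ι E →ₐ[E] F).toRingHom
  let φ : MvPolynomial ι E →+* Ω := (aeval β : MvPolynomial ι E →ₐ[E] Ω).toRingHom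
  have hφ₀ : ∀ P, φ₀ P = aeval β₀ P := fun _ => rfl
  have hφ : ∀ P, φ P = aeval β P := fun _ => rfl
  let p : Ideal (MvPolynomial ι E) := RingHom.ker φ₀
  haveI hp : p.IsPrime := RingHom.ker_isPrime φ₀
  have hunit : ∀ y : p.primeCompl, IsUnit (φ y) := by
    intro y
    rw [isUnit_iff_ne_zero]
    intro h0
    exact y.2 (RingHom.mem_ker.mpr (hβ y.1 h0))
  let f : Localization.AtPrime p →+* Ω := IsLocalization.lift (M := p.primeCompl) hunit
  have hf : ∀ P, f (algebraMap _ (Localization.AtPrime p) P) = φ P := fun P =>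
    IsLocalization.lift_eq hunit P
  obtain ⟨O, hO, hloc⟩ := IsLocalRing.exists_factor_valuationRing f
  have hmemφ : ∀ P : MvPolynomial ι E, aeval β P ∈ O := by
    intro P
    have := hO (algebraMap _ (Localization.AtPrime p) P)
    rw [hf] at this
    exact this
  have hE : ∀ e : E, algebraMap E Ω e ∈ O := by
    intro e
    have := hmemφ (C e)
    rwa [MvPolynomial.aeval_C] at this
  have hB : ∀ i, β i ∈ O := by
    intro i
    have := hmemφ (X i)
    rwa [aeval_X] at this
  refine ⟨O, hE, hB, ?_⟩
  intro κ _ u hu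
  -- the map to the residue field
  let g₀ : Localization.AtPrime p →+* O.toSubring := f.codRestrict O.toSubring hO
  have hg₀ : ∀ P, ((g₀ (algebraMap _ (Localization.AtPrime p) P) : O.toSubring) : Ω) =
      aeval β P := fun P => hf P
  haveI : IsLocalHom g₀ := hloc
  let res : O →+* IsLocalRing.ResidueField O := IsLocalRing.residue O
  let b₀ : MvPolynomial ι E →+* IsLocalRing.ResidueField O :=
    (res.comp (g₀ : Localization.AtPrime p →+* O)).comp (algebraMap _ (Localization.AtPrime p))
  have hb₀ : ∀ P, b₀ P = 0 ↔ φ₀ P = 0 := by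
    intro P
    have h1 : b₀ P = 0 ↔ ¬ IsUnit (g₀ (algebraMap _ (Localization.AtPrime p) P)) :=
      (IsLocalRing.residue_eq_zero_iff (R := O) _).trans (IsLocalRing.mem_maximalIdeal (R := O) _)
    rw [h1]
    have h2 : IsUnit (g₀ (algebraMap _ (Localization.AtPrime p) P)) ↔
        IsUnit (algebraMap _ (Localization.AtPrime p) P) :=
      isUnit_map_iff g₀ _
    have h3 : IsUnit (algebraMap _ (Localization.AtPrime p) P) ↔ P ∈ p.primeCompl :=
      IsLocalization.AtPrime.isUnit_to_map_iff (Localization.AtPrime p) p P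
    have h4 : P ∈ p.primeCompl ↔ ¬ φ₀ P = 0 := by
      change P ∉ p ↔ _
      rw [RingHom.mem_ker]
    constructor
    · intro h5
      by_contra h6
      exact h5 (h2.mpr (h3.mpr (h4.mpr h6)))
    · intro h5 h6
      exact h4.mp (h3.mp (h2.mp h6)) h5
  -- amalgamation
  let a : MvPolynomial ι E ⧸ p →+* F := Ideal.Quotient.lift p φ₀ fun x hx => hx
  let b : MvPolynomial ι E ⧸ p →+* IsLocalRing.ResidueField O :=
    Ideal.Quotient.lift p b₀ fun x hx => (hb₀ x).mpr hx
  have ha : Function.Injective a := by
    rw [injective_iff_map_eq_zero]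
    intro x hx
    obtain ⟨P, rfl⟩ := Ideal.Quotient.mk_surjective x
    exact Ideal.Quotient.eq_zero_iff_mem.mpr hx
  have hb : Function.Injective b := by
    rw [injective_iff_map_eq_zero]
    intro x hx
    obtain ⟨P, rfl⟩ := Ideal.Quotient.mk_surjective x
    exact Ideal.Quotient.eq_zero_iff_mem.mpr ((hb₀ P).mp hx)
  obtain ⟨L, _, s, r, hsr⟩ := exists_amalgam a b ha hb
  have hsr' : ∀ P, s (aeval β₀ P) = r (b₀ P) := fun P => hsr (Ideal.Quotient.mk p P)
  -- the polynomials in the variables `κ`
  have hmem : ∀ P : MvPolynomial (ι ⊕ κ) E, (aeval (Sum.elim β u)).toRingHom P ∈ O.toSubring := by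
    intro P
    change aeval (Sum.elim β u) P ∈ O
    induction P using MvPolynomial.induction_on with
    | C a => rw [MvPolynomial.aeval_C]; exact hE a
    | add p q hp hq => rw [map_add]; exact O.add_mem _ _ hp hq
    | mul_X p i hp =>
      rw [map_mul, aeval_X]
      refine O.mul_mem _ _ hp ?_
      rcases i with i | k
      · exact hB i
      · exact hu k
  let g : MvPolynomial (ι ⊕ κ) E →+* O.toSubring :=
    (aeval (Sum.elim β u)).toRingHom.codRestrict O.toSubring hmem
  have hg : ∀ P, (g P : Ω) = aeval (Sum.elim β u) P := fun P => rfl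
  let ub : κ → L := fun k => r (res ⟨u k, hu k⟩)
  let evL : MvPolynomial κ F →+* L := eval₂Hom s ub
  have hker : RingHom.ker evL ≠ ⊤ := RingHom.ker_ne_top evL
  obtain ⟨M, hM, hJM⟩ := (RingHom.ker evL).exists_le_maximal hker
  obtain ⟨x, hx⟩ := isMaximal_iff_eq_vanishingIdeal_singleton.1 hM
  have hJx : ∀ P ∈ RingHom.ker evL, eval x P = 0 := by
    intro P hP
    have h := hJM hP
    rw [hx] at h
    have := h x rfl
    rwa [aeval_eq_eval] at this
  refine ⟨x, fun P hP => ?_⟩
  let Q : MvPolynomial κ F := aeval (Sum.elim (fun i => C (β₀ i)) X) P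
  have h1 : evL Q = r (res (g P)) := by
    have h2 : evL.comp (aeval (Sum.elim (fun i => C (β₀ i)) X) :
        MvPolynomial (ι ⊕ κ) E →ₐ[E] MvPolynomial κ F).toRingHom =
        (r.comp (res.comp (g : MvPolynomial (ι ⊕ κ) E →+* O))) := by
      apply MvPolynomial.ringHom_ext
      · intro e
        have h3 := hsr' (C e)
        rw [MvPolynomial.aeval_C] at h3
        have h4 : g₀ (algebraMap (MvPolynomial ι E) (Localization.AtPrime p) (C e)) = g (C e) := by
          apply Subtype.ext
          rw [hg₀, hg, MvPolynomial.aeval_C, MvPolynomial.aeval_C]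
        have h5 : b₀ (C e) = res (g (C e)) := congrArg res h4
        rw [h5] at h3
        change evL (aeval _ (C e)) = r (res (g (C e)))
        rw [← h3, MvPolynomial.aeval_C, MvPolynomial.algebraMap_apply]
        exact eval₂Hom_C s ub _
      · rintro (i | k)
        · have h3 := hsr' (X i)
          rw [aeval_X] at h3
          have h4 : g₀ (algebraMap (MvPolynomial ι E) (Localization.AtPrime p) (X i)) = g (X (Sum.inl i)) := by
            apply Subtype.ext
            rw [hg₀, hg, aeval_X, aeval_X, Sum.elim_inl]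
          have h5 : b₀ (X i) = res (g (X (Sum.inl i))) := congrArg res h4
          rw [h5] at h3
          change evL (aeval _ (X (Sum.inl i))) = r (res (g (X (Sum.inl i))))
          rw [← h3, aeval_X, Sum.elim_inl]
          exact eval₂Hom_C s ub _
        · have h4 : g (X (Sum.inr k)) = ⟨u k, hu k⟩ := by
            apply Subtype.ext
            rw [hg, aeval_X, Sum.elim_inr]
          change evL (aeval _ (X (Sum.inr k))) = r (res (g (X (Sum.inr k))))
          rw [h4, aeval_X, Sum.elim_inr]
          exact eval₂Hom_X' s ub _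
    exact RingHom.congr_fun h2 P
  have h2 : evL Q = 0 := by
    have h3 : g P = 0 := Subtype.ext (by rw [hg, hP]; rfl)
    rw [h1, h3]
    exact (congrArg r (map_zero res)).trans (map_zero r)
  have h3 := hJx Q h2
  have h4 : eval x Q = aeval (Sum.elim β₀ x) P := by
    have h5 : ((aeval x : MvPolynomial κ F →ₐ[F] F).restrictScalars E).comp
        (aeval (Sum.elim (fun i => C (β₀ i)) X) :
          MvPolynomial (ι ⊕ κ) E →ₐ[E] MvPolynomial κ F) = aeval (Sum.elim β₀ x) := by
      apply MvPolynomial.algHom_ext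
      rintro (i | i)
      · simp
      · simp
    have h6 := DFunLike.congr_fun h5 P
    rw [← h6]
    rfl
  rw [← h4]
  exact h3

end Pool.Agent.H50F
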