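import Pool.Agent.H50F.SPW
import Pool.Agent.H50F.SPV2

/-!
# Project H50F, phase 2: specialization of solutions (`S_SPW2`)
-/

set_option autoImplicit false

namespace Pool.Agent.H50F

open MvPolynomial Pool.Agent.W476.TP

theorem t_SPW2' (hSPV : S_SPV2) : S_SPW2 := by
  intro E F Ω _ _ _ _ _ _ r c n m w hw H b hH G D t hG ι _ β β₀ hβ y z hy hHy hGz
  obtain ⟨O, hOE, hOβ, hO⟩ := hSPV E F Ω ι β β₀ hβ
  obtain ⟨lam, hlam, hl⟩ := exists_act hw O y hy r le_rfl
  set y' : Sig m → Ω := act w lam y with hy'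
  set z' : Fin (n + 1) → Ω := fun i => sp lam D * z i with hz'
  have hyO : ∀ i, y' i ∈ O := fun i => (hl i.1 i.1.isLt).1 i.2
  have hG' : ∀ i, ev ((G i).map (MvPolynomial.map (algebraMap E Ω))) y' (z' i) = 0 := by
    intro i
    rw [hy', hz', ev_act ((hG i).map (algebraMap E Ω)), hGz, mul_zero]
  have hzO : ∀ i, z' i ∈ O := by
    intro i
    have hco : ∀ P : MvPolynomial (Sig m) E, aeval y' P ∈ O := by
      intro P
      induction P using MvPolynomial.induction_on with
      | C a => rw [MvPolynomial.aeval_C]; exact hOE a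
      | add p q hp hq => rw [map_add]; exact O.add_mem _ _ hp hq
      | mul_X p i hp => rw [map_mul, aeval_X]; exact O.mul_mem _ _ hp (hyO i)
    let g : MvPolynomial (Sig m) E →+* O.toSubring :=
      (aeval y').toRingHom.codRestrict O.toSubring hco
    have hint : IsIntegral O (z' i) := by
      refine ⟨(G i).map g, (hG i).2.1.map _, ?_⟩
      rw [Polynomial.eval₂_map]
      have h1 := hG' i
      unfold ev at h1
      rw [Polynomial.map_map, Polynomial.eval_map] at h1
      have h2 : (algebraMap O Ω).comp g =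
          (MvPolynomial.eval y').comp (MvPolynomial.map (algebraMap E Ω)) := by
        refine MvPolynomial.ringHom_ext (fun a => ?_) (fun j => ?_)
        · change aeval y' (C a) = _
          simp
        · change aeval y' (X j) = _
          simp
      rw [← h2] at h1
      exact h1
    obtain ⟨a, ha⟩ := IsIntegrallyClosed.isIntegral_iff.1 hint
    rw [← ha]; exact a.2
  obtain ⟨u₀, hu₀⟩ := hO (Sig m ⊕ Fin (n + 1)) (Sum.elim y' z') (by
    rintro (i | i)
    · exact hyO i
    · exact hzO i)
  set y₀ : Sig m → F := fun i => u₀ (Sum.inl i) with hy₀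
  set z₀ : Fin (n + 1) → F := fun i => u₀ (Sum.inr i) with hz₀
  have hu : u₀ = Sum.elim y₀ z₀ := by
    funext i
    rcases i with i | i <;> rfl
  rw [hu] at hu₀
  refine ⟨lam, y₀, z₀, hlam, ?_, ?_, ?_, hu₀⟩
  · intro κ
    obtain ⟨i, hi⟩ := (hl κ κ.isLt).2
    refine ⟨i, ?_⟩
    have h1 := hu₀ (X (Sum.inr (Sum.inl ⟨κ, i⟩)) - 1) (by
      rw [map_sub, aeval_X, map_one, Sum.elim_inr, Sum.elim_inl, hi, sub_self])
    rw [map_sub, aeval_X, map_one, Sum.elim_inr, Sum.elim_inl, sub_eq_zero] at h1
    rw [h1]; exact one_ne_zero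
  · intro j
    have h1 := hu₀ (rename (fun i => Sum.inr (Sum.inl i)) (H j)) (by
      rw [aeval_rename]
      change aeval y' (H j) = 0
      have h2 := eval_scale w (map_homW (algebraMap E Ω) (hH j)) lam y
      rw [hHy, mul_zero, eval_map] at h2
      exact h2)
    rw [aeval_rename] at h1
    rw [eval_map]
    exact h1
  · intro i
    have h1 := hu₀ (rename Sum.inr (gz (G i) i)) (by
      rw [aeval_rename, Sum.elim_comp_inr, aeval_gz]
      exact hG' i)
    rw [aeval_rename, Sum.elim_comp_inr, aeval_gz] at h1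
    exact h1

theorem t_SPW2 : S_SPW2 := t_SPW2' t_SPV2

end Pool.Agent.H50F
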