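import Pool.Agent.H50F.TWO
import Pool.Agent.H50F.RFRAC

/-!
# Project H50F, piece TWO2: two fibres of `x` have disjoint images
-/

set_option autoImplicit false

namespace Pool.Agent.H50F

namespace Tw2

open Polynomial IntermediateField.algebraAdjoinAdjoin

variable {K C L : Type} [Field K] [Field C] [Algebra K C] [Field L] [Algebra K L]

/-- `K[X] → R` -/
noncomputable def phi (R : Subalgebra K L) (x : R) : K[X] →+* R := (aeval x).toRingHom

theorem phi_coe (R : Subalgebra K L) (x : R) (p : K[X]) :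
    ((phi R x p : R) : L) = aeval (x : L) p := by
  show ((aeval x p : R) : L) = aeval (x : L) p
  exact (aeval_subalgebra_coe p R x)

theorem chi_phi {R : Subalgebra K L} {x : R} (χ : R →+* C) {a : K}
    (h1 : ∀ (c : K) (r : R), (r : L) = algebraMap K L c → χ r = algebraMap K C c)
    (h2 : ∀ r : R, (r : L) = x → χ r = algebraMap K C a) (p : K[X]) :
    χ (phi R x p) = algebraMap K C (p.eval a) := by
  have h : χ.comp (phi R x) = (algebraMap K C).comp (evalRingHom a) := by
    apply Polynomial.ringHom_ext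
    · intro c
      rw [RingHom.comp_apply, RingHom.comp_apply, coe_evalRingHom, eval_C]
      apply h1
      rw [phi_coe, aeval_C]
    · rw [RingHom.comp_apply, RingHom.comp_apply, coe_evalRingHom, eval_X]
      apply h2
      rw [phi_coe, aeval_X]
  exact DFunLike.congr_fun h p

/-- an algebraic relation over `K[X]` -/
theorem exists_rel {R : Subalgebra K L} {x : R}
    (hfd : FiniteDimensional (IntermediateField.adjoin K {(x : L)}) L) (r : R) :
    ∃ G : K[X][X], G ≠ 0 ∧ eval₂ (phi R x) r G = 0 := by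
  have h1 : IsAlgebraic (IntermediateField.adjoin K {(x : L)}) (r : L) :=
    Algebra.IsAlgebraic.isAlgebraic (r : L)
  have h2 : IsAlgebraic (Algebra.adjoin K {(x : L)}) (r : L) :=
    (IsFractionRing.isAlgebraic_iff (Algebra.adjoin K {(x : L)})
      (IntermediateField.adjoin K {(x : L)}) L).2 h1
  obtain ⟨P, hP0, hP⟩ := h2
  obtain ⟨G, hG⟩ := Polynomial.map_surjective (Tw.psi (C := K) (x : L)) (Tw.psi_surj (x : L)) P
  refine ⟨G, ?_, ?_⟩
  · rintro rfl
    apply hP0
    rw [← hG, Polynomial.map_zero]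
  · apply Subtype.ext
    have h3 : ((eval₂ (phi R x) r G : R) : L) =
        eval₂ (R.val.toRingHom.comp (phi R x)) (r : L) G :=
      hom_eval₂ G (phi R x) R.val.toRingHom r
    have h4 : R.val.toRingHom.comp (phi R x) =
        (algebraMap (Algebra.adjoin K {(x : L)}) L).comp (Tw.psi (x : L)) := by
      apply RingHom.ext
      intro p
      show ((phi R x p : R) : L) = ((Tw.psi (x : L) p : Algebra.adjoin K {(x : L)}) : L)
      rw [phi_coe, Tw.psi_coe]
    rw [h3, h4, ← eval₂_map, hG]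
    exact hP

theorem hom_sum {F : Type} [Field F] (d : ℕ) (α : ℕ → F) (u z : F) :
    ∑ i ∈ Finset.range (d + 1), α i * u ^ (d - i) * (u * z) ^ i =
      u ^ d * ∑ i ∈ Finset.range (d + 1), α i * z ^ i := by
  rw [Finset.mul_sum]
  refine Finset.sum_congr rfl fun i hi => ?_
  have h1 : d = (d - i) + i := by
    have := Finset.mem_range.1 hi
    omega
  have h2 : u ^ d = u ^ (d - i) * u ^ i := by rw [← pow_add, ← h1]
  rw [h2, mul_pow]
  ring

theorem main {R : Subalgebra K L} {x : R} (hx : Transcendental K (x : L))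
    (hfd : FiniteDimensional (IntermediateField.adjoin K {(x : L)}) L)
    (hI : ∀ h : L, ∃ q : K[X], q ≠ 0 ∧ aeval (x : L) q * h ∈ R)
    (n : ℕ) (f : Fin (n + 1) → L) (i₀ j₀ : Fin (n + 1)) (hf : Transcendental K (f i₀ / f j₀))
    (B : Set K) (hB : B.Infinite) :
    ∃ a ∈ B, ∃ b ∈ B, ∀ χ χ' : R →+* C,
      (∀ (c : K) (r : R), (r : L) = algebraMap K L c →
        χ r = algebraMap K C c ∧ χ' r = algebraMap K C c) →
      (∀ r : R, (r : L) = x → χ r = algebraMap K C a ∧ χ' r = algebraMap K C b) →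
      ∀ v v' : Fin (n + 1) → C, v ≠ 0 → v' ≠ 0 → PtR R f χ v → PtR R f χ' v' →
        v i₀ * v' j₀ ≠ v j₀ * v' i₀ := by
  classical
  have hfj : f j₀ ≠ 0 := by
    intro h
    rw [h, div_zero] at hf
    exact hf isAlgebraic_zero
  -- a common denominator
  have h1 := fun i => hI (f i / f j₀)
  choose q hq0 hq using h1
  obtain ⟨Q, hQ⟩ : ∃ Q : K[X], Q = ∏ i, q i := ⟨_, rfl⟩
  have hQ0 : Q ≠ 0 := by
    rw [hQ]
    exact Finset.prod_ne_zero_iff.2 fun i _ => hq0 i
  have hr : ∀ i, ∃ r : R, ((phi R x Q : R) : L) * f i = r * f j₀ := by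
    intro i
    obtain ⟨g, hg⟩ : q i ∣ Q := by
      rw [hQ]
      exact Finset.dvd_prod_of_mem q (Finset.mem_univ i)
    refine ⟨phi R x g * ⟨aeval (x : L) (q i) * (f i / f j₀), hq i⟩, ?_⟩
    rw [phi_coe, hg, map_mul]
    have : ((phi R x g * ⟨aeval (x : L) (q i) * (f i / f j₀), hq i⟩ : R) : L) =
        aeval (x : L) g * (aeval (x : L) (q i) * (f i / f j₀)) := by
      rw [← phi_coe R x g]
      rfl
    rw [this]
    field_simp
  choose r hr using hr
  have hQx : ((phi R x Q : R) : L) ≠ 0 := by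
    rw [phi_coe]
    intro h
    exact hQ0 (transcendental_iff.1 hx Q h)
  have hri : (r i₀ : L) = ((phi R x Q : R) : L) * (f i₀ / f j₀) := by
    rw [mul_div_assoc', hr i₀, mul_div_cancel_right₀ _ hfj]
  -- the value at a point
  have key : ∀ (a : K) (χ : R →+* C), (∀ p : K[X], χ (phi R x p) = algebraMap K C (p.eval a)) →
      Q.eval a ≠ 0 → ∀ v : Fin (n + 1) → C, v ≠ 0 → PtR R f χ v →
        v j₀ ≠ 0 ∧ algebraMap K C (Q.eval a) * v i₀ = χ (r i₀) * v j₀ := by
    intro a χ hχ ha v hv hc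
    have h2 : ∀ i, algebraMap K C (Q.eval a) * v i = χ (r i) * v j₀ := by
      intro i
      have := hc (phi R x Q) (r i) j₀ i (hr i)
      rwa [hχ] at this
    refine ⟨fun h => hv ?_, h2 i₀⟩
    funext i
    have h3 := h2 i
    rw [h, mul_zero] at h3
    exact (mul_eq_zero.1 h3).resolve_left ((_root_.map_ne_zero _).2 ha)
  -- the relation
  obtain ⟨G, hG0, hG⟩ := exists_rel hfd (r i₀)
  -- the choice of `a`
  obtain ⟨a, haB, ha⟩ : ∃ a ∈ B, (Q * G.leadingCoeff).eval a ≠ 0 := by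
    have h0 : Q * G.leadingCoeff ≠ 0 := mul_ne_zero hQ0 (leadingCoeff_ne_zero.2 hG0)
    obtain ⟨a, haB, ha⟩ := (hB.sdiff ((Q * G.leadingCoeff).roots.toFinset.finite_toSet)).nonempty
    refine ⟨a, haB, fun h => ha ?_⟩
    rw [Finset.mem_coe, Multiset.mem_toFinset, mem_roots h0]
    exact h
  rw [eval_mul] at ha
  have haQ : Q.eval a ≠ 0 := left_ne_zero_of_mul ha
  obtain ⟨A, hA⟩ : ∃ A : K[X], A = G.map (evalRingHom a) := ⟨_, rfl⟩
  have hA0 : A ≠ 0 := by
    intro h
    apply right_ne_zero_of_mul ha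
    have h2 := congrArg (fun P => coeff P G.natDegree) h
    simp only [hA, coeff_map, coeff_zero] at h2
    exact h2
  -- the values over `a`
  have hval : ∀ χ : R →+* C, (∀ p : K[X], χ (phi R x p) = algebraMap K C (p.eval a)) →
      aeval (χ (r i₀)) A = 0 := by
    intro χ hχ
    have h2 := congrArg χ hG
    rw [hom_eval₂, map_zero] at h2
    have h3 : χ.comp (phi R x) = (algebraMap K C).comp (evalRingHom a) :=
      RingHom.ext fun p => hχ p
    rw [hA, aeval_def, eval₂_map, ← h3]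
    exact h2
  -- the element `W`
  obtain ⟨d, hd⟩ : ∃ d, d = A.natDegree := ⟨_, rfl⟩
  obtain ⟨W, hW⟩ : ∃ W : R, W = ∑ i ∈ Finset.range (d + 1), phi R x (Polynomial.C (A.coeff i)) *
      (phi R x Q) ^ (d - i) * (phi R x (Polynomial.C (Q.eval a)) * r i₀) ^ i := ⟨_, rfl⟩
  have hWL : (W : L) = ((phi R x Q : R) : L) ^ d *
      aeval (algebraMap K L (Q.eval a) * (f i₀ / f j₀)) A := by
    rw [aeval_eq_sum_range, ← hd]
    have h2 := hom_sum d (fun i => algebraMap K L (A.coeff i)) ((phi R x Q : R) : L)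
      (algebraMap K L (Q.eval a) * (f i₀ / f j₀))
    have h3 : ∀ i, A.coeff i • (algebraMap K L (Q.eval a) * (f i₀ / f j₀)) ^ i =
        algebraMap K L (A.coeff i) * (algebraMap K L (Q.eval a) * (f i₀ / f j₀)) ^ i :=
      fun i => Algebra.smul_def _ _
    simp only [h3]
    rw [← h2, hW]
    push_cast
    refine Finset.sum_congr rfl fun i _ => ?_
    rw [phi_coe, phi_coe R x (Polynomial.C (Q.eval a)), aeval_C, aeval_C, hri]
    ring
  have hWC : ∀ (b : K) (χ : R →+* C),
      (∀ p : K[X], χ (phi R x p) = algebraMap K C (p.eval b)) → ∀ ρ : C,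
      χ (r i₀) = algebraMap K C (Q.eval b) * ρ →
      χ W = (algebraMap K C (Q.eval b)) ^ d * aeval (algebraMap K C (Q.eval a) * ρ) A := by
    intro b χ hχ ρ hρ
    rw [aeval_eq_sum_range, ← hd]
    have h2 := hom_sum d (fun i => algebraMap K C (A.coeff i)) (algebraMap K C (Q.eval b))
      (algebraMap K C (Q.eval a) * ρ)
    have h3 : ∀ i, A.coeff i • (algebraMap K C (Q.eval a) * ρ) ^ i =
        algebraMap K C (A.coeff i) * (algebraMap K C (Q.eval a) * ρ) ^ i :=
      fun i => Algebra.smul_def _ _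
    simp only [h3]
    rw [← h2, hW, map_sum]
    refine Finset.sum_congr rfl fun i _ => ?_
    rw [map_mul, map_mul, map_pow, map_pow, map_mul, hχ, hχ, hχ, eval_C, eval_C, hρ]
    ring
  have hW0 : (W : L) ≠ 0 := by
    rw [hWL]
    refine mul_ne_zero (pow_ne_zero _ hQx) fun h => ?_
    have h2 : Transcendental K (algebraMap K L (Q.eval a) * (f i₀ / f j₀)) := by
      intro h3
      apply hf
      have h4 : f i₀ / f j₀ = algebraMap K L (Q.eval a)⁻¹ *
          (algebraMap K L (Q.eval a) * (f i₀ / f j₀)) := by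
        rw [← mul_assoc, ← map_mul, inv_mul_cancel₀ haQ, map_one, one_mul]
      rw [h4]
      exact (isAlgebraic_algebraMap _).mul h3
    exact hA0 (transcendental_iff.1 h2 A h)
  obtain ⟨c, hc0, hc⟩ := hI (W : L)⁻¹
  have hcW : (⟨aeval (x : L) c * (W : L)⁻¹, hc⟩ : R) * W = phi R x c := by
    apply Subtype.ext
    rw [phi_coe]
    show aeval (x : L) c * (W : L)⁻¹ * (W : L) = aeval (x : L) c
    rw [mul_assoc, inv_mul_cancel₀ hW0, mul_one]
  -- the choice of `b`
  obtain ⟨b, hbB, hb⟩ : ∃ b ∈ B, (Q * c).eval b ≠ 0 := by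
    have h0 : Q * c ≠ 0 := mul_ne_zero hQ0 hc0
    obtain ⟨b, hbB, hb⟩ := (hB.sdiff ((Q * c).roots.toFinset.finite_toSet)).nonempty
    refine ⟨b, hbB, fun h => hb ?_⟩
    rw [Finset.mem_coe, Multiset.mem_toFinset, mem_roots h0]
    exact h
  rw [eval_mul] at hb
  have hbQ : Q.eval b ≠ 0 := left_ne_zero_of_mul hb
  have hbc : c.eval b ≠ 0 := right_ne_zero_of_mul hb
  refine ⟨a, haB, b, hbB, fun χ χ' h1 h2 v v' hv hv' h3 h4 h5 => ?_⟩
  have hχ := chi_phi χ (fun c r h => (h1 c r h).1) (fun r h => (h2 r h).1)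
  have hχ' := chi_phi χ' (fun c r h => (h1 c r h).2) (fun r h => (h2 r h).2)
  obtain ⟨k1, k2⟩ := key a χ hχ haQ v hv h3
  obtain ⟨k3, k4⟩ := key b χ' hχ' hbQ v' hv' h4
  have hbC : algebraMap K C (Q.eval b) ≠ 0 := (_root_.map_ne_zero _).2 hbQ
  have h6 : χ' (r i₀) = algebraMap K C (Q.eval b) * (v' i₀ / v' j₀) := by
    rw [mul_div_assoc', k4, mul_div_cancel_right₀ _ k3]
  have h7 : algebraMap K C (Q.eval a) * (v' i₀ / v' j₀) = χ (r i₀) := by
    rw [mul_div_assoc', div_eq_iff k3]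
    apply mul_left_cancel₀ k1
    calc v j₀ * (algebraMap K C (Q.eval a) * v' i₀)
        = algebraMap K C (Q.eval a) * (v j₀ * v' i₀) := by ring
      _ = (algebraMap K C (Q.eval a) * v i₀) * v' j₀ := by rw [← h5]; ring
      _ = v j₀ * (χ (r i₀) * v' j₀) := by rw [k2]; ring
  have h8 := congrArg χ' hcW
  rw [map_mul, hWC b χ' hχ' _ h6, h7, hval χ hχ, mul_zero, mul_zero, hχ'] at h8
  exact (_root_.map_ne_zero _).2 hbc h8.symm

end Tw2

theorem t_TWO2 : S_TWO2 := by
  intro K C L _ _ _ _ _ x t hx hfd htop n f i₀ j₀ hf B hB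
  have hxR : x ∈ RR K x t :=
    ⟨Algebra.subset_adjoin (by simp), Algebra.subset_adjoin (by simp)⟩
  exact Tw2.main (R := RR K x t) (x := ⟨x, hxR⟩) hx hfd (t_RFRAC K L x t hx hfd htop) n f i₀ j₀ hf
    B hB

end Pool.Agent.H50F
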