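import Pool.Agent.H50F.Stm3
import Pool.Agent.W82.TP.DL

/-!
# Project H50F: the dimension of a closed curve over a non-closed field (`S_XDIM`)
-/

set_option autoImplicit false

namespace Pool.Agent.H50F

open MvPolynomial Pool.Agent.W476.TP Pool.Agent.Y129.TA Pool.Agent.Helper50R Pool.Agent.W82.TP
open Pool.Agent.Y129.TB (IsConeOver DimLEOver BaseField)

/-- the zeros of a homogeneous ideal of a zero-dimensional ring over an extension -/
theorem zero_case_over {K C : Type} [Field K] [Field C] [Algebra K C] {n : ℕ}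
    (J : Ideal (MvPolynomial (Fin (n + 1)) K))
    (hd : ringKrullDim (MvPolynomial (Fin (n + 1)) K ⧸ J) ≤ (0 : ℕ)) (v : Fin (n + 1) → C)
    (hv : J ≤ RingHom.ker (Phi (K := K) v)) : v = 0 := by
  by_contra hv0
  obtain ⟨i, hi⟩ := Function.ne_iff.mp hv0
  have hi' : v i ≠ 0 := hi
  have hprime : (RingHom.ker (Phi (K := K) v)).IsPrime := RingHom.ker_isPrime _
  have hdom : IsDomain (MvPolynomial (Fin (n + 1)) K ⧸ RingHom.ker (Phi (K := K) v)) :=
    Ideal.Quotient.isDomain _
  have h1 : ringKrullDim (MvPolynomial (Fin (n + 1)) K ⧸ RingHom.ker (Phi (K := K) v)) ≤ (0 : ℕ) :=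
    (ringKrullDim_le_of_surjective (Ideal.Quotient.factor hv)
      (Ideal.Quotient.factor_surjective hv)).trans hd
  have h2 : Ring.KrullDimLE 0 (MvPolynomial (Fin (n + 1)) K ⧸ RingHom.ker (Phi (K := K) v)) := by
    rw [Ring.krullDimLE_iff]
    exact h1
  have h3 : IsField (MvPolynomial (Fin (n + 1)) K ⧸ RingHom.ker (Phi (K := K) v)) :=
    Ring.KrullDimLE.isField_of_isDomain
  have hXi : Phi (K := K) v (X i) = Polynomial.C (v i) * Polynomial.X := by
    unfold Phi
    rw [aeval_X]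
  have h4 : (Ideal.Quotient.mk (RingHom.ker (Phi (K := K) v)) (X i)) ≠ 0 := by
    intro h
    rw [Ideal.Quotient.eq_zero_iff_mem, RingHom.mem_ker, hXi] at h
    rcases mul_eq_zero.1 h with h | h
    · exact hi' (Polynomial.C_eq_zero.1 h)
    · exact Polynomial.X_ne_zero h
  obtain ⟨y, hy⟩ := h3.mul_inv_cancel h4
  obtain ⟨P, rfl⟩ := Ideal.Quotient.mk_surjective y
  rw [← map_mul, ← map_one (Ideal.Quotient.mk (RingHom.ker (Phi (K := K) v))),
    Ideal.Quotient.eq, RingHom.mem_ker, map_sub, map_mul, map_one, hXi, sub_eq_zero] at hy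
  have h5 := congrArg (Polynomial.eval 0) hy
  simp at h5

theorem lin_hom {K : Type} [Field K] {n : ℕ} (l : Fin (n + 1) → K) : (lin l).IsHomogeneous 1 := by
  unfold lin
  refine IsHomogeneous.sum _ _ _ fun i _ => ?_
  have := (isHomogeneous_C (Fin (n + 1)) (l i)).mul (isHomogeneous_X K i)
  rwa [zero_add] at this

theorem t_XDIM : S_XDIM := by
  intro K C L _ _ _ _ _ _ htr n f
  set I : Ideal (MvPolynomial (Fin (n + 1)) K) := RingHom.ker (Phi (K := K) f) with hI
  have h2 : ringKrullDim (MvPolynomial (Fin (n + 1)) K ⧸ I) ≤ ((1 + 1 : ℕ) : WithBot ℕ∞) :=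
    krull_le_two htr f
  obtain ⟨l₀, hl₀⟩ := exists_lin I
  have h1 := step_dim I 1 h2 (lin l₀) hl₀
  obtain ⟨l₁, hl₁⟩ := exists_lin (I ⊔ Ideal.span {lin l₀})
  have h0 := step_dim (I ⊔ Ideal.span {lin l₀}) 0 (by simpa using h1) (lin l₁) hl₁
  refine ⟨![lin l₀, lin l₁], fun j => ⟨1, one_pos, ?_⟩, fun v hv hq => ?_⟩
  · fin_cases j
    · exact lin_hom l₀
    · exact lin_hom l₁
  have hq0 : aeval v (lin l₀) = 0 := hq 0
  have hq1 : aeval v (lin l₁) = 0 := hq 1
  refine zero_case_over _ h0 v ?_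
  have hlin : ∀ l : Fin (n + 1) → K, aeval v (lin l) = 0 →
      lin l ∈ RingHom.ker (Phi (K := K) v) := by
    intro l hl
    rw [RingHom.mem_ker, Phi_hom v (lin_hom l), hl, map_zero, zero_mul]
  refine sup_le (sup_le ?_ ?_) ?_
  · intro P hP
    rw [← sum_homogeneousComponent P]
    refine Ideal.sum_mem _ fun k _ => ?_
    have hk := homogeneousComponent_isHomogeneous k P
    rw [RingHom.mem_ker, Phi_hom v hk]
    have h3 : homogeneousComponent k P ∈ I := by
      rw [hI, RingHom.mem_ker, Phi_hom f hk, ker_Phi_comp f (RingHom.mem_ker.1 hP) k, map_zero,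
        zero_mul]
    rw [hv _ h3, map_zero, zero_mul]
  · rw [Ideal.span_singleton_le_iff_mem]
    exact hlin l₀ hq0
  · rw [Ideal.span_singleton_le_iff_mem]
    exact hlin l₁ hq1

end Pool.Agent.H50F
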