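import Pool.Agent.H50F.FinA
import Pool.Agent.H50F.GenK
import Pool.Agent.H50F.COREK
import Pool.Agent.H50F.XDIM
import Pool.Agent.H50F.DGE
import Pool.Agent.H50F.ASP
import Pool.Agent.H50F.SPW2
import Pool.Agent.H50F.Exw
import Pool.Agent.H50F.LATM
import Pool.Agent.H50F.Fib
import Pool.Agent.H50F.POLY
import Pool.Agent.H50F.TWO2
import Pool.Agent.H50F.RPAR
import Pool.Agent.H50F.RINT
import Pool.Agent.H50F.DED2

/-!
# Project H50F: the approximation theorem for curves in Hirzebruch surfaces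
-/

set_option autoImplicit false
set_option linter.unusedSectionVars false

namespace Pool.Agent.H50F

open MvPolynomial Pool.Agent.W476.TP Pool.Agent.Helper50R Pool.Agent.Y129.TA
open Pool.Agent.Y129.TB (IsConeOver DimLEOver BaseField Approximable)

theorem charZero_of_tilt {p : ℕ} [Fact p.Prime] {C F : Type} [Field C] [Field F]
    (T : TiltPair p C F) : CharZero C := by
  obtain ⟨q, hq⟩ := CharP.exists C
  rcases CharP.char_is_prime_or_zero C q with hqp | hq0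
  · exfalso
    have hfact : Fact q.Prime := ⟨hqp⟩
    have hdvd : ¬ q ∣ p := fun h => T.p_ne ((CharP.cast_eq_zero_iff C q p).2 h)
    have h1 : (p : ZMod q) ≠ 0 := fun h => hdvd ((ZMod.natCast_eq_zero_iff p q).1 h)
    have h2 := ZMod.pow_card_sub_one_eq_one h1
    have h3 : (p : C) ^ (q - 1) = 1 := by
      have := congrArg (ZMod.castHom dvd_rfl C) h2
      rwa [map_pow, map_natCast, map_one] at this
    have h4 : T.absK (p : C) ^ (q - 1) = 1 := by rw [← map_pow, h3, map_one]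
    have h5 : q - 1 ≠ 0 := by
      have := hqp.two_le
      omega
    have h6 := pow_lt_one₀ (T.absK.nonneg (p : C)) T.p_lt h5
    rw [h4] at h6
    exact lt_irrefl _ h6
  · rw [hq0] at hq
    exact CharP.charP_to_charZero C

theorem charZero_base {p : ℕ} [Fact p.Prime] {C F K : Type} [Field C] [Field F]
    [Field K] [Algebra K C] (T : TiltPair p C F) : CharZero K := by
  have := charZero_of_tilt T
  refine ⟨fun m n h => ?_⟩
  have h1 := congrArg (algebraMap K C) h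
  rw [map_natCast, map_natCast] at h1
  exact Nat.cast_injective h1

theorem trdeg_le {K L : Type} [Field K] [Field L] [Algebra K L] {x : L}
    (hL : FiniteDimensional (IntermediateField.adjoin K {x}) L) : Algebra.trdeg K L ≤ 1 := by
  have h1 : Algebra.IsAlgebraic (IntermediateField.adjoin K {x}) L := inferInstance
  have h2 : Algebra.IsAlgebraic (Algebra.adjoin K {x}) L :=
    IntermediateField.isAlgebraic_adjoin_iff_top.1 h1
  have h3 := Algebra.IsAlgebraic.trdeg_le_cardinalMk K ({x} : Set L)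
  rwa [Cardinal.mk_singleton] at h3

variable {p : ℕ} [Fact p.Prime] {C F K E L : Type} [Field C] [Field F] [CharP F p] [Field K]
  [Field E] [Algebra K C] [Algebra E F] [IsAlgClosed C] [IsAlgClosed F] [Field L] [Algebra K L]

/-- **The approximation theorem** for the images of curves in Hirzebruch surfaces. -/
theorem fin_main (T : Tilting p C F) (B : BaseField T K E) {x t : L} {k : ℕ}
    (hx : Transcendental K x) (hL : FiniteDimensional (IntermediateField.adjoin K {x}) L)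
    (hxt : IntermediateField.adjoin K {x, t} = ⊤) {n : ℕ} {f : Fin (n + 1) → L}
    (hf1 : Mor (RR K x t) f) (hf2 : Mor (RR K x⁻¹ (t * x⁻¹ ^ k)) f)
    (hnc : ∃ i j, Transcendental K (f i / f j)) :
    Approximable T.toTiltPair K E
      {v : Fin (n + 1) → C | ∀ P ∈ RingHom.ker (Phi (K := K) f), aeval v P = 0} 1 := by
  classical
  have hK0 : CharZero K := charZero_base T.toTiltPair
  have hKinf : Infinite K := inferInstance
  have hx0 := x_ne_zero hx
  obtain ⟨i₀, j₀, hij⟩ := hnc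
  have hf0 : f ≠ 0 := by
    rintro rfl
    rw [Pi.zero_apply, zero_div] at hij
    exact hij isAlgebraic_zero
  have hlat := t_LATM' t_RINT t_RSHIFT K L x t k hx hL hxt n f hf0
  obtain ⟨d, hd⟩ : ∃ d, Module.finrank (IntermediateField.adjoin K {x}) L = d + 1 := by
    have : 0 < Module.finrank (IntermediateField.adjoin K {x}) L := Module.finrank_pos
    exact ⟨Module.finrank (IntermediateField.adjoin K {x}) L - 1, by omega⟩
  rw [hd] at hlat
  obtain ⟨e, h, a, b, hM, hN⟩ := hlat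
  choose A hA using fun i => hM.gen _ (hN.mem i).1
  choose Bm hB using fun i => hM.gen _ (hN.mem i).2
  choose Fp hFp using fun l => hM.gen _ (f_mem_MR (RR K x t) f l)
  have hkey : ∀ i, x ^ (-(b i + k)) * (t * h i) = t * x⁻¹ ^ k * (x ^ (-b i) * h i) := by
    intro i
    have e1 : x ^ (-(b i + (k : ℤ))) = x⁻¹ ^ k * x ^ (-b i) := by
      rw [neg_add, zpow_add₀ hx0, zpow_neg x (k : ℤ), zpow_natCast, inv_pow]
      ring
    rw [e1]
    ring
  have dA : ∀ i j, A i j ≠ 0 → ((A i j).natDegree : ℤ) ≤ b i - a j := fun i j hne =>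
    hM.deg (A i) (b i) (by rw [← hA]; exact (hN.memW i).1) j hne
  have dB : ∀ i j, Bm i j ≠ 0 → ((Bm i j).natDegree : ℤ) ≤ b i + k - a j := fun i j hne =>
    hM.deg (Bm i) (b i + k) (by rw [← hB, hkey]; exact (hN.memW i).2) j hne
  have dF : ∀ l j, Fp l j ≠ 0 → ((Fp l j).natDegree : ℤ) ≤ -a j := fun l j hne => by
    have := hM.deg (Fp l) 0 (by
      rw [← hFp, neg_zero, zpow_zero, one_mul]
      exact f_mem_MR _ f l) j hne
    rwa [zero_sub] at this
  obtain ⟨β, γ, D, g, Fl, hg, hF, hpt⟩ := t_POLY K C d k n a b A Bm Fp dA dB dF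
  have hp1 : ∀ y : Sig (m3 d) → C, Rel y → (∀ i, aeval y (g i) = 0) → y ⟨0, (0 : Fin 2)⟩ ≠ 0 →
      (∃ χ : (RR K x t) →+* C,
        (∀ (l : K) (r : RR K x t), (r : L) = algebraMap K L l → χ r = algebraMap K C l) ∧
        (∀ r : RR K x t, (r : L) = x → χ r = y ⟨0, (1 : Fin 2)⟩ / y ⟨0, (0 : Fin 2)⟩) ∧
        PtR (RR K x t) f χ fun l => aeval y (Fl l)) ∧ (fun l => aeval y (Fl l)) ≠ 0 := by
    intro y hy hy0 h0
    obtain ⟨s₀, w₀, y', hsw, hy', hrel, hv⟩ := (hpt y hy hy0).1 h0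
    exact fin_pt t_RPAR t_FIBF hx hL hM hN hA hB hFp hsw hy' hrel hv
  have hp2 : ∀ y : Sig (m3 d) → C, Rel y → (∀ i, aeval y (g i) = 0) → y ⟨0, (0 : Fin 2)⟩ = 0 →
      (∃ χ : (RR K x⁻¹ (t * x⁻¹ ^ k)) →+* C,
        (∀ (l : K) (r : RR K x⁻¹ (t * x⁻¹ ^ k)), (r : L) = algebraMap K L l →
          χ r = algebraMap K C l) ∧
        (∀ r : RR K x⁻¹ (t * x⁻¹ ^ k), (r : L) = x⁻¹ → χ r = 0) ∧
        PtR (RR K x⁻¹ (t * x⁻¹ ^ k)) f χ fun l => aeval y (Fl l)) ∧
      (fun l => aeval y (Fl l)) ≠ 0 := by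
    intro y hy hy0 h0
    obtain ⟨s₀, w₀, y', hsw, hy', hrel, hv⟩ := (hpt y hy hy0).2 h0
    exact inf_pt t_RPAR t_FIBI hx hL hM hN hA hB hFp hsw hy' hrel hv
  have hne : ∀ y : Sig (m3 d) → C, Rel y → (∀ i, aeval y (g i) = 0) →
      (fun l => aeval y (Fl l)) ≠ 0 := by
    intro y hy hy0
    by_cases h0 : y ⟨0, (0 : Fin 2)⟩ = 0
    · exact (hp2 y hy hy0 h0).2
    · exact (hp1 y hy hy0 h0).2
  refine genK t_COREK t_SPW2 t_EXW t_DGE t_XDIM t_ASP T B (trdeg_le hL) g hg Fl hF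
    (fun y hy hy0 => ?_) f (fun y hy hy0 P l hl hP => ?_) ?_
  · obtain ⟨i, hi⟩ := Function.ne_iff.1 (hne y hy hy0)
    exact ⟨i, hi⟩
  · by_cases h0 : y ⟨0, (0 : Fin 2)⟩ = 0
    · obtain ⟨⟨χ, hχ1, hχ2, hχ3⟩, hv0⟩ := hp2 y hy hy0 h0
      exact ptvR hf2 χ hχ1 hv0 hχ3 hl hP
    · obtain ⟨⟨χ, hχ1, hχ2, hχ3⟩, hv0⟩ := hp1 y hy hy0 h0
      exact ptvR hf1 χ hχ1 hv0 hχ3 hl hP
  · obtain ⟨a', -, b', -, hab⟩ := t_TWO2 K C L x t hx hL hxt n f i₀ j₀ hij Set.univ
      Set.infinite_univ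
    refine ⟨i₀, j₀, a', b', fun y y' hy hy' h1 h2 h3 h4 => ?_⟩
    have hz : ∀ (y : Sig (m3 d) → C) (c : K), Rel y →
        y ⟨0, (1 : Fin 2)⟩ = algebraMap K C c * y ⟨0, (0 : Fin 2)⟩ →
        y ⟨0, (0 : Fin 2)⟩ ≠ 0 ∧ y ⟨0, (1 : Fin 2)⟩ / y ⟨0, (0 : Fin 2)⟩ = algebraMap K C c := by
      intro y c hy hc
      have h0 : y ⟨0, (0 : Fin 2)⟩ ≠ 0 := by
        intro h0
        obtain ⟨i, hi⟩ := hy 0
        apply hi
        rw [h0, mul_zero] at hc
        have hi2 : i = (0 : Fin 2) ∨ i = (1 : Fin 2) := by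
          have : ∀ i : Fin 2, i = 0 ∨ i = 1 := by decide
          exact this i
        rcases hi2 with rfl | rfl
        · exact h0
        · exact hc
      exact ⟨h0, by rw [hc, mul_div_cancel_right₀ _ h0]⟩
    obtain ⟨z1, z2⟩ := hz y a' hy h1
    obtain ⟨z1', z2'⟩ := hz y' b' hy' h2
    obtain ⟨⟨χ, hχ1, hχ2, hχ3⟩, hv0⟩ := hp1 y hy h3 z1
    obtain ⟨⟨χ', hχ1', hχ2', hχ3'⟩, hv0'⟩ := hp1 y' hy' h4 z1'
    exact hab χ χ' (fun c r hr => ⟨hχ1 c r hr, hχ1' c r hr⟩)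
      (fun r hr => ⟨by rw [hχ2 r hr, z2], by rw [hχ2' r hr, z2']⟩) _ _ hv0 hv0' hχ3 hχ3'

end Pool.Agent.H50F
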