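import Mathlib

/-!
# Project H50F: an algebraically closed field of transcendence degree one
-/

set_option autoImplicit false

namespace Pool.Agent.H50F

/-- the algebraic closure of the field of rational functions -/
abbrev Om (E : Type) [Field E] : Type := AlgebraicClosure (RatFunc E)

/-- the generic point of the line -/
noncomputable def tau (E : Type) [Field E] : Om E := algebraMap (RatFunc E) (Om E) RatFunc.X

theorem trdeg_Om (E : Type) [Field E] : Algebra.trdeg E (Om E) ≤ 1 := by
  have h1 : Algebra.trdeg E (RatFunc E) + Algebra.trdeg (RatFunc E) (Om E) =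
      Algebra.trdeg E (Om E) := trdeg_add_eq E (RatFunc E)
  have h2 : Algebra.trdeg E (Polynomial E) + Algebra.trdeg (Polynomial E) (RatFunc E) =
      Algebra.trdeg E (RatFunc E) := trdeg_add_eq E (Polynomial E)
  have h3 : Algebra.trdeg (RatFunc E) (Om E) = 0 := trdeg_eq_zero
  have : Algebra.IsAlgebraic (Polynomial E) (RatFunc E) :=
    IsLocalization.isAlgebraic (RatFunc E) (nonZeroDivisors (Polynomial E))
  have h4 : Algebra.trdeg (Polynomial E) (RatFunc E) = 0 := trdeg_eq_zero
  rw [← h1, h3, ← h2, h4, Polynomial.trdeg_of_isDomain]
  simp

theorem tau_transcendental (E : Type) [Field E] : Transcendental E (tau E) := by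
  have h1 : Transcendental E (RatFunc.X : RatFunc E) := by
    rw [transcendental_iff]
    intro p hp
    have h2 : algebraMap (Polynomial E) (RatFunc E) p = 0 := by
      rw [← hp]
      rw [← RatFunc.algebraMap_X, Polynomial.aeval_algebraMap_apply, Polynomial.aeval_X_left_apply]
    exact (IsFractionRing.injective (Polynomial E) (RatFunc E)) (by rw [h2, map_zero])
  unfold tau
  exact (transcendental_algebraMap_iff
    (FaithfulSMul.algebraMap_injective (RatFunc E) (Om E))).2 h1

end Pool.Agent.H50F
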