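import Pool.Agent.H50F.Gen1
import Pool.Agent.H50F.Gen2
import Pool.Agent.Helper50R.Main

/-!
# Project H50F: the generic point argument
-/

set_option autoImplicit false

namespace Pool.Agent.H50F

open MvPolynomial Pool.Agent.W476.TP Pool.Agent.Helper50R

/-- two systems without common solutions -/
theorem nc_est {C : Type} [NormedField C] [IsAlgClosed C] {r : ℕ} {m : Fin r → ℕ}
    {J₁ J₂ : Type} [Fintype J₁] [Fintype J₂] (g₁ : J₁ → MvPolynomial (Sig m) C)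
    (g₂ : J₂ → MvPolynomial (Sig m) C) (u : MvPolynomial (Sig m ⊕ Sig m) C)
    (h : ∀ y y' : Sig m → C, Rel y → Rel y' → (∀ j, eval y (g₁ j) = 0) →
      (∀ j, eval y' (g₂ j) = 0) → eval (Sum.elim y y') u ≠ 0) :
    ∃ δ : ℝ, 0 < δ ∧ ∀ y y' : Sig m → C, Nrm y → Nrm y' → (∀ j, ‖eval y (g₁ j)‖ ≤ δ) →
      (∀ j, ‖eval y' (g₂ j)‖ ≤ δ) → δ < ‖eval (Sum.elim y y') u‖ := by
  obtain ⟨δ, hδ0, hδ⟩ := W351.TP.coreF (J₁ ⊕ (J₂ ⊕ Unit))
    (((κ : Fin r) → Fin (m κ + 1)) × ((κ : Fin r) → Fin (m κ + 1)))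
    (Sum.elim (fun j => rename Sum.inl (g₁ j)) (Sum.elim (fun j => rename Sum.inr (g₂ j))
      fun _ => u) : J₁ ⊕ (J₂ ⊕ Unit) → MvPolynomial (Sig m ⊕ Sig m) C)
    (fun f => rename Sum.inl (W351.TP.Y m f.1) * rename Sum.inr (W351.TP.Y m f.2))
    (fun v hv f => by
      have e1 : eval v (rename Sum.inl (W351.TP.Y m f.1) : MvPolynomial (Sig m ⊕ Sig m) C) =
          eval (fun i => v (Sum.inl i)) (W351.TP.Y m f.1) := by
        rw [eval_rename]; rfl
      have e2 : eval v (rename Sum.inr (W351.TP.Y m f.2) : MvPolynomial (Sig m ⊕ Sig m) C) =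
          eval (fun i => v (Sum.inr i)) (W351.TP.Y m f.2) := by
        rw [eval_rename]; rfl
      rw [map_mul, e1, e2]
      by_cases h1 : Rel (fun i => v (Sum.inl i))
      · by_cases h2 : Rel (fun i => v (Sum.inr i))
        · exfalso
          refine h _ _ h1 h2 (fun j => ?_) (fun j => ?_) ?_
          · have := hv (Sum.inl j)
            rw [Sum.elim_inl, eval_rename] at this
            exact this
          · have := hv (Sum.inr (Sum.inl j))
            rw [Sum.elim_inr, Sum.elim_inl, eval_rename] at this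
            exact this
          · have := hv (Sum.inr (Sum.inr ()))
            rw [Sum.elim_inr, Sum.elim_inr] at this
            rw [← this]
            congr 1
            refine congrArg _ (funext fun i => ?_)
            rcases i with i | i <;> rfl
        · rw [W351.TP.Y_zero m f.2 _ h2, mul_zero]
      · rw [W351.TP.Y_zero m f.1 _ h1, zero_mul]) 1 one_pos
  refine ⟨δ, hδ0, fun y y' hy hy' h1 h2 => ?_⟩
  by_contra hcon
  rw [not_lt] at hcon
  obtain ⟨f, hf⟩ := W351.TP.Y_one m y hy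
  obtain ⟨f', hf'⟩ := W351.TP.Y_one m y' hy'
  have h3 := hδ (Sum.elim y y') (by
    rintro (i | i)
    · exact hy.1 i
    · exact hy'.1 i) (by
    rintro (j | j | j)
    · rw [Sum.elim_inl, eval_rename, Sum.elim_comp_inl]
      exact h1 j
    · rw [Sum.elim_inr, Sum.elim_inl, eval_rename, Sum.elim_comp_inr]
      exact h2 j
    · rw [Sum.elim_inr, Sum.elim_inr]
      exact hcon) (f, f')
  rw [map_mul, eval_rename, eval_rename, Sum.elim_comp_inl, Sum.elim_comp_inr, norm_mul, hf, hf',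
    mul_one] at h3
  exact lt_irrefl _ h3

theorem w3_zero {e k : ℕ} {β : Fin (e + 1) → ℕ} (i : Fin 2) :
    (w3 k β : Sig (m3 e) → Fin 3 → ℕ) ⟨0, i⟩ = ![1, 0, 0] := rfl

theorem tri_w3 {e k : ℕ} {β : Fin (e + 1) → ℕ} : Tri (w3 k β : Sig (m3 e) → Fin 3 → ℕ) := by
  rintro ⟨κ, i⟩
  fin_cases κ
  · refine ⟨rfl, fun κ hκ => ?_⟩
    fin_cases κ
    · exact absurd hκ (by simp)
    · rfl
    · rfl
  · refine ⟨rfl, fun κ hκ => ?_⟩
    fin_cases κ
    · exact absurd hκ (by simp)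
    · exact absurd hκ (by simp)
    · rfl
  · refine ⟨rfl, fun κ hκ => ?_⟩
    fin_cases κ
    · exact absurd hκ (by simp)
    · exact absurd hκ (by simp)
    · exact absurd hκ (by simp)

section spec

set_option linter.unusedSectionVars false

variable {p : ℕ} [Fact p.Prime] {C E : Type} [NormedField C] [IsUltrametricDist C] [IsAlgClosed C]
  [Field E] [CharP E p] [IsAlgClosed E]

/-- what the approximating system satisfies -/
def Est (S : Sharp p C E) {e n c : ℕ} (w : Sig (m3 e) → Fin 3 → ℕ)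
    (g : Fin c → MvPolynomial (Sig (m3 e)) C)
    (f : Fin (n + 1) → MvPolynomial (Sig (m3 e)) C) (D : Fin 3 → ℕ) (δ₁ δ₂ ε : ℝ)
    (Q : Finset (MvPolynomial (Fin (n + 1)) C)) (H : Fin c → MvPolynomial (Sig (m3 e)) E)
    (G : Fin (n + 1) → Polynomial (MvPolynomial (Sig (m3 e)) E)) : Prop :=
  ∀ (y : Sig (m3 e) → E) (z : Fin (n + 1) → E), Rel y → (∀ j, eval y (H j) = 0) →
    (∀ i, ev (G i) y (z i) = 0) →
    ∃ lam : Fin 3 → E, (∀ κ, lam κ ≠ 0) ∧ Nrm (fun i => S.sh (act w lam y i)) ∧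
      (∀ i, ‖S.sh (sp lam D * z i)‖ ≤ 1) ∧ (∃ i, δ₁ ≤ ‖S.sh (sp lam D * z i)‖) ∧
      (∀ j, ‖eval (fun i => S.sh (act w lam y i)) (g j)‖ ≤ δ₂) ∧
      (∀ i, ‖S.sh (sp lam D * z i) - eval (fun i => S.sh (act w lam y i)) (f i)‖ ≤ δ₂) ∧
      ∀ P ∈ Q, ‖eval (fun i => S.sh (sp lam D * z i)) P‖ ≤ ε

/-- the value of the solution over `x = a'` if the generic point is constant -/
theorem value (hSPW : S_SPW) (S : Sharp p C E) {e k n c : ℕ} {β : Fin (e + 1) → ℕ}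
    {g : Fin c → MvPolynomial (Sig (m3 e)) C}
    {f : Fin (n + 1) → MvPolynomial (Sig (m3 e)) C} {D : Fin 3 → ℕ} {δ₁ δ₂ ε : ℝ}
    {Q : Finset (MvPolynomial (Fin (n + 1)) C)} {H : Fin c → MvPolynomial (Sig (m3 e)) E}
    {b : Fin c → Fin 3 → ℕ} (hH : ∀ j, IsWeightedHomogeneous (w3 k β) (H j) (b j))
    {G : Fin (n + 1) → Polynomial (MvPolynomial (Sig (m3 e)) E)} {t : Fin (n + 1) → ℕ}
    (hG : ∀ i, MonicW (w3 k β) D (G i) (t i)) (hest : Est S (w3 k β) g f D δ₁ δ₂ ε Q H G)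
    {y : Sig (m3 e) → Om E} {z : Fin (n + 1) → Om E} (hy : Rel y)
    (hy0 : y ⟨0, (0 : Fin 2)⟩ = 1) (hy1 : y ⟨0, (1 : Fin 2)⟩ = tau E)
    (hyH : ∀ j, eval y (MvPolynomial.map (algebraMap E (Om E)) (H j)) = 0)
    (hyG : ∀ i, ev ((G i).map (MvPolynomial.map (algebraMap E (Om E)))) y (z i) = 0)
    {j₀ : Fin (n + 1)} {cc : Fin (n + 1) → E}
    (hcc : ∀ i, z i = algebraMap E (Om E) (cc i) * z j₀) (a' : E) :
    ∃ (Y : Sig (m3 e) → C) (ζ : C), Nrm Y ∧ Y ⟨0, (1 : Fin 2)⟩ = S.sh a' * Y ⟨0, (0 : Fin 2)⟩ ∧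
      (∀ j, ‖eval Y (g j)‖ ≤ δ₂) ∧ (∀ i, ‖S.sh (cc i) * ζ‖ ≤ 1) ∧
      ∀ i, ‖S.sh (cc i) * ζ - eval Y (f i)‖ ≤ δ₂ := by
  obtain ⟨lam, y₀, z₀, hlam, hy₀, hy₀H, hy₀G, hrel⟩ := hSPW E (Om E) (m3 e) (w3 k β) tri_w3 H b hH G D
    t hG Unit (fun _ => tau E) (fun _ => a') (by
      intro P hP
      have h1 : AlgebraicIndependent E (fun _ : Unit => tau E) :=
        algebraicIndependent_unique_type_iff.2 (tau_transcendental E)
      have h2 : P = 0 := h1.eq_zero_of_aeval_eq_zero P hP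
      rw [h2, map_zero]) y z hy hyH hyG
  obtain ⟨lam', hlam', hN, h1, h2, h3, h4, h5⟩ := hest y₀ z₀ hy₀ hy₀H hy₀G
  have r1 : y₀ ⟨0, (1 : Fin 2)⟩ = a' * y₀ ⟨0, (0 : Fin 2)⟩ := by
    have := hrel (X (Sum.inr (Sum.inl ⟨0, (1 : Fin 2)⟩)) -
      X (Sum.inl ()) * X (Sum.inr (Sum.inl ⟨0, (0 : Fin 2)⟩))) (by
        simp only [map_sub, map_mul, aeval_X, Sum.elim_inr, Sum.elim_inl]
        unfold act
        rw [w3_zero, w3_zero, hy0, hy1]
        ring)
    simp only [map_sub, map_mul, eval_X, Sum.elim_inr, Sum.elim_inl] at this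
    exact sub_eq_zero.1 this
  have r2 : ∀ i, z₀ i = cc i * z₀ j₀ := by
    intro i
    have := hrel (X (Sum.inr (Sum.inr i)) -
      MvPolynomial.C (cc i) * X (Sum.inr (Sum.inr j₀))) (by
        simp only [map_sub, map_mul, aeval_X, Sum.elim_inr, aeval_C]
        rw [hcc i]
        ring)
    simp only [map_sub, map_mul, eval_X, Sum.elim_inr, eval_C] at this
    exact sub_eq_zero.1 this
  have r3 : ∀ i, S.sh (sp lam' D * z₀ i) = S.sh (cc i) * S.sh (sp lam' D * z₀ j₀) := by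
    intro i
    rw [r2 i, ← map_mul]
    congr 1
    ring
  refine ⟨fun i => S.sh (act (w3 k β) lam' y₀ i), S.sh (sp lam' D * z₀ j₀), hN, ?_, h3,
    fun i => ?_, fun i => ?_⟩
  · simp only [← map_mul]
    congr 1
    unfold act
    rw [w3_zero, w3_zero, r1]
    ring
  · rw [← r3]
    exact h1 i
  · rw [← r3]
    exact h4 i

end spec

end Pool.Agent.H50F
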