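import Pool.Agent.H50F.Stm4

/-!
# Project H50F: the pointwise lemma
-/

set_option autoImplicit false

namespace Pool.Agent.H50F

open MvPolynomial

variable {K C L : Type} [Field K] [Field C] [Algebra K C] [Field L] [Algebra K L] {x t : L}

theorem mem_MR_smul {R : Subalgebra K L} {n : ℕ} {f : Fin (n + 1) → L} {r h : L} (hr : r ∈ R)
    (hh : h ∈ MR R f) : r * h ∈ MR R f := by
  obtain ⟨s, hs, rfl⟩ := hh
  refine ⟨fun i => r * s i, fun i => R.mul_mem hr (hs i), ?_⟩
  rw [Finset.mul_sum]
  exact Finset.sum_congr rfl fun i _ => (mul_assoc _ _ _).symm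

theorem f_mem_MR (R : Subalgebra K L) {n : ℕ} (f : Fin (n + 1) → L) (i : Fin (n + 1)) :
    f i ∈ MR R f := by
  classical
  refine ⟨fun j => if j = i then 1 else 0, fun j => ?_, by simp⟩
  by_cases h : j = i
  · simp only [if_pos h]
    exact R.one_mem
  · simp only [if_neg h]
    exact R.zero_mem

theorem x_mem_RR : x ∈ RR K x t :=
  ⟨Algebra.subset_adjoin (by simp), Algebra.subset_adjoin (by simp)⟩

theorem aeval_mem_RR (q : Polynomial K) : Polynomial.aeval x q ∈ RR K x t := by
  have h : Polynomial.aeval x q ∈ Algebra.adjoin K {x} := Polynomial.aeval_mem_adjoin_singleton K x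
  refine ⟨Algebra.adjoin_mono ?_ h, Algebra.adjoin_mono ?_ h⟩
  · intro z hz
    rw [Set.mem_singleton_iff] at hz
    rw [hz]
    simp
  · intro z hz
    rw [Set.mem_singleton_iff] at hz
    rw [hz]
    simp

/-- elements of `K[x, u]` are polynomials in `u` over `K[x]` -/
theorem exists_poly {u r : L} (hr : r ∈ Algebra.adjoin K {x, u}) :
    ∃ F : Polynomial (Polynomial K),
      r = Polynomial.eval₂ (Polynomial.aeval x : Polynomial K →ₐ[K] L).toRingHom u F := by
  induction hr using Algebra.adjoin_induction with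
  | mem z hz =>
    rcases hz with rfl | hz
    · exact ⟨Polynomial.C Polynomial.X, by simp⟩
    · rw [Set.mem_singleton_iff] at hz
      exact ⟨Polynomial.X, by rw [hz, Polynomial.eval₂_X]⟩
  | algebraMap c => exact ⟨Polynomial.C (Polynomial.C c), by simp⟩
  | add a b _ _ ha hb =>
    obtain ⟨F, hF⟩ := ha
    obtain ⟨G, hG⟩ := hb
    exact ⟨F + G, by rw [Polynomial.eval₂_add, ← hF, ← hG]⟩
  | mul a b _ _ ha hb =>
    obtain ⟨F, hF⟩ := ha
    obtain ⟨G, hG⟩ := hb
    exact ⟨F * G, by rw [Polynomial.eval₂_mul, ← hF, ← hG]⟩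

section fun_y

variable {n : ℕ} {f : Fin (n + 1) → L} {c : C} {y : L →ₗ[K] C}

/-- `x` acts by `c`, so polynomials in `x` act by their values -/
theorem y_aeval (h1 : ∀ h ∈ MR (RR K x t) f, y (x * h) = c * y h) (q : Polynomial K) :
    ∀ h ∈ MR (RR K x t) f, y (Polynomial.aeval x q * h) = Polynomial.aeval c q * y h := by
  induction q using Polynomial.induction_on with
  | C a =>
    intro h hh
    rw [Polynomial.aeval_C, Polynomial.aeval_C, ← Algebra.smul_def, map_smul, Algebra.smul_def]
  | add p q hp hq =>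
    intro h hh
    rw [map_add, map_add, add_mul, map_add, hp h hh, hq h hh, add_mul]
  | monomial m a ih =>
    intro h hh
    have h2 : (Polynomial.aeval x (Polynomial.C a * Polynomial.X ^ (m + 1)) : L) * h =
        x * (Polynomial.aeval x (Polynomial.C a * Polynomial.X ^ m) * h) := by
      rw [pow_succ, ← mul_assoc, map_mul _ (_ * _) Polynomial.X, Polynomial.aeval_X]
      ring
    have h3 : (Polynomial.aeval c (Polynomial.C a * Polynomial.X ^ (m + 1)) : C) =
        c * Polynomial.aeval c (Polynomial.C a * Polynomial.X ^ m) := by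
      rw [pow_succ, ← mul_assoc, map_mul _ (_ * _) Polynomial.X, Polynomial.aeval_X]
      ring
    rw [h2, h1 _ (mem_MR_smul (aeval_mem_RR _) hh), ih h hh, h3]
    ring

theorem y_pow {t₀ : C} (h2 : ∀ h ∈ MR (RR K x t) f, t * h ∈ MR (RR K x t) f → y (t * h) = t₀ * y h)
    (N : ℕ) {h : L} (hh : ∀ j ≤ N, t ^ j * h ∈ MR (RR K x t) f) :
    ∀ j ≤ N, y (t ^ j * h) = t₀ ^ j * y h := by
  intro j
  induction j with
  | zero => intro _; rw [pow_zero, pow_zero, one_mul, one_mul]
  | succ j ih =>
    intro hj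
    have e : t ^ (j + 1) * h = t * (t ^ j * h) := by ring
    rw [e, h2 _ (hh j (by omega)) (by rw [← e]; exact hh (j + 1) hj), ih (by omega)]
    ring

/-- multiplication by elements of the ring acts by scalars: the case of a finite value of `t` -/
theorem key_fin {a b : L} (ha : a ∈ RR K x t) (hb : b ∈ RR K x t) (hta : t * a ∈ RR K x t)
    (htb : t * b ∈ RR K x t) (hab : a + t * b = 1) {t₀ : C}
    (h1 : ∀ h ∈ MR (RR K x t) f, y (x * h) = c * y h)
    (h2 : ∀ h ∈ MR (RR K x t) f, t * h ∈ MR (RR K x t) f → y (t * h) = t₀ * y h)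
    {r : L} (hr : r ∈ RR K x t) :
    ∃ l : C, ∀ h ∈ MR (RR K x t) f, y (r * h) = l * y h := by
  classical
  obtain ⟨F, hF⟩ := exists_poly hr.1
  set N := F.natDegree with hN
  have hsum : r = ∑ j ∈ Finset.range (N + 1), Polynomial.aeval x (F.coeff j) * t ^ j := by
    rw [hF, Polynomial.eval₂_eq_sum_range]
    rfl
  -- products
  have hprod : ∀ i ≤ N, ∀ j ≤ N, t ^ j * (a ^ (N - i) * b ^ i) ∈ RR K x t := by
    intro i hi j hj
    have key : ∀ (p q j : ℕ), j ≤ p + q → t ^ j * (a ^ p * b ^ q) ∈ RR K x t := by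
      intro p
      induction p with
      | zero =>
        intro q
        induction q with
        | zero =>
          intro j hj
          obtain rfl : j = 0 := by omega
          rw [pow_zero, pow_zero, pow_zero, one_mul, one_mul]
          exact (RR K x t).one_mem
        | succ q ih =>
          intro j hj
          rcases Nat.eq_zero_or_pos j with rfl | hj0
          · rw [pow_zero, one_mul, pow_zero, one_mul]
            exact (RR K x t).pow_mem hb _
          · obtain ⟨j', rfl⟩ : ∃ j', j = j' + 1 := ⟨j - 1, by omega⟩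
            have e : t ^ (j' + 1) * (a ^ 0 * b ^ (q + 1)) = (t * b) * (t ^ j' * (a ^ 0 * b ^ q)) := by
              ring
            rw [e]
            exact (RR K x t).mul_mem htb (ih j' (by omega))
      | succ p ih =>
        intro q j hj
        rcases Nat.eq_zero_or_pos j with rfl | hj0
        · rw [pow_zero, one_mul]
          exact (RR K x t).mul_mem ((RR K x t).pow_mem ha _) ((RR K x t).pow_mem hb _)
        · obtain ⟨j', rfl⟩ : ∃ j', j = j' + 1 := ⟨j - 1, by omega⟩
          have e : t ^ (j' + 1) * (a ^ (p + 1) * b ^ q) = (t * a) * (t ^ j' * (a ^ p * b ^ q)) := by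
            ring
          rw [e]
          exact (RR K x t).mul_mem hta (ih q j' (by omega))
    exact key (N - i) i j (by omega)
  -- the expansion of one
  have hone : ∀ h : L, h = ∑ i ∈ Finset.range (N + 1),
      algebraMap K L ((N.choose i : ℕ) : K) * (t ^ i * (a ^ (N - i) * b ^ i * h)) := by
    intro h
    have e : (t * b + a) ^ N = 1 := by rw [add_comm, hab, one_pow]
    rw [add_pow] at e
    calc h = (∑ m ∈ Finset.range (N + 1), (t * b) ^ m * a ^ (N - m) * (N.choose m : L)) * h := by
          rw [e, one_mul]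
      _ = _ := by
          rw [Finset.sum_mul]
          refine Finset.sum_congr rfl fun i _ => ?_
          rw [map_natCast]
          ring
  have hmem : ∀ i ≤ N, ∀ h ∈ MR (RR K x t) f, ∀ j ≤ N,
      t ^ j * (a ^ (N - i) * b ^ i * h) ∈ MR (RR K x t) f := by
    intro i hi h hh j hj
    have e : t ^ j * (a ^ (N - i) * b ^ i * h) = (t ^ j * (a ^ (N - i) * b ^ i)) * h := by ring
    rw [e]
    exact mem_MR_smul (hprod i hi j hj) hh
  have hexp : ∀ h ∈ MR (RR K x t) f, y h = ∑ i ∈ Finset.range (N + 1),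
      algebraMap K C ((N.choose i : ℕ) : K) * (t₀ ^ i * y (a ^ (N - i) * b ^ i * h)) := by
    intro h hh
    conv_lhs => rw [hone h]
    rw [map_sum]
    refine Finset.sum_congr rfl fun i hi => ?_
    have hi' : i ≤ N := by
      have := Finset.mem_range.1 hi
      omega
    rw [← Algebra.smul_def, map_smul, Algebra.smul_def, y_pow h2 N (hmem i hi' h hh) i hi']
  refine ⟨∑ j ∈ Finset.range (N + 1), Polynomial.aeval c (F.coeff j) * t₀ ^ j, fun h hh => ?_⟩
  rw [hexp (r * h) (mem_MR_smul hr hh), hexp h hh, Finset.mul_sum]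
  refine Finset.sum_congr rfl fun i hi => ?_
  have hi' : i ≤ N := by
    have := Finset.mem_range.1 hi
    omega
  have e1 : a ^ (N - i) * b ^ i * (r * h) = ∑ j ∈ Finset.range (N + 1),
      Polynomial.aeval x (F.coeff j) * (t ^ j * (a ^ (N - i) * b ^ i * h)) := by
    rw [hsum, Finset.sum_mul, Finset.mul_sum]
    refine Finset.sum_congr rfl fun j _ => ?_
    ring
  have e2 : y (a ^ (N - i) * b ^ i * (r * h)) =
      (∑ j ∈ Finset.range (N + 1), Polynomial.aeval c (F.coeff j) * t₀ ^ j) *
        y (a ^ (N - i) * b ^ i * h) := by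
    rw [e1, map_sum, Finset.sum_mul]
    refine Finset.sum_congr rfl fun j hj => ?_
    have hj' : j ≤ N := by
      have := Finset.mem_range.1 hj
      omega
    rw [y_aeval h1 _ _ (hmem i hi' h hh j hj'), y_pow h2 N (hmem i hi' h hh) j hj']
    ring
  rw [e2]
  ring

/-- the case of the value `∞` of `t` -/
theorem key_inf {a b : L} (ha : a ∈ RR K x t) (hb : b ∈ RR K x t) (hta : t * a ∈ RR K x t)
    (htb : t * b ∈ RR K x t) (hab : a + t * b = 1)
    (h1 : ∀ h ∈ MR (RR K x t) f, y (x * h) = c * y h)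
    (h2 : ∀ h ∈ MR (RR K x t) f, t * h ∈ MR (RR K x t) f → y h = 0)
    {r : L} (hr : r ∈ RR K x t) :
    ∃ l : C, ∀ h ∈ MR (RR K x t) f, y (r * h) = l * y h := by
  classical
  have hstep : ∀ h ∈ MR (RR K x t) f, y h = y (t * b * h) := by
    intro h hh
    have e : h = a * h + t * b * h := by rw [← add_mul, hab, one_mul]
    conv_lhs => rw [e]
    rw [map_add, h2 _ (mem_MR_smul ha hh) (by rw [← mul_assoc]; exact mem_MR_smul hta hh), zero_add]
  have hpow : ∀ (N : ℕ), ∀ h ∈ MR (RR K x t) f, y h = y ((t * b) ^ N * h) := by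
    intro N
    induction N with
    | zero => intro h _; rw [pow_zero, one_mul]
    | succ N ih =>
      intro h hh
      rw [ih h hh, hstep _ (mem_MR_smul ((RR K x t).pow_mem htb N) hh)]
      congr 1
      ring
  by_cases ht : t = 0
  · refine ⟨0, fun h hh => ?_⟩
    rw [hstep _ (mem_MR_smul hr hh), ht, zero_mul, zero_mul, map_zero, zero_mul]
  obtain ⟨F, hF⟩ := exists_poly hr.2
  set N := F.natDegree with hN
  have hsum : r = ∑ j ∈ Finset.range (N + 1), Polynomial.aeval x (F.coeff j) * t⁻¹ ^ j := by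
    rw [hF, Polynomial.eval₂_eq_sum_range]
    rfl
  refine ⟨Polynomial.aeval c (F.coeff 0), fun h hh => ?_⟩
  rw [hpow N _ (mem_MR_smul hr hh), hpow N h hh]
  have e1 : (t * b) ^ N * (r * h) = ∑ j ∈ Finset.range (N + 1),
      Polynomial.aeval x (F.coeff j) * ((t * b) ^ (N - j) * b ^ j * h) := by
    rw [hsum, Finset.sum_mul, Finset.mul_sum]
    refine Finset.sum_congr rfl fun j hj => ?_
    have hj' : j ≤ N := by
      have := Finset.mem_range.1 hj
      omega
    have e2 : (t * b) ^ N = (t * b) ^ (N - j) * (t * b) ^ j := by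
      rw [← pow_add, Nat.sub_add_cancel hj']
    have e3 : (t * b) ^ j * t⁻¹ ^ j = b ^ j := by
      rw [← mul_pow]
      congr 1
      field_simp
    calc (t * b) ^ N * (Polynomial.aeval x (F.coeff j) * t⁻¹ ^ j * h)
        = Polynomial.aeval x (F.coeff j) * ((t * b) ^ (N - j) * ((t * b) ^ j * t⁻¹ ^ j) * h) := by
          rw [e2]; ring
      _ = _ := by rw [e3]
  rw [e1, map_sum, Finset.sum_range_succ']
  rw [Finset.sum_eq_zero, zero_add]
  · rw [Nat.sub_zero, pow_zero, mul_one, y_aeval h1 _ _ (mem_MR_smul ((RR K x t).pow_mem htb N) hh)]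
  · intro j hj
    have hj' : j + 1 ≤ N := by
      have := Finset.mem_range.1 hj
      omega
    have hm1 : (t * b) ^ (N - (j + 1)) * b ^ (j + 1) * h ∈ MR (RR K x t) f :=
      mem_MR_smul ((RR K x t).mul_mem ((RR K x t).pow_mem htb _) ((RR K x t).pow_mem hb _)) hh
    have hm2 : t * ((t * b) ^ (N - (j + 1)) * b ^ (j + 1) * h) ∈ MR (RR K x t) f := by
      have e : t * ((t * b) ^ (N - (j + 1)) * b ^ (j + 1) * h) =
          ((t * b) ^ (N - (j + 1)) * ((t * b) * b ^ j)) * h := by ring
      rw [e]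
      exact mem_MR_smul ((RR K x t).mul_mem ((RR K x t).pow_mem htb _)
        ((RR K x t).mul_mem htb ((RR K x t).pow_mem hb _))) hh
    rw [y_aeval h1 _ _ hm1, h2 _ hm1 hm2, mul_zero]

/-- **The pointwise lemma**: a functional on the fibre is the evaluation at a point. -/
theorem pwR (hpar : ∃ a b : L, a ∈ RR K x t ∧ b ∈ RR K x t ∧ t * a ∈ RR K x t ∧ t * b ∈ RR K x t ∧
      a + t * b = 1)
    (hy : ∃ h ∈ MR (RR K x t) f, y h ≠ 0)
    (h1 : ∀ h ∈ MR (RR K x t) f, y (x * h) = c * y h) {s₀ w₀ : C}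
    (hsw : s₀ ≠ 0 ∨ w₀ ≠ 0)
    (h2 : ∀ h ∈ MR (RR K x t) f, t * h ∈ MR (RR K x t) f → s₀ * y (t * h) = w₀ * y h) :
    (∃ χ : (RR K x t) →+* C,
      (∀ (l : K) (r : RR K x t), (r : L) = algebraMap K L l → χ r = algebraMap K C l) ∧
      (∀ r : RR K x t, (r : L) = x → χ r = c) ∧
      PtR (RR K x t) f χ fun i => y (f i)) ∧ (fun i => y (f i)) ≠ 0 := by
  classical
  obtain ⟨a, b, ha, hb, hta, htb, hab⟩ := hpar
  have key : ∀ r ∈ RR K x t, ∃ l : C, ∀ h ∈ MR (RR K x t) f, y (r * h) = l * y h := by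
    intro r hr
    by_cases hs : s₀ = 0
    · have hw : w₀ ≠ 0 := hsw.resolve_left (not_not.2 hs)
      refine key_inf ha hb hta htb hab h1 (fun h hh hth => ?_) hr
      have := h2 h hh hth
      rw [hs, zero_mul] at this
      exact (mul_eq_zero.1 this.symm).resolve_left hw
    · refine key_fin ha hb hta htb hab (t₀ := w₀ / s₀) h1 (fun h hh hth => ?_) hr
      have := h2 h hh hth
      field_simp
      linear_combination this
  obtain ⟨h₀, hh₀, hy₀⟩ := hy
  have key2 : ∀ r : RR K x t, ∀ h ∈ MR (RR K x t) f,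
      y ((r : L) * h) = y ((r : L) * h₀) / y h₀ * y h := by
    intro r h hh
    obtain ⟨l, hl⟩ := key r r.2
    rw [hl h hh, hl h₀ hh₀, mul_div_cancel_right₀ _ hy₀]
  let χ : (RR K x t) →+* C :=
    { toFun := fun r => y ((r : L) * h₀) / y h₀
      map_one' := by
        change y (((1 : RR K x t) : L) * h₀) / y h₀ = 1
        rw [OneMemClass.coe_one, one_mul, div_self hy₀]
      map_mul' := by
        intro r s
        change y (((r * s : RR K x t) : L) * h₀) / y h₀ =
          y ((r : L) * h₀) / y h₀ * (y ((s : L) * h₀) / y h₀)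
        rw [MulMemClass.coe_mul, mul_assoc, key2 r _ (mem_MR_smul s.2 hh₀)]
        ring
      map_zero' := by
        change y (((0 : RR K x t) : L) * h₀) / y h₀ = 0
        rw [ZeroMemClass.coe_zero, zero_mul, map_zero, zero_div]
      map_add' := by
        intro r s
        change y (((r + s : RR K x t) : L) * h₀) / y h₀ =
          y ((r : L) * h₀) / y h₀ + y ((s : L) * h₀) / y h₀
        rw [AddMemClass.coe_add, add_mul, map_add, add_div] }
  have hχ : ∀ (r : RR K x t), ∀ h ∈ MR (RR K x t) f, y ((r : L) * h) = χ r * y h := key2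
  refine ⟨⟨χ, ?_, ?_, ?_⟩, ?_⟩
  · intro l r hr
    change y ((r : L) * h₀) / y h₀ = algebraMap K C l
    rw [hr, ← Algebra.smul_def, map_smul, Algebra.smul_def, mul_div_cancel_right₀ _ hy₀]
  · intro r hr
    change y ((r : L) * h₀) / y h₀ = c
    rw [hr, h1 h₀ hh₀, mul_div_cancel_right₀ _ hy₀]
  · intro G H i j hGH
    rw [← hχ G _ (f_mem_MR _ f j), ← hχ H _ (f_mem_MR _ f i), hGH]
  · intro h0
    obtain ⟨r, hr, hrh⟩ := hh₀
    apply hy₀
    rw [hrh, map_sum]
    refine Finset.sum_eq_zero fun i _ => ?_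
    have := hχ ⟨r i, hr i⟩ _ (f_mem_MR _ f i)
    have h4 : y (f i) = 0 := congrFun h0 i
    rw [h4, mul_zero] at this
    exact this

end fun_y

theorem aeval_smul_gen {F : Type} [Field F] [Algebra K F] {n : ℕ}
    {P : MvPolynomial (Fin (n + 1)) K} {k : ℕ} (hP : P.IsHomogeneous k) (u : F)
    (v : Fin (n + 1) → F) : aeval (fun i => u * v i) P = u ^ k * aeval v P := by
  rw [aeval_def, aeval_def, eval₂_eq', eval₂_eq', Finset.mul_sum]
  refine Finset.sum_congr rfl fun α hα => ?_
  have h1 : ∑ i, α i = k := by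
    have := hP (mem_support_iff.1 hα)
    rw [← this, Finsupp.weight_apply, Finsupp.sum_fintype _ _ (fun i => by simp)]
    simp
  have h2 : ∏ i, (u * v i) ^ α i = u ^ k * ∏ i, v i ^ α i := by
    simp only [mul_pow, Finset.prod_mul_distrib]
    rw [Finset.prod_pow_eq_pow_sum, h1]
  rw [h2]
  ring

/-- all forms which vanish at the generic point vanish at the images of the points -/
theorem ptvR {R : Subalgebra K L} {n : ℕ} {f : Fin (n + 1) → L} (hM : Mor R f) (χ : R →+* C)
    (hχ : ∀ (l : K) (r : R), (r : L) = algebraMap K L l → χ r = algebraMap K C l)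
    {v : Fin (n + 1) → C} (hv : v ≠ 0) (hP : PtR R f χ v)
    {P : MvPolynomial (Fin (n + 1)) K} {k : ℕ} (hPk : P.IsHomogeneous k) (hPf : aeval f P = 0) :
    aeval v P = 0 := by
  obtain ⟨m, hm, hle⟩ := Ideal.exists_le_maximal (RingHom.ker χ) (RingHom.ker_ne_top χ)
  obtain ⟨i, G, hGm, hGH⟩ := hM m hm
  choose H hGH using hGH
  have hG : χ G ≠ 0 := fun h => hGm (hle ((RingHom.mem_ker).2 h))
  have hvj : ∀ j, v j = (v i / χ G) * χ (H j) := by
    intro j
    have := hP G (H j) i j (hGH j)
    field_simp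
    linear_combination this
  have hfi : f i ≠ 0 := by
    intro h0
    apply hv
    funext j
    have h1 : ((1 : R) : L) * f i = ((0 : R) : L) * f i := by
      rw [h0, mul_zero, mul_zero]
    have h2 := hP 1 0 i i h1
    rw [map_one, map_zero, one_mul, zero_mul] at h2
    rw [hvj j, h2, zero_div, zero_mul]
    rfl
  have h1 : aeval (fun j => (H j : L)) P = 0 := by
    have e1 : (fun j => f i * (H j : L)) = fun j => (G : L) * f j := by
      funext j
      rw [hGH j, mul_comm]
    have e2 := aeval_smul_gen hPk (f i) fun j => (H j : L)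
    rw [e1, aeval_smul_gen hPk (G : L) f, hPf, mul_zero] at e2
    exact (mul_eq_zero.1 e2.symm).resolve_left (pow_ne_zero _ hfi)
  have h2 : aeval (fun j => χ (H j)) P = 0 := by
    have e1 : aeval (fun j => (H j : L)) P = ((aeval H P : R) : L) := by
      have := map_aeval (H : Fin (n + 1) → R) R.val.toRingHom P
      rw [aeval_def]
      exact this.symm
    rw [e1] at h1
    have e2 : aeval H P = 0 := Subtype.ext h1
    have e3 := congrArg χ e2
    rw [map_zero, map_aeval] at e3
    rw [aeval_def]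
    have e4 : χ.comp (algebraMap K R) = algebraMap K C := by
      ext l
      exact hχ l _ rfl
    rw [e4] at e3
    exact e3
  have h3 : v = fun j => (v i / χ G) * χ (H j) := funext hvj
  rw [h3, aeval_smul_gen hPk, h2, mul_zero]

end Pool.Agent.H50F
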