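import Pool.Agent.H50F.Stm

/-!
# Project H50F: places (`S_SPV`)
-/

set_option autoImplicit false

namespace Pool.Agent.H50F

open MvPolynomial Pool.Agent.W476.TP

theorem t_SPV : S_SPV := by
  intro E Ω _ _ _ _ ι _ β β₀ hβ
  set φ : MvPolynomial ι E →ₐ[E] Ω := aeval β with hφ
  set f : MvPolynomial ι E →+* φ.toRingHom.range := φ.toRingHom.rangeRestrict with hf
  have hsurj : Function.Surjective f := φ.toRingHom.rangeRestrict_surjective
  set I : Ideal φ.toRingHom.range := Ideal.map f (RingHom.ker (eval β₀)) with hI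
  have hI1 : I ≠ ⊤ := by
    intro h
    have h1 : (1 : φ.toRingHom.range) ∈ I := by rw [h]; trivial
    rw [hI, Ideal.mem_map_iff_of_surjective f hsurj] at h1
    obtain ⟨P, hP, hP1⟩ := h1
    have h2 : φ P = 1 := congrArg Subtype.val hP1
    have h3 : eval β₀ (P - 1) = 0 := by
      refine hβ _ ?_
      rw [map_sub, map_one, h2, sub_self]
    rw [map_sub, map_one, (RingHom.mem_ker.1 hP)] at h3
    simp at h3
  obtain ⟨O, hO1, hO2⟩ := Ideal.image_subset_nonunits_valuationSubring I hI1
  have hE : ∀ e : E, algebraMap E Ω e ∈ O := by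
    intro e
    refine hO1 ?_
    exact ⟨C e, by simp [hφ]⟩
  have hB : ∀ i, β i ∈ O := by
    intro i
    refine hO1 ?_
    exact ⟨X i, by simp [hφ]⟩
  refine ⟨O, hE, hB, ?_⟩
  intro κ _ u hu
  have hmem : ∀ P : MvPolynomial (ι ⊕ κ) E, (aeval (Sum.elim β u)).toRingHom P ∈ O.toSubring := by
    intro P
    change aeval (Sum.elim β u) P ∈ O
    induction P using MvPolynomial.induction_on with
    | C a => rw [MvPolynomial.aeval_C]; exact hE a
    | add p q hp hq => rw [map_add]; exact O.add_mem _ _ hp hq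
    | mul_X p i hp =>
      rw [map_mul, aeval_X]
      refine O.mul_mem _ _ hp ?_
      rcases i with i | k
      · exact hB i
      · exact hu k
  let g : MvPolynomial (ι ⊕ κ) E →+* O.toSubring :=
    (aeval (Sum.elim β u)).toRingHom.codRestrict O.toSubring hmem
  have hg : ∀ P, (g P : Ω) = aeval (Sum.elim β u) P := fun P => rfl
  let J : Ideal (MvPolynomial (ι ⊕ κ) E) := Ideal.comap g (IsLocalRing.maximalIdeal O)
  have hJ : J ≠ ⊤ := Ideal.comap_ne_top g (IsLocalRing.maximalIdeal.isMaximal O).ne_top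
  obtain ⟨M, hM, hJM⟩ := J.exists_le_maximal hJ
  obtain ⟨x, hx⟩ := isMaximal_iff_eq_vanishingIdeal_singleton.1 hM
  have hJx : ∀ P ∈ J, eval x P = 0 := by
    intro P hP
    have h := hJM hP
    rw [hx] at h
    have := h x rfl
    rwa [aeval_eq_eval] at this
  have hx1 : ∀ i, x (Sum.inl i) = β₀ i := by
    intro i
    have h1 : X (Sum.inl i) - C (β₀ i) ∈ J := by
      change g (X (Sum.inl i) - C (β₀ i)) ∈ IsLocalRing.maximalIdeal O
      have h2 : (g (X (Sum.inl i) - C (β₀ i)) : Ω) ∈ O.nonunits := by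
        refine hO2 ⟨f (X i - C (β₀ i)), ?_, ?_⟩
        · refine Ideal.mem_map_of_mem f ?_
          rw [RingHom.mem_ker]; simp
        · change φ (X i - C (β₀ i)) = _
          rw [hg]
          simp [hφ]
      rw [← ValuationSubring.coe_mem_nonunits_iff]
      exact h2
    have h2 := hJx _ h1
    rw [map_sub, eval_X, eval_C, sub_eq_zero] at h2
    exact h2
  refine ⟨fun k => x (Sum.inr k), fun P hP => ?_⟩
  have h1 : P ∈ J := by
    change g P ∈ IsLocalRing.maximalIdeal O
    have : g P = 0 := Subtype.ext (by rw [hg, hP]; rfl)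
    rw [this]
    exact Ideal.zero_mem _
  have h2 := hJx P h1
  have h3 : x = Sum.elim β₀ (fun k => x (Sum.inr k)) := by
    funext i
    rcases i with i | k
    · exact hx1 i
    · rfl
  rw [← h3]
  exact h2

end Pool.Agent.H50F
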