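import Pool.Agent.H50F.SPV

/-!
# Project H50F: specialization of solutions (`S_SPW`)
-/

set_option autoImplicit false

namespace Pool.Agent.H50F

open MvPolynomial Pool.Agent.W476.TP

section Weights

variable {r n : ℕ} {m : Fin r → ℕ} {K : Type} [Field K]

/-- the weights on `(y, z)` -/
def w2 (w : Sig m → Fin r → ℕ) (D : Fin r → ℕ) (n : ℕ) : Sig m ⊕ Fin (n + 1) → (Fin r → ℕ) :=
  Sum.elim w (fun _ => D)

theorem rename_homW {w : Sig m → Fin r → ℕ} {F : MvPolynomial (Sig m) K} {d : Fin r → ℕ}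
    (hF : IsWeightedHomogeneous w F d) (D : Fin r → ℕ) (n : ℕ) :
    IsWeightedHomogeneous (w2 w D n) (rename Sum.inl F) d := by
  classical
  rw [← hF.weightedHomogeneousComponent_same]
  rw [weightedHomogeneousComponent_apply, map_sum]
  refine IsWeightedHomogeneous.sum _ _ _ fun α hα => ?_
  rw [rename_monomial]
  refine isWeightedHomogeneous_monomial _ _ _ ?_
  have h1 : Finsupp.weight w α = d := (Finset.mem_filter.1 hα).2
  rw [← h1, Finsupp.weight_apply, Finsupp.weight_apply, Finsupp.sum_mapDomain_index]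
  · rfl
  · intro b; exact zero_smul _ _
  · intro b u v; exact add_smul _ _ _

theorem gz_homW {w : Sig m → Fin r → ℕ} {D : Fin r → ℕ} {G : Polynomial (MvPolynomial (Sig m) K)}
    {t : ℕ} (hG : MonicW w D G t) (i : Fin (n + 1)) :
    IsWeightedHomogeneous (w2 w D n) (gz G i) (t • D) := by
  unfold gz
  rw [Polynomial.eval₂_eq_sum_range]
  refine IsWeightedHomogeneous.sum _ _ _ fun k hk => ?_
  have hk' : k ≤ t := by
    rw [Finset.mem_range, hG.2.2.1] at hk; omega
  have h1 := rename_homW (hG.2.2.2 k hk') D n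
  have h2 : IsWeightedHomogeneous (w2 w D n) (X (Sum.inr i) ^ k :
      MvPolynomial (Sig m ⊕ Fin (n + 1)) K) (k • D) := by
    have := (isWeightedHomogeneous_X K (w2 w D n) (Sum.inr i)).pow k
    simpa [w2] using this
  have h3 := h1.mul h2
  have h4 : (t - k) • D + k • D = t • D := by
    rw [← add_smul, Nat.sub_add_cancel hk']
  rw [h4] at h3
  exact h3

theorem ev_act {w : Sig m → Fin r → ℕ} {D : Fin r → ℕ} {G : Polynomial (MvPolynomial (Sig m) K)}
    {t : ℕ} (hG : MonicW w D G t) (lam : Fin r → K) (y : Sig m → K) (z : K) :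
    ev G (act w lam y) (sp lam D * z) = sp lam D ^ t * ev G y z := by
  have h := eval_scale (w2 w D 0) (gz_homW (n := 0) hG 0) lam (Sum.elim y fun _ => z)
  have h1 : (fun i => sp lam (w2 w D 0 i) * Sum.elim y (fun _ => z) i) =
      Sum.elim (act w lam y) (fun _ => sp lam D * z) := by
    funext i
    rcases i with i | i
    · rfl
    · rfl
  rw [h1, eval_gz, eval_gz, sp_nsmul] at h
  exact h

theorem map_homW {E : Type} [Field E] (f : E →+* K) {w : Sig m → Fin r → ℕ}
    {F : MvPolynomial (Sig m) E} {d : Fin r → ℕ} (hF : IsWeightedHomogeneous w F d) :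
    IsWeightedHomogeneous w (MvPolynomial.map f F) d := by
  intro α hα
  refine hF fun h => hα ?_
  rw [coeff_map, h, map_zero]

theorem MonicW.map {E : Type} [Field E] (f : E →+* K) {w : Sig m → Fin r → ℕ} {D : Fin r → ℕ}
    {G : Polynomial (MvPolynomial (Sig m) E)} {t : ℕ} (hG : MonicW w D G t) :
    MonicW w D (G.map (MvPolynomial.map f)) t := by
  refine ⟨hG.1, hG.2.1.map _, ?_, fun l hl => ?_⟩
  · rw [hG.2.1.natDegree_map, hG.2.2.1]
  · rw [Polynomial.coeff_map]
    exact map_homW f (hG.2.2.2 l hl)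

theorem aeval_gz {E : Type} [Field E] [Algebra E K] (G : Polynomial (MvPolynomial (Sig m) E))
    (i : Fin (n + 1)) (y : Sig m → K) (z : Fin (n + 1) → K) :
    aeval (Sum.elim y z) (gz G i) = ev (G.map (MvPolynomial.map (algebraMap E K))) y (z i) := by
  unfold gz ev
  rw [Polynomial.map_map, Polynomial.eval_map, Polynomial.eval₂_eq_sum_range, map_sum,
    Polynomial.eval₂_eq_sum_range]
  refine Finset.sum_congr rfl fun k _ => ?_
  rw [map_mul, map_pow, aeval_X, Sum.elim_inr]
  congr 1
  change aeval (Sum.elim y z) (rename Sum.inl (G.coeff k)) = _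
  rw [aeval_rename, Sum.elim_comp_inl, RingHom.comp_apply, eval_map, aeval_def]

/-- Normalisation: the coordinates become integral, and every group gets a coordinate one. -/
theorem exists_act {w : Sig m → Fin r → ℕ} (hw : Tri w) (O : ValuationSubring K) (y : Sig m → K)
    (hy : Rel y) : ∀ k : ℕ, k ≤ r → ∃ lam : Fin r → K, (∀ κ, lam κ ≠ 0) ∧
      ∀ κ : Fin r, κ.val < k → (∀ i, act w lam y ⟨κ, i⟩ ∈ O) ∧ ∃ i, act w lam y ⟨κ, i⟩ = 1 := by
  intro k
  induction k with
  | zero => intro _; exact ⟨fun _ => 1, fun _ => one_ne_zero, fun κ hκ => absurd hκ (Nat.not_lt_zero _)⟩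
  | succ k ih =>
    intro hk
    obtain ⟨lam, hlam, hl⟩ := ih (Nat.le_of_succ_le hk)
    set κ₀ : Fin r := ⟨k, hk⟩ with hκ₀
    obtain ⟨i₀, -, hi₀⟩ := Finset.exists_max_image (Finset.univ : Finset (Fin (m κ₀ + 1)))
      (fun i => O.valuation (act w lam y ⟨κ₀, i⟩)) ⟨0, Finset.mem_univ _⟩
    obtain ⟨i₁, hi₁⟩ := hy κ₀
    have h0 : act w lam y ⟨κ₀, i₀⟩ ≠ 0 := by
      intro h
      have h1 := hi₀ i₁ (Finset.mem_univ _)
      rw [h, map_zero] at h1
      have h2 : act w lam y ⟨κ₀, i₁⟩ = 0 := by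
        rw [← O.valuation.zero_iff]; exact le_antisymm h1 zero_le'
      exact mul_ne_zero (sp_ne_zero hlam _) hi₁ h2
    set c : K := (act w lam y ⟨κ₀, i₀⟩)⁻¹ with hc
    have hc0 : c ≠ 0 := inv_ne_zero h0
    have hact : ∀ i, act w (fun κ => lam κ * (if κ = κ₀ then c else 1)) y i =
        act w lam y i * c ^ (w i κ₀) := by
      intro i
      unfold act sp
      simp only [mul_pow, Finset.prod_mul_distrib]
      have : ∏ κ, (if κ = κ₀ then c else 1) ^ (w i κ) = c ^ (w i κ₀) := by
        rw [Finset.prod_eq_single κ₀]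
        · simp
        · intro b _ hb; simp [hb]
        · simp
      rw [this]; ring
    refine ⟨fun κ => lam κ * (if κ = κ₀ then c else 1), fun κ => mul_ne_zero (hlam κ) ?_, ?_⟩
    · split_ifs
      · exact hc0
      · exact one_ne_zero
    · intro κ hκ
      rcases Nat.lt_succ_iff_lt_or_eq.1 hκ with hκ | hκ
      · have h1 : ∀ i, act w (fun κ => lam κ * (if κ = κ₀ then c else 1)) y ⟨κ, i⟩ =
            act w lam y ⟨κ, i⟩ := by
          intro i
          rw [hact, (hw ⟨κ, i⟩).2 κ₀ (by rw [Fin.lt_def]; exact hκ), pow_zero, mul_one]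
        obtain ⟨h2, i, h3⟩ := hl κ hκ
        exact ⟨fun i => by rw [h1]; exact h2 i, i, by rw [h1]; exact h3⟩
      · have hκ' : κ = κ₀ := Fin.ext hκ
        rw [hκ']
        have h1 : ∀ i, act w (fun κ => lam κ * (if κ = κ₀ then c else 1)) y ⟨κ₀, i⟩ =
            act w lam y ⟨κ₀, i⟩ * c := by
          intro i
          rw [hact, (hw ⟨κ₀, i⟩).1, pow_one]
        refine ⟨fun i => ?_, i₀, ?_⟩
        · rw [h1, ← O.valuation_le_one_iff, map_mul, hc, map_inv₀]
          have h2 := hi₀ i (Finset.mem_univ _)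
          exact mul_inv_le_one_of_le₀ h2 zero_le'
        · rw [h1, hc]; exact mul_inv_cancel₀ h0

end Weights

theorem t_SPW' (hSPV : S_SPV) : S_SPW := by
  intro E Ω _ _ _ _ r c n m w hw H b hH G D t hG ι _ β β₀ hβ y z hy hHy hGz
  obtain ⟨O, hOE, hOβ, hO⟩ := hSPV E Ω ι β β₀ hβ
  obtain ⟨lam, hlam, hl⟩ := exists_act hw O y hy r le_rfl
  set y' : Sig m → Ω := act w lam y with hy'
  set z' : Fin (n + 1) → Ω := fun i => sp lam D * z i with hz'
  have hyO : ∀ i, y' i ∈ O := fun i => (hl i.1 i.1.isLt).1 i.2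
  have hG' : ∀ i, ev ((G i).map (MvPolynomial.map (algebraMap E Ω))) y' (z' i) = 0 := by
    intro i
    rw [hy', hz', ev_act ((hG i).map (algebraMap E Ω)), hGz, mul_zero]
  have hzO : ∀ i, z' i ∈ O := by
    intro i
    have hco : ∀ P : MvPolynomial (Sig m) E, aeval y' P ∈ O := by
      intro P
      induction P using MvPolynomial.induction_on with
      | C a => rw [MvPolynomial.aeval_C]; exact hOE a
      | add p q hp hq => rw [map_add]; exact O.add_mem _ _ hp hq
      | mul_X p i hp => rw [map_mul, aeval_X]; exact O.mul_mem _ _ hp (hyO i)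
    let g : MvPolynomial (Sig m) E →+* O.toSubring :=
      (aeval y').toRingHom.codRestrict O.toSubring hco
    have hint : IsIntegral O (z' i) := by
      refine ⟨(G i).map g, (hG i).2.1.map _, ?_⟩
      rw [Polynomial.eval₂_map]
      have h1 := hG' i
      unfold ev at h1
      rw [Polynomial.map_map, Polynomial.eval_map] at h1
      have h2 : (algebraMap O Ω).comp g =
          (MvPolynomial.eval y').comp (MvPolynomial.map (algebraMap E Ω)) := by
        refine MvPolynomial.ringHom_ext (fun a => ?_) (fun j => ?_)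
        · change aeval y' (C a) = _
          simp
        · change aeval y' (X j) = _
          simp
      rw [← h2] at h1
      exact h1
    obtain ⟨a, ha⟩ := IsIntegrallyClosed.isIntegral_iff.1 hint
    rw [← ha]; exact a.2
  obtain ⟨u₀, hu₀⟩ := hO (Sig m ⊕ Fin (n + 1)) (Sum.elim y' z') (by
    rintro (i | i)
    · exact hyO i
    · exact hzO i)
  set y₀ : Sig m → E := fun i => u₀ (Sum.inl i) with hy₀
  set z₀ : Fin (n + 1) → E := fun i => u₀ (Sum.inr i) with hz₀
  have hu : u₀ = Sum.elim y₀ z₀ := by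
    funext i
    rcases i with i | i <;> rfl
  rw [hu] at hu₀
  refine ⟨lam, y₀, z₀, hlam, ?_, ?_, ?_, hu₀⟩
  · intro κ
    obtain ⟨i, hi⟩ := (hl κ κ.isLt).2
    refine ⟨i, ?_⟩
    have h1 := hu₀ (X (Sum.inr (Sum.inl ⟨κ, i⟩)) - 1) (by
      rw [map_sub, aeval_X, map_one, Sum.elim_inr, Sum.elim_inl, hi, sub_self])
    rw [map_sub, eval_X, map_one, Sum.elim_inr, Sum.elim_inl, sub_eq_zero] at h1
    rw [h1]; exact one_ne_zero
  · intro j
    have h1 := hu₀ (rename (fun i => Sum.inr (Sum.inl i)) (H j)) (by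
      rw [aeval_rename]
      change aeval y' (H j) = 0
      have h2 := eval_scale w (map_homW (algebraMap E Ω) (hH j)) lam y
      rw [hHy, mul_zero, eval_map] at h2
      exact h2)
    rw [eval_rename] at h1
    exact h1
  · intro i
    have h1 := hu₀ (rename Sum.inr (gz (G i) i)) (by
      rw [aeval_rename, Sum.elim_comp_inr, aeval_gz]
      exact hG' i)
    rw [eval_rename, Sum.elim_comp_inr, eval_gz] at h1
    exact h1

theorem t_SPW : S_SPW := t_SPW' t_SPV

end Pool.Agent.H50F
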