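import Pool.Agent.W476.TP.Base

/-!
# Project H50F (helper50), problem MP_db3ab1_ag: statements

Goal: Q1 for the images under all morphisms to projective space of all smooth projective curves which
embed in a Hirzebruch surface (smooth plane curves, trigonal curves, hyperelliptic curves, all curves
of genus at most four, all smooth curves in `ℙ^1 × ℙ^1`), over algebraically closed perfectoid fields.

Every piece is a Prop `S_...`; please prove `theorem t_... : S_...` in `Pool/Agent/H50F/<Name>.lean`,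
namespace `Pool.Agent.H50F`. This file depends only on `W476.TP.Stm` and `W476.TP.Base`.
-/

set_option autoImplicit false

namespace Pool.Agent.H50F

open MvPolynomial Pool.Agent.W476.TP

/-! ### Part AN: approximation for triangular weights -/

/-- Triangular weights: the coordinate `(κ, i)` has `κ`-th weight one, and its later weights vanish (the
earlier ones are arbitrary). -/
def Tri {r : ℕ} {m : Fin r → ℕ} (w : Sig m → Fin r → ℕ) : Prop :=
  ∀ i : Sig m, w i i.1 = 1 ∧ ∀ κ, i.1 < κ → w i κ = 0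

/-- The action of the torus. -/
def act {r : ℕ} {m : Fin r → ℕ} {K : Type} [Field K] (w : Sig m → Fin r → ℕ) (lam : Fin r → K)
    (y : Sig m → K) : Sig m → K := fun i => sp lam (w i) * y i

/-- `G` is monic of degree `t ≥ 1` and weighted homogeneous of degree `t • D`, the variable of the
polynomial having weight `D`. -/
def MonicW {r : ℕ} {m : Fin r → ℕ} {K : Type} [Field K] (w : Sig m → Fin r → ℕ) (D : Fin r → ℕ)
    (G : Polynomial (MvPolynomial (Sig m) K)) (t : ℕ) : Prop :=
  0 < t ∧ G.Monic ∧ G.natDegree = t ∧ ∀ l ≤ t, IsWeightedHomogeneous w (G.coeff l) ((t - l) • D)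

/-- COREW: the analogue of `W476.TP.MAIN_core` (file `W476/TP/Asm2.lean`) for triangular weights.
Proof: copy `W515/TP/Mon.lean` (`t_MON`), `W177/TP/PT.lean` (`t_PT`) and `MAIN_core`, with `wt m` replaced by
`w`; `S_APP` (proved: `W476.TP.t_APP'` in `W476/TP/Fin.lean`) holds for arbitrary weights and `S_VAN`
(`W351.TP.t_VAN`) does not mention weights. The only changes: in `t_MON` the lemma `weight_zero` uses
`w i i.1 = 1`; in `t_PT` the scaling to sup norm one of all groups is done group by group (`κ = 0, 1, ...`,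
the scalar `lam κ` is the inverse of the maximal coordinate of the group `κ` after the scaling by the
previous ones; it does not change the groups `< κ` as the weights are triangular) and
`scl` is replaced by `act w`, for which `eval_scale` gives the transformation rule. -/
def S_COREW : Prop :=
  ∀ (p : ℕ) [Fact p.Prime] (C L : Type) [NormedField C] [IsUltrametricDist C] [IsAlgClosed C]
    [Field L] [CharP L p] [IsAlgClosed L] (S : Sharp p C L), 0 < ‖(p : C)‖ → ‖(p : C)‖ < 1 →
    ∀ {r c n : ℕ} (m : Fin r → ℕ) (w : Sig m → Fin r → ℕ), Tri w →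
    ∀ (g : Fin c → MvPolynomial (Sig m) C) (a : Fin c → Fin r → ℕ),
      (∀ j, IsWeightedHomogeneous w (g j) (a j)) → (∀ j α, ‖(g j).coeff α‖ ≤ 1) →
    ∀ (f : Fin (n + 1) → MvPolynomial (Sig m) C) (D : Fin r → ℕ),
      (∀ i, IsWeightedHomogeneous w (f i) D) → (∀ i α, ‖(f i).coeff α‖ ≤ 1) → D ≠ 0 →
    ∀ δ1 : ℝ, 0 < δ1 →
      (∀ y : Sig m → C, Nrm y → (∃ j, δ1 ≤ ‖eval y (g j)‖) ∨ ∃ i, δ1 ≤ ‖eval y (f i)‖) →
    ∀ Q : Finset (MvPolynomial (Fin (n + 1)) C),
      (∀ P ∈ Q, ∀ y : Sig m → C, Rel y → (∀ j, eval y (g j) = 0) →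
        eval (fun i => eval y (f i)) P = 0) →
    ∀ ε δ2 : ℝ, 0 < ε → 0 < δ2 →
    ∃ (H : Fin c → MvPolynomial (Sig m) L) (s : Fin c → ℕ)
      (G : Fin (n + 1) → Polynomial (MvPolynomial (Sig m) L)) (t : Fin (n + 1) → ℕ),
      (∀ j, IsWeightedHomogeneous w (H j) (p ^ s j • a j)) ∧ (∀ i, MonicW w D (G i) (t i)) ∧
      ∀ (y : Sig m → L) (z : Fin (n + 1) → L), Rel y → (∀ j, eval y (H j) = 0) →
        (∀ i, ev (G i) y (z i) = 0) →
        ∃ lam : Fin r → L, (∀ κ, lam κ ≠ 0) ∧ Nrm (fun i => S.sh (act w lam y i)) ∧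
          (∀ i, ‖S.sh (sp lam D * z i)‖ ≤ 1) ∧ (∃ i, δ1 ≤ ‖S.sh (sp lam D * z i)‖) ∧
          (∀ j, ‖eval (fun i => S.sh (act w lam y i)) (g j)‖ ≤ δ2) ∧
          (∀ i, ‖S.sh (sp lam D * z i) - eval (fun i => S.sh (act w lam y i)) (f i)‖ ≤ δ2) ∧
          ∀ P ∈ Q, ‖eval (fun i => S.sh (sp lam D * z i)) P‖ ≤ ε

/-- SPV: places. A specialization `β ↦ β₀` of a finite family of elements of a field `Ω` over the
algebraically closed field `E` extends to a valuation ring `O` of `Ω`, and then to every finite family of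
elements of `O`.

Proof: `Ideal.image_subset_nonunits_valuationSubring` (Mathlib) for the range of
`aeval β : MvPolynomial ι E → Ω` and the ideal of the images of the `P` with `eval β₀ P = 0` (it is not
the whole ring by the hypothesis). For `u` in `O` consider the ring homomorphism
`MvPolynomial (ι ⊕ κ) E → O → O / 𝔪` given by `β` and `u`; its kernel is a prime ideal, which by the
Nullstellensatz (`E` is algebraically closed; e.g. `MvPolynomial.isMaximal_iff_eq_vanishingIdeal_singleton`
for a maximal ideal containing it) has a zero `(β', u₀)` in `E`; `β' = β₀` because `X_i - β₀ i` is in the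
kernel. -/
def S_SPV : Prop :=
  ∀ (E Ω : Type) [Field E] [IsAlgClosed E] [Field Ω] [Algebra E Ω] (ι : Type) [Finite ι]
    (β : ι → Ω) (β₀ : ι → E), (∀ P : MvPolynomial ι E, aeval β P = 0 → eval β₀ P = 0) →
    ∃ O : ValuationSubring Ω, (∀ e : E, algebraMap E Ω e ∈ O) ∧ (∀ i, β i ∈ O) ∧
      ∀ (κ : Type) [Finite κ] (u : κ → Ω), (∀ k, u k ∈ O) →
        ∃ u₀ : κ → E, ∀ P : MvPolynomial (ι ⊕ κ) E, aeval (Sum.elim β u) P = 0 →
          eval (Sum.elim β₀ u₀) P = 0

/-- SPW: specialization of solutions. A relevant solution `(y, z)` over `Ω` of a system over `E` with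
triangular weights can be normalised and specialized to a relevant solution over `E`, compatibly
with a given specialization `β ↦ β₀`.

Proof (from `S_SPV`): choose `lam κ`, `κ = 0, 1, ...`, successively such that all coordinates of
`act w lam y` are in `O` and in every group some coordinate is equal to `1` (divide by a coordinate which
divides the others: `O` is a valuation ring; triangularity: `lam κ` does not change the
groups `< κ`). Then `sp lam D * z i` is a root of the monic polynomial `G i` over `O` (scaling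
`y ↦ act w lam y`, `z ↦ sp lam D * z` by `eval_scale`), hence in `O`, as valuation rings are integrally
closed. Apply `S_SPV` to `u = (act w lam y, sp lam D * z)`. The equations `H j = 0`, `G i (y, z i) = 0` and
`y (κ, i) = 1` are polynomial relations, hence hold for the specialized family. -/
def S_SPW : Prop :=
  ∀ (E Ω : Type) [Field E] [IsAlgClosed E] [Field Ω] [Algebra E Ω]
    {r c n : ℕ} (m : Fin r → ℕ) (w : Sig m → Fin r → ℕ), Tri w →
    ∀ (H : Fin c → MvPolynomial (Sig m) E) (b : Fin c → Fin r → ℕ),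
      (∀ j, IsWeightedHomogeneous w (H j) (b j)) →
    ∀ (G : Fin (n + 1) → Polynomial (MvPolynomial (Sig m) E)) (D : Fin r → ℕ)
      (t : Fin (n + 1) → ℕ), (∀ i, MonicW w D (G i) (t i)) →
    ∀ (ι : Type) [Finite ι] (β : ι → Ω) (β₀ : ι → E),
      (∀ P : MvPolynomial ι E, aeval β P = 0 → eval β₀ P = 0) →
    ∀ (y : Sig m → Ω) (z : Fin (n + 1) → Ω), Rel y →
      (∀ j, eval y (MvPolynomial.map (algebraMap E Ω) (H j)) = 0) →
      (∀ i, ev ((G i).map (MvPolynomial.map (algebraMap E Ω))) y (z i) = 0) →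
    ∃ (lam : Fin r → Ω) (y₀ : Sig m → E) (z₀ : Fin (n + 1) → E), (∀ κ, lam κ ≠ 0) ∧ Rel y₀ ∧
      (∀ j, eval y₀ (H j) = 0) ∧ (∀ i, ev (G i) y₀ (z₀ i) = 0) ∧
      ∀ P : MvPolynomial (ι ⊕ (Sig m ⊕ Fin (n + 1))) E,
        aeval (Sum.elim β (Sum.elim (act w lam y) fun i => sp lam D * z i)) P = 0 →
          eval (Sum.elim β₀ (Sum.elim y₀ z₀)) P = 0

/-- Three groups of coordinates: `x_0, x_1`; `s, w`; `y_0, ..., y_e`. -/
def m3 (e : ℕ) : Fin 3 → ℕ := ![1, 1, e]

/-- The weights: `x_0, x_1` have weight `(1, 0, 0)`, `s` has weight `(0, 1, 0)`, `w` has weight `(k, 1, 0)`,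
and `y_j` has weight `(β j, 0, 1)`. -/
def w3 {e : ℕ} (k : ℕ) (β : Fin (e + 1) → ℕ) : Sig (m3 e) → Fin 3 → ℕ
  | ⟨0, _⟩ => ![1, 0, 0]
  | ⟨1, i⟩ => ![if i.val = 0 then 0 else k, 1, 0]
  | ⟨2, j⟩ => ![β j, 0, 1]

/-- EXW: `e + 1` forms of degree `(γ j, 1, 1)` (times powers of `p`) have a relevant common zero with
prescribed `(x_0 : x_1)`.

Proof: substitute the `x_i`; the resulting polynomials in the two groups `(s, w)` and `(y_0, ..., y_e)`
are bihomogeneous of bidegree `(p ^ s j, p ^ s j)`; apply `EXC`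
(`W762.TP.t_EXC (W338.TP.t_KEY W476.TP.t_NST)`) to `ℙ^1 × ℙ^e` with `τ 0 = 0` and `τ j = 1` for `j ≠ 0`
(trivial monic equations, e.g. `G = Polynomial.X`). -/
def S_EXW : Prop :=
  ∀ (p : ℕ) [Fact p.Prime] (Ω : Type) [Field Ω] [IsAlgClosed Ω] (e k : ℕ)
    (β : Fin (e + 1) → ℕ) (γ : Fin (e + 1) → ℕ) (s : Fin (e + 1) → ℕ)
    (H : Fin (e + 1) → MvPolynomial (Sig (m3 e)) Ω),
    (∀ j, IsWeightedHomogeneous (w3 k β) (H j) (p ^ s j • ![γ j, 1, 1])) →
    ∀ x₀ x₁ : Ω, (x₀ ≠ 0 ∨ x₁ ≠ 0) →
    ∃ y : Sig (m3 e) → Ω, Rel y ∧ y ⟨0, (0 : Fin 2)⟩ = x₀ ∧ y ⟨0, (1 : Fin 2)⟩ = x₁ ∧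
      ∀ j, eval y (H j) = 0

/-! ### Part AL: algebraic curves

`L` is a field of algebraic functions of one variable over `C`, `x` in `L` is transcendental over `C`. -/

/-- `r` is regular outside the poles of `x`: integral over `C[x]`. -/
def Reg (C : Type) {L : Type} [Field C] [Field L] [Algebra C L] (x r : L) : Prop :=
  IsIntegral (Algebra.adjoin C {x}) r

/-- LAT: reduction of a lattice (theorem of Birkhoff and Grothendieck). `M` is a module over `C[x]` and `W`
a module over `C[x⁻¹]`. There is a basis `e j` of `M` over `C[x]` and integers `a j` such that the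
`x ^ (-a j) e j` are in `W` and are a basis of `W / x⁻¹ W` over `C`, and `∑ p j (x) e j` is in
`x ^ n W` only if `deg (p j) ≤ n - a j` for all `j`.

Proof. `M` is contained in a finitely generated torsion free module over the principal ideal
domain `C[x]`, so it is free (Mathlib: `Module.basisOfFiniteTypeTorsionFree'` or
`Submodule.nonempty_basis_of_pid`), with a basis of `d` elements which is a basis of `L` over `C(x)`, by
`h5`. By `h3` there are integers `a j` with `x ^ (-a j) e j` in `W`, by `h4` all such `a j` are at least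
`1 - m₀`; choose the basis and the `a j` such that `∑ a j` is minimal.
(1) If `∑ λ_j x ^ (-a j) e_j ∈ x⁻¹ W` with `λ : Fin d → C` then `λ = 0`: otherwise choose `j₀` with
`λ_{j₀} ≠ 0` and `a j₀` maximal among these; `e' = ∑ λ_j x ^ (a j₀ - a j) e_j` can replace `e_{j₀}` in the
basis, and `x ^ (-(a j₀ - 1)) e'` is in `W`: contradiction to the minimality.
(2) If `x ^ (-n) ∑ p_j (x) e_j ∈ W` and `v = max (deg p_j + a j) > n` (over the `p_j ≠ 0`) then the
coefficients `λ_j` of degree `v - a j` of the `p_j` (not all zero) satisfy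
`∑ λ_j x ^ (-a j) e_j ∈ x⁻¹ W`, as the other terms are `x ^ (-i) x ^ (-a j) e_j` with `i > 0`.
Contradiction to (1).
(3) For `h` in `W` take `q ≠ 0` with `q(x) h = ∑ p_j (x) e_j` in `M`, and let `n = deg q`; then
`x ^ (-n) q(x) h ∈ W`, so `deg p_j ≤ n - a j` by (2). Modulo `x⁻¹ W`, `x ^ (-n) q(x) h` is the leading
coefficient of `q` times `h`, and it is `∑ λ_j x ^ (-a j) e_j` with the coefficients `λ_j` of degree
`n - a j` of the `p_j`. -/
def S_LAT : Prop :=
  ∀ (C L : Type) [Field C] [Field L] [Algebra C L] (x : L), Transcendental C x →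
    FiniteDimensional (IntermediateField.adjoin C {x}) L →
    ∀ M W : Submodule C L, (∀ h ∈ M, x * h ∈ M) → (∀ h ∈ W, x⁻¹ * h ∈ W) →
      -- h2: `M` is contained in a finitely generated module
      (∃ (N : ℕ) (b : Fin N → L), ∀ h ∈ M, ∃ q : Fin N → Polynomial C,
        h = ∑ i, Polynomial.aeval x (q i) * b i) →
      -- h3
      (∀ h ∈ M, ∃ n : ℕ, x⁻¹ ^ n * h ∈ W) →
      -- h4
      (∃ m₀ : ℕ, ∀ h ∈ M, x ^ m₀ * h ∈ W → h = 0) →
      -- h5
      (∀ h : L, ∃ q : Polynomial C, q ≠ 0 ∧ Polynomial.aeval x q * h ∈ M) →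
    ∃ (e : Fin (Module.finrank (IntermediateField.adjoin C {x}) L) → L)
      (a : Fin (Module.finrank (IntermediateField.adjoin C {x}) L) → ℤ),
      (∀ j, e j ∈ M) ∧ (∀ j, x ^ (-a j) * e j ∈ W) ∧
      (∀ h ∈ M, ∃ q : Fin (Module.finrank (IntermediateField.adjoin C {x}) L) → Polynomial C,
        h = ∑ j, Polynomial.aeval x (q j) * e j) ∧
      (∀ q : Fin (Module.finrank (IntermediateField.adjoin C {x}) L) → Polynomial C,
        ∑ j, Polynomial.aeval x (q j) * e j = 0 → q = 0) ∧
      (∀ (q : Fin (Module.finrank (IntermediateField.adjoin C {x}) L) → Polynomial C) (n : ℤ),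
        x ^ (-n) * ∑ j, Polynomial.aeval x (q j) * e j ∈ W →
          ∀ j, q j ≠ 0 → ((q j).natDegree : ℤ) ≤ n - a j) ∧
      (∀ h ∈ W, ∃ (v : Fin (Module.finrank (IntermediateField.adjoin C {x}) L) → C) (u : L),
        u ∈ W ∧ h = ∑ j, algebraMap C L (v j) * (x ^ (-a j) * e j) + x⁻¹ * u)

/-- DED: the local rings of the smooth model are valuation rings. `Rg` is the integral closure of `C[x]` in
`L`.

Proof: `A = C[x]` (`Algebra.adjoin C {x}`) is a principal ideal domain (isomorphic to `C[X]`), its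
fraction field is `IntermediateField.adjoin C {x}`, so by `integralClosure.isDedekindDomain` the
integral closure is a Dedekind domain with fraction field `L`; its localization at the kernel of `χ`
(a nonzero prime ideal, as it contains `x - c`, `c = χ x`) is a discrete valuation ring, e.g.
`IsLocalization.AtPrime.isDiscreteValuationRing_of_dedekind_domain`. -/
def S_DED : Prop :=
  ∀ (C L : Type) [Field C] [CharZero C] [Field L] [Algebra C L] (x : L), Transcendental C x →
    FiniteDimensional (IntermediateField.adjoin C {x}) L →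
    ∀ χ : (integralClosure (Algebra.adjoin C {x}) L) →+* C,
      (∀ (c : C) (r : integralClosure (Algebra.adjoin C {x}) L), (r : L) = algebraMap C L c →
        χ r = c) →
    ∀ a b : L, ∃ G H : integralClosure (Algebra.adjoin C {x}) L, χ G ≠ 0 ∧
      ((G : L) * a = H * b ∨ (G : L) * b = H * a)

/-- FIN: the integral closure of `C[x]` in `L` is contained in a finitely generated `C[x]`-module.
Proof: `IsIntegralClosure.finite` (Mathlib), separability in characteristic zero. -/
def S_FIN : Prop :=
  ∀ (C L : Type) [Field C] [CharZero C] [Field L] [Algebra C L] (x : L), Transcendental C x →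
    FiniteDimensional (IntermediateField.adjoin C {x}) L →
    ∃ (N : ℕ) (b : Fin N → L), ∀ r, Reg C x r → ∃ q : Fin N → Polynomial C,
      r = ∑ i, Polynomial.aeval x (q i) * b i

/-- INT: three elementary facts on integral elements.
(1) an element which is integral over `C[x]` becomes integral over `C[x⁻¹]` after multiplication by a
power of `x⁻¹` (divide the integral equation by a power of `x`);
(2) if `u` is integral over `C[x]` and `x u` is integral over `C[x⁻¹]` then `u = 0` (the coefficients `c_i`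
of the minimal polynomial of `u` over `C(x)` are in `C[x]`, as `C[x]` is integrally closed
(`minpoly.isIntegrallyClosed_eq_field_fractions`), and those of the minimal polynomial
of `x u`, the `x ^ i c_i`, are in `C[x⁻¹]`; so `c_i = 0` for `i > 0`);
(3) every element of `L` becomes integral over `C[x]` after multiplication by a nonzero polynomial
in `x` (`exists_integral_multiple` or similar). -/
def S_INT : Prop :=
  ∀ (C L : Type) [Field C] [Field L] [Algebra C L] (x : L), Transcendental C x →
    FiniteDimensional (IntermediateField.adjoin C {x}) L →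
    (∀ r, Reg C x r → ∃ n : ℕ, Reg C x⁻¹ (x⁻¹ ^ n * r)) ∧
    (∀ u, Reg C x u → Reg C x⁻¹ (x * u) → u = 0) ∧
    (∀ h : L, ∃ q : Polynomial C, q ≠ 0 ∧ Reg C x (Polynomial.aeval x q * h))

/-- TWO: two fibres of `x` have disjoint images. Let `f : Fin (n + 1) → L`, and let `f i₀ / f j₀` be
transcendental over `C`. There are `a ≠ b` in every given infinite subset `B` of `C` such that
for all points `χ` over `a` and `χ'` over `b` (homomorphisms from the integral closure of `C[x]` to `C`) and
for all homogeneous coordinates `v`, `v'` of the images of these points under `(f_0 : ... : f_n)` we have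
`v i₀ * v' j₀ ≠ v j₀ * v' i₀`.

Proof. `f j₀ ≠ 0`; by (3) of `S_INT` there are a nonzero polynomial `q` and `r_i` in `R` with
`q(x) f_i = r_i f_{j₀}` for all `i`. So if `q(a) ≠ 0` then `q(a) v_i = χ(r_i) v_{j₀}`, hence `v_{j₀} ≠ 0` (as
`v ≠ 0`) and `ρ = v_{i₀} / v_{j₀} = χ(r_{i₀}) / q(a)`. Let `y = f_{i₀} / f_{j₀}`. As `x` is algebraic over `C(y)`
and `y` is transcendental there is `H` in `C[T][X]` (polynomials in `X` over `C[T]`), primitive, with
`H(y, x) = 0`. For `q(a) ≠ 0` we get `H(ρ, a) = 0` (multiply `H(y, x) = 0` by `q(x) ^ deg`, and apply `χ`).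
As `H` is primitive `H(ρ, X) ≠ 0` for every `ρ` in `C`; and `H(T, a) ≠ 0` for almost all `a`. So choose
`a` in `B` with `q(a) ≠ 0`, `H(T, a) ≠ 0`, and then `b` in `B` with `q(b) ≠ 0` and `H(ρ, b) ≠ 0` for
all roots `ρ` of `H(T, a)`. -/
def S_TWO : Prop :=
  ∀ (C L : Type) [Field C] [IsAlgClosed C] [Field L] [Algebra C L] (x : L), Transcendental C x →
    FiniteDimensional (IntermediateField.adjoin C {x}) L →
    ∀ (n : ℕ) (f : Fin (n + 1) → L) (i₀ j₀ : Fin (n + 1)), Transcendental C (f i₀ / f j₀) →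
    ∀ B : Set C, B.Infinite →
    ∃ a ∈ B, ∃ b ∈ B, ∀ (χ χ' : (integralClosure (Algebra.adjoin C {x}) L) →+* C),
      (∀ (c : C) (r : integralClosure (Algebra.adjoin C {x}) L), (r : L) = algebraMap C L c →
        χ r = c ∧ χ' r = c) →
      (∀ r : integralClosure (Algebra.adjoin C {x}) L, (r : L) = x → χ r = a ∧ χ' r = b) →
      ∀ v v' : Fin (n + 1) → C, v ≠ 0 → v' ≠ 0 →
        (∀ (G H : integralClosure (Algebra.adjoin C {x}) L) (i j : Fin (n + 1)),
          (G : L) * f j = H * f i → χ G * v j = χ H * v i) →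
        (∀ (G H : integralClosure (Algebra.adjoin C {x}) L) (i j : Fin (n + 1)),
          (G : L) * f j = H * f i → χ' G * v' j = χ' H * v' i) →
        v i₀ * v' j₀ ≠ v j₀ * v' i₀

end Pool.Agent.H50F
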