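import Pool.Agent.H50F.Stm2
import Pool.Agent.Helper50R.Dim
import Pool.Agent.X271.TqOps

/-!
# Project H50F, phase 2: statements, part 2 (estimates and dimensions)
-/

set_option autoImplicit false

namespace Pool.Agent.H50F

open MvPolynomial Pool.Agent.W476.TP Pool.Agent.Y129.TA Pool.Agent.Helper50R
open Pool.Agent.Y129.TB (IsConeOver DimLEOver BaseField)

/-- COREK: the approximating system over `E = K♭` for a system over the perfectoid field `K`, for triangular
weights.

Proof: `X271.TN.approxW` (file `X271/TmApp.lean`) is the approximation lemma for arbitrary weights;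
`X271/TmMon.lean` (monic equation for `z = f(y)`) and `X271/TmKey.lean` (normalisation of the solutions) have
to be adapted from the weights `wt m` to triangular weights, as in `H50F/CoreW.lean` (where this was
done for `W515/TP/Mon.lean` and `W177/TP/PT.lean`). -/
def S_COREK : Prop :=
  ∀ (p : ℕ) [Fact p.Prime] (C F K E : Type) [Field C] [Field F] [CharP F p] [Field K] [Field E]
    [Algebra K C] [Algebra E F] [IsAlgClosed C] [IsAlgClosed F] (T : Tilting p C F),
    BaseField T K E →
    ∀ {r c n : ℕ} (m : Fin r → ℕ) (w : Sig m → Fin r → ℕ), Tri w →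
    ∀ (g : Fin c → MvPolynomial (Sig m) K) (a : Fin c → Fin r → ℕ),
      (∀ j, IsWeightedHomogeneous w (g j) (a j)) →
    ∀ (f : Fin (n + 1) → MvPolynomial (Sig m) K) (D : Fin r → ℕ),
      (∀ i, IsWeightedHomogeneous w (f i) D) →
      (∀ i α, T.absK (algebraMap K C ((f i).coeff α)) ≤ 1) → D ≠ 0 →
    ∀ δ : ℝ, 0 < δ →
    ∃ (H : Fin c → MvPolynomial (Sig m) E) (s : Fin c → ℕ)
      (G : Fin (n + 1) → Polynomial (MvPolynomial (Sig m) E)) (t : Fin (n + 1) → ℕ),
      (∀ j, IsWeightedHomogeneous w (H j) (p ^ s j • a j)) ∧ (∀ i, MonicW w D (G i) (t i)) ∧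
      ∀ (y : Sig m → F) (z : Fin (n + 1) → F), Rel y →
        (∀ j, eval y (MvPolynomial.map (algebraMap E F) (H j)) = 0) →
        (∀ i, ev ((G i).map (MvPolynomial.map (algebraMap E F))) y (z i) = 0) →
        ∃ lam : Fin r → F, (∀ κ, lam κ ≠ 0) ∧ (∀ i, T.absF (act w lam y i) ≤ 1) ∧
          (∀ κ, ∃ i, T.absF (act w lam y ⟨κ, i⟩) = 1) ∧
          (∀ i, T.absF (sp lam D * z i) ≤ 1) ∧
          (∀ j, T.absK (aeval (fun i => T.sharp (act w lam y i)) (g j)) ≤ δ) ∧
          ∀ i, T.absK (T.sharp (sp lam D * z i) -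
            aeval (fun i => T.sharp (act w lam y i)) (f i)) ≤ δ

/-- DGE: the zero set over `F` of the homogeneous ideal of a point `z` over `Ω` whose ratios are not all
algebraic has dimension at least one.

Proof: `ρ = z i / z j` is transcendental over `E` and `Ω` is algebraic over `E(ρ)` (`trdeg ≤ 1`). Let `Ω'` be
the algebraic closure of `F(T)`. The embedding `E(ρ) → F(T)`, `ρ ↦ T`, extends to `φ : Ω → Ω'`. Let
`P` be the kernel of `Phi (φ ∘ z)` on `MvPolynomial (Fin (n + 1)) F`; it is prime and contains the ideal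
`I` generated by the kernel of `Phi z`, and the classes of `X i`, `X j` in the quotient are
algebraically independent over `F` (see the proof of `krull_eq_two` in `H50F/Gen1.lean`). Now apply
`R388.TP.dimGE_of_algInd'` (file `R388/TP/Kummer.lean`). -/
def S_DGE : Prop :=
  ∀ (E F Ω : Type) [Field E] [Field F] [IsAlgClosed F] [Algebra E F] [Field Ω] [Algebra E Ω],
    Algebra.trdeg E Ω ≤ 1 → ∀ (n : ℕ) (z : Fin (n + 1) → Ω),
    (∃ i j, Transcendental E (z i / z j)) →
    DimGE {v : Fin (n + 1) → F | ∀ P ∈ RingHom.ker (Phi (K := E) z), aeval v P = 0} 1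

/-- XDIM: the closed curve `X` with the generic point `f` has dimension at most one.

Proof. Let `𝔭` be the kernel of `Phi f`, a homogeneous prime ideal, and `ringKrullDim (K[z] / 𝔭) ≤ 2` by
`krull_le_two`. Choose `j` with `f j ≠ 0` (if `f = 0` then `𝔭` is the ideal of the origin) and let `𝔮_l`
be the minimal primes of `𝔭 + (X j)`. As `K` is infinite there is a linear form `ℓ` over `K` which is in
none of the `𝔮_l ≠ 𝔪 = (X 0, ..., X n)` (a vector space over an infinite field is not a finite union of
proper subspaces). Let `v` be in `X`, `v ≠ 0`, `v j = 0`, `ℓ(v) = 0`. The kernel `Q` of `Phi v` (for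
`K → C`) contains `𝔭`, `X j` and `ℓ`, and it is prime and properly contained in `𝔪`. It contains some
`𝔮_l`, and `𝔮_l ≠ 𝔪`, so `𝔭 < 𝔮_l < Q < 𝔪` is a chain of length three: contradiction. So `X j` and `ℓ`
have no common zero on `X`. -/
def S_XDIM : Prop :=
  ∀ (K C L : Type) [Field K] [Infinite K] [Field C] [Algebra K C] [Field L] [Algebra K L],
    Algebra.trdeg K L ≤ 1 → ∀ (n : ℕ) (f : Fin (n + 1) → L),
    DimLEOver K {v : Fin (n + 1) → C | ∀ P ∈ RingHom.ker (Phi (K := K) f), aeval v P = 0} 1

end Pool.Agent.H50F
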