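import Pool.Agent.H50F.Stm2

/-!
# Project H50F, phase 2: statements, part 3 (assembly of the algebraic part)
-/

set_option autoImplicit false

namespace Pool.Agent.H50F

open MvPolynomial Pool.Agent.W476.TP

section defs

variable {K L : Type} [Field K] [Field L] [Algebra K L]

/-- The `R`-module generated by the `f i`. -/
def MR (R : Subalgebra K L) {n : ℕ} (f : Fin (n + 1) → L) : Submodule K L where
  carrier := {h | ∃ r : Fin (n + 1) → L, (∀ i, r i ∈ R) ∧ h = ∑ i, r i * f i}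
  add_mem' := by
    rintro h h' ⟨r, hr, rfl⟩ ⟨r', hr', rfl⟩
    refine ⟨fun i => r i + r' i, fun i => R.add_mem (hr i) (hr' i), ?_⟩
    rw [← Finset.sum_add_distrib]
    exact Finset.sum_congr rfl fun i _ => (add_mul _ _ _).symm
  zero_mem' := ⟨fun _ => 0, fun _ => R.zero_mem, by simp⟩
  smul_mem' := by
    rintro l h ⟨r, hr, rfl⟩
    refine ⟨fun i => algebraMap K L l * r i, fun i => R.mul_mem (R.algebraMap_mem l) (hr i), ?_⟩
    rw [Algebra.smul_def, Finset.mul_sum]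
    exact Finset.sum_congr rfl fun i _ => (mul_assoc _ _ _).symm

/-- The elements `h` of `M` with `t h` in `M`. -/
def NR (t : L) (M : Submodule K L) : Submodule K L where
  carrier := {h | h ∈ M ∧ t * h ∈ M}
  add_mem' := by
    rintro h h' ⟨h1, h2⟩ ⟨h3, h4⟩
    refine ⟨M.add_mem h1 h3, ?_⟩
    rw [mul_add]
    exact M.add_mem h2 h4
  zero_mem' := ⟨M.zero_mem, by rw [mul_zero]; exact M.zero_mem⟩
  smul_mem' := by
    rintro l h ⟨h1, h2⟩
    refine ⟨M.smul_mem l h1, ?_⟩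
    rw [mul_smul_comm]
    exact M.smul_mem l h2

/-- The conclusion of `S_LAT`: a reduced basis of the `K[x]`-module `M` with respect to `W`. -/
structure Lat (K : Type) {L : Type} [Field K] [Field L] [Algebra K L] (x : L)
    (M W : Submodule K L) {d : ℕ} (e : Fin d → L) (a : Fin d → ℤ) : Prop where
  mem : ∀ j, e j ∈ M
  memW : ∀ j, x ^ (-a j) * e j ∈ W
  gen : ∀ h ∈ M, ∃ q : Fin d → Polynomial K, h = ∑ j, Polynomial.aeval x (q j) * e j
  ind : ∀ q : Fin d → Polynomial K, ∑ j, Polynomial.aeval x (q j) * e j = 0 → q = 0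
  deg : ∀ (q : Fin d → Polynomial K) (n : ℤ), x ^ (-n) * ∑ j, Polynomial.aeval x (q j) * e j ∈ W →
    ∀ j, q j ≠ 0 → ((q j).natDegree : ℤ) ≤ n - a j
  inf : ∀ h ∈ W, ∃ (v : Fin d → K) (u : L), u ∈ W ∧
    h = ∑ j, algebraMap K L (v j) * (x ^ (-a j) * e j) + x⁻¹ * u

/-- The coefficient of degree `m`, an integer. -/
def cz {K : Type} [Field K] (q : Polynomial K) (m : ℤ) : K := if 0 ≤ m then q.coeff m.toNat else 0

end defs

/-- LATM: reduced bases of the module of the sections `M` and of the module `N` of the `h` in `M` with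
`t h` in `M`, both of length `[L : K(x)]`.

Proof: the hypotheses of `S_LAT` (proved: `t_LAT` in `LAT.lean`). For `M = MR (RR K x t) f`,
`W = MR (RR K x⁻¹ (t * x⁻¹ ^ k)) f`: `x` is in `RR K x t`. h2: the elements of `RR K x t` are integral
(`S_RINT`), so they lie in a finitely generated module (`t_FIN : S_FIN` in `DED.lean`); multiply its
generators by the `f i`. h3: `S_RSHIFT` for the coefficients `r i`. h5: choose `f l ≠ 0`, and apply
`S_RFRAC` to `h / f l`. h4: there are nonzero `g`, `g'` in `K[X]` such that all `g(x) f i` are integral over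
`K[x]` and all `g'(x⁻¹) f i` integral over `K[x⁻¹]` (`t_INT`, part 3, for `x` and for `x⁻¹`). Let
`m₀ = 1 + deg g + deg g'`, `h` in `M` and `x ^ m₀ h` in `W`. Then `u = g(x) (x ^ (deg g') g'(x⁻¹)) h` is
integral over `K[x]`, and `x u` is integral over `K[x⁻¹]`, because it is the product of
`x ^ (-deg g) g(x)` and `g'(x⁻¹) (x ^ m₀ h)`; so `u = 0` by `t_INT`, part 2, and `h = 0`.
For `N = NR t M` and `NR (t * x⁻¹ ^ k) W`: h2 and h4 follow from `N ≤ M` and `NR .. W ≤ W`; h3: apply h3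
for `M` to `h` and to `t h`; h5: apply h5 for `M` to `h` and `t h` and multiply. -/
def S_LATM : Prop :=
  ∀ (K L : Type) [Field K] [CharZero K] [Field L] [Algebra K L] (x t : L) (k : ℕ),
    Transcendental K x → FiniteDimensional (IntermediateField.adjoin K {x}) L →
    IntermediateField.adjoin K {x, t} = ⊤ → ∀ (n : ℕ) (f : Fin (n + 1) → L), f ≠ 0 →
    ∃ (e h : Fin (Module.finrank (IntermediateField.adjoin K {x}) L) → L)
      (a b : Fin (Module.finrank (IntermediateField.adjoin K {x}) L) → ℤ),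
      Lat K x (MR (RR K x t) f) (MR (RR K x⁻¹ (t * x⁻¹ ^ k)) f) e a ∧
      Lat K x (NR t (MR (RR K x t) f))
        (NR (t * x⁻¹ ^ k) (MR (RR K x⁻¹ (t * x⁻¹ ^ k)) f)) h b

/-- FIBF: functionals on the fibre at `x = c`. Proof: `q ↦ ∑ aeval x (q j) * e j` is an injective `K`-linear
map `Fin d → K[X]` to `L` (`ind`), so it has a `K`-linear left inverse
(`LinearMap.exists_leftInverse_of_injective`); compose it with `q ↦ ∑ aeval c (q j) * y' j`. -/
def S_FIBF : Prop :=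
  ∀ (K C L : Type) [Field K] [Field C] [Algebra K C] [Field L] [Algebra K L] (x : L)
    (M W : Submodule K L) (d : ℕ) (e : Fin d → L) (a : Fin d → ℤ), Lat K x M W e a →
    ∀ (c : C) (y' : Fin d → C), ∃ y : L →ₗ[K] C, ∀ q : Fin d → Polynomial K,
      y (∑ j, Polynomial.aeval x (q j) * e j) = ∑ j, Polynomial.aeval c (q j) * y' j

/-- FIBI: functionals on the fibre at `x = ∞`. Proof. (1) If `∑ λ_j x ^ (-a j) e_j = x⁻¹ u` with `u ∈ W` then
`λ = 0`: otherwise let `v` be the maximum of the `a j` with `λ_j ≠ 0` and apply `deg` to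
`q j = C (λ_j) X ^ (v - a j)` and `n = v - 1`. So the classes of the `x ^ (-a j) e_j` in
`L / x⁻¹ W` are linearly independent over `K`, and there is a `K`-linear `y` with values `y' j` on them
which vanishes on `x⁻¹ W`. (2) For `x ^ (-n) ∑ q_j (x) e_j ∈ W`: by `deg` we have
`x ^ (-n) q_j (x) e_j = (x ^ (-(n - a j)) q_j (x)) x ^ (-a j) e_j`, and `x ^ (-m) q (x)`, `deg q ≤ m`, is the
coefficient of degree `m` plus a linear combination of the `x ^ (-i)`, `0 < i`. -/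
def S_FIBI : Prop :=
  ∀ (K C L : Type) [Field K] [Field C] [Algebra K C] [Field L] [Algebra K L] (x : L), x ≠ 0 →
    ∀ (M W : Submodule K L), (∀ h ∈ W, x⁻¹ * h ∈ W) →
    ∀ (d : ℕ) (e : Fin d → L) (a : Fin d → ℤ), Lat K x M W e a →
    ∀ y' : Fin d → C, ∃ y : L →ₗ[K] C, (∀ u ∈ W, y (x⁻¹ * u) = 0) ∧
      ∀ (q : Fin d → Polynomial K) (n : ℤ), x ^ (-n) * ∑ j, Polynomial.aeval x (q j) * e j ∈ W →
        y (x ^ (-n) * ∑ j, Polynomial.aeval x (q j) * e j) =
          ∑ j, algebraMap K C (cz (q j) (n - a j)) * y' j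

/-- POLY: the system of equations. Proof: choose a natural number `N` with `N + a j ≥ 0` and
`N + k + b i ≥ 0` for all `i`, `j`; `β j = N + a j`, `γ i = N + k + b i`, `D = N`. For a polynomial `q` and a
natural number `m` let `Hm m q = ∑_{i ≤ m} q_i x_0 ^ (m - i) x_1 ^ i`, a form of weight `(m, 0, 0)`, and put
`g i = ∑_j (s * Hm (b i + k - a j).toNat (B i j) - w * Hm (b i - a j).toNat (A i j)) * y_j`,
`F l = ∑_j Hm (-a j).toNat (Fp l j) * y_j` (the terms with `q = 0` vanish, so `toNat` does no harm; `s`, `w`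
are the coordinates `(1, 0)`, `(1, 1)` and `y_j` is `(2, j)`). If `x_0 ≠ 0`, `c = x_1 / x_0`, then
`Hm m q = x_0 ^ m q(c)` for `deg q ≤ m`; take `s₀ = x_0 ^ k s`, `w₀ = w`, `y'_j = x_0 ^ (-a j) y_j`
(integer powers); then `g i = x_0 ^ (b i) ∑_j (s₀ B_ij(c) - w₀ A_ij(c)) y'_j`. If `x_0 = 0` then `x_1 ≠ 0`,
`Hm m q = x_1 ^ m q_m`; take `s₀ = x_1 ^ k s`, `w₀ = w`, `y'_j = x_1 ^ (-a j) y_j`. -/
def S_POLY : Prop :=
  ∀ (K C : Type) [Field K] [Field C] [Algebra K C] (e k n : ℕ) (a b : Fin (e + 1) → ℤ)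
    (A B : Fin (e + 1) → Fin (e + 1) → Polynomial K)
    (Fp : Fin (n + 1) → Fin (e + 1) → Polynomial K),
    (∀ i j, A i j ≠ 0 → ((A i j).natDegree : ℤ) ≤ b i - a j) →
    (∀ i j, B i j ≠ 0 → ((B i j).natDegree : ℤ) ≤ b i + k - a j) →
    (∀ l j, Fp l j ≠ 0 → ((Fp l j).natDegree : ℤ) ≤ - a j) →
    ∃ (β γ : Fin (e + 1) → ℕ) (D : ℕ) (g : Fin (e + 1) → MvPolynomial (Sig (m3 e)) K)
      (F : Fin (n + 1) → MvPolynomial (Sig (m3 e)) K),
      (∀ i, IsWeightedHomogeneous (w3 k β) (g i) ![γ i, 1, 1]) ∧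
      (∀ l, IsWeightedHomogeneous (w3 k β) (F l) ![D, 0, 1]) ∧
      ∀ y : Sig (m3 e) → C, Rel y → (∀ i, aeval y (g i) = 0) →
        (y ⟨0, (0 : Fin 2)⟩ ≠ 0 → ∃ (s₀ w₀ : C) (y' : Fin (e + 1) → C), (s₀ ≠ 0 ∨ w₀ ≠ 0) ∧ y' ≠ 0 ∧
          (∀ i, ∑ j, (s₀ * Polynomial.aeval (y ⟨0, (1 : Fin 2)⟩ / y ⟨0, (0 : Fin 2)⟩) (B i j) -
            w₀ * Polynomial.aeval (y ⟨0, (1 : Fin 2)⟩ / y ⟨0, (0 : Fin 2)⟩) (A i j)) * y' j = 0) ∧
          ∀ l, aeval y (F l) =
            ∑ j, Polynomial.aeval (y ⟨0, (1 : Fin 2)⟩ / y ⟨0, (0 : Fin 2)⟩) (Fp l j) * y' j) ∧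
        (y ⟨0, (0 : Fin 2)⟩ = 0 → ∃ (s₀ w₀ : C) (y' : Fin (e + 1) → C), (s₀ ≠ 0 ∨ w₀ ≠ 0) ∧ y' ≠ 0 ∧
          (∀ i, ∑ j, (s₀ * algebraMap K C (cz (B i j) (b i + k - a j)) -
            w₀ * algebraMap K C (cz (A i j) (b i - a j))) * y' j = 0) ∧
          ∀ l, aeval y (F l) = ∑ j, algebraMap K C (cz (Fp l j) (- a j)) * y' j)

end Pool.Agent.H50F
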