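import Pool.Agent.H50F.INT

/-!
# Project H50F, piece TWO: two fibres of `x` have disjoint images
-/

set_option autoImplicit false

namespace Pool.Agent.H50F

namespace Tw

open Polynomial

variable {C L : Type} [Field C] [Field L] [Algebra C L]

/-- `C[X] → C[x]` -/
noncomputable def psi (x : L) : C[X] →+* Algebra.adjoin C {x} :=
  (aeval (⟨x, Algebra.self_mem_adjoin_singleton C x⟩ : Algebra.adjoin C {x})).toRingHom

/-- `C[X] → R` -/
noncomputable def phi (x : L) : C[X] →+* integralClosure (Algebra.adjoin C {x}) L :=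
  (algebraMap (Algebra.adjoin C {x}) (integralClosure (Algebra.adjoin C {x}) L)).comp (psi x)

theorem psi_coe (x : L) (p : C[X]) : ((psi x p : Algebra.adjoin C {x}) : L) = aeval x p := by
  show ((aeval (⟨x, Algebra.self_mem_adjoin_singleton C x⟩ : Algebra.adjoin C {x}) p :
    Algebra.adjoin C {x}) : L) = aeval x p
  exact (aeval_subalgebra_coe p (Algebra.adjoin C {x}) ⟨x, _⟩)

theorem psi_surj (x : L) : Function.Surjective (psi x : C[X] →+* Algebra.adjoin C {x}) := by
  intro a
  obtain ⟨q, hq⟩ := In.mem_adj.1 a.2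
  exact ⟨q, Subtype.ext ((psi_coe x q).trans hq.symm)⟩

theorem phi_coe (x : L) (p : C[X]) :
    ((phi x p : integralClosure (Algebra.adjoin C {x}) L) : L) = aeval x p := psi_coe x p

theorem chi_phi {x : L} (χ : (integralClosure (Algebra.adjoin C {x}) L) →+* C) {a : C}
    (h1 : ∀ (c : C) (r : integralClosure (Algebra.adjoin C {x}) L), (r : L) = algebraMap C L c →
      χ r = c)
    (h2 : ∀ r : integralClosure (Algebra.adjoin C {x}) L, (r : L) = x → χ r = a) (p : C[X]) :
    χ (phi x p) = p.eval a := by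
  have h : χ.comp (phi x) = evalRingHom a := by
    apply Polynomial.ringHom_ext
    · intro c
      rw [RingHom.comp_apply, coe_evalRingHom, eval_C]
      apply h1
      rw [phi_coe, aeval_C]
    · rw [RingHom.comp_apply, coe_evalRingHom, eval_X]
      apply h2
      rw [phi_coe, aeval_X]
  exact DFunLike.congr_fun h p

/-- the finite set of values over `a` -/
theorem fin_val {x : L} (r : integralClosure (Algebra.adjoin C {x}) L) (a : C) :
    ∃ s : Finset C, ∀ χ : (integralClosure (Algebra.adjoin C {x}) L) →+* C,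
      (∀ p : C[X], χ (phi x p) = p.eval a) → χ r ∈ s := by
  obtain ⟨P, hP, hr⟩ : IsIntegral (Algebra.adjoin C {x}) (r : L) := r.2
  obtain ⟨P', h1, -, h3⟩ := Polynomial.lifts_and_natDegree_eq_and_monic
    (f := psi x) ((Polynomial.lifts_iff_coeff_lifts P).2 fun i => psi_surj x _) hP
  have h4 : eval₂ (phi x) r P' = 0 := by
    apply Subtype.ext
    have h5 : ((eval₂ (phi x) r P' : integralClosure (Algebra.adjoin C {x}) L) : L) =
        eval₂ (algebraMap (Algebra.adjoin C {x}) L) (r : L) P := by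
      rw [← h1, eval₂_map]
      exact hom_eval₂ P' (phi x) (algebraMap (integralClosure (Algebra.adjoin C {x}) L) L) r
    rw [h5, hr]
    rfl
  classical
  refine ⟨(P'.map (evalRingHom a)).roots.toFinset, fun χ hχ => ?_⟩
  rw [Multiset.mem_toFinset, mem_roots (h3.map _).ne_zero, IsRoot.def, eval_map]
  have h5 := congrArg χ h4
  rw [hom_eval₂, map_zero] at h5
  have h6 : χ.comp (phi x) = evalRingHom a := RingHom.ext fun p => hχ p
  rw [← h6]
  exact h5

theorem main {x : L} (hx : Transcendental C x)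
    (hI : ∀ h : L, ∃ q : Polynomial C, q ≠ 0 ∧ Reg C x (Polynomial.aeval x q * h))
    (n : ℕ) (f : Fin (n + 1) → L) (i₀ j₀ : Fin (n + 1)) (hf : Transcendental C (f i₀ / f j₀))
    (B : Set C) (hB : B.Infinite) :
    ∃ a ∈ B, ∃ b ∈ B, ∀ (χ χ' : (integralClosure (Algebra.adjoin C {x}) L) →+* C),
      (∀ (c : C) (r : integralClosure (Algebra.adjoin C {x}) L), (r : L) = algebraMap C L c →
        χ r = c ∧ χ' r = c) →
      (∀ r : integralClosure (Algebra.adjoin C {x}) L, (r : L) = x → χ r = a ∧ χ' r = b) →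
      ∀ v v' : Fin (n + 1) → C, v ≠ 0 → v' ≠ 0 →
        (∀ (G H : integralClosure (Algebra.adjoin C {x}) L) (i j : Fin (n + 1)),
          (G : L) * f j = H * f i → χ G * v j = χ H * v i) →
        (∀ (G H : integralClosure (Algebra.adjoin C {x}) L) (i j : Fin (n + 1)),
          (G : L) * f j = H * f i → χ' G * v' j = χ' H * v' i) →
        v i₀ * v' j₀ ≠ v j₀ * v' i₀ := by
  classical
  have hfj : f j₀ ≠ 0 := by
    intro h
    rw [h, div_zero] at hf
    exact hf isAlgebraic_zero
  -- a common denominator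
  have h1 := fun i => hI (f i / f j₀)
  choose q hq0 hq using h1
  obtain ⟨Q, hQ⟩ : ∃ Q : C[X], Q = ∏ i, q i := ⟨_, rfl⟩
  have hQ0 : Q ≠ 0 := by
    rw [hQ]
    exact Finset.prod_ne_zero_iff.2 fun i _ => hq0 i
  have hr : ∀ i, ∃ r : integralClosure (Algebra.adjoin C {x}) L,
      ((phi x Q : integralClosure (Algebra.adjoin C {x}) L) : L) * f i = r * f j₀ := by
    intro i
    obtain ⟨g, hg⟩ : q i ∣ Q := by
      rw [hQ]
      exact Finset.dvd_prod_of_mem q (Finset.mem_univ i)
    refine ⟨phi x g * ⟨aeval x (q i) * (f i / f j₀), hq i⟩, ?_⟩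
    rw [phi_coe, hg, map_mul]
    have : ((phi x g * ⟨aeval x (q i) * (f i / f j₀), hq i⟩ :
      integralClosure (Algebra.adjoin C {x}) L) : L) = aeval x g * (aeval x (q i) *
        (f i / f j₀)) := by
      rw [← phi_coe x g]
      rfl
    rw [this]
    field_simp
  choose r hr using hr
  -- the value at a point
  have key : ∀ (a : C) (χ : (integralClosure (Algebra.adjoin C {x}) L) →+* C),
      (∀ p : C[X], χ (phi x p) = p.eval a) → Q.eval a ≠ 0 → ∀ v : Fin (n + 1) → C, v ≠ 0 →
        (∀ (G H : integralClosure (Algebra.adjoin C {x}) L) (i j : Fin (n + 1)),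
          (G : L) * f j = H * f i → χ G * v j = χ H * v i) →
        v j₀ ≠ 0 ∧ Q.eval a * v i₀ = χ (r i₀) * v j₀ := by
    intro a χ hχ ha v hv hc
    have h2 : ∀ i, Q.eval a * v i = χ (r i) * v j₀ := by
      intro i
      have := hc (phi x Q) (r i) j₀ i (hr i)
      rwa [hχ] at this
    refine ⟨fun h => hv ?_, h2 i₀⟩
    funext i
    have h3 := h2 i
    rw [h, mul_zero] at h3
    exact (mul_eq_zero.1 h3).resolve_left ha
  -- the functions `y - ρ`
  have hs : ∀ ρ : C, ∃ (c : C[X]) (g : integralClosure (Algebra.adjoin C {x}) L), c ≠ 0 ∧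
      g * (r i₀ - phi x (Polynomial.C ρ) * phi x Q) = phi x c := by
    intro ρ
    have h2 : ((r i₀ - phi x (Polynomial.C ρ) * phi x Q :
        integralClosure (Algebra.adjoin C {x}) L) : L) ≠ 0 := by
      intro h
      have h3 : (r i₀ : L) = algebraMap C L ρ * aeval x Q := by
        have h4 : ((r i₀ - phi x (Polynomial.C ρ) * phi x Q :
          integralClosure (Algebra.adjoin C {x}) L) : L) = (r i₀ : L) -
            algebraMap C L ρ * aeval x Q := by
          rw [← phi_coe x Q, ← aeval_C (A := L) x ρ, ← phi_coe x (Polynomial.C ρ)]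
          rfl
        rw [h4] at h
        exact sub_eq_zero.1 h
      have h4 := hr i₀
      rw [h3, phi_coe] at h4
      by_cases h5 : aeval x Q = 0
      · exact absurd (transcendental_iff.1 hx Q h5) hQ0
      · have h6 : f i₀ = algebraMap C L ρ * f j₀ := by
          have : aeval x Q * f i₀ = aeval x Q * (algebraMap C L ρ * f j₀) := by
            rw [h4]
            ring
          exact mul_left_cancel₀ h5 this
        apply hf
        rw [h6, mul_div_cancel_right₀ _ hfj]
        exact isAlgebraic_algebraMap ρ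
    obtain ⟨c, hc0, hc⟩ := hI ((r i₀ - phi x (Polynomial.C ρ) * phi x Q :
        integralClosure (Algebra.adjoin C {x}) L) : L)⁻¹
    refine ⟨c, ⟨_, hc⟩, hc0, Subtype.ext ?_⟩
    rw [phi_coe]
    show (aeval x c * ((r i₀ - phi x (Polynomial.C ρ) * phi x Q :
        integralClosure (Algebra.adjoin C {x}) L) : L)⁻¹) * ((r i₀ - phi x (Polynomial.C ρ) *
        phi x Q : integralClosure (Algebra.adjoin C {x}) L) : L) = aeval x c
    rw [mul_assoc, inv_mul_cancel₀ h2, mul_one]
  choose c g hc0 hcg using hs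
  -- the choice of `a`
  obtain ⟨a, haB, ha⟩ : ∃ a ∈ B, Q.eval a ≠ 0 := by
    obtain ⟨a, haB, ha⟩ := (hB.diff (Q.roots.toFinset.finite_toSet)).nonempty
    refine ⟨a, haB, fun h => ha ?_⟩
    rw [Finset.mem_coe, Multiset.mem_toFinset, mem_roots hQ0]
    exact h
  obtain ⟨s, hs⟩ := fin_val (r i₀) a
  -- the choice of `b`
  obtain ⟨W, hW⟩ : ∃ W : C[X], W = Q * ∏ t ∈ s, c (t / Q.eval a) := ⟨_, rfl⟩
  have hW0 : W ≠ 0 := by
    rw [hW]
    exact mul_ne_zero hQ0 (Finset.prod_ne_zero_iff.2 fun t _ => hc0 _)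
  obtain ⟨b, hbB, hb⟩ : ∃ b ∈ B, W.eval b ≠ 0 := by
    obtain ⟨a, haB, ha⟩ := (hB.diff (W.roots.toFinset.finite_toSet)).nonempty
    refine ⟨a, haB, fun h => ha ?_⟩
    rw [Finset.mem_coe, Multiset.mem_toFinset, mem_roots hW0]
    exact h
  rw [hW, eval_mul, eval_prod] at hb
  have hbQ : Q.eval b ≠ 0 := left_ne_zero_of_mul hb
  have hbc := Finset.prod_ne_zero_iff.1 (right_ne_zero_of_mul hb)
  refine ⟨a, haB, b, hbB, fun χ χ' h1 h2 v v' hv hv' h3 h4 h5 => ?_⟩
  have hχ := chi_phi χ (fun c r h => (h1 c r h).1) (fun r h => (h2 r h).1)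
  have hχ' := chi_phi χ' (fun c r h => (h1 c r h).2) (fun r h => (h2 r h).2)
  obtain ⟨k1, k2⟩ := key a χ hχ ha v hv h3
  obtain ⟨k3, k4⟩ := key b χ' hχ' hbQ v' hv' h4
  -- equal values
  have h6 : χ' (r i₀) = χ (r i₀) / Q.eval a * Q.eval b := by
    have h7 : χ (r i₀) * v j₀ * v' j₀ * Q.eval b = Q.eval a * v j₀ * (χ' (r i₀) * v' j₀) := by
      rw [← k2, ← k4]
      calc Q.eval a * v i₀ * v' j₀ * Q.eval b = Q.eval a * (v i₀ * v' j₀) * Q.eval b := by ring
        _ = Q.eval a * (v j₀ * v' i₀) * Q.eval b := by rw [h5]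
        _ = _ := by ring
    have h8 : χ (r i₀) * Q.eval b = Q.eval a * χ' (r i₀) := by
      have h9 : v j₀ * v' j₀ ≠ 0 := mul_ne_zero k1 k3
      apply mul_left_cancel₀ h9
      linear_combination h7
    rw [div_mul_eq_mul_div, eq_div_iff ha, h8]
    ring
  have h7 := congrArg χ' (hcg (χ (r i₀) / Q.eval a))
  rw [map_mul, map_sub, map_mul, hχ', hχ', hχ', eval_C, h6, sub_self, mul_zero] at h7
  exact hbc _ (hs χ hχ) h7.symm

end Tw

theorem t_TWO : S_TWO := by
  intro C L _ _ _ _ x hx hfd n f i₀ j₀ hf B hB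
  exact Tw.main hx (t_INT C L x hx hfd).2.2 n f i₀ j₀ hf B hB

end Pool.Agent.H50F
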